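import Pool.Agent.H356R3.LV.Defs
set_option autoImplicit false
open MeasureTheory Set Filter Topology Complex InnerProductSpace
namespace Pool.Agent.H356R3.LV

namespace BDDL

theorem transl (f : ℂ → ℝ) (a x : ℂ) (h : HarmonicAt f (x + a)) :
    HarmonicAt (fun z => f (z + a)) x := by
  refine ⟨?_, ?_⟩
  · exact ContDiffAt.comp x h.1 (by fun_prop)
  · have h1 : ∀ z, Laplacian.laplacian (fun z => f (z + a)) z = Laplacian.laplacian f (z + a) := by
      intro z
      rw [laplacian_eq_iteratedFDeriv_complexPlane, laplacian_eq_iteratedFDeriv_complexPlane]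
      simp only [iteratedFDeriv_comp_add_right]
    have h2 : Tendsto (fun z : ℂ => z + a) (𝓝 x) (𝓝 (x + a)) := by
      exact (continuous_id.add continuous_const).tendsto x
    have h3 := h2.eventually h.2
    filter_upwards [h3] with z hz
    rw [h1]
    exact hz

theorem nonneg {E : Set ℝ} {U : ℂ → ℝ} (hU : IsU E U) (z : ℂ) : 0 ≤ U z := by
  by_cases hz : z ∈ (fun x : ℝ => (x : ℂ)) '' E
  · obtain ⟨x, hx, rfl⟩ := hz
    exact (hU.zero x hx).ge
  · exact (hU.pos z hz).le

theorem harmU {E : Set ℝ} {U : ℂ → ℝ} (hU : IsU E U) : HarmonicOnNhd U {z : ℂ | 0 < z.im} := by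
  apply hU.harm.mono
  rintro z hz ⟨x, _, rfl⟩
  simp at hz

theorem harmShift {E : Set ℝ} {U : ℂ → ℝ} (hU : IsU E U) (B : ℝ) (hB : 0 ≤ B) :
    HarmonicOnNhd (fun z => U (z + B * I)) {z : ℂ | 0 < z.im} := by
  intro z hz
  apply transl
  apply harmU hU
  show 0 < (z + B * I).im
  have : 0 < z.im := hz
  simp
  linarith

theorem normShift {E : Set ℝ} {U : ℂ → ℝ} (hU : IsU E U) (B : ℝ) (hB : 0 ≤ B) :
    Tendsto (fun y : ℝ => U (y * I + B * I) / y) atTop (𝓝 1) := by
  have h1 : Tendsto (fun y : ℝ => U (((y + B : ℝ) : ℂ) * I) / (y + B)) atTop (𝓝 1) :=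
    hU.norm.comp (tendsto_atTop_add_const_right _ _ tendsto_id)
  have h2 : Tendsto (fun y : ℝ => (y + B) / y) atTop (𝓝 1) := by
    have h3 : Tendsto (fun y : ℝ => 1 + B * y⁻¹) atTop (𝓝 (1 + B * 0)) :=
      (tendsto_const_nhds).add (tendsto_inv_atTop_zero.const_mul B)
    rw [mul_zero, add_zero] at h3
    refine h3.congr' ?_
    filter_upwards [eventually_gt_atTop 0] with y hy
    field_simp
  have h4 := h1.mul h2
  rw [mul_one] at h4
  refine h4.congr' ?_
  filter_upwards [eventually_gt_atTop 0] with y hy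
  have : y + B ≠ 0 := by positivity
  push_cast
  rw [add_mul]
  field_simp

theorem one_HG (hHG : S_HG) (x y : ℝ) (hy : 0 < y) :
    Integrable (fun t : ℝ => PK y (x - t)) ∧ ∫ t : ℝ, PK y (x - t) = 1 := by
  have h := hHG (fun z => z.im + 1) (by fun_prop) (fun z hz => by linarith [hz]) (by
    have h1 : HarmonicOnNhd (fun z : ℂ => z.im) {z : ℂ | 0 < z.im} := by
      intro z _
      exact (analyticAt_id (𝕜 := ℂ) (z := z)).harmonicAt_im
    exact h1.add (harmonicOnNhd_const (1:ℝ))) (by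
    have h3 : Tendsto (fun y : ℝ => 1 + y⁻¹) atTop (𝓝 (1 + 0)) :=
      (tendsto_const_nhds).add tendsto_inv_atTop_zero
    rw [add_zero] at h3
    refine h3.congr' ?_
    filter_upwards [eventually_gt_atTop 0] with y hy
    simp
    field_simp)
  obtain ⟨_, h2, h3⟩ := h
  have h4 := h2 x y hy
  have h5 := h3 x y hy
  simp at h4 h5
  refine ⟨h4, by linarith⟩

theorem PK_nonneg (y t : ℝ) (hy : 0 < y) : 0 ≤ PK y t := by
  unfold PK
  positivity

theorem PK_lower (y t : ℝ) (hy1 : 1 ≤ y) (hy2 : y ≤ 2) (ht : |t| ≤ 5 / 2) : 1 / 25 ≤ PK y t := by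
  unfold PK
  have hpi := Real.pi_lt_d2
  have hpi0 := Real.pi_pos
  have ht2 : t ^ 2 ≤ 25 / 4 := by
    rw [← sq_abs]
    nlinarith [abs_nonneg t]
  rw [div_le_div_iff₀ (by norm_num) (by positivity), one_mul]
  have h1 : Real.pi * (t ^ 2 + y ^ 2) ≤ 3.15 * (25 / 4 + y ^ 2) := by
    apply mul_le_mul hpi.le (by linarith) (by positivity) (by norm_num)
  nlinarith

theorem PKw (hHG : S_HG) (hHK : S_HK) {E : Set ℝ} {U : ℂ → ℝ} (hE : IsClosed E) (hU : IsU E U)
    (B κ x0 x y : ℝ) (hB : 1 ≤ B) (hκ : 0 < κ) (hx : |x - x0| ≤ 3) (hy : 0 < y) (hy2 : y ≤ 2) :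
    Integrable (fun t : ℝ => PK y (x - t) * (1 + κ * U (t + B * I))) ∧
    ∫ t : ℝ, PK y (x - t) * (1 + κ * U (t + B * I)) ≤
      (1 + 100 / B) * (1 + κ * U (x0 + B * I)) := by
  obtain ⟨hi1, he1⟩ := one_HG hHG x y hy
  have hB0 : 0 ≤ B := by linarith
  have hG := hHG (fun z => U (z + B * I)) (by
      have := hU.cont
      fun_prop) (fun z _ => nonneg hU _) (harmShift hU B hB0) (normShift hU B hB0)
  obtain ⟨_, hi2, he2⟩ := hG
  have hi3 := hi2 x y hy
  have he3 := he2 x y hy
  have hsum : (fun t : ℝ => PK y (x - t) * (1 + κ * U (t + B * I))) =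
      fun t : ℝ => PK y (x - t) + κ * (PK y (x - t) * U (t + B * I)) := by
    funext t; ring
  rw [hsum]
  have hi4 := hi3.const_mul κ
  refine ⟨hi1.add hi4, ?_⟩
  rw [integral_add hi1 hi4, he1, integral_const_mul]
  have h5 := (hHK E U hE hU x x0 y B hB hx hy.le hy2).1
  have h6 : U ((x:ℂ) + ((B + y : ℝ) : ℂ) * I) = U (x + y * I + B * I) := by
    congr 1
    push_cast
    ring
  rw [h6] at h5
  have h7 : ∫ t : ℝ, PK y (x - t) * U (t + B * I) ≤ (1 + 100 / B) * U (x0 + B * I) := by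
    linarith
  have h8 : 0 ≤ 100 / B := by positivity
  nlinarith [mul_le_mul_of_nonneg_left h7 hκ.le]

theorem est (hHG : S_HG) (hHK : S_HK) {E : Set ℝ} {U : ℂ → ℝ} (hE : IsClosed E) (hU : IsU E U)
    (B κ M x0 x y : ℝ) (hB : 1 ≤ B) (hκ : 0 < κ) (hM0 : 0 < M)
    (hM : ∀ t : ℝ, U t ≤ M * (1 + κ * U (t + B * I))) (hx : |x - x0| ≤ 3) (hy : 0 < y)
    (hy2 : y ≤ 2) :
    U (x + y * I) ≤ 2 + (1 + 100 / B) * (M * (1 + κ * U (x0 + B * I))) -
      M * ∫ t in E, PK y (x - t) * (1 + κ * U (t + B * I)) := by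
  obtain ⟨hi, he⟩ := PKw hHG hHK hE hU B κ x0 x y hB hκ hx hy hy2
  obtain ⟨_, hi2, he2⟩ := hHG U hU.cont.continuousOn (fun z _ => nonneg hU z) (harmU hU) hU.norm
  rw [he2 x y hy]
  have hm : MeasurableSet E := hE.measurableSet
  have h1 : ∫ t : ℝ, PK y (x - t) * U t ≤
      M * (∫ t : ℝ, PK y (x - t) * (1 + κ * U (t + B * I))) -
      M * ∫ t in E, PK y (x - t) * (1 + κ * U (t + B * I)) := by
    rw [← integral_const_mul, ← integral_const_mul, ← integral_indicator hm, ← integral_sub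
      (hi.const_mul M) ((hi.const_mul M).indicator hm)]
    apply integral_mono (hi2 x y hy)
    · exact (hi.const_mul M).sub ((hi.const_mul M).indicator hm)
    · intro t
      by_cases ht : t ∈ E
      · simp only [Set.indicator_of_mem ht, sub_self, hU.zero t ht, mul_zero, le_refl]
      · simp only [Set.indicator_of_notMem ht, sub_zero]
        have := mul_le_mul_of_nonneg_left (hM t) (PK_nonneg y (x - t) hy)
        linarith
  have h2 := mul_le_mul_of_nonneg_left he hM0.le
  linarith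

theorem estE (hHK : S_HK) {δ : ℝ} {E : Set ℝ} {U : ℂ → ℝ} (hδ : 0 < δ) (hE : Rel 1 δ E)
    (hU : IsU E U)
    (B κ x0 x y : ℝ) (hB : 1 ≤ B) (hκ : 0 < κ)
    (hi : Integrable (fun t : ℝ => PK y (x - t) * (1 + κ * U (t + B * I))))
    (hx : |x - x0| ≤ 2) (hy : 1 ≤ y)
    (hy2 : y ≤ 2) :
    δ / 25 * (1 - 100 / B) * (1 + κ * U (x0 + B * I)) ≤
      ∫ t in E, PK y (x - t) * (1 + κ * U (t + B * I)) := by
  have hm : MeasurableSet E := hE.closed.measurableSet
  set S : Set ℝ := E ∩ Icc (x0 - 1 / 2) (x0 - 1 / 2 + 1) with hS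
  have hSm : MeasurableSet S := hm.inter measurableSet_Icc
  have hSv : ENNReal.ofReal δ ≤ volume S := hE.meas _
  have hSf : volume S < ⊤ := lt_of_le_of_lt (measure_mono inter_subset_right)
    (by rw [Real.volume_Icc]; exact ENNReal.ofReal_lt_top)
  have hSr : δ ≤ (volume S).toReal := by
    rw [← ENNReal.toReal_ofReal hδ.le]
    exact ENNReal.toReal_mono hSf.ne hSv
  have hy0 : 0 < y := by linarith
  have hw : ∀ t : ℝ, 0 < 1 + κ * U (t + B * I) := fun t => by
    have := nonneg hU (t + B * I)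
    positivity
  have h1 : ∫ t in S, PK y (x - t) * (1 + κ * U (t + B * I)) ≤
      ∫ t in E, PK y (x - t) * (1 + κ * U (t + B * I)) := by
    apply setIntegral_mono_set hi.integrableOn
    · exact Filter.Eventually.of_forall fun t => mul_nonneg (PK_nonneg _ _ hy0) (hw t).le
    · exact (inter_subset_left : S ⊆ E).eventuallyLE
  refine le_trans ?_ h1
  set e : ℝ := 100 / B with he
  have he0 : 0 ≤ e := by positivity
  have h2 : ∀ t ∈ S, 1 / 25 * ((1 - e) * (1 + κ * U (x0 + B * I))) ≤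
      PK y (x - t) * (1 + κ * U (t + B * I)) := by
    intro t ht
    have ht' := ht.2
    rw [mem_Icc] at ht'
    have h3 : |x - t| ≤ 5 / 2 := by
      rw [abs_le] at hx ⊢
      constructor <;> linarith [ht'.1, ht'.2, hx.1, hx.2]
    have h4 : |t - x0| ≤ 3 := by
      rw [abs_le]
      constructor <;> linarith [ht'.1, ht'.2]
    have h5 := (hHK E U hE.closed hU t x0 0 B hB h4 le_rfl (by norm_num)).2
    rw [add_zero] at h5
    have h6 : (1 + κ * U (x0 + B * I)) ≤ (1 + e) * (1 + κ * U (t + B * I)) := by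
      have := mul_le_mul_of_nonneg_left h5 hκ.le
      have h7 := nonneg hU (t + B * I)
      nlinarith
    have h8 : (1 - e) * (1 + κ * U (x0 + B * I)) ≤ 1 + κ * U (t + B * I) := by
      by_cases h9 : e ≤ 1
      · have := mul_le_mul_of_nonneg_left h6 (by linarith : 0 ≤ 1 - e)
        have h10 : (1 - e) * ((1 + e) * (1 + κ * U (t + B * I))) ≤ 1 + κ * U (t + B * I) := by
          have := mul_nonneg (sq_nonneg e) (hw t).le
          nlinarith
        linarith
      · push Not at h9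
        have := mul_pos (by linarith : 0 < e - 1) (hw x0)
        linarith [hw t]
    have h11 := PK_lower y (x - t) hy hy2 h3
    have h12 := mul_le_mul_of_nonneg_left h8 (by norm_num : (0:ℝ) ≤ 1 / 25)
    have h13 := mul_le_mul_of_nonneg_right h11 (hw t).le
    linarith
  by_cases h9 : e ≤ 1
  · have h14 : ∫ t in S, (1 / 25 * ((1 - e) * (1 + κ * U (x0 + B * I)))) ≤
        ∫ t in S, PK y (x - t) * (1 + κ * U (t + B * I)) := by
      apply setIntegral_mono_on
      · exact integrableOn_const hSf.ne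
      · exact hi.integrableOn
      · exact hSm
      · exact h2
    rw [setIntegral_const, smul_eq_mul] at h14
    refine le_trans ?_ h14
    have h15 : 0 ≤ 1 / 25 * ((1 - e) * (1 + κ * U (x0 + B * I))) := by
      have := mul_nonneg (by linarith : 0 ≤ 1 - e) (hw x0).le
      linarith
    have h16 := mul_le_mul_of_nonneg_right hSr h15
    rw [Measure.real]
    linarith
  · push Not at h9
    have h17 : 0 ≤ ∫ t in S, PK y (x - t) * (1 + κ * U (t + B * I)) :=
      setIntegral_nonneg hSm fun t _ => mul_nonneg (PK_nonneg _ _ hy0) (hw t).le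
    refine le_trans ?_ h17
    have := mul_pos (by linarith : 0 < e - 1) (hw x0)
    have := mul_pos hδ this
    linarith

theorem main (hHG : S_HG) (hPT : S_PT) (hHK : S_HK) (hDC : S_DC) {δ : ℝ} {E : Set ℝ} {U : ℂ → ℝ}
    (hδ : 0 < δ) (hδ1 : δ ≤ 1) (hE : Rel 1 δ E) (hU : IsU E U) (κ : ℝ) (hκ : 0 < κ) (x : ℝ) :
    U x ≤ 300 / δ * (1 + κ * U (x + (60000 / δ : ℝ) * I)) := by
  set B : ℝ := 60000 / δ with hB
  have hB1 : 1 ≤ B := by
    rw [hB, le_div_iff₀ hδ]
    linarith
  have hB0 : 0 < B := by linarith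
  have he : 100 / B = δ / 600 := by
    rw [hB]
    field_simp
    norm_num
  have hw : ∀ t : ℝ, 1 ≤ 1 + κ * U (t + B * I) := fun t => by
    have := mul_nonneg hκ.le (nonneg hU (t + B * I))
    linarith
  obtain ⟨C, hC, hCb⟩ := hPT E U hE.closed hU
  set F : ℝ → ℝ := fun t => U t / (1 + κ * U (t + B * I)) with hF
  have hbd : BddAbove (range F) := by
    refine ⟨C * B / κ, ?_⟩
    rintro _ ⟨t, rfl⟩
    simp only [hF]
    rw [div_le_div_iff₀ (by linarith [hw t]) hκ]
    have h1 := hCb t B hB1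
    have h2 := mul_le_mul_of_nonneg_left h1 hκ.le
    have h3 : 0 < C * B := by positivity
    nlinarith
  set M := sSup (range F) with hMdef
  have hMF : ∀ t, F t ≤ M := fun t => le_csSup hbd ⟨t, rfl⟩
  have hMU : ∀ t : ℝ, U t ≤ M * (1 + κ * U (t + B * I)) := by
    intro t
    have h1 := hMF t
    simp only [hF] at h1
    rwa [div_le_iff₀ (by linarith [hw t])] at h1
  have hMle : M ≤ 300 / δ := by
    by_cases hM0 : M ≤ 0
    · exact hM0.trans (by positivity)
    push Not at hM0
    obtain ⟨_, ⟨x0, rfl⟩, hx0⟩ := exists_lt_of_lt_csSup (range_nonempty F)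
      (show (1 - δ / 600) * M < sSup (range F) by
        rw [← hMdef]
        have := mul_pos hδ hM0
        linarith)
    simp only [hF] at hx0
    rw [lt_div_iff₀ (by linarith [hw x0])] at hx0
    set W : ℝ := M * (1 + κ * U (x0 + B * I)) with hW
    have hMW : M ≤ W := by
      rw [hW]
      have := mul_le_mul_of_nonneg_left (hw x0) hM0.le
      linarith
    have hW0 : 0 < W := by linarith
    -- the estimates off the axis
    have hup : ∀ x y : ℝ, |x - x0| ≤ 2 → 0 ≤ y → y ≤ 2 → U (x + y * I) ≤ 2 + (1 + δ / 600) * W := by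
      intro x y hx hy hy2
      rcases hy.eq_or_lt with rfl | hy
      · have h1 := hMU x
        have h2 := (hHK E U hE.closed hU x x0 0 B hB1 (by linarith) le_rfl (by norm_num)).1
        rw [add_zero, he] at h2
        have h3 : 1 + κ * U (x + B * I) ≤ (1 + δ / 600) * (1 + κ * U (x0 + B * I)) := by
          have := mul_le_mul_of_nonneg_left h2 hκ.le
          nlinarith
        have h4 := mul_le_mul_of_nonneg_left h3 hM0.le
        have h5 : M * ((1 + δ / 600) * (1 + κ * U (x0 + B * I))) = (1 + δ / 600) * W := by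
          rw [hW]; ring
        simp only [ofReal_zero, zero_mul, add_zero]
        linarith
      · have h1 := est hHG hHK hE.closed hU B κ M x0 x y hB1 hκ hM0 hMU (by linarith) hy hy2
        rw [he, ← hW] at h1
        have h2 : 0 ≤ ∫ t in E, PK y (x - t) * (1 + κ * U (t + B * I)) :=
          setIntegral_nonneg hE.closed.measurableSet fun t _ =>
            mul_nonneg (PK_nonneg _ _ hy) (by linarith [hw t])
        have h3 := mul_nonneg hM0.le h2
        linarith
    have hup2 : ∀ x y : ℝ, |x - x0| ≤ 2 → 1 ≤ y → y ≤ 2 →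
        U (x + y * I) ≤ 2 + (1 + δ / 600) * W - δ / 25 * (1 - δ / 600) * W := by
      intro x y hx hy hy2
      have h1 := est hHG hHK hE.closed hU B κ M x0 x y hB1 hκ hM0 hMU (by linarith) (by linarith) hy2
      rw [he, ← hW] at h1
      have hi := (PKw hHG hHK hE.closed hU B κ x0 x y hB1 hκ (by linarith) (by linarith) hy2).1
      have h2 := estE hHK hδ hE hU B κ x0 x y hB1 hκ hi hx hy hy2
      rw [he] at h2
      have h3 := mul_le_mul_of_nonneg_left h2 hM0.le
      have h4 : M * (δ / 25 * (1 - δ / 600) * (1 + κ * U (x0 + B * I))) =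
          δ / 25 * (1 - δ / 600) * W := by
        rw [hW]; ring
      linarith
    -- general points of the circle
    have hz : ∀ z : ℂ, ‖z - x0‖ = 2 → |z.re - x0| ≤ 2 ∧ |z.im| ≤ 2 ∧
        U z = U (z.re + (|z.im| : ℝ) * I) := by
      intro z hz
      have h1 : |(z - x0).re| ≤ ‖z - x0‖ := Complex.abs_re_le_norm _
      have h2 : |(z - x0).im| ≤ ‖z - x0‖ := Complex.abs_im_le_norm _
      rw [hz] at h1 h2
      simp only [sub_re, ofReal_re, sub_im, ofReal_im, sub_zero] at h1 h2
      refine ⟨h1, h2, ?_⟩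
      rcases le_total 0 z.im with h3 | h3
      · rw [abs_of_nonneg h3, re_add_im]
      · rw [abs_of_nonpos h3, ← hU.symm z]
        congr 1
        apply Complex.ext <;> simp
    have hd1 : 0 ≤ 1 - δ / 600 := by linarith
    have hβ0 : 0 ≤ 2 / 3 * (δ / 25 * (1 - δ / 600) * W) := by positivity
    have hβ1 : 3 / 2 * (2 / 3 * (δ / 25 * (1 - δ / 600) * W)) ≤ 2 + (1 + δ / 600) * W := by
      have h1 : δ / 25 * (1 - δ / 600) ≤ 1 := by nlinarith
      have h2 := mul_le_mul_of_nonneg_right h1 hW0.le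
      have h3 : 0 ≤ δ / 600 * W := by positivity
      linarith
    have hfin := hDC E U hE.closed hU x0 (2 + (1 + δ / 600) * W)
      (2 / 3 * (δ / 25 * (1 - δ / 600) * W)) hβ0 hβ1 (by
        intro z hz1 _
        obtain ⟨h1, h2, h3⟩ := hz z hz1
        rw [h3]
        exact hup _ _ h1 (abs_nonneg _) h2) (by
        intro z hz1 hz2
        obtain ⟨h1, h2, h3⟩ := hz z hz1
        rw [h3]
        have := hup2 _ _ h1 hz2 h2
        linarith)
    have hlow : (1 - δ / 600) * W < U x0 := by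
      rw [hW]
      linarith
    have hfin2 : W ≤ 300 / δ := by
      rw [le_div_iff₀ hδ]
      have h1 : 0 < δ * W := by positivity
      have h2 : δ * (δ * W) ≤ 1 * (δ * W) := mul_le_mul_of_nonneg_right hδ1 h1.le
      nlinarith
    linarith
  have h1 := hMU x
  have h2 := mul_le_mul_of_nonneg_right hMle (by linarith [hw x] : 0 ≤ 1 + κ * U (x + B * I))
  linarith

end BDDL

theorem BDD_proof (hHG : S_HG) (hPT : S_PT) (hHK : S_HK) (hDC : S_DC) : S_BDD := by
  intro δ E U hδ hE hU
  have hδ1 : δ ≤ 1 := by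
    have h1 := hE.meas 0
    have h2 : volume (E ∩ Icc (0:ℝ) (0 + 1)) ≤ ENNReal.ofReal 1 := by
      refine (measure_mono inter_subset_right).trans ?_
      rw [Real.volume_Icc]
      simp
    have h3 := h1.trans h2
    rwa [ENNReal.ofReal_le_ofReal_iff (by norm_num)] at h3
  refine ⟨300 / δ, fun x => ?_⟩
  have hV : 0 ≤ U (x + (60000 / δ : ℝ) * I) := BDDL.nonneg hU _
  have h1 : Tendsto (fun κ : ℝ => 300 / δ * (1 + κ * U (x + (60000 / δ : ℝ) * I))) (𝓝[>] 0)
      (𝓝 (300 / δ * (1 + 0 * U (x + (60000 / δ : ℝ) * I)))) := by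
    apply Tendsto.mono_left _ nhdsWithin_le_nhds
    exact (Continuous.tendsto (by fun_prop) 0)
  rw [zero_mul, add_zero, mul_one] at h1
  apply ge_of_tendsto h1
  filter_upwards [self_mem_nhdsWithin] with κ hκ
  exact BDDL.main hHG hPT hHK hDC hδ hδ1 hE hU κ hκ x

end Pool.Agent.H356R3.LV
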