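import Pool.Agent.H356R3.LV.Defs
set_option autoImplicit false
open MeasureTheory Set Filter Topology Complex InnerProductSpace
namespace Pool.Agent.H356R3.LV

namespace BNDL

theorem deriv_le_of_le {f m : ℝ → ℝ} {f' m' b : ℝ} (hb : 0 < b) (hf : HasDerivAt f f' 0)
    (hm : HasDerivAt m m' 0) (h0 : f 0 = m 0) (h : ∀ ε, 0 < ε → ε < b → m ε ≤ f ε) : m' ≤ f' := by
  have h2 : Tendsto (slope f 0) (𝓝[>] 0) (𝓝 f') :=
    (hasDerivWithinAt_iff_tendsto_slope' (s := Ioi (0:ℝ)) (by simp)).mp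
      (hf.hasDerivWithinAt (s := Ioi 0))
  have h3 : Tendsto (slope m 0) (𝓝[>] 0) (𝓝 m') :=
    (hasDerivWithinAt_iff_tendsto_slope' (s := Ioi (0:ℝ)) (by simp)).mp
      (hm.hasDerivWithinAt (s := Ioi 0))
  refine le_of_tendsto_of_tendsto h3 h2 ?_
  have h4 : Ioo (0:ℝ) b ∈ 𝓝[>] (0:ℝ) := Ioo_mem_nhdsGT hb
  filter_upwards [h4] with a ha
  rw [slope_def_field, slope_def_field, h0]
  apply div_le_div_of_nonneg_right _ (by linarith [ha.1])
  linarith [h a ha.1 ha.2]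

theorem hasDeriv_sym {g : ℝ → ℝ} (hg : Continuous g) (x : ℝ) :
    HasDerivAt (fun s : ℝ => ∫ t in (x - s)..(x + s), g t) (2 * g x) 0 := by
  have hF : ∀ u : ℝ, HasDerivAt (fun u => ∫ t in x..u, g t) (g u) u := fun u =>
    intervalIntegral.integral_hasDerivAt_right (hg.intervalIntegrable _ _)
      hg.aestronglyMeasurable.stronglyMeasurableAtFilter hg.continuousAt
  have h1 : HasDerivAt (fun s : ℝ => x + s) 1 0 := by
    simpa using (hasDerivAt_id (0:ℝ)).const_add x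
  have h2 : HasDerivAt (fun s : ℝ => x - s) (-1) 0 := by
    simpa using (hasDerivAt_id (0:ℝ)).const_sub x
  have h3 : HasDerivAt (fun s : ℝ => ∫ t in x..(x + s), g t) (g (x + 0) * 1) 0 :=
    HasDerivAt.comp (0:ℝ) (h₂ := fun u => ∫ t in x..u, g t) (hF (x + 0)) h1
  have h4 : HasDerivAt (fun s : ℝ => ∫ t in x..(x - s), g t) (g (x - 0) * (-1)) 0 :=
    HasDerivAt.comp (0:ℝ) (h₂ := fun u => ∫ t in x..u, g t) (hF (x - 0)) h2
  have h5 := h3.sub h4
  have e1 : (fun s : ℝ => ∫ t in (x - s)..(x + s), g t) =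
      fun s : ℝ => (∫ t in x..(x + s), g t) - ∫ t in x..(x - s), g t := by
    funext s
    rw [intervalIntegral.integral_interval_sub_left (hg.intervalIntegrable _ _)
      (hg.intervalIntegrable _ _)]
  rw [e1]
  have e2 : 2 * g x = g (x + 0) * 1 - g (x - 0) * (-1) := by
    rw [add_zero, sub_zero]; ring
  rw [e2]
  exact h5

end BNDL

open BNDL in
theorem BND_proof (hCMP : S_CMP) (hV1 : S_V1) (hTT1 : S_TT1) (hGC : S_GC) : S_BND := by
  intro δ E U hδ0 hδ1 hRel hU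
  have hpart2 : ∀ x s y : ℝ, 0 ≤ s → s ≤ 1 / 2 →
      ∫ t in (x - s)..(x + s), U (t + y * I) ≤ Tt (1 - δ) s y := by
    intro x s y hs0 hs1
    have hlim := (hGC (1 - δ) (by linarith) (by linarith)).2 s y
    have hlim' : Tendsto (fun g => Tt g s y) (𝓝[>] (1 - δ)) (𝓝 (Tt (1 - δ) s y)) :=
      hlim.mono_left nhdsWithin_le_nhds
    refine ge_of_tendsto hlim' ?_
    have hmem : Ioo (1 - δ) 1 ∈ 𝓝[>] (1 - δ) := Ioo_mem_nhdsGT (by linarith)
    filter_upwards [hmem] with γ hγ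
    have h1 := hCMP δ E U γ hδ0 hRel hU hγ.1 (by linarith [hγ.1]) hγ.2 (x - 1 / 2) s y hs0 hs1
    have h2 := (hV1 U hU.cont).1 (x - 1 / 2) s y hs0 hs1 (Icc (x - s) (x + s)) measurableSet_Icc
      (Icc_subset_Icc (by linarith) (by linarith)) (by
        rw [Real.volume_Icc]; congr 1; ring)
    have h3 : ∫ t in Icc (x - s) (x + s), U (t + y * I) =
        ∫ t in (x - s)..(x + s), U (t + y * I) := by
      rw [intervalIntegral.integral_of_le (by linarith), integral_Icc_eq_integral_Ioc]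
    rw [h3] at h2
    exact h2.trans h1
  refine ⟨fun x => ?_, hpart2⟩
  have hT := hTT1 (1 - δ) (by linarith) (by linarith)
  have hg : Continuous (fun t : ℝ => U (t : ℂ)) := hU.cont.comp continuous_ofReal
  have hd1 := hasDeriv_sym hg x
  have hd2 := hT.2.2.2.2.2.2 0 0
  have h0 : Tt (1 - δ) 0 0 = 0 := hT.2.2.2.2.2.1 0
  have key := deriv_le_of_le (b := 1 / 2) (by norm_num) hd2 hd1 (by
      rw [h0]; simp) (by
      intro s hs0 hs1
      have := hpart2 x s 0 hs0.le hs1.le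
      simpa using this)
  have e : ((0:ℝ) : ℂ) + ((0:ℝ) : ℂ) * I = 0 := by simp
  rw [e] at key
  linarith

end Pool.Agent.H356R3.LV
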