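import Pool.Agent.H356R3.LV.Defs
set_option autoImplicit false
open MeasureTheory Set Filter Topology Complex InnerProductSpace
namespace Pool.Agent.H356R3.LV
namespace CAL

theorem gl_cd {u : ℂ → ℝ} {x y : ℝ} (h : HarmonicAt u (x + y * I)) :
    ContDiffAt ℝ 2 (gl u y) x := by
  have h1 : ContDiffAt ℝ 2 u ((x : ℂ) + y * I) := h.1
  have h2 : ContDiffAt ℝ 2 (fun t : ℝ => (t : ℂ) + y * I) x :=
    ((Complex.ofRealCLM.contDiff).add contDiff_const).contDiffAt
  exact ContDiffAt.comp x h1 h2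

theorem cd_deriv {g : ℝ → ℝ} {x : ℝ} (h : ContDiffAt ℝ 2 g x) :
    HasDerivAt g (deriv g x) x ∧
    HasDerivAt (deriv g) (deriv (deriv g) x) x ∧ ContinuousAt (deriv (deriv g)) x := by
  have h1 : ContDiffAt ℝ 1 (deriv g) x := h.derivWithin (by norm_num)
  have h2 : ContDiffAt ℝ 0 (deriv (deriv g)) x := h1.derivWithin (by norm_num)
  exact ⟨(h.differentiableAt (by norm_num)).hasDerivAt,
    (h1.differentiableAt (by norm_num)).hasDerivAt, h2.continuousAt⟩

/-- the fundamental theorem for the second derivative -/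
theorem ftc2 {g : ℝ → ℝ} {p q : ℝ} (hpq : p ≤ q) (h : ∀ x ∈ Icc p q, ContDiffAt ℝ 2 g x) :
    IntegrableOn (deriv (deriv g)) (Icc p q) ∧
    ∫ x in p..q, deriv (deriv g) x = deriv g q - deriv g p := by
  have hc : ContinuousOn (deriv (deriv g)) (Icc p q) := fun x hx =>
    (cd_deriv (h x hx)).2.2.continuousWithinAt
  refine ⟨hc.integrableOn_compact isCompact_Icc, ?_⟩
  apply intervalIntegral.integral_eq_sub_of_hasDerivAt
  · intro x hx
    rw [uIcc_of_le hpq] at hx
    exact (cd_deriv (h x hx)).2.1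
  · apply ContinuousOn.intervalIntegrable
    rw [uIcc_of_le hpq]
    exact hc

theorem gl_cont {u : ℂ → ℝ} (hu : Continuous u) (y : ℝ) : Continuous (gl u y) := by
  unfold gl
  exact hu.comp (by fun_prop)

/-- the `y`-direction -/
theorem ydir (hSD2 : S_SD2) (hYD : S_YD) (hV1 : S_V1) {u : ℂ → ℝ} {H : ℝ → ℝ → ℝ}
    {ε b a s y h : ℝ} {A K : Set ℝ} {D2 : ℝ → ℝ}
    (hu : Continuous u) (hs : 0 < s) (hs' : s < 1 / 2)
    (hD2 : ∀ᶠ y' in 𝓝 y, HasDerivAt (fun t => H s t) (D2 y') y') (hD2' : HasDerivAt D2 (-h) y)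
    (hL : LocMax u H ε b a s y) (hA : MeasurableSet A) (hAa : A ⊆ Icc a (a + 1))
    (hvol : volume A = ENNReal.ofReal (2 * s))
    (hK : IsCompact K) (hAK : A ⊆ K) (hh : ∀ x ∈ K, HarmonicAt u (x + y * I))
    (hV : VV u a s y = ∫ x in A, u (x + y * I)) :
    -(∫ x in A, deriv (deriv (gl u y)) x) + h - 2 * ε ≤ 0 := by
  obtain ⟨-, D, hD, hD'⟩ := hYD u y A K hA hK hAK hh
  apply hSD2 (fun y' => (∫ x in A, u (x + y' * I)) - H s y' -
      ε * ((a - b) ^ 2 + y' ^ 2 - 3 * s ^ 2))
    (fun y' => D y' - D2 y' - ε * (2 * y')) y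
  · filter_upwards [hD, hD2] with t h1 h2
    have h3 : HasDerivAt (fun y' : ℝ => ε * ((a - b) ^ 2 + y' ^ 2 - 3 * s ^ 2)) (ε * (2 * t)) t := by
      have h4 : HasDerivAt (fun y' : ℝ => (a - b) ^ 2 + y' ^ 2 - 3 * s ^ 2) (2 * t) t := by
        have := ((hasDerivAt_pow 2 t).const_add ((a - b) ^ 2)).sub_const (3 * s ^ 2)
        simpa using this
      exact h4.const_mul ε
    exact (h1.sub h2).sub h3
  · have h3 : HasDerivAt (fun y' : ℝ => ε * (2 * y')) (ε * (2 * 1)) y :=
      ((hasDerivAt_id y).const_mul 2).const_mul ε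
    have h4 := (hD'.sub hD2').sub h3
    have e : (-∫ x in A, deriv (deriv (gl u y)) x) - (-h) - ε * (2 * 1) =
        -(∫ x in A, deriv (deriv (gl u y)) x) + h - 2 * ε := by ring
    rw [e] at h4
    exact h4
  · have hc : Tendsto (fun y' : ℝ => (a, s, y')) (𝓝 y) (𝓝 (a, s, y)) :=
      (Continuous.tendsto (by fun_prop) y)
    filter_upwards [hc.eventually hL] with t ht
    have h1 := (hV1 u hu).1 a s t hs.le hs'.le A hA hAa hvol
    rw [hV] at ht
    linarith

/-- the `s`-direction, the window moving with speed `ρ` -/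
theorem sdir (hSD2 : S_SD2) {u : ℂ → ℝ} {H : ℝ → ℝ → ℝ} {ε b a s y h ρ c : ℝ} {D1 f F : ℝ → ℝ}
    (hD1 : ∀ᶠ s' in 𝓝 s, HasDerivAt (fun t => H t y) (D1 s') s') (hD1' : HasDerivAt D1 h s)
    (hL : LocMax u H ε b a s y)
    (hf : ∀ᶠ r in 𝓝 0, f r ≤ VV u (a + ρ * r) (s + r) y) (hf0 : f 0 = VV u a s y)
    (hF : ∀ᶠ r in 𝓝 0, HasDerivAt f (F r) r) (hF' : HasDerivAt F c 0) :
    c - h - 2 * ε * ρ ^ 2 + 6 * ε ≤ 0 := by
  have hsr : Tendsto (fun r : ℝ => s + r) (𝓝 0) (𝓝 s) := by
    have : Tendsto (fun r : ℝ => s + r) (𝓝 0) (𝓝 (s + 0)) := Continuous.tendsto (by fun_prop) 0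
    simpa using this
  apply hSD2 (fun r => f r - H (s + r) y -
      ε * ((a + ρ * r - b) ^ 2 + y ^ 2 - 3 * (s + r) ^ 2))
    (fun r => F r - D1 (s + r) - ε * (2 * ρ * (a + ρ * r - b) - 6 * (s + r))) 0
  · filter_upwards [hF, hsr.eventually hD1] with r h1 h2
    have h2' : HasDerivAt (fun t => H (s + t) y) (D1 (s + r)) r := by
      have := HasDerivAt.comp_const_add s r h2
      simpa using this
    have h3 : HasDerivAt (fun r : ℝ => ε * ((a + ρ * r - b) ^ 2 + y ^ 2 - 3 * (s + r) ^ 2))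
        (ε * (2 * ρ * (a + ρ * r - b) - 6 * (s + r))) r := by
      have e1 : HasDerivAt (fun r : ℝ => a + ρ * r - b) ρ r := by
        have := (((hasDerivAt_id r).const_mul ρ).const_add a).sub_const b
        simpa using this
      have e2 : HasDerivAt (fun r : ℝ => s + r) 1 r := by
        have := (hasDerivAt_id r).const_add s
        simpa using this
      have e3 := ((e1.pow 2).add_const (y ^ 2)).sub ((e2.pow 2).const_mul 3)
      have e4 := e3.const_mul ε
      have e5 : ε * (((2 : ℕ) : ℝ) * (a + ρ * r - b) ^ (2 - 1) * ρ -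
          3 * (((2 : ℕ) : ℝ) * (s + r) ^ (2 - 1) * 1)) =
          ε * (2 * ρ * (a + ρ * r - b) - 6 * (s + r)) := by
        rw [show (2:ℕ) - 1 = 1 from rfl]; push_cast; ring
      rw [e5] at e4
      exact e4
    exact (h1.sub h2').sub h3
  · have hD1'' : HasDerivAt (fun r => D1 (s + r)) h 0 := by
      have e0 : HasDerivAt D1 h (s + 0) := by simpa using hD1'
      have := HasDerivAt.comp_const_add s 0 e0
      simpa using this
    have h3 : HasDerivAt (fun r : ℝ => ε * (2 * ρ * (a + ρ * r - b) - 6 * (s + r)))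
        (ε * (2 * ρ * ρ - 6)) 0 := by
      have e1 : HasDerivAt (fun r : ℝ => a + ρ * r - b) ρ 0 := by
        have := (((hasDerivAt_id (0:ℝ)).const_mul ρ).const_add a).sub_const b
        simpa using this
      have e2 : HasDerivAt (fun r : ℝ => s + r) 1 0 := by
        have := (hasDerivAt_id (0:ℝ)).const_add s
        simpa using this
      have e3 := (e1.const_mul (2 * ρ)).sub (e2.const_mul 6)
      have e4 := e3.const_mul ε
      simpa using e4
    have h4 := (hF'.sub hD1'').sub h3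
    have e : c - h - ε * (2 * ρ * ρ - 6) = c - h - 2 * ε * ρ ^ 2 + 6 * ε := by ring
    rw [e] at h4
    exact h4
  · have hc : Tendsto (fun r : ℝ => (a + ρ * r, s + r, y)) (𝓝 0) (𝓝 (a, s, y)) := by
      have : Tendsto (fun r : ℝ => (a + ρ * r, s + r, y)) (𝓝 0) (𝓝 (a + ρ * 0, s + 0, y)) :=
        Continuous.tendsto (by fun_prop) 0
      simpa using this
    filter_upwards [hc.eventually hL, hf] with r hr1 hr2
    simp only [mul_zero, add_zero]
    rw [hf0]
    linarith

theorem ffun {g : ℝ → ℝ} (hg : Continuous g) {α β gα gβ C : ℝ} (h1 : HasDerivAt g gα α)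
    (h2 : HasDerivAt g gβ β) :
    (∀ r, HasDerivAt (fun r => C + ∫ x in (α - r)..(β + r), g x) (g (β + r) + g (α - r)) r) ∧
      HasDerivAt (fun r => g (β + r) + g (α - r)) (gβ - gα) 0 := by
  constructor
  · intro r
    have e : (fun r => C + ∫ x in (α - r)..(β + r), g x) =
        fun r => C + ((∫ x in (0:ℝ)..(β + r), g x) - ∫ x in (0:ℝ)..(α - r), g x) := by
      funext r
      rw [intervalIntegral.integral_interval_sub_left (hg.intervalIntegrable _ _)
        (hg.intervalIntegrable _ _)]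
    rw [e]
    have k1 : HasDerivAt (fun r => ∫ x in (0:ℝ)..(β + r), g x) (g (β + r)) r := by
      have := HasDerivAt.comp_const_add β r (hg.integral_hasStrictDerivAt 0 (β + r)).hasDerivAt
      exact this
    have k2 : HasDerivAt (fun r => ∫ x in (0:ℝ)..(α - r), g x) (-(g (α - r))) r := by
      have := HasDerivAt.comp_const_sub α r (hg.integral_hasStrictDerivAt 0 (α - r)).hasDerivAt
      exact this
    have k3 := (k1.sub k2).const_add C
    have e2 : g (β + r) - -(g (α - r)) = g (β + r) + g (α - r) := by ring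
    rw [e2] at k3
    exact k3
  · have k1 : HasDerivAt (fun r => g (β + r)) gβ 0 := by
      have e0 : HasDerivAt g gβ (β + 0) := by simpa using h2
      exact HasDerivAt.comp_const_add β 0 e0
    have k2 : HasDerivAt (fun r => g (α - r)) (-gα) 0 := by
      have e0 : HasDerivAt g gα (α - 0) := by simpa using h1
      exact HasDerivAt.comp_const_sub α 0 e0
    have k3 := k1.add k2
    have e2 : gβ + -gα = gβ - gα := by ring
    rw [e2] at k3
    exact k3

theorem unionint {f : ℝ → ℝ} {R : Set ℝ} {p q : ℝ} (hpq : p ≤ q)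
    (hdisj : Disjoint R (Icc p q)) (h1 : IntegrableOn f R) (h2 : IntegrableOn f (Icc p q)) :
    ∫ x in R ∪ Icc p q, f x = (∫ x in R, f x) + ∫ x in p..q, f x := by
  rw [setIntegral_union hdisj measurableSet_Icc h1 h2, integral_Icc_eq_integral_Ioc,
    intervalIntegral.integral_of_le hpq]

theorem unionvol {R : Set ℝ} {p q r s : ℝ} (hpq : p ≤ q) (hs : 0 < s) {p' q' : ℝ}
    (hpq' : p' ≤ q') (hdisj : Disjoint R (Icc p' q'))
    (hvol : volume R + ENNReal.ofReal (q - p) = ENNReal.ofReal (2 * s))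
    (hr : q' - p' = q - p + 2 * r) :
    volume (R ∪ Icc p' q') = ENNReal.ofReal (2 * (s + r)) := by
  have hfin : volume R ≠ ⊤ := by
    intro h
    rw [h, top_add] at hvol
    exact ENNReal.ofReal_ne_top hvol.symm
  obtain ⟨v, hv, hv'⟩ : ∃ v : ℝ, 0 ≤ v ∧ volume R = ENNReal.ofReal v :=
    ⟨(volume R).toReal, ENNReal.toReal_nonneg, (ENNReal.ofReal_toReal hfin).symm⟩
  rw [measure_union hdisj measurableSet_Icc, Real.volume_Icc, hv']
  rw [hv', ← ENNReal.ofReal_add hv (by linarith)] at hvol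
  have h3 := (ENNReal.ofReal_eq_ofReal_iff (by linarith) (by linarith)).1 hvol
  rw [← ENNReal.ofReal_add hv (by linarith)]
  congr 1
  linarith

end CAL

open CAL in
theorem CA_proof (hSD2 : S_SD2) (hYD : S_YD) (hV1 : S_V1) : S_CA := by
  intro u H ε b a s y α β κ R K hu hε hs hs' hκ hH hL haα hαβ hβa hR hRa hdisj hvol hK hRK hIK hh
    hV hneg
  obtain ⟨h, D1, D2, hD1, hD1', hD2, hD2'⟩ := hH
  have hg := gl_cont hu y
  have hcd : ∀ x ∈ K, ContDiffAt ℝ 2 (gl u y) x := fun x hx => gl_cd (hh x hx)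
  have hRint : ∀ y' : ℝ, IntegrableOn (gl u y') R := fun y' =>
    ((gl_cont hu y').integrableOn_Icc).mono_set hRa
  -- the set A
  have hd0 : Disjoint R (Icc α β) :=
    hdisj.mono_right (Icc_subset_Icc (by linarith) (by linarith))
  have hAm : MeasurableSet (R ∪ Icc α β) := hR.union measurableSet_Icc
  have hAa : R ∪ Icc α β ⊆ Icc a (a + 1) :=
    union_subset hRa (Icc_subset_Icc (by linarith) (by linarith))
  have hAv : volume (R ∪ Icc α β) = ENNReal.ofReal (2 * s) := by
    have := unionvol (r := 0) hαβ.le hs hαβ.le hd0 hvol (by ring)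
    simpa using this
  have hVA : VV u a s y = ∫ x in R ∪ Icc α β, u (x + y * I) := by
    have := unionint (f := gl u y) hαβ.le hd0 (hRint y) (hg.integrableOn_Icc)
    unfold gl at this
    rw [hV, this]
  have hy := ydir hSD2 hYD hV1 hu hs hs' hD2 hD2' hL hAm hAa hAv hK (union_subset hRK hIK) hh hVA
  have hI := (hYD u y (R ∪ Icc α β) K hAm hK (union_subset hRK hIK) hh).1
  have hf2 := ftc2 hαβ.le (fun x hx => hcd x (hIK hx))
  rw [unionint hαβ.le hd0 (hI.mono_set subset_union_left) hf2.1, hf2.2] at hy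
  -- the s-direction
  have hα := (cd_deriv (hcd α (hIK (left_mem_Icc.2 hαβ.le)))).1
  have hβ := (cd_deriv (hcd β (hIK (right_mem_Icc.2 hαβ.le)))).1
  have hff := ffun hg (C := ∫ x in R, gl u y x) hα hβ
  have hsd := sdir (ρ := 0) hSD2 hD1 hD1' hL
    (f := fun r => (∫ x in R, gl u y x) + ∫ x in (α - r)..(β + r), gl u y x) ?_ ?_
    (Eventually.of_forall hff.1) hff.2
  · nlinarith
  · have e1 : ∀ᶠ r in 𝓝 (0:ℝ), -κ < r := lt_mem_nhds (by linarith)
    have e2 : ∀ᶠ r in 𝓝 (0:ℝ), r < κ := gt_mem_nhds hκ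
    have e3 : ∀ᶠ r in 𝓝 (0:ℝ), -((β - α) / 2) < r := lt_mem_nhds (by linarith)
    have e4 : ∀ᶠ r in 𝓝 (0:ℝ), r < 1 / 2 - s := gt_mem_nhds (by linarith)
    have e5 : ∀ᶠ r in 𝓝 (0:ℝ), -s < r := lt_mem_nhds (by linarith)
    filter_upwards [e1, e2, e3, e4, e5] with r h1 h2 h3 h4 h5
    have hpq : α - r ≤ β + r := by linarith
    have hd : Disjoint R (Icc (α - r) (β + r)) :=
      hdisj.mono_right (Icc_subset_Icc (by linarith) (by linarith))
    have hv := unionvol (r := r) hαβ.le hs hpq hd hvol (by ring)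
    have hsub : R ∪ Icc (α - r) (β + r) ⊆ Icc a (a + 1) :=
      union_subset hRa (Icc_subset_Icc (by linarith) (by linarith))
    have hle := (hV1 u hu).1 a (s + r) y (by linarith) (by linarith) _
      (hR.union measurableSet_Icc) hsub hv
    have hi := unionint (f := gl u y) hpq hd (hRint y) (hg.integrableOn_Icc)
    rw [← hi]
    have e : a + 0 * r = a := by ring
    rw [e]
    exact hle
  · simp only [sub_zero, add_zero]
    rw [hV]
    rfl

end Pool.Agent.H356R3.LV
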