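import Pool.Agent.H356R3.LV.Defs
import Pool.Agent.H356R3.LV.CA
set_option autoImplicit false
open MeasureTheory Set Filter Topology Complex InnerProductSpace
namespace Pool.Agent.H356R3.LV

open CAL in
theorem CB_proof (hSD2 : S_SD2) (hYD : S_YD) (hV1 : S_V1) : S_CB := by
  intro u H ε b a s y α κ R K hu hε hs hs' hκ hH hL haα hα1 hR hRa hvol hK hRK hIK hh
    hV hneg
  obtain ⟨h, D1, D2, hD1, hD1', hD2, hD2'⟩ := hH
  have hg := gl_cont hu y
  have hcd : ∀ x ∈ K, ContDiffAt ℝ 2 (gl u y) x := fun x hx => gl_cd (hh x hx)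
  have hRint : ∀ y' : ℝ, IntegrableOn (gl u y') R := fun y' =>
    ((gl_cont hu y').integrableOn_Icc).mono_set hRa
  have hdis : ∀ r : ℝ, r < κ → Disjoint R (Icc (α - r) (a + 1 + r)) := by
    intro r hr
    rw [Set.disjoint_left]
    intro x hx hx'
    have h1 := (hRa hx).2
    have h2 := hx'.1
    linarith
  -- the set A
  have hd0 : Disjoint R (Icc α (a + 1)) := by
    have := hdis 0 hκ
    simpa using this
  have hAm : MeasurableSet (R ∪ Icc α (a + 1)) := hR.union measurableSet_Icc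
  have hAa : R ∪ Icc α (a + 1) ⊆ Icc a (a + 1) :=
    union_subset (hRa.trans (Icc_subset_Icc (by linarith) (by linarith)))
      (Icc_subset_Icc (by linarith) (by linarith))
  have hAv : volume (R ∪ Icc α (a + 1)) = ENNReal.ofReal (2 * s) := by
    have := unionvol (r := 0) hα1.le hs hα1.le hd0 hvol (by ring)
    simpa using this
  have hVA : VV u a s y = ∫ x in R ∪ Icc α (a + 1), u (x + y * I) := by
    have := unionint (f := gl u y) hα1.le hd0 (hRint y) (hg.integrableOn_Icc)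
    unfold gl at this
    rw [hV, this]
  have hy := ydir hSD2 hYD hV1 hu hs hs' hD2 hD2' hL hAm hAa hAv hK (union_subset hRK hIK) hh hVA
  have hI := (hYD u y (R ∪ Icc α (a + 1)) K hAm hK (union_subset hRK hIK) hh).1
  have hf2 := ftc2 hα1.le (fun x hx => hcd x (hIK hx))
  rw [unionint hα1.le hd0 (hI.mono_set subset_union_left) hf2.1, hf2.2] at hy
  -- the s-direction
  have hα := (cd_deriv (hcd α (hIK (left_mem_Icc.2 hα1.le)))).1
  have hβ := (cd_deriv (hcd (a + 1) (hIK (right_mem_Icc.2 hα1.le)))).1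
  have hff := ffun hg (C := ∫ x in R, gl u y x) hα hβ
  have hsd := sdir (ρ := 1) hSD2 hD1 hD1' hL
    (f := fun r => (∫ x in R, gl u y x) + ∫ x in (α - r)..(a + 1 + r), gl u y x) ?_ ?_
    (Eventually.of_forall hff.1) hff.2
  · nlinarith
  · have e1 : ∀ᶠ r in 𝓝 (0:ℝ), -κ < r := lt_mem_nhds (by linarith)
    have e2 : ∀ᶠ r in 𝓝 (0:ℝ), r < κ := gt_mem_nhds hκ
    have e2' : ∀ᶠ r in 𝓝 (0:ℝ), r < κ / 2 := gt_mem_nhds (by linarith)
    have e3 : ∀ᶠ r in 𝓝 (0:ℝ), -((a + 1 - α) / 2) < r := lt_mem_nhds (by linarith)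
    have e4 : ∀ᶠ r in 𝓝 (0:ℝ), r < 1 / 2 - s := gt_mem_nhds (by linarith)
    have e5 : ∀ᶠ r in 𝓝 (0:ℝ), -s < r := lt_mem_nhds (by linarith)
    filter_upwards [e1, e2, e3, e4, e5, e2'] with r h1 h2 h3 h4 h5 h2'
    have hpq : α - r ≤ a + 1 + r := by linarith
    have hd : Disjoint R (Icc (α - r) (a + 1 + r)) := hdis r h2
    have hv := unionvol (r := r) hα1.le hs hpq hd hvol (by ring)
    have hRb : ∀ x ∈ R, a + r ≤ x ∧ x ≤ a + r + 1 := by
      intro x hx
      have k1 := (hRa hx).1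
      have k2 := (hRa hx).2
      exact ⟨by linarith, by linarith⟩
    have hsub : R ∪ Icc (α - r) (a + 1 + r) ⊆ Icc (a + r) (a + r + 1) :=
      union_subset (fun x hx => ⟨(hRb x hx).1, (hRb x hx).2⟩)
        (Icc_subset_Icc (by linarith) (by linarith))
    have hle := (hV1 u hu).1 (a + r) (s + r) y (by linarith) (by linarith) _
      (hR.union measurableSet_Icc) hsub hv
    have hi := unionint (f := gl u y) hpq hd (hRint y) (hg.integrableOn_Icc)
    rw [← hi]
    have e : a + 1 * r = a + r := by ring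
    rw [e]
    exact hle
  · simp only [sub_zero, add_zero]
    rw [hV]
    rfl

end Pool.Agent.H356R3.LV
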