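import Pool.Agent.H356R3.LV.Defs
set_option autoImplicit false
open MeasureTheory Set Filter Topology Complex InnerProductSpace
namespace Pool.Agent.H356R3.LV

namespace CBML

lemma gl_cont {u : ℂ → ℝ} (hu : Continuous u) (y : ℝ) : Continuous (gl u y) := by
  unfold gl
  exact hu.comp (by fun_prop)

lemma gl_an {u : ℂ → ℝ} {x y : ℝ} (hu : HarmonicAt u (x + y * I)) :
    AnalyticAt ℝ (gl u y) x := by
  have h1 : AnalyticAt ℝ u ((x : ℂ) + y * I) := HarmonicAt.analyticAt hu
  have h2 : AnalyticAt ℝ (fun t : ℝ => (t : ℂ) + y * I) x :=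
    (Complex.ofRealCLM.analyticAt x).add analyticAt_const
  exact AnalyticAt.comp (f := fun t : ℝ => (t : ℂ) + y * I) h1 h2

/-- the derivative of a varying interval integral -/
lemma hasDeriv_int {g : ℝ → ℝ} (hg : Continuous g) (p q c d r : ℝ) :
    HasDerivAt (fun t : ℝ => ∫ x in (p + c * t)..(q + d * t), g x)
      (d * g (q + d * r) - c * g (p + c * r)) r := by
  have hG : ∀ x : ℝ, HasDerivAt (fun x => ∫ t in (0:ℝ)..x, g t) (g x) x := fun x =>
    intervalIntegral.integral_hasDerivAt_right (hg.intervalIntegrable _ _)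
      (hg.stronglyMeasurableAtFilter _ _) hg.continuousAt
  have heq : (fun t : ℝ => ∫ x in (p + c * t)..(q + d * t), g x) =
      fun t : ℝ => (∫ x in (0:ℝ)..(q + d * t), g x) - ∫ x in (0:ℝ)..(p + c * t), g x := by
    funext t
    rw [intervalIntegral.integral_interval_sub_left] <;> exact hg.intervalIntegrable _ _
  rw [heq]
  have hq : HasDerivAt (fun t : ℝ => q + d * t) d r := by
    simpa using ((hasDerivAt_id r).const_mul d).const_add q
  have hp : HasDerivAt (fun t : ℝ => p + c * t) c r := by
    simpa using ((hasDerivAt_id r).const_mul c).const_add p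
  have h1 := (hG (q + d * r)).comp r hq
  have h2 := (hG (p + c * r)).comp r hp
  exact (h1.sub h2).congr_deriv (by ring)

end CBML

open CBML in
theorem CBM_proof (hSD2 : S_SD2) (hYD : S_YD) (hV1 : S_V1) : S_CBM := by
  intro u H ε b a s y β κ R K hu hε hs0 hs1 hκ hH hloc haβ hβ hRm hRsub hvol hK hRK hIK hharm hVV hR
  obtain ⟨h, D1, D2, hD1, hD1h, hD2, hD2h⟩ := hH
  set g : ℝ → ℝ := gl u y with hg_def
  have hgc : Continuous g := gl_cont hu y
  have hgan : ∀ x ∈ K, AnalyticAt ℝ g x := fun x hx => gl_an (hharm x hx)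
  have haK : a ∈ K := hIK ⟨le_rfl, haβ.le⟩
  have hβK : β ∈ K := hIK ⟨haβ.le, le_rfl⟩
  obtain ⟨hV1a, -⟩ := hV1 u hu
  have hRI : R ⊆ Icc (β + κ) (a + 1 - κ) := hRsub
  -- integrability on `R`
  have hRint : ∀ y' : ℝ, IntegrableOn (gl u y') R := fun y' =>
    ((gl_cont hu y').continuousOn.integrableOn_compact isCompact_Icc).mono_set hRI
  have hIint : ∀ y' p q : ℝ, IntegrableOn (gl u y') (Icc p q) := fun y' p q =>
    (gl_cont hu y').continuousOn.integrableOn_compact isCompact_Icc
  -- (0) the sets
  have hset : ∀ r : ℝ, |r| < κ / 2 → |r| < (β - a) / 2 → |r| < s → |r| < 1 / 2 - s → ∀ y' : ℝ,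
      (∫ x in R, gl u y' x) + ∫ x in (a - r)..(β + r), gl u y' x ≤
        VV u (a - r) (s + r) y' := by
    intro r h1 h2 h3 h4 y'
    obtain ⟨h1a, h1b⟩ := abs_lt.1 h1
    obtain ⟨h2a, h2b⟩ := abs_lt.1 h2
    obtain ⟨h3a, h3b⟩ := abs_lt.1 h3
    obtain ⟨h4a, h4b⟩ := abs_lt.1 h4
    have hdisj : Disjoint R (Icc (a - r) (β + r)) := by
      rw [Set.disjoint_left]
      intro x hx hx2
      have := (hRI hx).1
      have := hx2.2
      linarith
    have hAm : MeasurableSet (R ∪ Icc (a - r) (β + r)) := hRm.union measurableSet_Icc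
    have hAsub : R ∪ Icc (a - r) (β + r) ⊆ Icc (a - r) (a - r + 1) := by
      rintro x (hx | hx)
      · have := hRI hx
        exact ⟨by linarith [this.1], by linarith [this.2]⟩
      · exact ⟨hx.1, by linarith [hx.2]⟩
    have hAvol : volume (R ∪ Icc (a - r) (β + r)) = ENNReal.ofReal (2 * (s + r)) := by
      rw [measure_union hdisj measurableSet_Icc, Real.volume_Icc]
      have hvR : volume R = ENNReal.ofReal (2 * s - (β - a)) := by
        have hfin : ENNReal.ofReal (β - a) ≠ ⊤ := ENNReal.ofReal_ne_top
        have : volume R = ENNReal.ofReal (2 * s) - ENNReal.ofReal (β - a) := by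
          rw [← hvol]
          exact (ENNReal.add_sub_cancel_right hfin).symm
        rw [this, ← ENNReal.ofReal_sub _ (by linarith)]
      have hnn : 0 ≤ 2 * s - (β - a) := by
        by_contra hneg
        push Not at hneg
        have h5 : ENNReal.ofReal (2 * s) < ENNReal.ofReal (β - a) :=
          (ENNReal.ofReal_lt_ofReal_iff (by linarith)).2 (by linarith)
        rw [← hvol] at h5
        exact absurd h5 (not_lt.2 le_add_self)
      rw [hvR, ← ENNReal.ofReal_add hnn (by linarith)]
      congr 1
      ring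
    have := hV1a (a - r) (s + r) y' (by linarith) (by linarith) _ hAm hAsub hAvol
    have hsplit : ∫ x in R ∪ Icc (a - r) (β + r), u (x + y' * I) =
        (∫ x in R, gl u y' x) + ∫ x in (a - r)..(β + r), gl u y' x := by
      change ∫ x in R ∪ Icc (a - r) (β + r), gl u y' x = _
      rw [setIntegral_union hdisj measurableSet_Icc (hRint y') (hIint y' _ _),
        intervalIntegral.integral_of_le (by linarith), integral_Icc_eq_integral_Ioc]
    rw [hsplit] at this
    exact this
  have hVV' : VV u a s y = (∫ x in R, g x) + ∫ x in a..β, g x := hVV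
  -- the eventual smallness
  have hsmall : ∀ᶠ r : ℝ in 𝓝 0, |r| < κ / 2 ∧ |r| < (β - a) / 2 ∧ |r| < s ∧ |r| < 1 / 2 - s := by
    have hc : Tendsto (fun r : ℝ => |r|) (𝓝 0) (𝓝 0) := by
      have : ContinuousAt (fun r : ℝ => |r|) 0 := continuous_abs.continuousAt
      simpa [ContinuousAt] using this
    have e1 := hc.eventually (gt_mem_nhds (show (0:ℝ) < κ / 2 by positivity))
    have e2 := hc.eventually (gt_mem_nhds (show (0:ℝ) < (β - a) / 2 by linarith))
    have e3 := hc.eventually (gt_mem_nhds (show (0:ℝ) < s by linarith))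
    have e4 := hc.eventually (gt_mem_nhds (show (0:ℝ) < 1 / 2 - s by linarith))
    filter_upwards [e1, e2, e3, e4] with r h1 h2 h3 h4
    exact ⟨h1, h2, h3, h4⟩
  -- (1) the direction `(a, s) → (a - r, s + r)`
  have hone : (deriv g β - deriv g a) - h - ε * (2 - 6) ≤ 0 := by
    refine hSD2 (fun r => ((∫ x in R, g x) + ∫ x in (a + (-1) * r)..(β + 1 * r), g x)
        - H (s + r) y - ε * ((a - r - b) ^ 2 + y ^ 2 - 3 * (s + r) ^ 2))
      (fun r => (1 * g (β + 1 * r) - (-1) * g (a + (-1) * r)) - D1 (s + r)
        - ε * (-2 * (a - r - b) - 6 * (s + r))) 0 _ ?_ ?_ ?_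
    · have hsr : Tendsto (fun r : ℝ => s + r) (𝓝 0) (𝓝 s) := by
        have : ContinuousAt (fun r : ℝ => s + r) 0 := by fun_prop
        simpa [ContinuousAt] using this
      filter_upwards [hsr.eventually hD1] with r hr
      have d1 := (hasDeriv_int hgc a β (-1) 1 r).const_add (∫ x in R, g x)
      have d2 : HasDerivAt (fun r => H (s + r) y) (D1 (s + r)) r := by
        have := hr.comp r ((hasDerivAt_id r).const_add s)
        simpa [Function.comp_def] using this
      have d3 : HasDerivAt (fun r : ℝ => ε * ((a - r - b) ^ 2 + y ^ 2 - 3 * (s + r) ^ 2))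
          (ε * (-2 * (a - r - b) - 6 * (s + r))) r := by
        have e1 : HasDerivAt (fun r : ℝ => a - r - b) (-1) r := by
          simpa using ((hasDerivAt_id r).const_sub a).sub_const b
        have e2 : HasDerivAt (fun r : ℝ => s + r) 1 r := by
          simpa using (hasDerivAt_id r).const_add s
        exact (((((e1.pow 2).add_const (y ^ 2))).sub ((e2.pow 2).const_mul 3)).const_mul ε).congr_deriv
          (by push_cast; ring)
      exact (d1.sub d2).sub d3
    · have d1 : HasDerivAt (fun r : ℝ => 1 * g (β + 1 * r) - (-1) * g (a + (-1) * r))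
          (deriv g β - deriv g a) 0 := by
        have e1 : HasDerivAt (fun r : ℝ => β + 1 * r) 1 0 := by
          simpa using (hasDerivAt_id (0:ℝ)).const_add β
        have e2 : HasDerivAt (fun r : ℝ => a + (-1) * r) (-1) 0 := by
          simpa using ((hasDerivAt_id (0:ℝ)).const_mul (-1)).const_add a
        have g1 : HasDerivAt g (deriv g β) (β + 1 * 0) := by
          simpa using (hgan β hβK).differentiableAt.hasDerivAt
        have g2 : HasDerivAt g (deriv g a) (a + (-1) * 0) := by
          simpa using (hgan a haK).differentiableAt.hasDerivAt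
        exact (((g1.comp 0 e1).const_mul 1).sub ((g2.comp 0 e2).const_mul (-1))).congr_deriv
          (by ring)
      have d2 : HasDerivAt (fun r => D1 (s + r)) h 0 := by
        have h1 : HasDerivAt D1 h (s + 0) := by simpa using hD1h
        have := h1.comp 0 ((hasDerivAt_id (0:ℝ)).const_add s)
        simpa [Function.comp_def] using this
      have d3 : HasDerivAt (fun r : ℝ => ε * (-2 * (a - r - b) - 6 * (s + r)))
          (ε * (2 - 6)) 0 := by
        have e1 : HasDerivAt (fun r : ℝ => a - r - b) (-1) 0 := by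
          simpa using ((hasDerivAt_id (0:ℝ)).const_sub a).sub_const b
        have e2 : HasDerivAt (fun r : ℝ => s + r) 1 0 := by
          simpa using (hasDerivAt_id (0:ℝ)).const_add s
        exact (((e1.const_mul (-2)).sub (e2.const_mul 6)).const_mul ε).congr_deriv
          (by ring)
      exact (d1.sub d2).sub d3
    · have hcont : Tendsto (fun r : ℝ => ((a - r, s + r, y) : ℝ × ℝ × ℝ)) (𝓝 0)
          (𝓝 (a, s, y)) := by
        have : ContinuousAt (fun r : ℝ => ((a - r, s + r, y) : ℝ × ℝ × ℝ)) 0 := by fun_prop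
        simpa [ContinuousAt] using this
      filter_upwards [hsmall, hcont.eventually hloc] with r hr hl
      have hb := hset r hr.1 hr.2.1 hr.2.2.1 hr.2.2.2 y
      have he : (∫ x in (a + (-1) * r)..(β + 1 * r), g x) = ∫ x in (a - r)..(β + r), g x := by
        congr 1 <;> ring
      have he0 : (∫ x in (a + (-1) * 0)..(β + 1 * 0), g x) = ∫ x in a..β, g x := by
        congr 1 <;> ring
      rw [he, he0]
      rw [hVV'] at hl
      have e5 : (a - 0 - b) = a - b := by ring
      have e6 : s + 0 = s := by ring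
      rw [e5, e6]
      linarith
  -- (2) the direction of `y`
  have hAm : MeasurableSet (R ∪ Icc a β) := hRm.union measurableSet_Icc
  have hAK : R ∪ Icc a β ⊆ K := union_subset hRK hIK
  obtain ⟨hint, DA, hDA, hDAc⟩ := hYD u y (R ∪ Icc a β) K hAm hK hAK hharm
  have hdisj : Disjoint R (Icc a β) := by
    rw [Set.disjoint_left]
    intro x hx hx2
    have := (hRI hx).1
    have := hx2.2
    linarith
  have htwo : (-∫ x in R ∪ Icc a β, deriv (deriv g) x) - (-h) - ε * 2 ≤ 0 := by
    refine hSD2 (fun t => (∫ x in R ∪ Icc a β, u (x + t * I)) - H s t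
        - ε * ((a - b) ^ 2 + t ^ 2 - 3 * s ^ 2))
      (fun t => DA t - D2 t - ε * (2 * t)) y _ ?_ ?_ ?_
    · filter_upwards [hDA, hD2] with t h1 h2
      have d3 : HasDerivAt (fun t : ℝ => ε * ((a - b) ^ 2 + t ^ 2 - 3 * s ^ 2))
          (ε * (2 * t)) t := by
        exact (((((hasDerivAt_id t).pow 2).const_add ((a - b) ^ 2)).sub_const
          (3 * s ^ 2)).const_mul ε).congr_deriv (by simp)
      exact (h1.sub h2).sub d3
    · have d3 : HasDerivAt (fun t : ℝ => ε * (2 * t)) (ε * 2) y := by
        simpa using (((hasDerivAt_id y).const_mul 2).const_mul ε)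
      exact (hDAc.sub hD2h).sub d3
    · have hcont : Tendsto (fun t : ℝ => ((a, s, t) : ℝ × ℝ × ℝ)) (𝓝 y)
          (𝓝 (a, s, y)) := by
        have : ContinuousAt (fun t : ℝ => ((a, s, t) : ℝ × ℝ × ℝ)) y := by fun_prop
        simpa [ContinuousAt] using this
      filter_upwards [hcont.eventually hloc] with t hl
      have hsplit : ∀ t : ℝ, ∫ x in R ∪ Icc a β, u (x + t * I) =
          (∫ x in R, gl u t x) + ∫ x in a..β, gl u t x := by
        intro t
        change ∫ x in R ∪ Icc a β, gl u t x = _
        rw [setIntegral_union hdisj measurableSet_Icc (hRint t) (hIint t _ _),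
          intervalIntegral.integral_of_le haβ.le, integral_Icc_eq_integral_Ioc]
      have h0 := hset 0 (by simpa using hκ) (by simpa using haβ) (by simpa using hs0)
        (by simp; linarith) t
      rw [show a - 0 = a by ring, show β + 0 = β by ring, show s + 0 = s by ring] at h0
      rw [hsplit t, hsplit y]
      rw [hVV'] at hl
      linarith
  -- (3)
  have hthree : ∫ x in R ∪ Icc a β, deriv (deriv g) x =
      (∫ x in R, deriv (deriv g) x) + (deriv g β - deriv g a) := by
    have i1 : IntegrableOn (fun x => deriv (deriv g) x) R := hint.mono_set subset_union_left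
    have i2 : IntegrableOn (fun x => deriv (deriv g) x) (Icc a β) :=
      hint.mono_set subset_union_right
    rw [setIntegral_union hdisj measurableSet_Icc i1 i2, integral_Icc_eq_integral_Ioc,
      ← intervalIntegral.integral_of_le haβ.le]
    congr 1
    refine intervalIntegral.integral_eq_sub_of_hasDerivAt ?_ ?_
    · intro x hx
      rw [uIcc_of_le haβ.le] at hx
      exact (hgan x (hIK hx)).deriv.differentiableAt.hasDerivAt
    · rw [intervalIntegrable_iff_integrableOn_Icc_of_le haβ.le]
      exact i2
  rw [hthree] at htwo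
  have hR' : ∫ x in R, deriv (deriv g) x ≤ 0 := hR
  nlinarith

end Pool.Agent.H356R3.LV
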