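import Pool.Agent.H356R3.LV.Defs
set_option autoImplicit false
open MeasureTheory Set Filter Topology Complex InnerProductSpace
namespace Pool.Agent.H356R3.LV

namespace CCL

theorem gl_cont {u : ℂ → ℝ} (hu : Continuous u) (y : ℝ) : Continuous (gl u y) :=
  hu.comp (Complex.continuous_ofReal.add continuous_const)

theorem gl_cd {u : ℂ → ℝ} {x y : ℝ} (h : HarmonicAt u (x + y * I)) :
    ContDiffAt ℝ 2 (gl u y) x := by
  have h1 : ContDiffAt ℝ 2 u ((x : ℂ) + y * I) := h.1
  have h2 : ContDiffAt ℝ 2 (fun t : ℝ => (t : ℂ) + y * I) x :=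
    (Complex.ofRealCLM.contDiff.contDiffAt).add contDiffAt_const
  exact ContDiffAt.comp (f := fun t : ℝ => (t : ℂ) + y * I) (g := u) x h1 h2

theorem cd_d1 {g : ℝ → ℝ} {x : ℝ} (h : ContDiffAt ℝ 2 g x) : HasDerivAt g (deriv g x) x :=
  (h.differentiableAt (by norm_num)).hasDerivAt

theorem cd_d2 {g : ℝ → ℝ} {x : ℝ} (h : ContDiffAt ℝ 2 g x) :
    HasDerivAt (deriv g) (deriv (deriv g) x) x := by
  have h1 : ContDiffAt ℝ 1 (fderiv ℝ g) x := h.fderiv_right (by norm_num)
  have h2 : ContDiffAt ℝ 1 (fun t => fderiv ℝ g t 1) x := h1.clm_apply contDiffAt_const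
  have h3 : (fun t => fderiv ℝ g t 1) = deriv g := by
    funext t
    exact fderiv_apply_one_eq_deriv
  rw [h3] at h2
  exact (h2.differentiableAt (by norm_num)).hasDerivAt

theorem int_union {R : Set ℝ} {p q p' q' : ℝ} (hpq : p ≤ q) (hpq' : p' ≤ q')
    (h1 : Disjoint R (Icc p q)) (h2 : Disjoint R (Icc p' q')) (h3 : q < p') {f : ℝ → ℝ}
    (f1 : IntegrableOn f R) (f2 : IntegrableOn f (Icc p q)) (f3 : IntegrableOn f (Icc p' q')) :
    ∫ x in R ∪ (Icc p q ∪ Icc p' q'), f x =
      (∫ x in R, f x) + (∫ x in p..q, f x) + ∫ x in p'..q', f x := by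
  have h4 : Disjoint (Icc p q) (Icc p' q') := by
    rw [Set.disjoint_left]
    intro x hx hx'
    linarith [hx.2, hx'.1]
  rw [setIntegral_union (Disjoint.union_right h1 h2) (measurableSet_Icc.union measurableSet_Icc)
    f1 (f2.union f3), setIntegral_union h4 measurableSet_Icc f2 f3,
    intervalIntegral.integral_of_le hpq, intervalIntegral.integral_of_le hpq',
    integral_Icc_eq_integral_Ioc, integral_Icc_eq_integral_Ioc, add_assoc]

theorem vol_union {R : Set ℝ} {p q p' q' : ℝ}
    (h1 : Disjoint R (Icc p q)) (h2 : Disjoint R (Icc p' q')) (h3 : q < p') :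
    volume (R ∪ (Icc p q ∪ Icc p' q')) =
      volume R + ENNReal.ofReal (q - p) + ENNReal.ofReal (q' - p') := by
  have h4 : Disjoint (Icc p q) (Icc p' q') := by
    rw [Set.disjoint_left]
    intro x hx hx'
    linarith [hx.2, hx'.1]
  rw [measure_union (Disjoint.union_right h1 h2) (measurableSet_Icc.union measurableSet_Icc),
    measure_union h4 measurableSet_Icc, Real.volume_Icc, Real.volume_Icc, add_assoc]

end CCL

open CCL in
theorem CC_proof (hSD2 : S_SD2) (hYD : S_YD) (hV1 : S_V1) : S_CC := by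
  intro u H ε b a s y α β κ R K hu hε hs hs2 hκ hH hLM haβ hβα hα1 hRm hR hvol hK hRK hK1 hK2 hharm
    hVV hcurv
  obtain ⟨h, D1, D2, hD1, hD1', hD2, hD2'⟩ := hH
  obtain ⟨hV, -⟩ := hV1 u hu
  set g := gl u y with hg
  have hgc : Continuous g := gl_cont hu y
  have hgint : ∀ p q : ℝ, IntegrableOn g (Icc p q) := fun p q =>
    (hgc.continuousOn).integrableOn_compact isCompact_Icc
  have hcd : ∀ x ∈ K, ContDiffAt ℝ 2 g x := fun x hx => gl_cd (hharm x hx)
  have kβ : β ∈ K := hK1 ⟨haβ.le, le_rfl⟩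
  have ka : a ∈ K := hK1 ⟨le_rfl, haβ.le⟩
  have kα : α ∈ K := hK2 ⟨le_rfl, hα1.le⟩
  have ka1 : a + 1 ∈ K := hK2 ⟨hα1.le, le_rfl⟩
  -- the measure of R
  have hRfin : volume R ≠ ⊤ := by
    intro h0
    rw [h0, top_add, top_add] at hvol
    exact ENNReal.ofReal_ne_top hvol.symm
  set ρ := (volume R).toReal with hρ
  have hρ0 : 0 ≤ ρ := ENNReal.toReal_nonneg
  have hRρ : volume R = ENNReal.ofReal ρ := (ENNReal.ofReal_toReal hRfin).symm
  have hρs : ρ + (β - a) + (a + 1 - α) = 2 * s := by
    rw [hRρ, ← ENNReal.ofReal_add hρ0 (by linarith), ← ENNReal.ofReal_add (by linarith)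
      (by linarith)] at hvol
    exact (ENNReal.ofReal_eq_ofReal_iff (by linarith) (by linarith)).1 hvol
  have hRint : IntegrableOn g R := (hgc.continuousOn.integrableOn_compact
    (isCompact_Icc (a := β + κ) (b := α - κ))).mono_set hR
  have hdisj : ∀ p q : ℝ, (q < β + κ ∨ α - κ < p) → Disjoint R (Icc p q) := by
    intro p q hpq
    rw [Set.disjoint_left]
    intro x hx hx'
    have h1 := hR hx
    rcases hpq with h2 | h2
    · linarith [h1.1, hx'.2]
    · linarith [h1.2, hx'.1]
  have hbnd : ∀ (a' s' y' p q p' q' : ℝ), 0 ≤ s' → s' ≤ 1 / 2 → p ≤ q → p' ≤ q' →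
      q < β + κ → α - κ < p' → q < p' → a' ≤ p → q' ≤ a' + 1 → p ≤ β + κ → α - κ ≤ q' →
      ρ + (q - p) + (q' - p') = 2 * s' →
      ∫ x in R ∪ (Icc p q ∪ Icc p' q'), u (x + y' * I) ≤ VV u a' s' y' := by
    intro a' s' y' p q p' q' h1 h2 h3 h4 h5 h6 h7 h8 h9 h10 h11 h12
    refine hV a' s' y' h1 h2 _ (hRm.union (measurableSet_Icc.union measurableSet_Icc)) ?_ ?_
    · rintro x (hx | hx | hx)
      · have := hR hx
        exact ⟨by linarith [this.1], by linarith [this.2]⟩
      · exact ⟨by linarith [hx.1], by linarith [hx.2]⟩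
      · exact ⟨by linarith [hx.1], by linarith [hx.2]⟩
    · rw [vol_union (hdisj _ _ (Or.inl h5)) (hdisj _ _ (Or.inr h6)) h7, hRρ,
        ← ENNReal.ofReal_add hρ0 (by linarith), ← ENNReal.ofReal_add (by linarith) (by linarith),
        h12]
  have hbnd' : ∀ (a' s' p q p' q' : ℝ), 0 ≤ s' → s' ≤ 1 / 2 → p ≤ q → p' ≤ q' →
      q < β + κ → α - κ < p' → q < p' → a' ≤ p → q' ≤ a' + 1 → p ≤ β + κ → α - κ ≤ q' →
      ρ + (q - p) + (q' - p') = 2 * s' →
      (∫ x in R, g x) + (∫ x in p..q, g x) + (∫ x in p'..q', g x) ≤ VV u a' s' y := by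
    intro a' s' p q p' q' h1 h2 h3 h4 h5 h6 h7 h8 h9 h10 h11 h12
    have h13 := hbnd a' s' y p q p' q' h1 h2 h3 h4 h5 h6 h7 h8 h9 h10 h11 h12
    have h14 := int_union h3 h4 (hdisj _ _ (Or.inl h5)) (hdisj _ _ (Or.inr h6)) h7 hRint
      (hgint p q) (hgint p' q')
    rw [← h14]
    exact h13
  have hVV' : VV u a s y = (∫ x in R, g x) + (∫ x in a..β, g x) + ∫ x in α..(a + 1), g x := hVV
  -- derivatives of integrals
  have dI : ∀ c t : ℝ, HasDerivAt (fun t => ∫ x in c..t, g x) (g t) t := fun c t =>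
    intervalIntegral.integral_hasDerivAt_right (hgc.intervalIntegrable _ _)
      (hgc.stronglyMeasurableAtFilter _ _) hgc.continuousAt
  have dJ : ∀ c t : ℝ, HasDerivAt (fun t => ∫ x in t..c, g x) (-g t) t := fun c t =>
    intervalIntegral.integral_hasDerivAt_left (hgc.intervalIntegrable _ _)
      (hgc.stronglyMeasurableAtFilter _ _) hgc.continuousAt
  -- the direction of s
  have e1 : deriv g β - deriv g α - h + 6 * ε ≤ 0 := by
    refine hSD2 (fun t => (∫ x in R, g x) + (∫ x in a..(β + (t - s)), g x) +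
        (∫ x in (α - (t - s))..(a + 1), g x) - H t y - ε * ((a - b) ^ 2 + y ^ 2 - 3 * t ^ 2))
      (fun t => g (β + (t - s)) + g (α - (t - s)) - D1 t + 6 * ε * t) s _ ?_ ?_ ?_
    · filter_upwards [hD1] with t ht
      have q1 : HasDerivAt (fun t => β + (t - s)) 1 t := ((hasDerivAt_id t).sub_const s).const_add β
      have q2 : HasDerivAt (fun t => α - (t - s)) (-1) t :=
        ((hasDerivAt_id t).sub_const s).const_sub α
      have q3 : HasDerivAt (fun t => ∫ x in a..(β + (t - s)), g x) (g (β + (t - s)) * 1) t :=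
        (dI a _).comp t q1
      have q4 : HasDerivAt (fun t => ∫ x in (α - (t - s))..(a + 1), g x)
          (-g (α - (t - s)) * (-1)) t := (dJ (a + 1) _).comp t q2
      have q5 : HasDerivAt (fun t => ε * ((a - b) ^ 2 + y ^ 2 - 3 * t ^ 2))
          (ε * (-(3 * ((2 : ℕ) * t ^ (2 - 1))))) t :=
        (((hasDerivAt_pow 2 t).const_mul 3).const_sub _).const_mul ε
      have q6 := ((((q3.const_add (∫ x in R, g x)).add q4).sub ht).sub q5)
      refine q6.congr_deriv ?_
      push_cast
      ring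
    · have q1 : HasDerivAt (fun t => β + (t - s)) 1 s := ((hasDerivAt_id s).sub_const s).const_add β
      have q2 : HasDerivAt (fun t => α - (t - s)) (-1) s :=
        ((hasDerivAt_id s).sub_const s).const_sub α
      have r1 : HasDerivAt g (deriv g β) (β + (s - s)) := by
        rw [sub_self, add_zero]; exact cd_d1 (hcd β kβ)
      have r2 : HasDerivAt g (deriv g α) (α - (s - s)) := by
        rw [sub_self, sub_zero]; exact cd_d1 (hcd α kα)
      have q3 : HasDerivAt (fun t => g (β + (t - s))) (deriv g β * 1) s :=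
        HasDerivAt.comp (h₂ := g) (h := fun t => β + (t - s)) s r1 q1
      have q4 : HasDerivAt (fun t => g (α - (t - s))) (deriv g α * (-1)) s :=
        HasDerivAt.comp (h₂ := g) (h := fun t => α - (t - s)) s r2 q2
      have q5 : HasDerivAt (fun t => 6 * ε * t) (6 * ε * 1) s := (hasDerivAt_id s).const_mul _
      refine (((q3.add q4).sub hD1').add q5).congr_deriv ?_
      ring
    · have hc : Tendsto (fun t : ℝ => (a, t, y)) (𝓝 s) (𝓝 (a, s, y)) :=
        (continuous_const.prodMk (continuous_id.prodMk continuous_const)).tendsto' _ _ rfl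
      have w1 : ∀ᶠ t in 𝓝 s, t < s + κ := eventually_lt_nhds (by linarith)
      have w2 : ∀ᶠ t in 𝓝 s, s - (β - a) < t := eventually_gt_nhds (by linarith)
      have w3 : ∀ᶠ t in 𝓝 s, s - (a + 1 - α) < t := eventually_gt_nhds (by linarith)
      have w4 : ∀ᶠ t in 𝓝 s, t < s + (α - β) / 2 := eventually_lt_nhds (by linarith)
      have w5 : ∀ᶠ t in 𝓝 s, 0 < t := eventually_gt_nhds hs
      have w6 : ∀ᶠ t in 𝓝 s, t < 1 / 2 := eventually_lt_nhds hs2
      have w7 : ∀ᶠ t in 𝓝 s, s - κ < t := eventually_gt_nhds (by linarith)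
      filter_upwards [hc.eventually hLM, w1, w2, w3, w4, w5, w6, w7] with t ht v1 v2 v3 v4 v5 v6 v7
      have h1 := hbnd' a t a (β + (t - s)) (α - (t - s)) (a + 1) v5.le v6.le (by linarith)
        (by linarith) (by linarith) (by linarith) (by linarith) le_rfl le_rfl (by linarith)
        (by linarith) (by linarith)
      simp only [sub_self, add_zero, sub_zero]
      rw [hVV'] at ht
      linarith
  -- the direction of a
  have e2 : -deriv g a + deriv g (a + 1) - 2 * ε ≤ 0 := by
    refine hSD2 (fun t => (∫ x in R, g x) + (∫ x in t..β, g x) +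
        (∫ x in α..(t + 1), g x) - H s y - ε * ((t - b) ^ 2 + y ^ 2 - 3 * s ^ 2))
      (fun t => -g t + g (t + 1) - 2 * ε * (t - b)) a _ ?_ ?_ ?_
    · refine Eventually.of_forall fun t => ?_
      have q2 : HasDerivAt (fun t : ℝ => t + 1) 1 t := (hasDerivAt_id t).add_const 1
      have q4 : HasDerivAt (fun t => ∫ x in α..(t + 1), g x) (g (t + 1) * 1) t :=
        (dI α _).comp t q2
      have q7 : HasDerivAt (fun t : ℝ => (t - b) ^ 2) ((2 : ℕ) * (t - b) ^ (2 - 1) * 1) t :=
        ((hasDerivAt_id t).sub_const b).pow 2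
      have q5 : HasDerivAt (fun t => ε * ((t - b) ^ 2 + y ^ 2 - 3 * s ^ 2))
          (ε * ((2 : ℕ) * (t - b) ^ (2 - 1) * 1)) t :=
        ((q7.add_const _).sub_const _).const_mul ε
      have q6 := (((((dJ β t).const_add (∫ x in R, g x)).add q4).sub_const (H s y)).sub q5)
      refine q6.congr_deriv ?_
      push_cast
      ring
    · have q2 : HasDerivAt (fun t : ℝ => t + 1) 1 a := (hasDerivAt_id a).add_const 1
      have q3 : HasDerivAt (fun t : ℝ => g (t + 1)) (deriv g (a + 1) * 1) a :=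
        HasDerivAt.comp (h₂ := g) (h := fun t => t + 1) a (cd_d1 (hcd (a + 1) ka1)) q2
      have q5 : HasDerivAt (fun t => 2 * ε * (t - b)) (2 * ε * 1) a :=
        ((hasDerivAt_id a).sub_const b).const_mul _
      refine (((cd_d1 (hcd a ka)).neg.add q3).sub q5).congr_deriv ?_
      ring
    · have hc : Tendsto (fun t : ℝ => (t, s, y)) (𝓝 a) (𝓝 (a, s, y)) :=
        (continuous_id.prodMk continuous_const).tendsto' _ _ rfl
      have w1 : ∀ᶠ t in 𝓝 a, t < β := eventually_lt_nhds haβ
      have w2 : ∀ᶠ t in 𝓝 a, α - 1 < t := eventually_gt_nhds (by linarith)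
      filter_upwards [hc.eventually hLM, w1, w2] with t ht v1 v2
      have h1 := hbnd' t s t β α (t + 1) hs.le hs2.le (by linarith)
        (by linarith) (by linarith) (by linarith) (by linarith) le_rfl le_rfl (by linarith)
        (by linarith) (by linarith)
      rw [hVV'] at ht
      linarith
  -- the direction of y
  have hAK : R ∪ (Icc a β ∪ Icc α (a + 1)) ⊆ K := by
    rintro x (hx | hx | hx)
    · exact hRK hx
    · exact hK1 hx
    · exact hK2 hx
  have hAm : MeasurableSet (R ∪ (Icc a β ∪ Icc α (a + 1))) :=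
    hRm.union (measurableSet_Icc.union measurableSet_Icc)
  obtain ⟨hint, D, hD, hD'⟩ := hYD u y _ K hAm hK hAK hharm
  have hAint : ∫ x in R ∪ (Icc a β ∪ Icc α (a + 1)), u (x + y * I) = VV u a s y := by
    rw [hVV']
    exact int_union haβ.le hα1.le (hdisj _ _ (Or.inl (by linarith)))
      (hdisj _ _ (Or.inr (by linarith))) hβα hRint (hgint _ _) (hgint _ _)
  have e3 : -(∫ x in R ∪ (Icc a β ∪ Icc α (a + 1)), deriv (deriv g) x) + h - 2 * ε ≤ 0 := by
    refine hSD2 (fun t => (∫ x in R ∪ (Icc a β ∪ Icc α (a + 1)), u (x + t * I)) - H s t -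
        ε * ((a - b) ^ 2 + t ^ 2 - 3 * s ^ 2)) (fun t => D t - D2 t - 2 * ε * t) y _ ?_ ?_ ?_
    · filter_upwards [hD, hD2] with t h1 h2
      have q5 : HasDerivAt (fun t => ε * ((a - b) ^ 2 + t ^ 2 - 3 * s ^ 2))
          (ε * ((2 : ℕ) * t ^ (2 - 1))) t :=
        (((hasDerivAt_pow 2 t).const_add _).sub_const _).const_mul ε
      refine ((h1.sub h2).sub q5).congr_deriv ?_
      push_cast
      ring
    · have q5 : HasDerivAt (fun t => 2 * ε * t) (2 * ε * 1) y := (hasDerivAt_id y).const_mul _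
      refine ((hD'.sub hD2').sub q5).congr_deriv ?_
      ring
    · have hc : Tendsto (fun t : ℝ => (a, s, t)) (𝓝 y) (𝓝 (a, s, y)) :=
        (continuous_const.prodMk (continuous_const.prodMk continuous_id)).tendsto' _ _ rfl
      filter_upwards [hc.eventually hLM] with t ht
      have h1 := hbnd a s t a β α (a + 1) hs.le hs2.le haβ.le hα1.le (by linarith) (by linarith)
        hβα le_rfl le_rfl (by linarith) (by linarith) hρs
      rw [hAint]
      linarith
  -- the integral of the second derivative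
  have hi1 : IntegrableOn (fun x => deriv (deriv g) x) R := hint.mono_set subset_union_left
  have hi2 : IntegrableOn (fun x => deriv (deriv g) x) (Icc a β) :=
    hint.mono_set (subset_union_left.trans subset_union_right)
  have hi3 : IntegrableOn (fun x => deriv (deriv g) x) (Icc α (a + 1)) :=
    hint.mono_set (subset_union_right.trans subset_union_right)
  have e4 := int_union haβ.le hα1.le (hdisj _ _ (Or.inl (by linarith)))
      (hdisj _ _ (Or.inr (by linarith))) hβα hi1 hi2 hi3
  have e5 : ∫ x in a..β, deriv (deriv g) x = deriv g β - deriv g a := by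
    refine intervalIntegral.integral_eq_sub_of_hasDerivAt (f := deriv g) ?_ ?_
    · intro x hx
      rw [uIcc_of_le haβ.le] at hx
      exact cd_d2 (hcd x (hK1 hx))
    · rw [intervalIntegrable_iff_integrableOn_Icc_of_le haβ.le]
      exact hi2
  have e6 : ∫ x in α..(a + 1), deriv (deriv g) x = deriv g (a + 1) - deriv g α := by
    refine intervalIntegral.integral_eq_sub_of_hasDerivAt (f := deriv g) ?_ ?_
    · intro x hx
      rw [uIcc_of_le hα1.le] at hx
      exact cd_d2 (hcd x (hK2 hx))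
    · rw [intervalIntegrable_iff_integrableOn_Icc_of_le hα1.le]
      exact hi3
  rw [e4, e5, e6] at e3
  linarith

end Pool.Agent.H356R3.LV
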