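import Pool.Agent.H356R3.LV.Defs
set_option autoImplicit false
open MeasureTheory Set Filter Topology Complex InnerProductSpace
namespace Pool.Agent.H356R3.LV

lemma CM1L.nonneg {E : Set ℝ} {U : ℂ → ℝ} (hU : IsU E U) (z : ℂ) : 0 ≤ U z := by
  by_cases h : z ∈ (fun x : ℝ => (x : ℂ)) '' E
  · obtain ⟨x, hx, hxz⟩ := h
    rw [← hxz]
    exact (hU.zero x hx).ge
  · exact (hU.pos z h).le

/-- a superset of prescribed measure in the window -/
lemma CM1L.superset (a w : ℝ) (P : Set ℝ) (hP : MeasurableSet P) (hPs : P ⊆ Icc a (a + 1))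
    (h1 : volume.real P ≤ w) (h2 : w ≤ 1) :
    ∃ A, MeasurableSet A ∧ P ⊆ A ∧ A ⊆ Icc a (a + 1) ∧ volume A = ENNReal.ofReal w := by
  have hfin : ∀ t : ℝ, volume (P ∪ Icc a (a + t)) ≠ ⊤ := fun t => by
    refine ((measure_union_le _ _).trans_lt ?_).ne
    exact ENNReal.add_lt_top.2 ⟨(measure_mono hPs).trans_lt (by simp [Real.volume_Icc]), by
      simp [Real.volume_Icc]⟩
  set g : ℝ → ℝ := fun t => volume.real (P ∪ Icc a (a + t)) with hg
  have hlip : LipschitzWith 1 g := by
    refine LipschitzWith.of_le_add_mul 1 fun t t' => ?_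
    simp only [NNReal.coe_one, one_mul, hg]
    have hsub : P ∪ Icc a (a + t) ⊆ (P ∪ Icc a (a + t')) ∪ Icc (a + t') (a + t) := by
      rintro x (hx | hx)
      · exact Or.inl (Or.inl hx)
      · rcases le_total x (a + t') with h | h
        · exact Or.inl (Or.inr ⟨hx.1, h⟩)
        · exact Or.inr ⟨h, hx.2⟩
    have h3 : volume ((P ∪ Icc a (a + t')) ∪ Icc (a + t') (a + t)) ≠ ⊤ := by
      refine ((measure_union_le _ _).trans_lt ?_).ne
      exact ENNReal.add_lt_top.2 ⟨(hfin t').lt_top, by simp [Real.volume_Icc]⟩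
    have h4 := measureReal_mono hsub h3
    have h5 := measureReal_union_le (μ := volume) (P ∪ Icc a (a + t')) (Icc (a + t') (a + t))
    have h6 : volume.real (Icc (a + t') (a + t)) ≤ dist t t' := by
      rw [Real.volume_real_Icc, Real.dist_eq]
      have := le_abs_self (t - t')
      have := abs_nonneg (t - t')
      apply max_le <;> linarith
    linarith
  have hcont := hlip.continuous
  have h0 : g 0 ≤ w := by
    simp only [hg, add_zero]
    have : volume.real (P ∪ Icc a a) ≤ volume.real P + volume.real (Icc a a) :=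
      measureReal_union_le _ _
    have h7 : volume.real (Icc a a) = 0 := by rw [Real.volume_real_Icc]; simp
    linarith
  have h1' : w ≤ g 1 := by
    have : P ∪ Icc a (a + 1) = Icc a (a + 1) := union_eq_self_of_subset_left hPs
    simp only [hg, this, Real.volume_real_Icc]
    have : a + 1 - a = 1 := by ring
    rw [this]
    simpa using h2
  obtain ⟨t, ht, hgt⟩ := intermediate_value_Icc (zero_le_one' ℝ) hcont.continuousOn ⟨h0, h1'⟩
  refine ⟨P ∪ Icc a (a + t), hP.union measurableSet_Icc, subset_union_left,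
    union_subset hPs (Icc_subset_Icc le_rfl (by linarith [ht.2])), ?_⟩
  rw [← hgt]
  simp only [hg, Measure.real]
  rw [ENNReal.ofReal_toReal (hfin t)]

theorem CM1_proof (hTT1 : S_TT1) (hV1 : S_V1) : S_CM1 := by
  intro δ E U γ L hδ hE hU hγδ hγ0 hγ1 hL hex
  obtain ⟨-, -, -, hTconst, hTinc, -, -⟩ := hTT1 γ hγ0 hγ1
  obtain ⟨hVle, -, -, -, -, -⟩ := hV1 U hU.cont
  by_cases hl : L - Tt γ (1 / 2) 0 < 0
  · obtain ⟨a, s, y, h0, h1, h2⟩ := hex
    exact ⟨a, s, y, VV U a s y - Tt γ s y, by linarith, h0, h1, le_rfl, by linarith⟩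
  push Not at hl
  have hδ1 : δ ≤ 1 := by
    have h1 := hE.meas 0
    have h2 : volume (E ∩ Icc (0 : ℝ) (0 + 1)) ≤ ENNReal.ofReal 1 := by
      refine (measure_mono inter_subset_right).trans ?_
      rw [Real.volume_Icc]; simp
    exact (ENNReal.ofReal_le_ofReal_iff zero_le_one).1 (h1.trans h2)
  set s : ℝ := ((1 - δ) + γ) / 4 with hs
  have hs0 : 0 ≤ s := by rw [hs]; linarith
  have hs2 : s < γ / 2 := by rw [hs]; linarith
  have hs1 : s ≤ 1 / 2 := by linarith
  have hT1 := hTinc s (γ / 2) hs0 hs2 le_rfl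
  have hT2 := hTconst (γ / 2) le_rfl (by linarith)
  set c : ℝ := (Tt γ (γ / 2) 0 - Tt γ s 0) / 2 with hc
  have hc0 : 0 < c := by rw [hc]; linarith
  obtain ⟨-, ⟨a, rfl⟩, ha⟩ := (lt_isLUB_iff hL).1 (show L - c < L by linarith)
  simp only at ha
  have hUc : Continuous (fun x : ℝ => U (x : ℂ)) := hU.cont.comp Complex.continuous_ofReal
  set P : Set ℝ := {x | x ∈ Icc a (a + 1) ∧ 0 < U (x : ℂ)} with hP
  have hPm : MeasurableSet P :=
    measurableSet_Icc.inter (measurableSet_lt measurable_const hUc.measurable)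
  have hPs : P ⊆ Icc a (a + 1) := fun x hx => hx.1
  have hPE : Disjoint P (E ∩ Icc a (a + 1)) := by
    rw [Set.disjoint_left]
    rintro x ⟨_, hx⟩ ⟨hxE, _⟩
    rw [hU.zero x hxE] at hx
    exact lt_irrefl _ hx
  have hPv : volume.real P ≤ 2 * s := by
    have hEm : MeasurableSet (E ∩ Icc a (a + 1)) := hE.closed.measurableSet.inter measurableSet_Icc
    have h1 : volume P + volume (E ∩ Icc a (a + 1)) ≤ 1 := by
      rw [← measure_union hPE hEm]
      refine (measure_mono (union_subset hPs inter_subset_right)).trans ?_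
      rw [Real.volume_Icc]; simp
    have h2 := hE.meas a
    have h3 : volume P + ENNReal.ofReal δ ≤ 1 := (add_le_add le_rfl h2).trans h1
    have hPf : volume P ≠ ⊤ := ((measure_mono hPs).trans_lt (by simp [Real.volume_Icc])).ne
    have h4 : volume.real P + δ ≤ 1 := by
      have h5 := ENNReal.toReal_mono ENNReal.one_ne_top h3
      rw [ENNReal.toReal_add hPf ENNReal.ofReal_ne_top, ENNReal.toReal_ofReal hδ.le,
        ENNReal.toReal_one] at h5
      exact h5
    rw [hs]
    linarith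
  obtain ⟨A, hAm, hPA, hAs, hAv⟩ := CM1L.superset a (2 * s) P hPm hPs hPv (by linarith)
  have hV := hVle a s 0 hs0 hs1 A hAm hAs hAv
  simp only [Complex.ofReal_zero, zero_mul, add_zero] at hV
  have hint : ∫ x in a..(a + 1), U (x : ℂ) = ∫ x in A, U (x : ℂ) := by
    rw [intervalIntegral.integral_of_le (by linarith), ← integral_Icc_eq_integral_Ioc]
    refine setIntegral_eq_of_subset_of_forall_sdiff_eq_zero measurableSet_Icc hAs fun x hx => ?_
    by_contra hne
    apply hx.2
    apply hPA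
    exact ⟨hx.1, lt_of_le_of_ne (CM1L.nonneg hU _) (Ne.symm hne)⟩
  refine ⟨a, s, 0, c, hc0, hs0, hs1, ?_, ?_⟩
  · rw [hint] at ha
    have : 2 * c = Tt γ (γ / 2) 0 - Tt γ s 0 := by rw [hc]; ring
    linarith
  · rw [hint] at ha
    have : 2 * c = Tt γ (γ / 2) 0 - Tt γ s 0 := by rw [hc]; ring
    linarith

end Pool.Agent.H356R3.LV
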