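import Pool.Agent.H356R3.LV.Defs
set_option autoImplicit false
open MeasureTheory Set Filter Topology Complex InnerProductSpace
namespace Pool.Agent.H356R3.LV

lemma CM2L.nonneg {E : Set ℝ} {U : ℂ → ℝ} (hU : IsU E U) (z : ℂ) : 0 ≤ U z := by
  by_cases h : z ∈ (fun x : ℝ => (x : ℂ)) '' E
  · obtain ⟨x, hx, hxz⟩ := h
    rw [← hxz]
    exact (hU.zero x hx).ge
  · exact (hU.pos z h).le

theorem CM2_proof (hTT1 : S_TT1) (hV1 : S_V1) (hV2 : S_V2) (hGROW : S_GROW) : S_CM2 := by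
  intro E U γ L M b s₁ y₁ c ε hE hU hγ0 hγ1 hM hL hc hs0 hs1 hF1 hF2 hε hεc
  obtain ⟨hTc, hTlow, hThalf, hTconst, -, hTzero, -⟩ := hTT1 γ hγ0 hγ1
  obtain ⟨-, -, hVz, hVh, hVM, hVn⟩ := hV1 U hU.cont
  have hVc := hV2 U hU.cont
  obtain ⟨hG1, hG2⟩ := hGROW E U hE hU M hM
  have hG2' := hG2 L hL
  have hM0 : 0 ≤ M := (CM2L.nonneg hU ((0 : ℝ) : ℂ)).trans (hM 0)
  set F : ℝ × ℝ × ℝ → ℝ := fun p => VV U p.1 p.2.1 p.2.2 - Tt γ p.2.1 p.2.2 with hFdef
  set f : ℝ × ℝ × ℝ → ℝ := fun p => F p - ε * ((p.1 - b) ^ 2 + p.2.2 ^ 2 - 3 * p.2.1 ^ 2) with hfdef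
  set Ω : Set (ℝ × ℝ × ℝ) := {p | 0 ≤ p.2.1 ∧ p.2.1 ≤ 1 / 2} with hΩ
  have hfc : ContinuousOn f Ω := by
    have h1 : ContinuousOn (fun p : ℝ × ℝ × ℝ => Tt γ p.2.1 p.2.2) Ω :=
      (hTc.comp (continuous_snd (X := ℝ) (Y := ℝ × ℝ))).continuousOn
    have h2 : ContinuousOn (fun p : ℝ × ℝ × ℝ =>
        ε * ((p.1 - b) ^ 2 + p.2.2 ^ 2 - 3 * p.2.1 ^ 2)) Ω :=
      Continuous.continuousOn (by fun_prop)
    exact (hVc.sub h1).sub h2
  have hFup : ∀ p ∈ Ω, F p ≤ M := by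
    rintro ⟨a, s, y⟩ ⟨h0, h1⟩
    simp only at h0 h1
    have h2 : VV U a s y ≤ 2 * s * (|y| + M) := by
      refine hVM a s y (|y| + M) h0 h1 fun x => ?_
      have := hG1 (x + y * I)
      simpa using this
    have h3 := hTlow s y h0
    simp only [hFdef]
    nlinarith
  have hfup : ∀ p ∈ Ω, f p ≤ M + ε * (3 / 4) - ε * ((p.1 - b) ^ 2 + p.2.2 ^ 2) := by
    intro p hp
    have h1 := hFup p hp
    have h2 : p.2.1 ^ 2 ≤ 1 / 4 := by
      have := hp.1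
      have := hp.2
      nlinarith
    simp only [hfdef]
    nlinarith
  set R : ℝ := |y₁| + M / ε + 1 with hR
  have hMε : 0 ≤ M / ε := div_nonneg hM0 hε.le
  have hR1 : 1 ≤ R := by
    have := abs_nonneg y₁
    rw [hR]; linarith
  have hR2 : M + ε ≤ ε * R ^ 2 := by
    have h1 : R ≤ R ^ 2 := by nlinarith
    have h2 : M / ε + 1 ≤ R := by
      have := abs_nonneg y₁
      rw [hR]; linarith
    calc M + ε = ε * (M / ε + 1) := by field_simp
      _ ≤ ε * R ^ 2 := by gcongr; linarith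
  set K : Set (ℝ × ℝ × ℝ) := Icc (b - R) (b + R) ×ˢ Icc (0 : ℝ) (1 / 2) ×ˢ Icc (-R) R with hK
  have hKc : IsCompact K := isCompact_Icc.prod (isCompact_Icc.prod isCompact_Icc)
  have hKΩ : K ⊆ Ω := fun p hp => hp.2.1
  have hP1 : ((b, s₁, y₁) : ℝ × ℝ × ℝ) ∈ K := by
    have hy := abs_le.1 (show |y₁| ≤ R by rw [hR]; linarith)
    exact ⟨⟨by simp only; linarith, by simp only; linarith⟩, ⟨hs0, hs1⟩, hy⟩
  obtain ⟨P0, hP0K, hP0max⟩ := hKc.exists_isMaxOn ⟨_, hP1⟩ (hfc.mono hKΩ)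
  have hfP1 : F (b, s₁, y₁) - ε * y₁ ^ 2 ≤ f (b, s₁, y₁) := by
    simp only [hfdef]
    have : 0 ≤ ε * s₁ ^ 2 := by positivity
    nlinarith
  have hε1 : ε * y₁ ^ 2 ≤ c / 2 - ε := by nlinarith
  have hpos1 : 0 < f (b, s₁, y₁) := by
    have : c ≤ F (b, s₁, y₁) := hF1
    linarith
  have hmaxΩ : ∀ p ∈ Ω, f p ≤ f P0 := by
    intro p hp
    by_cases hpK : p ∈ K
    · exact hP0max hpK
    · have h1 : f p ≤ 0 := by
        refine (hfup p hp).trans ?_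
        have h2 : R ^ 2 ≤ (p.1 - b) ^ 2 + p.2.2 ^ 2 := by
          by_contra hcon
          push Not at hcon
          apply hpK
          have h3 : |p.1 - b| ≤ R := by
            apply abs_le_of_sq_le_sq _ (by linarith)
            nlinarith [sq_nonneg p.2.2]
          have h4 : |p.2.2| ≤ R := by
            apply abs_le_of_sq_le_sq _ (by linarith)
            nlinarith [sq_nonneg (p.1 - b)]
          rw [abs_le] at h3 h4
          exact ⟨⟨by linarith [h3.1], by linarith [h3.2]⟩, hp, h4⟩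
        nlinarith
      exact h1.trans (hpos1.le.trans (hP0max hP1))
  obtain ⟨a, s, y⟩ := P0
  have hs : 0 ≤ s ∧ s ≤ 1 / 2 := hKΩ hP0K
  have hP0P1 : f (b, s₁, y₁) ≤ f (a, s, y) := hP0max hP1
  have hFP0 : F (b, s₁, y₁) - c / 2 ≤ F (a, s, y) := by
    have h1 : f (a, s, y) ≤ F (a, s, y) + ε * (3 / 4) := by
      simp only [hfdef]
      have h2 : s ^ 2 ≤ 1 / 4 := by nlinarith [hs.1, hs.2]
      have h3 : 0 ≤ ε * ((a - b) ^ 2 + y ^ 2) := by positivity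
      nlinarith
    linarith
  have hFc : c / 2 ≤ F (a, s, y) := by
    have : c ≤ F (b, s₁, y₁) := hF1
    linarith
  have hFl : L - Tt γ (1 / 2) 0 + c / 2 ≤ F (a, s, y) := by
    have : L - Tt γ (1 / 2) 0 + c ≤ F (b, s₁, y₁) := hF2
    linarith
  have hs0' : 0 < s := by
    rcases hs.1.eq_or_lt with h | h
    · exfalso
      rw [← h] at hFc
      simp only [hFdef, hVz, hTzero] at hFc
      linarith
    · exact h
  have hs1' : s < 1 / 2 := by
    rcases hs.2.eq_or_lt with h | h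
    · exfalso
      rw [h] at hFl
      have h1 := hThalf y
      have h2 := hG2' a y
      simp only [hFdef] at hFl
      rw [hVh] at hFl
      linarith
    · exact h
  have hslit : y ≠ 0 ∨ s < γ / 2 := by
    by_contra hcon
    push Not at hcon
    obtain ⟨hy, hsγ⟩ := hcon
    rw [hy] at hFl
    have h1 := hTconst s hsγ hs.2
    have h2 := hVn a s 0 hs.1 hs.2 (CM2L.nonneg hU)
    have h3 := hL a
    simp only [Complex.ofReal_zero, zero_mul, add_zero] at h2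
    simp only [hFdef] at hFl
    linarith
  refine ⟨a, s, y, hs0', hs1', hslit, ?_, hFl⟩
  unfold LocMax
  have hopen : ∀ᶠ p : ℝ × ℝ × ℝ in 𝓝 (a, s, y), p ∈ Ω := by
    have h1 : ∀ᶠ p : ℝ × ℝ × ℝ in 𝓝 (a, s, y), p.2.1 ∈ Ioo (0 : ℝ) (1 / 2) := by
      have hcont : ContinuousAt (fun p : ℝ × ℝ × ℝ => p.2.1) (a, s, y) := by fun_prop
      exact hcont.eventually_mem (isOpen_Ioo.mem_nhds ⟨hs0', hs1'⟩)
    filter_upwards [h1] with p hp
    exact ⟨hp.1.le, hp.2.le⟩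
  filter_upwards [hopen] with p hp
  exact hmaxΩ p hp

end Pool.Agent.H356R3.LV
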