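import Pool.Agent.H356R3.LV.Defs

set_option autoImplicit false
open MeasureTheory Set Filter Topology Complex InnerProductSpace

namespace Pool.Agent.H356R3.LV

namespace CM3L

theorem nonneg {E : Set ℝ} {U : ℂ → ℝ} (hU : IsU E U) (z : ℂ) : 0 ≤ U z := by
  by_cases h : z ∈ (fun x : ℝ => (x : ℂ)) '' E
  · obtain ⟨x, hx, rfl⟩ := h
    exact (hU.zero x hx).ge
  · exact (hU.pos z h).le

/-- choice of the lower bound for `Ut` -/
theorem exists_k (hA : S_UTA) (hR : S_UTR) (hTT1 : S_TT1) {γ c : ℝ} (h0 : 0 < γ) (h1 : γ < 1)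
    (hc : 0 < c) : ∃ k > 0, ∀ t : ℝ, 0 ≤ t → t ≤ γ / 2 → Tt γ t 0 ≤ Tt γ (γ / 2) 0 - c →
      k ≤ Ut γ (t : ℂ) := by
  have hUt := hA γ h0 h1
  obtain ⟨hTc, -⟩ := hTT1 γ h0 h1
  have hpr : Continuous (fun t : ℝ => ((t, (0 : ℝ)) : ℝ × ℝ)) :=
    continuous_id.prodMk continuous_const
  have hTc' : Continuous (fun t : ℝ => Tt γ t 0) := by
    show Continuous ((fun p : ℝ × ℝ => Tt γ p.1 p.2) ∘ (fun t : ℝ => ((t, (0 : ℝ)) : ℝ × ℝ)))
    exact Continuous.comp hTc hpr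
  have hUc : Continuous (fun t : ℝ => Ut γ (t : ℂ)) := hUt.cont.comp Complex.continuous_ofReal
  let Q : Set ℝ := Icc 0 (γ / 2) ∩ {t | Tt γ t 0 ≤ Tt γ (γ / 2) 0 - c}
  have hQc : IsCompact Q := isCompact_Icc.inter_right (isClosed_le hTc' continuous_const)
  have hpos : ∀ t ∈ Q, 0 < Ut γ (t : ℂ) := by
    intro t ht
    apply hUt.pos
    rintro ⟨x, hx, hxt⟩
    have hxt' : x = t := Complex.ofReal_injective hxt
    subst hxt'
    have hx1 : 0 ≤ x := ht.1.1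
    have hx2 : x ≤ γ / 2 := ht.1.2
    have h2 := ((hR γ h0 h1).2 x (by rw [abs_of_nonneg hx1]; linarith)).1 hx
    rw [abs_of_nonneg hx1] at h2
    have h3 : x = γ / 2 := le_antisymm hx2 h2
    have h4 : Tt γ x 0 ≤ Tt γ (γ / 2) 0 - c := ht.2
    rw [h3] at h4
    linarith
  by_cases hQ : Q.Nonempty
  · obtain ⟨t0, ht0, hmin⟩ := hQc.exists_isMinOn hQ hUc.continuousOn
    refine ⟨Ut γ (t0 : ℂ), hpos t0 ht0, ?_⟩
    intro t ht1 ht2 ht3
    exact hmin (⟨⟨ht1, ht2⟩, ht3⟩ : t ∈ Q)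
  · refine ⟨1, one_pos, ?_⟩
    intro t ht1 ht2 ht3
    exact absurd ⟨t, ⟨⟨ht1, ht2⟩, ht3⟩⟩ hQ

end CM3L

theorem CM3_proof (hA : S_UTA) (hR : S_UTR) (hTT1 : S_TT1) (hTT2 : S_TT2) (hV1 : S_V1)
    (hV3 : S_V3) (hLOC : S_LOC) (hLOCC : S_LOCC) (hCST : S_CST) (hEXC : S_EXC) : S_CM3 := by
  intro δ E U γ L c hδ hE hU hγ0 hγ1 hL hc
  obtain ⟨k, hk0, hk⟩ := CM3L.exists_k hA hR hTT1 hγ0 hγ1 hc
  refine ⟨k / 2, by positivity, ?_⟩
  intro ε b a s y hε hεk hs0 hs1 hys hmax hbig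
  obtain ⟨-, -, -, hT4, -, -, hT7⟩ := hTT1 γ hγ0 hγ1
  have hH : HarmH (Tt γ) s y := by
    obtain ⟨h, hh1, D, hD1, hD2⟩ := hTT2 γ hγ0 hγ1 s y hs0 hs1 hys
    exact ⟨h, fun s' => 2 * Ut γ (s' + y * I), D, Eventually.of_forall fun s' => hT7 s' y, hh1,
      hD1, hD2⟩
  obtain ⟨lam, A, hAm, hAs, hAv, hAe, hA1, hA2⟩ := hV3 U hU.cont a s y hs0 hs1
  by_cases hcase : y = 0 ∧ lam ≤ 0
  · obtain ⟨rfl, hlam⟩ := hcase
    have hsγ : s < γ / 2 := by
      rcases hys with h | h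
      · exact absurd rfl h
      · exact h
    have hz : ∀ x : ℝ, (x : ℂ) + ((0 : ℝ) : ℂ) * I = (x : ℂ) := fun x => by simp
    simp only [hz] at hAe hA1 hA2
    have hnn := CM3L.nonneg hU
    have hzero : ∀ x ∈ Icc a (a + 1) \ A, U (x : ℂ) = 0 := fun x hx =>
      le_antisymm ((hA2 x hx).trans hlam) (hnn _)
    have hVint : VV U a s 0 = ∫ x in a..(a + 1), U (x : ℂ) := by
      rw [hAe, intervalIntegral.integral_of_le (by linarith), ← integral_Icc_eq_integral_Ioc]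
      exact (setIntegral_eq_of_subset_of_forall_sdiff_eq_zero measurableSet_Icc hAs hzero).symm
    have hvol : volume {x : ℝ | x ∈ Icc a (a + 1) ∧ 0 < U (x : ℂ)} ≤ ENNReal.ofReal (2 * s) := by
      rw [← hAv]
      refine measure_mono ?_
      rintro x ⟨hx1, hx2⟩
      by_contra hxA
      exact absurd (hzero x ⟨hx1, hxA⟩) hx2.ne'
    have hEne : ∃ x ∈ Icc a (a + 1), U (x : ℂ) = 0 := by
      have h1 := hE.meas a
      have h2 : (E ∩ Icc a (a + 1)).Nonempty := by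
        by_contra hne
        rw [Set.not_nonempty_iff_eq_empty] at hne
        rw [hne, measure_empty] at h1
        have := ENNReal.ofReal_pos.2 hδ
        exact absurd h1 (not_le.2 this)
      obtain ⟨x, hx1, hx2⟩ := h2
      exact ⟨x, hx2, hU.zero x hx1⟩
    obtain ⟨s₁, hs₁, hex⟩ := hEXC U a s hU.cont hnn hs0 hs1 hEne hvol (k / 8) (by positivity)
    -- the local maximum along `(a, s', 0)`
    have hlm : ∀ᶠ s' : ℝ in 𝓝 s, VV U a s' 0 - Tt γ s' 0 -
        ε * ((a - b) ^ 2 + (0 : ℝ) ^ 2 - 3 * s' ^ 2) ≤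
        VV U a s 0 - Tt γ s 0 - ε * ((a - b) ^ 2 + (0 : ℝ) ^ 2 - 3 * s ^ 2) := by
      have ht : Tendsto (fun s' : ℝ => ((a, s', (0 : ℝ)) : ℝ × ℝ × ℝ)) (𝓝 s) (𝓝 (a, s, 0)) :=
        (Continuous.prodMk continuous_const
          (continuous_id.prodMk continuous_const)).tendsto s
      exact ht.eventually hmax
    have hslope : ∀ᶠ s' : ℝ in 𝓝[<] s,
        slope (fun s' => Tt γ s' 0) s s' ≤ 2 * (k / 8) + 6 * ε * s := by
      have h1 : ∀ᶠ s' : ℝ in 𝓝[<] s, s' ∈ Ioo s₁ s := Ioo_mem_nhdsLT hs₁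
      filter_upwards [h1, hlm.filter_mono nhdsWithin_le_nhds] with s' h2 h3
      have h4 := hex s' h2
      have h5 : 0 < s - s' := by linarith [h2.2]
      rw [slope_def_field, div_le_iff_of_neg (by linarith)]
      rw [hVint] at h3
      have h6 : 3 * ε * (s - s') * (s + s') ≤ 6 * ε * s * (s - s') := by
        have : s + s' ≤ 2 * s := by linarith [h2.2]
        nlinarith [mul_pos hε h5]
      nlinarith [h3, h4, h6]
    have hder := (hT7 s 0)
    have hlim : Tendsto (slope (fun s' => Tt γ s' 0) s) (𝓝[<] s)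
        (𝓝 (2 * Ut γ (s + (0 : ℝ) * I))) := by
      have := hasDerivAt_iff_tendsto_slope.1 hder
      exact this.mono_left (nhdsWithin_mono _ (fun x hx => ne_of_lt hx))
    have hle : 2 * Ut γ (s + (0 : ℝ) * I) ≤ 2 * (k / 8) + 6 * ε * s :=
      le_of_tendsto hlim hslope
    have hkk : k ≤ Ut γ (s : ℂ) := by
      refine hk s hs0.le hsγ.le ?_
      have h1 := hL a
      rw [hVint] at hbig
      rw [hT4 (γ / 2) le_rfl (by linarith)]
      linarith
    rw [hz] at hle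
    have h3 : 6 * ε * s ≤ 3 * ε := by nlinarith
    linarith
  · have hharm : ∀ x ∈ Icc a (a + 1), lam ≤ U (x + y * I) → HarmonicAt U (x + y * I) := by
      intro x _ hx
      apply hU.harm
      rintro ⟨x', hx', he⟩
      have hy0 : y = 0 := by
        have := congrArg Complex.im he
        simpa using this.symm
      have hx0 : U (x + y * I) = 0 := by
        rw [← he]
        exact hU.zero x' hx'
      exact hcase ⟨hy0, hx.trans hx0.le⟩
    by_cases hloc : ∃ x ∈ Icc a (a + 1), ∀ᶠ t in 𝓝 x, gl U y t = lam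
    · obtain ⟨x, _, hx⟩ := hloc
      obtain ⟨h1, h2⟩ := hCST δ E U hδ hE hU x y lam hx
      by_cases hy : y = 0
      · exact hcase ⟨hy, h2 hy⟩
      · refine hLOCC U (Tt γ) ε b a s y lam hU.cont hε hs0 hs1 hH hmax (fun x => h1 hy x) ?_
        intro x
        apply hU.harm
        rintro ⟨x', hx', he⟩
        have := congrArg Complex.im he
        exact hy (by simpa using this.symm)
    · exact hLOC U (Tt γ) ε b a s y lam A hU.cont hε hs0 hs1 hH hmax hAm hAs hAv hAe hA1 hA2 hharm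
        (fun x hx h => hloc ⟨x, hx, h⟩)

end Pool.Agent.H356R3.LV
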