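import Pool.Agent.H356R3.LV.Defs

set_option autoImplicit false
open MeasureTheory Set Filter Topology Complex InnerProductSpace

namespace Pool.Agent.H356R3.LV

namespace CMPL

theorem window_le {E : Set ℝ} {U : ℂ → ℝ} (hU : IsU E U) {M : ℝ} (hM : ∀ x : ℝ, U x ≤ M)
    (a : ℝ) : ∫ x in a..(a + 1), U (x : ℂ) ≤ M := by
  have hc : Continuous (fun x : ℝ => U (x : ℂ)) := hU.cont.comp Complex.continuous_ofReal
  have h1 : ∫ x in a..(a + 1), U (x : ℂ) ≤ ∫ _ in a..(a + 1), M := by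
    apply intervalIntegral.integral_mono_on (by linarith) (hc.intervalIntegrable _ _)
      (continuous_const.intervalIntegrable _ _)
    intro x _
    exact hM x
  refine h1.trans ?_
  rw [intervalIntegral.integral_const]
  simp

end CMPL

theorem CMP_proof (hBDD : S_BDD) (hTT1 : S_TT1) (h1 : S_CM1) (h2 : S_CM2) (h3 : S_CM3) :
    S_CMP := by
  intro δ E U γ hδ hE hU hγ hγ0 hγ1 a s y hs0 hs1
  by_contra hcon
  push Not at hcon
  obtain ⟨M, hM⟩ := hBDD δ E U hδ hE hU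
  have hbdd : BddAbove (range fun a : ℝ => ∫ x in a..(a + 1), U (x : ℂ)) := by
    refine ⟨M, ?_⟩
    rintro _ ⟨a, rfl⟩
    exact CMPL.window_le hU hM a
  have hne : (range fun a : ℝ => ∫ x in a..(a + 1), U (x : ℂ)).Nonempty := range_nonempty _
  have hL := isLUB_csSup hne hbdd
  set L := sSup (range fun a : ℝ => ∫ x in a..(a + 1), U (x : ℂ)) with hLdef
  have hLle : ∀ a : ℝ, ∫ x in a..(a + 1), U (x : ℂ) ≤ L := fun a => hL.1 ⟨a, rfl⟩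
  obtain ⟨b, s₁, y₁, c, hc, hs₁0, hs₁1, hc1, hc2⟩ :=
    h1 δ E U γ L hδ hE hU hγ hγ0 hγ1 hL ⟨a, s, y, hs0, hs1, hcon⟩
  obtain ⟨ε₀, hε₀, h4⟩ := h3 δ E U γ L (c / 2) hδ hE hU hγ0 hγ1 hLle (by linarith)
  have hy : 0 < y₁ ^ 2 + 1 := by positivity
  obtain ⟨ε, hε, hε1, hε2⟩ : ∃ ε : ℝ, 0 < ε ∧ ε < ε₀ ∧ ε * (y₁ ^ 2 + 1) ≤ c / 2 := by
    refine ⟨min (ε₀ / 2) (c / 2 / (y₁ ^ 2 + 1)), by positivity, ?_, ?_⟩
    · exact (min_le_left _ _).trans_lt (by linarith)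
    · have : min (ε₀ / 2) (c / 2 / (y₁ ^ 2 + 1)) * (y₁ ^ 2 + 1) ≤
          c / 2 / (y₁ ^ 2 + 1) * (y₁ ^ 2 + 1) :=
        mul_le_mul_of_nonneg_right (min_le_right _ _) hy.le
      rwa [div_mul_cancel₀ _ hy.ne'] at this
  obtain ⟨a', s', y', hs'0, hs'1, hy', hloc, hbig⟩ :=
    h2 E U γ L M b s₁ y₁ c ε hE.closed hU hγ0 hγ1 hM hLle hc hs₁0 hs₁1 hc1 hc2 hε hε2
  exact h4 ε b a' s' y' hε hε1 hs'0 hs'1 hy' hloc hbig

end Pool.Agent.H356R3.LV
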