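import Pool.Agent.H356R3.LV.Defs
set_option autoImplicit false
open MeasureTheory Set Filter Topology Complex InnerProductSpace
namespace Pool.Agent.H356R3.LV
namespace CSTL

lemma analyticAt_gl {U : ℂ → ℝ} {y t : ℝ} (h : HarmonicAt U ((t : ℂ) + y * I)) :
    AnalyticAt ℝ (gl U y) t := by
  have h1 : AnalyticAt ℝ U ((fun x : ℝ => (x : ℂ) + y * I) t) := HarmonicAt.analyticAt h
  have h2 : AnalyticAt ℝ (fun x : ℝ => (x : ℂ) + y * I) t := by
    have := (Complex.ofRealCLM.analyticAt t)
    exact this.add analyticAt_const
  exact AnalyticAt.comp (g := U) (f := fun x : ℝ => (x : ℂ) + y * I) h1 h2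

end CSTL

theorem CST_proof : S_CST := by
  intro δ E U hδ hE hU x y lam hx
  constructor
  · intro hy t
    have hA : AnalyticOnNhd ℝ (gl U y) univ := by
      intro s _
      apply CSTL.analyticAt_gl
      apply hU.harm
      rintro ⟨e, he, h⟩
      have := congrArg Complex.im h
      simp at this
      exact hy this.symm
    have := hA.eqOn_of_preconnected_of_eventuallyEq (analyticOnNhd_const (v := lam))
      isPreconnected_univ (mem_univ x) hx
    exact this (mem_univ t)
  · intro hy
    subst hy
    by_contra hlam
    push Not at hlam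
    have hxval : gl U 0 x = lam := hx.self_of_nhds
    have hxE : x ∉ E := by
      intro h
      have := hU.zero x h
      simp [gl] at hxval
      linarith
    have hne : (E ∩ Icc x (x+1)).Nonempty := by
      by_contra h
      rw [not_nonempty_iff_eq_empty] at h
      have h2 := hE.meas x
      rw [h, measure_empty] at h2
      have h3 : ENNReal.ofReal δ = 0 := le_antisymm h2 (zero_le)
      rw [ENNReal.ofReal_eq_zero] at h3
      linarith
    have hne' : (E ∩ Ici x).Nonempty := by
      obtain ⟨e, he1, he2⟩ := hne
      exact ⟨e, he1, he2.1⟩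
    have hbdd : BddBelow (E ∩ Ici x) := ⟨x, fun e he => he.2⟩
    have hcl : IsClosed (E ∩ Ici x) := hE.closed.inter isClosed_Ici
    set q := sInf (E ∩ Ici x) with hq
    have hqm : q ∈ E ∩ Ici x := hcl.csInf_mem hne' hbdd
    have hxq : x < q := lt_of_le_of_ne hqm.2 (fun h => hxE (h ▸ hqm.1))
    have hA : AnalyticOnNhd ℝ (gl U 0) (Ico x q) := by
      intro s hs
      apply CSTL.analyticAt_gl
      apply hU.harm
      rintro ⟨e, he, h⟩
      have h2 := congrArg Complex.re h
      simp at h2
      have : s ∈ E ∩ Ici x := ⟨h2 ▸ he, hs.1⟩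
      exact absurd (csInf_le hbdd this) (not_le.2 hs.2)
    have h1 := hA.eqOn_of_preconnected_of_eventuallyEq (analyticOnNhd_const (v := lam))
      isPreconnected_Ico (left_mem_Ico.2 hxq) hx
    have hcont : Continuous (gl U 0) := by
      unfold gl
      exact hU.cont.comp (by fun_prop)
    have h3 : gl U 0 q = lam := by
      have h4 : Tendsto (gl U 0) (𝓝[<] q) (𝓝 (gl U 0 q)) :=
        hcont.continuousAt.tendsto.mono_left nhdsWithin_le_nhds
      have h5 : Tendsto (gl U 0) (𝓝[<] q) (𝓝 lam) := by
        apply tendsto_const_nhds.congr'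
        filter_upwards [Ico_mem_nhdsLT hxq] with s hs
        exact (h1 hs).symm
      exact tendsto_nhds_unique h4 h5
    have h6 := hU.zero q hqm.1
    simp [gl] at h3
    linarith

end Pool.Agent.H356R3.LV
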