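import Pool.Agent.H356R3.LV.Defs
set_option autoImplicit false
open MeasureTheory Set Filter Topology Complex InnerProductSpace
namespace Pool.Agent.H356R3.LV

namespace CURVL

/-- the test function -/
noncomputable def FF (g : ℝ → ℝ) (lam : ℝ) (n : ℕ) (x : ℝ) : ℝ :=
  Real.smoothTransition ((n + 1) * (g x - lam)) * deriv g x

/-- the main part of its derivative -/
noncomputable def GG (g : ℝ → ℝ) (lam : ℝ) (n : ℕ) (x : ℝ) : ℝ :=
  Real.smoothTransition ((n + 1) * (g x - lam)) * deriv (deriv g) x

theorem ev_lt {g : ℝ → ℝ} {lam x : ℝ} (hg : Continuous g) (hx : g x < lam) :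
    ∀ᶠ t in 𝓝 x, g t < lam :=
  hg.continuousAt.eventually_lt continuousAt_const hx

theorem st_zero {g : ℝ → ℝ} {lam x : ℝ} (n : ℕ) (hx : g x ≤ lam) :
    Real.smoothTransition ((n + 1) * (g x - lam)) = 0 := by
  apply Real.smoothTransition.zero_of_nonpos
  have h1 : (0 : ℝ) ≤ (n : ℝ) + 1 := by positivity
  nlinarith

theorem FF_contDiffAt {g : ℝ → ℝ} {lam x : ℝ} (hg : Continuous g) (n : ℕ)
    (ha : lam ≤ g x → AnalyticAt ℝ g x) : ContDiffAt ℝ 1 (FF g lam n) x := by
  rcases lt_or_ge (g x) lam with hx | hx
  · have h : FF g lam n =ᶠ[𝓝 x] fun _ => 0 := by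
      filter_upwards [ev_lt hg hx] with t ht
      unfold FF
      rw [st_zero n ht.le, zero_mul]
    exact contDiffAt_const.congr_of_eventuallyEq h
  · have h1 : ContDiffAt ℝ 1 g x := (ha hx).contDiffAt
    have h2 : ContDiffAt ℝ 1 (deriv g) x := (ha hx).deriv.contDiffAt
    have h3 : ContDiffAt ℝ 1 (fun t => Real.smoothTransition ((n + 1) * (g t - lam))) x :=
      (Real.smoothTransition.contDiffAt (n := 1)).comp x
        (contDiffAt_const.mul (h1.sub contDiffAt_const))
    exact h3.mul h2

theorem GG_cont {g : ℝ → ℝ} {lam x : ℝ} (hg : Continuous g) (n : ℕ)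
    (ha : lam ≤ g x → AnalyticAt ℝ g x) : ContinuousAt (GG g lam n) x := by
  rcases lt_or_ge (g x) lam with hx | hx
  · have h : GG g lam n =ᶠ[𝓝 x] fun _ => 0 := by
      filter_upwards [ev_lt hg hx] with t ht
      unfold GG
      rw [st_zero n ht.le, zero_mul]
    exact continuousAt_const.congr h.symm
  · have h2 : ContinuousAt (deriv (deriv g)) x := (ha hx).deriv.deriv.continuousAt
    have h3 : ContinuousAt (fun t => Real.smoothTransition ((n + 1) * (g t - lam))) x :=
      (Real.smoothTransition.continuous.comp
        (continuous_const.mul (hg.sub continuous_const))).continuousAt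
    exact h3.mul h2

theorem deriv_FF_cont {g : ℝ → ℝ} {lam x : ℝ} (hg : Continuous g) (n : ℕ)
    (ha : lam ≤ g x → AnalyticAt ℝ g x) : ContinuousAt (deriv (FF g lam n)) x := by
  have h1 : ContDiffAt ℝ 0 (fderiv ℝ (FF g lam n)) x :=
    (FF_contDiffAt hg n ha).fderiv_right (by norm_num)
  have h2 : ContinuousAt (fun t => fderiv ℝ (FF g lam n) t 1) x :=
    h1.continuousAt.clm_apply continuousAt_const
  exact h2

theorem GG_le {g : ℝ → ℝ} {lam x : ℝ} (hg : Continuous g) (n : ℕ)
    (ha : lam ≤ g x → AnalyticAt ℝ g x) : GG g lam n x ≤ deriv (FF g lam n) x := by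
  rcases lt_or_ge (g x) lam with hx | hx
  · have h : FF g lam n =ᶠ[𝓝 x] fun _ => 0 := by
      filter_upwards [ev_lt hg hx] with t ht
      unfold FF
      rw [st_zero n ht.le, zero_mul]
    rw [h.deriv_eq, deriv_const]
    unfold GG
    rw [st_zero n hx.le, zero_mul]
  · have h1 : HasDerivAt g (deriv g x) x := (ha hx).differentiableAt.hasDerivAt
    have h2 : HasDerivAt (deriv g) (deriv (deriv g) x) x :=
      (ha hx).deriv.differentiableAt.hasDerivAt
    have h3 : HasDerivAt Real.smoothTransition
        (deriv Real.smoothTransition ((n + 1) * (g x - lam))) ((n + 1) * (g x - lam)) :=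
      ((Real.smoothTransition.contDiff (n := 1)).differentiable (by norm_num)
        _).hasDerivAt
    have h4 : HasDerivAt (fun t => ((n : ℝ) + 1) * (g t - lam)) (((n : ℝ) + 1) * deriv g x) x :=
      (h1.sub_const lam).const_mul _
    have h5 : HasDerivAt (fun t => Real.smoothTransition ((n + 1) * (g t - lam)))
        (deriv Real.smoothTransition ((n + 1) * (g x - lam)) * (((n : ℝ) + 1) * deriv g x)) x :=
      HasDerivAt.comp (h₂ := Real.smoothTransition) x h3 h4
    have h6 : HasDerivAt (FF g lam n)
        (deriv Real.smoothTransition ((n + 1) * (g x - lam)) * (((n : ℝ) + 1) * deriv g x) *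
          deriv g x + Real.smoothTransition ((n + 1) * (g x - lam)) * deriv (deriv g) x) x :=
      h5.mul h2
    rw [h6.deriv]
    have h7 : 0 ≤ deriv Real.smoothTransition ((n + 1) * (g x - lam)) :=
      Real.smoothTransition.monotone.deriv_nonneg
    have h8 : 0 ≤ deriv Real.smoothTransition ((n + 1) * (g x - lam)) *
        (((n : ℝ) + 1) * deriv g x) * deriv g x := by
      have : deriv Real.smoothTransition ((n + 1) * (g x - lam)) *
        (((n : ℝ) + 1) * deriv g x) * deriv g x =
        deriv Real.smoothTransition ((n + 1) * (g x - lam)) * ((n : ℝ) + 1) * (deriv g x) ^ 2 := by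
          ring
      rw [this]
      positivity
    unfold GG
    linarith

end CURVL

open CURVL

theorem CURV_proof : S_CURV := by
  intro g p q lam hpq hg hp hq ha
  have hFF : ∀ n : ℕ, ∀ x ∈ Icc p q, ContDiffAt ℝ 1 (FF g lam n) x :=
    fun n x hx => FF_contDiffAt hg n (ha x hx)
  have hdiff : ∀ n : ℕ, ∫ x in p..q, deriv (FF g lam n) x = 0 := by
    intro n
    rw [intervalIntegral.integral_deriv_eq_sub]
    · unfold FF
      rw [st_zero n hp, st_zero n hq]
      simp
    · intro x hx
      rw [uIcc_of_le hpq] at hx
      exact (hFF n x hx).differentiableAt (by norm_num)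
    · apply ContinuousOn.intervalIntegrable
      intro x hx
      rw [uIcc_of_le hpq] at hx
      exact (deriv_FF_cont hg n (ha x hx)).continuousWithinAt
  have hGcont : ∀ n : ℕ, ContinuousOn (GG g lam n) (Icc p q) :=
    fun n x hx => (GG_cont hg n (ha x hx)).continuousWithinAt
  have hGle : ∀ n : ℕ, ∫ x in Icc p q, GG g lam n x ≤ 0 := by
    intro n
    have h1 : ∫ x in p..q, GG g lam n x ≤ ∫ x in p..q, deriv (FF g lam n) x := by
      apply intervalIntegral.integral_mono_on hpq
      · apply ContinuousOn.intervalIntegrable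
        rw [uIcc_of_le hpq]
        exact hGcont n
      · apply ContinuousOn.intervalIntegrable
        intro x hx
        rw [uIcc_of_le hpq] at hx
        exact (deriv_FF_cont hg n (ha x hx)).continuousWithinAt
      · intro x hx
        exact GG_le hg n (ha x hx)
    rw [hdiff n, intervalIntegral.integral_of_le hpq, ← integral_Icc_eq_integral_Ioc] at h1
    exact h1
  -- bound on the second derivative
  have hK : IsCompact (Icc p q ∩ {x | lam ≤ g x}) :=
    isCompact_Icc.inter_right (isClosed_le continuous_const hg)
  obtain ⟨M, hM⟩ := hK.exists_bound_of_continuousOn (f := deriv (deriv g))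
    (fun x hx => ((ha x hx.1 hx.2).deriv.deriv.continuousAt).continuousWithinAt)
  have hM0 : ∀ n : ℕ, ∀ x ∈ Icc p q, ‖GG g lam n x‖ ≤ |M| := by
    intro n x hx
    unfold GG
    rcases lt_or_ge (g x) lam with hxl | hxl
    · rw [st_zero n hxl.le, zero_mul, norm_zero]
      exact abs_nonneg _
    · rw [norm_mul]
      have h1 : ‖Real.smoothTransition ((n + 1) * (g x - lam))‖ ≤ 1 := by
        rw [Real.norm_eq_abs, abs_of_nonneg (Real.smoothTransition.nonneg _)]
        exact Real.smoothTransition.le_one _
      have h2 := (hM x ⟨hx, hxl⟩).trans (le_abs_self M)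
      calc _ ≤ 1 * |M| := mul_le_mul h1 h2 (norm_nonneg _) zero_le_one
        _ = |M| := one_mul _
  set P : Set ℝ := {x | lam < g x} with hP
  have hPm : MeasurableSet P := (isOpen_lt continuous_const hg).measurableSet
  have hlim : Tendsto (fun n : ℕ => ∫ x in Icc p q, GG g lam n x) atTop
      (𝓝 (∫ x in Icc p q, P.indicator (deriv (deriv g)) x)) := by
    refine tendsto_integral_of_dominated_convergence (fun _ => |M|) ?_ ?_ ?_ ?_
    · intro n
      exact (hGcont n).aestronglyMeasurable measurableSet_Icc
    · exact integrable_const _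
    · intro n
      filter_upwards [ae_restrict_mem measurableSet_Icc] with x hx
      exact hM0 n x hx
    · filter_upwards [ae_restrict_mem measurableSet_Icc] with x hx
      rcases le_or_gt (g x) lam with hxl | hxl
      · have h1 : x ∉ P := by
          intro h
          exact absurd h (not_lt.2 hxl)
        rw [indicator_of_notMem h1]
        have h2 : (fun n : ℕ => GG g lam n x) = fun _ => 0 := by
          funext n
          unfold GG
          rw [st_zero n hxl, zero_mul]
        rw [h2]
        exact tendsto_const_nhds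
      · have h1 : x ∈ P := hxl
        rw [indicator_of_mem h1]
        refine tendsto_const_nhds.congr' ?_
        have h3 : Tendsto (fun n : ℕ => ((n : ℝ) + 1) * (g x - lam)) atTop atTop :=
          (tendsto_atTop_add_const_right _ _ tendsto_natCast_atTop_atTop).atTop_mul_const
            (by linarith)
        filter_upwards [h3.eventually_ge_atTop 1] with n hn
        unfold GG
        rw [Real.smoothTransition.one_of_one_le hn, one_mul]
  have h1 : ∫ x in Icc p q, P.indicator (deriv (deriv g)) x ≤ 0 :=
    le_of_tendsto' hlim hGle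
  rw [setIntegral_indicator hPm] at h1
  exact h1

end Pool.Agent.H356R3.LV
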