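import Pool.Agent.H356R3.LV.Defs

set_option autoImplicit false

open MeasureTheory Set Filter Topology Complex InnerProductSpace

namespace Pool.Agent.H356R3.LV

theorem DC_proof (hWMP : S_WMP) : S_DC := by
  intro E U hE hU x0 H1 β hβ hH h1 h2
  set h : ℂ → ℝ := fun z => ((((H1 - β / 2 : ℝ) : ℂ) + ((β / 4 : ℝ) : ℂ) * (z - x0) ^ 2)).re with hh
  have hval : ∀ z : ℂ, h z = H1 - β / 2 + β / 4 * ((z.re - x0) ^ 2 - z.im ^ 2) := by
    intro z
    simp only [hh, Complex.add_re, Complex.ofReal_re, Complex.mul_re, Complex.ofReal_im, zero_mul,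
      sub_zero, sq, Complex.sub_re, Complex.sub_im]
  have hnorm : ∀ z : ℂ, ‖z - x0‖ ^ 2 = (z.re - x0) ^ 2 + z.im ^ 2 := by
    intro z
    rw [← Complex.normSq_eq_norm_sq, Complex.normSq_apply]
    simp only [Complex.sub_re, Complex.sub_im, Complex.ofReal_re, Complex.ofReal_im, sub_zero]
    ring
  have hharm : ∀ z : ℂ, HarmonicAt h z := by
    intro z
    have ha : AnalyticAt ℂ (fun z : ℂ => ((H1 - β / 2 : ℝ) : ℂ) +
        ((β / 4 : ℝ) : ℂ) * (z - x0) ^ 2) z := by fun_prop
    exact ha.harmonicAt_re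
  have hcont : Continuous h := by
    rw [hh]; fun_prop
  have key := hWMP (Metric.closedBall (x0 : ℂ) 2) (fun z => U z - h z) Metric.isClosed_closedBall
    (hU.cont.sub hcont).continuousOn ?_ ?_ (x0 : ℂ) (Metric.mem_closedBall_self (by norm_num))
  · simp only [hval, Complex.ofReal_re, Complex.ofReal_im, sub_self] at key
    norm_num at key
    linarith
  · intro c hc
    refine ⟨‖(x0 : ℂ)‖ + 2, fun z hz hR => ?_⟩
    exfalso
    rw [Metric.mem_closedBall, dist_eq_norm] at hz
    have : ‖z‖ ≤ ‖z - x0‖ + ‖(x0 : ℂ)‖ := by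
      calc ‖z‖ = ‖(z - x0) + x0‖ := by rw [sub_add_cancel]
        _ ≤ _ := norm_add_le _ _
    linarith
  · intro z hz hv
    rw [Metric.mem_closedBall, dist_eq_norm] at hz
    have hz2 := hnorm z
    have hz4 : (z.re - x0) ^ 2 + z.im ^ 2 ≤ 4 := by
      rw [← hz2]
      nlinarith [norm_nonneg (z - x0)]
    have hlow : H1 - 3 / 2 * β ≤ h z := by
      rw [hval]
      have : -4 ≤ (z.re - x0) ^ 2 - z.im ^ 2 := by nlinarith [sq_nonneg (z.re - x0)]
      nlinarith
    have hUpos : 0 < U z := by linarith
    have hzE : z ∉ (fun x : ℝ => (x : ℂ)) '' E := by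
      rintro ⟨x, hx, rfl⟩
      rw [hU.zero x hx] at hUpos
      exact lt_irrefl _ hUpos
    constructor
    · apply mem_of_superset (Metric.isOpen_ball.mem_nhds ?_) Metric.ball_subset_closedBall
      rw [Metric.mem_ball, dist_eq_norm]
      refine lt_of_le_of_ne hz fun heq => ?_
      by_cases him : |z.im| < 1
      · have h3 := h1 z heq him
        have h4 : z.im ^ 2 < 1 := by
          rw [← sq_abs]
          nlinarith [abs_nonneg z.im]
        rw [heq] at hz2
        have h5 : H1 ≤ h z := by
          rw [hval]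
          have : 2 ≤ (z.re - x0) ^ 2 - z.im ^ 2 := by nlinarith
          nlinarith
        linarith
      · push Not at him
        have h3 := h2 z heq him
        linarith
    · have hUh : HarmonicAt U z := hU.harm z hzE
      have e : (fun z => U z - h z) = U + (-1 : ℝ) • h := by
        funext w
        simp only [Pi.add_apply, Pi.smul_apply, smul_eq_mul]
        ring
      rw [e]
      exact hUh.add ((hharm z).const_smul)

end Pool.Agent.H356R3.LV
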