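import Mathlib

/-!
# The extremal bound for positive harmonic functions vanishing on relatively dense sets
(MP_cebbdc_an).  Definitions and the statements of the tasks.
-/

set_option autoImplicit false
open MeasureTheory Set Filter Topology Complex InnerProductSpace

namespace Pool.Agent.H356R3.LV

/-- closed subsets `E` of the line such that every interval of length `N` meets `E` in a set of
measure at least `δ` -/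
structure Rel (N δ : ℝ) (E : Set ℝ) : Prop where
  closed : IsClosed E
  meas : ∀ a : ℝ, ENNReal.ofReal δ ≤ volume (E ∩ Icc a (a + N))

/-- `U` is continuous, vanishes on `E`, is positive and harmonic off `E`, symmetric with respect to
the real line, and normalised by `U(iy)/y → 1` -/
structure IsU (E : Set ℝ) (U : ℂ → ℝ) : Prop where
  cont : Continuous U
  zero : ∀ x ∈ E, U (x : ℂ) = 0
  pos : ∀ z : ℂ, z ∉ (fun x : ℝ => (x : ℂ)) '' E → 0 < U z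
  harm : HarmonicOnNhd U ((fun x : ℝ => (x : ℂ)) '' E)ᶜ
  symm : ∀ z : ℂ, U ((starRingEnd ℂ) z) = U z
  norm : Tendsto (fun y : ℝ => U (y * I) / y) atTop (𝓝 1)

/-! ## the explicit extremal function -/

/-- inverse hyperbolic cosine on `[1, ∞)` -/
noncomputable def ach (t : ℝ) : ℝ := Real.log (t + √(t ^ 2 - 1))

/-- the Green function of the complement of `[-1, 1]` with pole at infinity -/
noncomputable def gJ (ζ : ℂ) : ℝ := ach ((‖ζ - 1‖ + ‖ζ + 1‖) / 2)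

/-- the function belonging to the periodic set with the gaps `(n - γ/2, n + γ/2)` -/
noncomputable def Ut (γ : ℝ) (z : ℂ) : ℝ :=
  1 / Real.pi * gJ (Complex.cos (Real.pi * z) / (Real.cos (Real.pi * γ / 2) : ℂ))

/-- the periodic set with the gaps `(n - γ/2, n + γ/2)` -/
def Eg (γ : ℝ) : Set ℝ := {x | |Real.cos (Real.pi * x)| ≤ Real.cos (Real.pi * γ / 2)}

/-- `∫_{-s}^{s} Ut γ (x + i y) dx` -/
noncomputable def Tt (γ s y : ℝ) : ℝ := ∫ x in (-s)..s, Ut γ (x + y * I)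

/-! ## the window star function -/

/-- the supremum of `∫_A u(x + iy) dx` over the measurable subsets `A` of `[a, a+1]` of measure
`2s` -/
noncomputable def VV (u : ℂ → ℝ) (a s y : ℝ) : ℝ :=
  sSup {c : ℝ | ∃ A : Set ℝ, MeasurableSet A ∧ A ⊆ Icc a (a + 1) ∧
    volume A = ENNReal.ofReal (2 * s) ∧ c = ∫ x in A, u (x + y * I)}

/-- the Poisson kernel of the upper half-plane -/
noncomputable def PK (y t : ℝ) : ℝ := y / (Real.pi * (t ^ 2 + y ^ 2))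

/-! ## general potential theory -/

/-- WMP: weak maximum principle -/
def S_WMP : Prop := ∀ (S : Set ℂ) (v : ℂ → ℝ), IsClosed S → ContinuousOn v S →
  (∀ c > 0, ∃ R : ℝ, ∀ z ∈ S, R < ‖z‖ → v z ≤ c) →
  (∀ z ∈ S, 0 < v z → S ∈ 𝓝 z ∧ HarmonicAt v z) → ∀ z ∈ S, v z ≤ 0

/-- SUBM: the submean value property at real points -/
def S_SUBM : Prop := ∀ (E : Set ℝ) (U : ℂ → ℝ), IsClosed E → IsU E U → ∀ x r : ℝ, 0 < r →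
  U x ≤ Real.circleAverage U x r

/-- PI: Poisson integrals are harmonic and have the right boundary values -/
def S_PI : Prop := ∀ φ : ℝ → ℝ, Continuous φ → (∀ t, 0 ≤ φ t) →
  Integrable (fun t : ℝ => φ t / (1 + t ^ 2)) →
  HarmonicOnNhd (fun z : ℂ => ∫ t : ℝ, PK z.im (z.re - t) * φ t) {z : ℂ | 0 < z.im} ∧
  ∀ x : ℝ, Tendsto (fun z : ℂ => ∫ t : ℝ, PK z.im (z.re - t) * φ t)
    (𝓝[{z : ℂ | 0 < z.im}] (x : ℂ)) (𝓝 (φ x))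

/-- VAN: nonnegative harmonic functions of the upper half-plane vanishing on the boundary -/
def S_VAN : Prop := ∀ w : ℂ → ℝ, HarmonicOnNhd w {z : ℂ | 0 < z.im} →
  (∀ z : ℂ, 0 < z.im → 0 ≤ w z) →
  (∀ x : ℝ, Tendsto w (𝓝[{z : ℂ | 0 < z.im}] (x : ℂ)) (𝓝 0)) →
  ∃ c : ℝ, ∀ z : ℂ, 0 < z.im → w z = c * z.im

/-- HG: the Herglotz representation (continuous boundary values) -/
def S_HG : Prop := ∀ U : ℂ → ℝ, ContinuousOn U {z : ℂ | 0 ≤ z.im} → (∀ z : ℂ, 0 ≤ z.im → 0 ≤ U z) →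
  HarmonicOnNhd U {z : ℂ | 0 < z.im} → Tendsto (fun y : ℝ => U (y * I) / y) atTop (𝓝 1) →
  Integrable (fun t : ℝ => U t / (1 + t ^ 2)) ∧
  (∀ x y : ℝ, 0 < y → Integrable (fun t : ℝ => PK y (x - t) * U t)) ∧
  ∀ x y : ℝ, 0 < y → U (x + y * I) = y + ∫ t : ℝ, PK y (x - t) * U t

/-! ## boundedness -/

/-- PT: pointwise bound -/
def S_PT : Prop := ∀ (E : Set ℝ) (U : ℂ → ℝ), IsClosed E → IsU E U →
  ∃ C : ℝ, 0 < C ∧ ∀ x B : ℝ, 1 ≤ B → U x ≤ C * B * U (x + B * I)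

/-- HK: Harnack inequality at large height -/
def S_HK : Prop := ∀ (E : Set ℝ) (U : ℂ → ℝ), IsClosed E → IsU E U →
  ∀ x x0 y B : ℝ, 1 ≤ B → |x - x0| ≤ 3 → 0 ≤ y → y ≤ 2 →
    U (x + (B + y : ℝ) * I) ≤ (1 + 100 / B) * U (x0 + B * I) ∧
    U (x0 + B * I) ≤ (1 + 100 / B) * U (x + (B + y : ℝ) * I)

/-- DC: comparison on a disc of radius 2 -/
def S_DC : Prop := ∀ (E : Set ℝ) (U : ℂ → ℝ), IsClosed E → IsU E U → ∀ x0 H1 β : ℝ, 0 ≤ β →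
  3 / 2 * β ≤ H1 → (∀ z : ℂ, ‖z - x0‖ = 2 → |z.im| < 1 → U z ≤ H1) →
  (∀ z : ℂ, ‖z - x0‖ = 2 → 1 ≤ |z.im| → U z ≤ H1 - 3 / 2 * β) → U x0 ≤ H1 - β / 2

/-- BDD: `U` is bounded on the real line -/
def S_BDD : Prop := ∀ (δ : ℝ) (E : Set ℝ) (U : ℂ → ℝ), 0 < δ → Rel 1 δ E → IsU E U →
  ∃ M : ℝ, ∀ x : ℝ, U x ≤ M

/-- GROW: upper bounds in the plane -/
def S_GROW : Prop := ∀ (E : Set ℝ) (U : ℂ → ℝ), IsClosed E → IsU E U → ∀ M : ℝ,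
  (∀ x : ℝ, U x ≤ M) → (∀ z : ℂ, U z ≤ |z.im| + M) ∧
  ∀ L : ℝ, (∀ a : ℝ, ∫ x in a..(a + 1), U x ≤ L) →
    ∀ a y : ℝ, ∫ x in a..(a + 1), U (x + y * I) ≤ |y| + L

/-! ## the explicit function -/

/-- GJ1: elementary properties of `gJ` -/
def S_GJ1 : Prop := Continuous gJ ∧ (∀ ζ, 0 ≤ gJ ζ) ∧ (∀ ζ : ℂ, gJ ζ = 0 ↔ ζ.im = 0 ∧ |ζ.re| ≤ 1) ∧
  (∀ ζ, gJ ((starRingEnd ℂ) ζ) = gJ ζ) ∧ (∀ ζ, gJ (-ζ) = gJ ζ) ∧
  (∀ w : ℂ, gJ (Complex.cos w) = |w.im|) ∧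
  (∀ ζ : ℂ, ζ ≠ 0 → Real.log ‖ζ‖ ≤ gJ ζ) ∧ (∀ ζ : ℂ, gJ ζ ≤ Real.log (2 * (‖ζ‖ + 1)))

/-- GJ2: `gJ` is harmonic off the segment -/
def S_GJ2 : Prop := ∀ ζ : ℂ, ¬ (ζ.im = 0 ∧ |ζ.re| ≤ 1) → HarmonicAt gJ ζ

/-- GJ3: `gJ` increases along rays -/
def S_GJ3 : Prop := ∀ (ζ : ℂ) (t : ℝ), 1 ≤ t → gJ ζ ≤ gJ (t * ζ)

/-- UTA: `Ut γ` is the function of `Eg γ` -/
def S_UTA : Prop := ∀ γ : ℝ, 0 < γ → γ < 1 → IsU (Eg γ) (Ut γ)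

/-- UTR: the set `Eg γ` -/
def S_UTR : Prop := ∀ γ : ℝ, 0 < γ → γ < 1 → Rel 1 (1 - γ) (Eg γ) ∧
  ∀ x : ℝ, |x| ≤ 1 / 2 → (x ∈ Eg γ ↔ γ / 2 ≤ |x|)

/-- UTP: properties of `Ut γ` -/
def S_UTP : Prop := ∀ γ : ℝ, 0 < γ → γ < 1 →
  (∀ z, Ut γ (-(starRingEnd ℂ) z) = Ut γ z) ∧ (∀ z, Ut γ (z + 1) = Ut γ z) ∧
  (∀ z, |z.im| ≤ Ut γ z) ∧ (∃ C : ℝ, ∀ z, Ut γ z ≤ |z.im| + C) ∧
  Ut γ 0 = 1 / Real.pi *
    Real.log (Real.cos (Real.pi * (1 - γ) / 4) / Real.sin (Real.pi * (1 - γ) / 4))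

/-- TT1: properties of `Tt γ` -/
def S_TT1 : Prop := ∀ γ : ℝ, 0 < γ → γ < 1 → Continuous (fun p : ℝ × ℝ => Tt γ p.1 p.2) ∧
  (∀ s y : ℝ, 0 ≤ s → 2 * s * |y| ≤ Tt γ s y) ∧
  (∀ y : ℝ, |y| + Tt γ (1 / 2) 0 ≤ Tt γ (1 / 2) y) ∧
  (∀ s : ℝ, γ / 2 ≤ s → s ≤ 1 / 2 → Tt γ s 0 = Tt γ (1 / 2) 0) ∧
  (∀ s₁ s₂ : ℝ, 0 ≤ s₁ → s₁ < s₂ → s₂ ≤ γ / 2 → Tt γ s₁ 0 < Tt γ s₂ 0) ∧
  (∀ y : ℝ, Tt γ 0 y = 0) ∧
  (∀ s y : ℝ, HasDerivAt (fun s' => Tt γ s' y) (2 * Ut γ (s + y * I)) s)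

/-- TT2: the second derivatives of `Tt γ` -/
def S_TT2 : Prop := ∀ γ : ℝ, 0 < γ → γ < 1 → ∀ s y : ℝ, 0 < s → s < 1 / 2 → (y ≠ 0 ∨ s < γ / 2) →
  ∃ h : ℝ, HasDerivAt (fun s' : ℝ => 2 * Ut γ (s' + y * I)) h s ∧
    ∃ D : ℝ → ℝ, (∀ᶠ y' in 𝓝 y, HasDerivAt (fun y'' => Tt γ s y'') (D y') y') ∧
      HasDerivAt D (-h) y

/-- GC: continuity in `γ` -/
def S_GC : Prop := ∀ γ : ℝ, 0 < γ → γ < 1 → (∀ z : ℂ, Tendsto (fun g => Ut g z) (𝓝 γ) (𝓝 (Ut γ z))) ∧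
  ∀ s y : ℝ, Tendsto (fun g => Tt g s y) (𝓝 γ) (𝓝 (Tt γ s y))

/-! ## the window star function -/

/-- V1: basic properties of `VV` -/
def S_V1 : Prop := ∀ u : ℂ → ℝ, Continuous u →
  (∀ a s y : ℝ, 0 ≤ s → s ≤ 1 / 2 → ∀ A : Set ℝ, MeasurableSet A → A ⊆ Icc a (a + 1) →
    volume A = ENNReal.ofReal (2 * s) → ∫ x in A, u (x + y * I) ≤ VV u a s y) ∧
  (∀ a s y c : ℝ, 0 ≤ s → s ≤ 1 / 2 → (∀ A : Set ℝ, MeasurableSet A → A ⊆ Icc a (a + 1) →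
    volume A = ENNReal.ofReal (2 * s) → ∫ x in A, u (x + y * I) ≤ c) → VV u a s y ≤ c) ∧
  (∀ a y : ℝ, VV u a 0 y = 0) ∧ (∀ a y : ℝ, VV u a (1 / 2) y = ∫ x in a..(a + 1), u (x + y * I)) ∧
  (∀ a s y M : ℝ, 0 ≤ s → s ≤ 1 / 2 → (∀ x : ℝ, u (x + y * I) ≤ M) → VV u a s y ≤ 2 * s * M) ∧
  (∀ a s y : ℝ, 0 ≤ s → s ≤ 1 / 2 → (∀ z, 0 ≤ u z) → VV u a s y ≤ ∫ x in a..(a + 1), u (x + y * I))

/-- V2: continuity of `VV` -/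
def S_V2 : Prop := ∀ u : ℂ → ℝ, Continuous u →
  ContinuousOn (fun p : ℝ × ℝ × ℝ => VV u p.1 p.2.1 p.2.2) {p | 0 ≤ p.2.1 ∧ p.2.1 ≤ 1 / 2}

/-- V3: the supremum is attained by a superlevel set -/
def S_V3 : Prop := ∀ u : ℂ → ℝ, Continuous u → ∀ a s y : ℝ, 0 < s → s < 1 / 2 →
  ∃ (lam : ℝ) (A : Set ℝ), MeasurableSet A ∧ A ⊆ Icc a (a + 1) ∧
    volume A = ENNReal.ofReal (2 * s) ∧ VV u a s y = ∫ x in A, u (x + y * I) ∧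
    (∀ x ∈ A, lam ≤ u (x + y * I)) ∧ (∀ x ∈ Icc a (a + 1) \ A, u (x + y * I) ≤ lam)

/-! ## the local analysis at a maximum point -/

/-- the conditions on the comparison function `H` at `(s, y)` -/
def HarmH (H : ℝ → ℝ → ℝ) (s y : ℝ) : Prop := ∃ (h : ℝ) (D1 D2 : ℝ → ℝ),
  (∀ᶠ s' in 𝓝 s, HasDerivAt (fun t => H t y) (D1 s') s') ∧ HasDerivAt D1 h s ∧
  (∀ᶠ y' in 𝓝 y, HasDerivAt (fun t => H s t) (D2 y') y') ∧ HasDerivAt D2 (-h) y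

/-- `(a, s, y)` is a local maximum point of `VV u - H - ε ((a-b)² + y² - 3 s²)` -/
def LocMax (u : ℂ → ℝ) (H : ℝ → ℝ → ℝ) (ε b a s y : ℝ) : Prop :=
  ∀ᶠ p : ℝ × ℝ × ℝ in 𝓝 (a, s, y),
    VV u p.1 p.2.1 p.2.2 - H p.2.1 p.2.2 - ε * ((p.1 - b) ^ 2 + p.2.2 ^ 2 - 3 * p.2.1 ^ 2) ≤
      VV u a s y - H s y - ε * ((a - b) ^ 2 + y ^ 2 - 3 * s ^ 2)

/-- the restriction of `u` to the line of height `y` -/
noncomputable def gl (u : ℂ → ℝ) (y x : ℝ) : ℝ := u (x + y * I)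

/-- SD2: second derivative test -/
def S_SD2 : Prop := ∀ (f D : ℝ → ℝ) (x c : ℝ), (∀ᶠ t in 𝓝 x, HasDerivAt f (D t) t) →
  HasDerivAt D c x → (∀ᶠ t in 𝓝 x, f t ≤ f x) → c ≤ 0

/-- CURV: the integral of the second derivative over a superlevel set -/
def S_CURV : Prop := ∀ (g : ℝ → ℝ) (p q lam : ℝ), p ≤ q → Continuous g → g p ≤ lam → g q ≤ lam →
  (∀ x ∈ Icc p q, lam ≤ g x → AnalyticAt ℝ g x) →
  ∫ x in {x | x ∈ Icc p q ∧ lam < g x}, deriv (deriv g) x ≤ 0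

/-- YD: second derivative in `y` of `∫_A u(x+iy) dx` -/
def S_YD : Prop := ∀ (u : ℂ → ℝ) (y : ℝ) (A K : Set ℝ), MeasurableSet A → IsCompact K → A ⊆ K →
  (∀ x ∈ K, HarmonicAt u (x + y * I)) →
  IntegrableOn (fun x => deriv (deriv (gl u y)) x) A ∧
  ∃ D : ℝ → ℝ, (∀ᶠ y' in 𝓝 y, HasDerivAt (fun t : ℝ => ∫ x in A, u (x + t * I)) (D y') y') ∧
    HasDerivAt D (-∫ x in A, deriv (deriv (gl u y)) x) y

/-- SGN: constant sign near a zero of an analytic function -/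
def S_SGN : Prop := ∀ (g : ℝ → ℝ) (x lam : ℝ), AnalyticAt ℝ g x → ¬ (∀ᶠ t in 𝓝 x, g t = lam) →
  ∃ κ > 0, ((∀ t ∈ Ioo x (x + κ), lam < g t) ∨ (∀ t ∈ Ioo x (x + κ), g t < lam)) ∧
    ((∀ t ∈ Ioo (x - κ) x, lam < g t) ∨ (∀ t ∈ Ioo (x - κ) x, g t < lam))

/-- STR: the structure of a superlevel set in the window `[a, a+1]` -/
def S_STR : Prop := ∀ (g : ℝ → ℝ) (a lam : ℝ), Continuous g →
  (∀ x ∈ Icc a (a + 1), ∃ κ > 0,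
    ((∀ t ∈ Ioo x (x + κ), lam < g t) ∨ (∀ t ∈ Ioo x (x + κ), g t < lam)) ∧
    ((∀ t ∈ Ioo (x - κ) x, lam < g t) ∨ (∀ t ∈ Ioo (x - κ) x, g t < lam))) →
  (∃ x ∈ Icc a (a + 1), lam < g x) → (∃ x ∈ Icc a (a + 1), g x < lam) →
  ∃ κ > 0,
    (∃ α β : ℝ, a + κ ≤ α ∧ α < β ∧ β + κ ≤ a + 1 ∧ (∀ x ∈ Icc α β, lam ≤ g x) ∧
      (∀ x ∈ Ico (α - κ) α, g x < lam) ∧ (∀ x ∈ Ioc β (β + κ), g x < lam) ∧
      g a ≤ lam ∧ g (a + 1) ≤ lam) ∨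
    (∃ α : ℝ, a + κ ≤ α ∧ α < a + 1 ∧ (∀ x ∈ Icc α (a + 1), lam ≤ g x) ∧
      (∀ x ∈ Ico (α - κ) α, g x < lam) ∧ (∀ x ∈ Icc a (a + κ), g x ≤ lam)) ∨
    (∃ β : ℝ, a < β ∧ β + κ ≤ a + 1 ∧ (∀ x ∈ Icc a β, lam ≤ g x) ∧
      (∀ x ∈ Ioc β (β + κ), g x < lam) ∧ (∀ x ∈ Icc (a + 1 - κ) (a + 1), g x ≤ lam)) ∨
    (∃ α β : ℝ, a < β ∧ β + κ ≤ α - κ ∧ α < a + 1 ∧ (∀ x ∈ Icc a β, lam ≤ g x) ∧
      (∀ x ∈ Icc α (a + 1), lam ≤ g x) ∧ (∀ x ∈ Ioc β (β + κ), g x < lam) ∧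
      (∀ x ∈ Ico (α - κ) α, g x < lam))

/-- CA: no end of the window is touched -/
def S_CA : Prop := ∀ (u : ℂ → ℝ) (H : ℝ → ℝ → ℝ) (ε b a s y α β κ : ℝ) (R K : Set ℝ),
  Continuous u → 0 < ε → 0 < s → s < 1 / 2 → 0 < κ → HarmH H s y → LocMax u H ε b a s y →
  a + κ ≤ α → α < β → β + κ ≤ a + 1 → MeasurableSet R → R ⊆ Icc a (a + 1) →
  Disjoint R (Icc (α - κ) (β + κ)) → volume R + ENNReal.ofReal (β - α) = ENNReal.ofReal (2 * s) →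
  IsCompact K → R ⊆ K → Icc α β ⊆ K → (∀ x ∈ K, HarmonicAt u (x + y * I)) →
  VV u a s y = (∫ x in R, u (x + y * I)) + ∫ x in α..β, u (x + y * I) →
  ∫ x in R, deriv (deriv (gl u y)) x ≤ 0 → False

/-- CB: the right end of the window is touched -/
def S_CB : Prop := ∀ (u : ℂ → ℝ) (H : ℝ → ℝ → ℝ) (ε b a s y α κ : ℝ) (R K : Set ℝ),
  Continuous u → 0 < ε → 0 < s → s < 1 / 2 → 0 < κ → HarmH H s y → LocMax u H ε b a s y →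
  a + κ ≤ α → α < a + 1 → MeasurableSet R → R ⊆ Icc (a + κ) (α - κ) →
  volume R + ENNReal.ofReal (a + 1 - α) = ENNReal.ofReal (2 * s) →
  IsCompact K → R ⊆ K → Icc α (a + 1) ⊆ K → (∀ x ∈ K, HarmonicAt u (x + y * I)) →
  VV u a s y = (∫ x in R, u (x + y * I)) + ∫ x in α..(a + 1), u (x + y * I) →
  ∫ x in R, deriv (deriv (gl u y)) x ≤ 0 → False

/-- CBM: the left end of the window is touched -/
def S_CBM : Prop := ∀ (u : ℂ → ℝ) (H : ℝ → ℝ → ℝ) (ε b a s y β κ : ℝ) (R K : Set ℝ),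
  Continuous u → 0 < ε → 0 < s → s < 1 / 2 → 0 < κ → HarmH H s y → LocMax u H ε b a s y →
  a < β → β ≤ a + 1 - κ → MeasurableSet R → R ⊆ Icc (β + κ) (a + 1 - κ) →
  volume R + ENNReal.ofReal (β - a) = ENNReal.ofReal (2 * s) →
  IsCompact K → R ⊆ K → Icc a β ⊆ K → (∀ x ∈ K, HarmonicAt u (x + y * I)) →
  VV u a s y = (∫ x in R, u (x + y * I)) + ∫ x in a..β, u (x + y * I) →
  ∫ x in R, deriv (deriv (gl u y)) x ≤ 0 → False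

/-- CC: both ends of the window are touched -/
def S_CC : Prop := ∀ (u : ℂ → ℝ) (H : ℝ → ℝ → ℝ) (ε b a s y α β κ : ℝ) (R K : Set ℝ),
  Continuous u → 0 < ε → 0 < s → s < 1 / 2 → 0 < κ → HarmH H s y → LocMax u H ε b a s y →
  a < β → β < α → α < a + 1 → MeasurableSet R → R ⊆ Icc (β + κ) (α - κ) → 
  volume R + ENNReal.ofReal (β - a) + ENNReal.ofReal (a + 1 - α) = ENNReal.ofReal (2 * s) →
  IsCompact K → R ⊆ K → Icc a β ⊆ K → Icc α (a + 1) ⊆ K → (∀ x ∈ K, HarmonicAt u (x + y * I)) →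
  VV u a s y = (∫ x in R, u (x + y * I)) + (∫ x in a..β, u (x + y * I)) +
    ∫ x in α..(a + 1), u (x + y * I) →
  ∫ x in R, deriv (deriv (gl u y)) x ≤ 0 → False

/-- LOC: no local maximum when the relevant level is not locally constant -/
def S_LOC : Prop := ∀ (u : ℂ → ℝ) (H : ℝ → ℝ → ℝ) (ε b a s y lam : ℝ) (A : Set ℝ),
  Continuous u → 0 < ε → 0 < s → s < 1 / 2 → HarmH H s y → LocMax u H ε b a s y →
  MeasurableSet A → A ⊆ Icc a (a + 1) → volume A = ENNReal.ofReal (2 * s) →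
  VV u a s y = ∫ x in A, u (x + y * I) → (∀ x ∈ A, lam ≤ u (x + y * I)) →
  (∀ x ∈ Icc a (a + 1) \ A, u (x + y * I) ≤ lam) →
  (∀ x ∈ Icc a (a + 1), lam ≤ u (x + y * I) → HarmonicAt u (x + y * I)) →
  (∀ x ∈ Icc a (a + 1), ¬ (∀ᶠ t in 𝓝 x, gl u y t = lam)) → False

/-- LOCC: no local maximum when `u` is constant on the line of height `y` -/
def S_LOCC : Prop := ∀ (u : ℂ → ℝ) (H : ℝ → ℝ → ℝ) (ε b a s y lam : ℝ),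
  Continuous u → 0 < ε → 0 < s → s < 1 / 2 → HarmH H s y → LocMax u H ε b a s y →
  (∀ x : ℝ, u (x + y * I) = lam) → (∀ x : ℝ, HarmonicAt u (x + y * I)) → False

/-- CST: locally constant on a line -/
def S_CST : Prop := ∀ (δ : ℝ) (E : Set ℝ) (U : ℂ → ℝ), 0 < δ → Rel 1 δ E → IsU E U →
  ∀ x y lam : ℝ, (∀ᶠ t in 𝓝 x, gl U y t = lam) → (y ≠ 0 → ∀ t, gl U y t = lam) ∧
    (y = 0 → lam ≤ 0)

/-- EXC: the star function near the total mass of the positive part -/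
def S_EXC : Prop := ∀ (u : ℂ → ℝ) (a s : ℝ), Continuous u → (∀ z, 0 ≤ u z) → 0 < s → s < 1 / 2 →
  (∃ x ∈ Icc a (a + 1), u (x : ℂ) = 0) →
  volume {x : ℝ | x ∈ Icc a (a + 1) ∧ 0 < u (x : ℂ)} ≤ ENNReal.ofReal (2 * s) →
  ∀ η > 0, ∃ s₁ < s, ∀ s' ∈ Ioo s₁ s,
    (∫ x in a..(a + 1), u (x : ℂ)) - 2 * η * (s - s') ≤ VV u a s' 0

/-! ## comparison and conclusions -/

/-- CM1: a point where `VV U - Tt γ` is larger than its boundary values -/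
def S_CM1 : Prop := ∀ (δ : ℝ) (E : Set ℝ) (U : ℂ → ℝ) (γ L : ℝ), 0 < δ → Rel 1 δ E → IsU E U →
  1 - δ < γ → 0 < γ → γ < 1 → IsLUB (range fun a : ℝ => ∫ x in a..(a + 1), U (x : ℂ)) L →
  (∃ a s y : ℝ, 0 ≤ s ∧ s ≤ 1 / 2 ∧ Tt γ s y < VV U a s y) →
  ∃ a s y c : ℝ, 0 < c ∧ 0 ≤ s ∧ s ≤ 1 / 2 ∧ c ≤ VV U a s y - Tt γ s y ∧
    L - Tt γ (1 / 2) 0 + c ≤ VV U a s y - Tt γ s y

/-- CM2: existence of an interior maximum point of the penalised difference -/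
def S_CM2 : Prop := ∀ (E : Set ℝ) (U : ℂ → ℝ) (γ L M b s₁ y₁ c ε : ℝ), IsClosed E → IsU E U →
  0 < γ → γ < 1 → (∀ x : ℝ, U x ≤ M) → (∀ a : ℝ, ∫ x in a..(a + 1), U (x : ℂ) ≤ L) →
  0 < c → 0 ≤ s₁ → s₁ ≤ 1 / 2 → c ≤ VV U b s₁ y₁ - Tt γ s₁ y₁ →
  L - Tt γ (1 / 2) 0 + c ≤ VV U b s₁ y₁ - Tt γ s₁ y₁ → 0 < ε → ε * (y₁ ^ 2 + 1) ≤ c / 2 →
  ∃ a s y : ℝ, 0 < s ∧ s < 1 / 2 ∧ (y ≠ 0 ∨ s < γ / 2) ∧ LocMax U (Tt γ) ε b a s y ∧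
    L - Tt γ (1 / 2) 0 + c / 2 ≤ VV U a s y - Tt γ s y

/-- CM3: there is no interior maximum point if `ε` is small -/
def S_CM3 : Prop := ∀ (δ : ℝ) (E : Set ℝ) (U : ℂ → ℝ) (γ L c : ℝ), 0 < δ → Rel 1 δ E → IsU E U →
  0 < γ → γ < 1 → (∀ a : ℝ, ∫ x in a..(a + 1), U (x : ℂ) ≤ L) → 0 < c →
  ∃ ε₀ > 0, ∀ ε b a s y : ℝ, 0 < ε → ε < ε₀ → 0 < s → s < 1 / 2 → (y ≠ 0 ∨ s < γ / 2) →
    LocMax U (Tt γ) ε b a s y → L - Tt γ (1 / 2) 0 + c ≤ VV U a s y - Tt γ s y → False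

/-- CMP: the comparison theorem -/
def S_CMP : Prop := ∀ (δ : ℝ) (E : Set ℝ) (U : ℂ → ℝ) (γ : ℝ), 0 < δ → Rel 1 δ E → IsU E U →
  1 - δ < γ → 0 < γ → γ < 1 → ∀ a s y : ℝ, 0 ≤ s → s ≤ 1 / 2 → VV U a s y ≤ Tt γ s y

/-- BND: the bound on the real line and the comparison for `γ = 1 - δ` -/
def S_BND : Prop := ∀ (δ : ℝ) (E : Set ℝ) (U : ℂ → ℝ), 0 < δ → δ < 1 → Rel 1 δ E → IsU E U →
  (∀ x : ℝ, U x ≤ Ut (1 - δ) 0) ∧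
  ∀ x s y : ℝ, 0 ≤ s → s ≤ 1 / 2 → ∫ t in (x - s)..(x + s), U (t + y * I) ≤ Tt (1 - δ) s y

/-- UQ1: local part of the uniqueness -/
def S_UQ1 : Prop := ∀ (k : ℂ → ℝ) (r : ℝ), 0 < r → HarmonicOnNhd k (Metric.ball 0 r) →
  (∀ z, k (-(starRingEnd ℂ) z) = k z) → k 0 = 0 →
  (∀ s y : ℝ, 0 ≤ s → s ^ 2 + y ^ 2 < r ^ 2 → 0 ≤ ∫ x in (-s)..s, k (x + y * I)) →
  ∀ z ∈ Metric.ball (0 : ℂ) r, k z = 0

/-- UQ2: the identity theorem -/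
def S_UQ2 : Prop := ∀ (k : ℂ → ℝ) (r : ℝ), 0 < r → ContinuousOn k {z : ℂ | 0 ≤ z.im} →
  HarmonicOnNhd k {z : ℂ | 0 < z.im} → (∀ z ∈ Metric.ball (0 : ℂ) r, k z = 0) →
  ∀ z : ℂ, 0 ≤ z.im → k z = 0

/-- UQ3: a larger set with a dominating function -/
def S_UQ3 : Prop := ∀ (E : Set ℝ) (U : ℂ → ℝ) (γ M : ℝ), 0 < γ → γ < 1 → IsClosed E → IsU E U →
  Eg γ ⊆ E → (∀ z : ℂ, U z ≤ |z.im| + M) → ∀ z : ℂ, U z ≤ Ut γ z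

/-- TRN: translates -/
def S_TRN : Prop := ∀ (E : Set ℝ) (U : ℂ → ℝ) (M x : ℝ), IsClosed E → IsU E U →
  (∀ t : ℝ, U t ≤ M) → IsU {t : ℝ | x + t ∈ E} (fun z => U (x + z))

/-- SCL: dilates -/
def S_SCL : Prop := ∀ (E : Set ℝ) (U : ℂ → ℝ) (N : ℝ), 0 < N → IsU E U →
  IsU {t : ℝ | N * t ∈ E} (fun z => U (N * z) / N)

/-- UNIQ: uniqueness of the extremal set -/
def S_UNIQ : Prop := ∀ (δ : ℝ) (E : Set ℝ) (U : ℂ → ℝ) (x : ℝ), 0 < δ → δ < 1 → Rel 1 δ E →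
  IsU E U → U x = Ut (1 - δ) 0 →
  (∀ z : ℂ, U (x + z) = Ut (1 - δ) z) ∧ E = {t | t - x ∈ Eg (1 - δ)}

end Pool.Agent.H356R3.LV
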