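import Pool.Agent.H356R3.LV.Defs

/-!
# A set which is not periodic and has the same supremum (MP_cebbdc_an): statements of the tasks
-/

set_option autoImplicit false
open MeasureTheory Set Filter Topology Complex InnerProductSpace

namespace Pool.Agent.H356R3.LV

/-- `coth(π T) / T` -/
noncomputable def kap (T : ℝ) : ℝ := Real.cosh (Real.pi * T) / (T * Real.sinh (Real.pi * T))

/-- the entire function `(cos π z + κ z sin π z)/(z² + T²)` -/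
noncomputable def GG (T : ℝ) (z : ℂ) : ℂ :=
  (∫ t in (0 : ℝ)..Real.pi, (Real.cosh (T * t) : ℂ) * Complex.cos (z * t)) /
    ((T * Real.sinh (Real.pi * T) : ℝ) : ℂ)

/-- the real function `(cos π x + κ x sin π x)/(x² + T²)` -/
noncomputable def Gr (T x : ℝ) : ℝ :=
  (Real.cos (Real.pi * x) + kap T * x * Real.sin (Real.pi * x)) / (x ^ 2 + T ^ 2)

/-- the perturbed cosine -/
noncomputable def FF (ε T : ℝ) (z : ℂ) : ℂ := Complex.cos (Real.pi * z) - ε * GG T z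

/-- the perturbed cosine on the line -/
noncomputable def Fr (ε T x : ℝ) : ℝ := Real.cos (Real.pi * x) - ε * Gr T x

/-- the set `{|F| ≤ c}` -/
def EF (ε T c : ℝ) : Set ℝ := {x : ℝ | |Fr ε T x| ≤ c}

/-- the function of the set `EF` -/
noncomputable def UF (ε T c : ℝ) (z : ℂ) : ℝ := 1 / Real.pi * gJ (FF ε T z / (c : ℂ))

/-- XG: the entire function `GG` -/
def S_XG : Prop := ∀ T : ℝ, 1 ≤ T → Differentiable ℂ (GG T) ∧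
  (∀ z, GG T ((starRingEnd ℂ) z) = (starRingEnd ℂ) (GG T z)) ∧
  (∀ z : ℂ, (z ^ 2 + T ^ 2) * GG T z =
    Complex.cos (Real.pi * z) + kap T * z * Complex.sin (Real.pi * z)) ∧
  (∀ x : ℝ, GG T x = (Gr T x : ℂ)) ∧
  (∀ x : ℝ, |Gr T x| ≤ 1) ∧ (∀ x : ℝ, ∃ g : ℝ, HasDerivAt (Gr T) g x ∧ |g| ≤ Real.pi) ∧
  (∀ z, ‖GG T z‖ ≤ Real.exp (Real.pi * |z.im|)) ∧
  (∀ y : ℝ, ∃ r : ℝ, 0 ≤ r ∧ r ≤ Real.cosh (Real.pi * y) ∧ GG T (y * I) = (r : ℂ))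

/-- XH: two-sided bound for the imaginary part of the quotient with `sin π z` -/
def S_XH : Prop := ∀ T : ℝ, 1 ≤ T → ∀ z : ℂ, 0 < z.im →
  (GG T z / Complex.sin (Real.pi * z)).im ≤ 0 ∧
  (Complex.cot (Real.pi * z)).im ≤ (GG T z / Complex.sin (Real.pi * z)).im

/-- XR: all solutions of `F z = lam`, `|lam| ≤ c`, are real -/
def S_XR : Prop := ∀ ε T c : ℝ, 0 < c → c < 1 → 1 ≤ T → 0 < ε → ε < 1 - c →
  ∀ (z : ℂ) (lam : ℝ), |lam| ≤ c → FF ε T z = (lam : ℂ) → z.im = 0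

/-- XU: `UF` is the function of `EF` -/
def S_XU : Prop := ∀ ε T c : ℝ, 0 < c → c < 1 → 1 ≤ T → 0 < ε → ε < 1 - c →
  IsU (EF ε T c) (UF ε T c)

/-- XA: the first inequality -/
def S_XA : Prop := ∀ ε T γ : ℝ, 0 < γ → γ < 1 → 1 ≤ T → kap T ≤ 1 →
  kap T * γ * Real.sin (Real.pi * γ / 2) ≤ Real.cos (Real.pi * γ / 2) → 0 < ε →
  ε ≤ Real.cos (Real.pi * γ / 2) ^ 2 / 7 →
  ∀ x : ℝ, |Fr ε T x + Fr ε T (x + γ)| ≤ 2 * Real.cos (Real.pi * γ / 2)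

/-- XB: the second inequality -/
def S_XB : Prop := ∀ ε T γ d : ℝ, 0 < γ → γ < 1 → 1 ≤ T → kap T ≤ 1 → 0 < ε →
  ε ≤ Real.cos (Real.pi * γ / 2) ^ 2 / 7 → 0 ≤ d → d ≤ 1 - γ →
  ∀ x : ℝ, |Fr ε T x - Fr ε T (x + d)| ≤ 2 * Real.cos (Real.pi * γ / 2)

/-- XC: there are no critical points with small values, and `|F| < 1` -/
def S_XC : Prop := ∀ ε T c : ℝ, 0 < c → c < 1 → 1 ≤ T → kap T ≤ 1 → 0 < ε → ε ≤ (1 - c) / 2 →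
  Continuous (Fr ε T) ∧ (∀ x : ℝ, |Fr ε T x| < 1) ∧ ∀ x : ℝ, HasDerivAt (Fr ε T) 0 x → c < |Fr ε T x|

/-- XM0: a criterion for relative density -/
def S_XM0 : Prop := ∀ (γ c : ℝ) (f : ℝ → ℝ), 0 < γ → γ < 1 → 0 < c → Continuous f →
  (∀ x, |f x + f (x + γ)| ≤ 2 * c) → (∀ x d, 0 ≤ d → d ≤ 1 - γ → |f x - f (x + d)| ≤ 2 * c) →
  (∀ x, (∀ᶠ t in 𝓝 x, f x ≤ f t) → c < |f x|) → (∀ x, (∀ᶠ t in 𝓝 x, f t ≤ f x) → c < |f x|) →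
  Rel 1 (1 - γ) {x : ℝ | |f x| ≤ c}

/-- XP: choice of the parameters -/
def S_XP : Prop := ∀ γ : ℝ, 0 < γ → γ < 1 → ∃ T : ℝ, 1 ≤ T ∧ kap T ≤ 1 ∧
  kap T * γ * Real.sin (Real.pi * γ / 2) ≤ Real.cos (Real.pi * γ / 2)

/-- XS: the supremum is approached at infinity but not attained -/
def S_XS : Prop := ∀ ε T c : ℝ, 0 < c → c < 1 → 1 ≤ T → kap T ≤ 1 → 0 < ε → ε ≤ (1 - c) / 2 →
  (∀ x : ℝ, UF ε T c x < 1 / Real.pi * gJ ((1 / c : ℝ) : ℂ)) ∧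
  ∀ η > 0, ∃ x : ℝ, 1 / Real.pi * gJ ((1 / c : ℝ) : ℂ) - η < UF ε T c x

/-- XT: conclusion -/
def S_XT : Prop := ∀ δ : ℝ, 0 < δ → δ < 1 → ∃ (E : Set ℝ) (U : ℂ → ℝ), Rel 1 δ E ∧ IsU E U ∧
  (∀ x : ℝ, U x < Ut (1 - δ) 0) ∧ ∀ η > 0, ∃ x : ℝ, Ut (1 - δ) 0 - η < U x

/-- UQ4: uniqueness of the function of a set containing a periodic one -/
def S_UQ4 : Prop := ∀ (E : Set ℝ) (U₁ U₂ : ℂ → ℝ) (γ M : ℝ), 0 < γ → γ < 1 → IsClosed E →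
  IsU E U₁ → IsU E U₂ → Eg γ ⊆ E → (∀ z : ℂ, U₁ z ≤ |z.im| + M) → ∀ z : ℂ, U₁ z ≤ U₂ z

end Pool.Agent.H356R3.LV
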