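import Pool.Agent.H356R3.LV.Defs

/-! EXC: the star function near the total mass of the positive part (helper368). -/

set_option autoImplicit false
open MeasureTheory Set Filter Topology Complex InnerProductSpace
namespace Pool.Agent.H356R3.LV

namespace EXCL

theorem fin {a : ℝ} {A : Set ℝ} (h : A ⊆ Icc a (a + 1)) : volume A ≠ ⊤ :=
  ((measure_mono h).trans_lt (by rw [Real.volume_Icc]; exact ENNReal.ofReal_lt_top)).ne

/-- sets of intermediate measure -/
theorem mid (a : ℝ) (C D : Set ℝ) (hC : MeasurableSet C) (hD : MeasurableSet D) (hCD : C ⊆ D)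
    (hDW : D ⊆ Icc a (a + 1)) (t : ℝ) (h1 : volume.real C ≤ t) (h2 : t ≤ volume.real D) :
    ∃ A, MeasurableSet A ∧ C ⊆ A ∧ A ⊆ D ∧ volume.real A = t := by
  have hS : MeasurableSet (D \ C) := hD.diff hC
  have hSW : D \ C ⊆ Icc a (a + 1) := sdiff_subset.trans hDW
  have hint : Integrable ((D \ C).indicator (fun _ => (1:ℝ))) := by
    rw [integrable_indicator_iff hS]
    exact integrableOn_const (fin hSW)
  have hcont : Continuous (fun c => ∫ x in a..c, (D \ C).indicator (fun _ => (1:ℝ)) x) :=
    intervalIntegral.continuous_primitive (fun _ _ => hint.intervalIntegrable) a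
  have hval : ∀ c, a ≤ c → ∫ x in a..c, (D \ C).indicator (fun _ => (1:ℝ)) x
      = volume.real ((D \ C) ∩ Ioc a c) := by
    intro c hc
    rw [intervalIntegral.integral_of_le hc, setIntegral_indicator hS, setIntegral_const,
      smul_eq_mul, mul_one, inter_comm]
  have hlast : volume.real ((D \ C) ∩ Ioc a (a + 1)) = volume.real (D \ C) := by
    have h3 := (ae_eq_refl (μ := volume) (D \ C)).inter (Ioc_ae_eq_Icc (μ := volume) (a := a) (b := a + 1))
    have h4 : volume ((D \ C) ∩ Ioc a (a + 1)) = volume ((D \ C) ∩ Icc a (a + 1)) :=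
      measure_congr h3
    rw [measureReal_def, measureReal_def, h4, inter_eq_self_of_subset_left hSW]
  have hsum : volume.real (D \ C) = volume.real D - volume.real C :=
    measureReal_sdiff hCD hC (h₁ := fin hDW)
  obtain ⟨c, hc, hfc⟩ := intermediate_value_Icc (show a ≤ a + 1 by linarith)
    hcont.continuousOn (show t - volume.real C ∈ Icc _ _ from
      ⟨by simp only [intervalIntegral.integral_same]; linarith, by
        beta_reduce
        rw [hval (a + 1) (by linarith), hlast, hsum]; linarith⟩)
  beta_reduce at hfc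
  rw [hval c hc.1] at hfc
  refine ⟨C ∪ ((D \ C) ∩ Ioc a c), hC.union (hS.inter measurableSet_Ioc), subset_union_left,
    union_subset hCD (inter_subset_left.trans sdiff_subset), ?_⟩
  rw [measureReal_union _ (hS.inter measurableSet_Ioc) (fin (hCD.trans hDW))
    (fin (inter_subset_left.trans hSW)), hfc]
  · ring
  · exact disjoint_left.2 fun x hx hx' => hx'.1.2 hx

end EXCL

open EXCL in
theorem EXC_proof (hV1 : S_V1) : S_EXC := by
  intro u a s hu hu0 hs hs2 hzero hP η hη
  obtain ⟨hV, -⟩ := hV1 u hu
  have hu' : Continuous (fun x : ℝ => u (x : ℂ)) := hu.comp Complex.continuous_ofReal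
  obtain ⟨P, hPdef⟩ : ∃ P : Set ℝ, P = {x : ℝ | x ∈ Icc a (a + 1) ∧ 0 < u (x : ℂ)} := ⟨_, rfl⟩
  obtain ⟨N, hNdef⟩ : ∃ N : Set ℝ, N = {x : ℝ | x ∈ Icc a (a + 1) ∧ 0 < u (x : ℂ) ∧ u (x : ℂ) < η} :=
    ⟨_, rfl⟩
  rw [← hPdef] at hP
  have hPm : MeasurableSet P := by
    rw [hPdef]
    exact measurableSet_Icc.inter (measurableSet_lt measurable_const hu'.measurable)
  have hNm : MeasurableSet N := by
    rw [hNdef]
    exact measurableSet_Icc.inter ((measurableSet_lt measurable_const hu'.measurable).inter
      (measurableSet_lt hu'.measurable measurable_const))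
  have hPW : P ⊆ Icc a (a + 1) := by rw [hPdef]; exact fun x hx => hx.1
  have hNP : N ⊆ P := by rw [hPdef, hNdef]; exact fun x hx => ⟨hx.1, hx.2.1⟩
  have hPr : volume.real P ≤ 2 * s := by
    have := ENNReal.toReal_mono ENNReal.ofReal_ne_top hP
    rw [ENNReal.toReal_ofReal (by linarith)] at this
    exact this
  have hlt : volume.real (P \ N) < 2 * s := by
    rcases eq_or_lt_of_le (measureReal_nonneg (μ := volume) (s := P)) with h0 | h0
    · have : volume.real (P \ N) ≤ volume.real P :=
        measureReal_mono sdiff_subset (fin hPW)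
      linarith
    · have hne : P.Nonempty := by
        by_contra h
        rw [not_nonempty_iff_eq_empty] at h
        rw [h] at h0
        simp at h0
      have hNpos : 0 < volume N := by
        obtain ⟨x0, hx0⟩ := hne
        rw [hPdef] at hx0
        obtain ⟨z, hz, hz0⟩ := hzero
        obtain ⟨lam, hlam⟩ : ∃ lam, lam = min η (u (x0 : ℂ)) / 2 := ⟨_, rfl⟩
        have hl1 : 0 < lam := by rw [hlam]; have := lt_min hη hx0.2; linarith
        have hl2 : lam < η := by rw [hlam]; have := min_le_left η (u (x0 : ℂ)); linarith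
        have hl3 : lam < u (x0 : ℂ) := by
          rw [hlam]; have := min_le_right η (u (x0 : ℂ)); have := hx0.2; linarith
        obtain ⟨x, hx, hxl⟩ := (isPreconnected_Icc (a := a) (b := a + 1)).intermediate_value hz hx0.1
          hu'.continuousOn (show lam ∈ Icc _ _ from ⟨by beta_reduce; rw [hz0]; exact hl1.le, hl3.le⟩)
        beta_reduce at hxl
        -- an open set around `x`
        have hO : IsOpen {y : ℝ | 0 < u (y : ℂ) ∧ u (y : ℂ) < η} :=
          (isOpen_lt continuous_const hu').inter (isOpen_lt hu' continuous_const)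
        have hxO : x ∈ {y : ℝ | 0 < u (y : ℂ) ∧ u (y : ℂ) < η} := by
          refine ⟨?_, ?_⟩
          · rw [hxl]; exact hl1
          · rw [hxl]; exact hl2
        have hxc : x ∈ closure (Ioo a (a + 1)) := by
          rw [closure_Ioo (by linarith)]; exact hx
        obtain ⟨y, hy1, hy2⟩ := mem_closure_iff.1 hxc _ hO hxO
        have hO2 : IsOpen ({y : ℝ | 0 < u (y : ℂ) ∧ u (y : ℂ) < η} ∩ Ioo a (a + 1)) :=
          hO.inter isOpen_Ioo
        refine (hO2.measure_pos volume ⟨y, hy1, hy2⟩).trans_le (measure_mono ?_)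
        rw [hNdef]
        exact fun w hw => ⟨Ioo_subset_Icc_self hw.2, hw.1⟩
      have hNr : 0 < volume.real N := ENNReal.toReal_pos hNpos.ne' (fin (hNP.trans hPW))
      have : volume.real (P \ N) = volume.real P - volume.real N :=
        measureReal_sdiff hNP hNm (h₁ := fin hPW)
      linarith
  refine ⟨max 0 (volume.real (P \ N) / 2), max_lt hs (by linarith), ?_⟩
  intro s' hs'
  have hs'0 : 0 < s' := (le_max_left _ _).trans_lt hs'.1
  have hs'1 : volume.real (P \ N) < 2 * s' := by
    have := (le_max_right 0 (volume.real (P \ N) / 2)).trans_lt hs'.1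
    linarith
  have hs'2 : s' < s := hs'.2
  have hWr : volume.real (Icc a (a + 1)) = 1 := by
    rw [measureReal_def, Real.volume_Icc, ENNReal.toReal_ofReal (by linarith)]; ring
  -- it suffices to find a good set
  suffices hA : ∃ A : Set ℝ, MeasurableSet A ∧ A ⊆ Icc a (a + 1) ∧ volume.real A = 2 * s' ∧
      ∫ x in Icc a (a + 1) \ A, u (x : ℂ) ≤ 2 * η * (s - s') by
    obtain ⟨A, hAm, hAW, hAr, hAi⟩ := hA
    have hvol : volume A = ENNReal.ofReal (2 * s') := by
      rw [← hAr, measureReal_def, ENNReal.ofReal_toReal (fin hAW)]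
    have h3 := hV a s' 0 hs'0.le (by linarith) A hAm hAW hvol
    have h4 : ∫ x in A, u ((x : ℂ) + (0 : ℝ) * I) = ∫ x in A, u (x : ℂ) := by simp
    rw [h4] at h3
    have hint : IntegrableOn (fun x : ℝ => u (x : ℂ)) (Icc a (a + 1)) :=
      hu'.integrableOn_Icc
    have h5 := setIntegral_sdiff hAm hint hAW
    rw [intervalIntegral.integral_of_le (by linarith), ← integral_Icc_eq_integral_Ioc]
    linarith
  rcases le_total (volume.real P) (2 * s') with hcase | hcase
  · obtain ⟨A, hAm, hA1, hA2, hA3⟩ := mid a P (Icc a (a + 1)) hPm measurableSet_Icc hPW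
      Subset.rfl (2 * s') hcase (by rw [hWr]; linarith)
    refine ⟨A, hAm, hA2, hA3, ?_⟩
    have : ∫ x in Icc a (a + 1) \ A, u (x : ℂ) = 0 := by
      apply setIntegral_eq_zero_of_forall_eq_zero
      intro x hx
      by_contra h
      have : 0 < u (x : ℂ) := lt_of_le_of_ne (hu0 _) (Ne.symm h)
      exact hx.2 (hA1 (by rw [hPdef]; exact ⟨hx.1, this⟩))
    rw [this]
    have : 0 < s - s' := by linarith
    positivity
  · obtain ⟨A, hAm, hA1, hA2, hA3⟩ := mid a (P \ N) P (hPm.diff hNm) hPm sdiff_subset
      hPW (2 * s') hs'1.le hcase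
    refine ⟨A, hAm, hA2.trans hPW, hA3, ?_⟩
    have hint : IntegrableOn (fun x : ℝ => u (x : ℂ)) (Icc a (a + 1) \ A) :=
      hu'.integrableOn_Icc.mono_set sdiff_subset
    have hWA : MeasurableSet (Icc a (a + 1) \ A) := measurableSet_Icc.diff hAm
    have hfinPA : volume (P \ A) ≠ ⊤ := fin (sdiff_subset.trans hPW)
    have hint2 : IntegrableOn ((P \ A).indicator (fun _ => η)) (Icc a (a + 1) \ A) := by
      refine IntegrableOn.integrable_indicator ?_ (hPm.diff hAm) |>.integrableOn
      exact integrableOn_const hfinPA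
    calc ∫ x in Icc a (a + 1) \ A, u (x : ℂ)
        ≤ ∫ x in Icc a (a + 1) \ A, (P \ A).indicator (fun _ => η) x := by
          refine setIntegral_mono_on hint hint2 hWA fun x hx => ?_
          by_cases hxP : x ∈ P
          · rw [indicator_of_mem (show x ∈ P \ A from ⟨hxP, hx.2⟩)]
            have hxN : x ∈ N := by
              by_contra h
              exact hx.2 (hA1 ⟨hxP, h⟩)
            rw [hNdef] at hxN
            exact hxN.2.2.le
          · rw [indicator_of_notMem (fun h => hxP h.1)]
            by_contra h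
            push Not at h
            exact hxP (by rw [hPdef]; exact ⟨hx.1, h⟩)
      _ = η * volume.real (P \ A) := by
          rw [setIntegral_indicator (hPm.diff hAm), setIntegral_const, smul_eq_mul, mul_comm]
          congr 2
          rw [inter_eq_right]
          exact sdiff_subset_sdiff_left hPW
      _ ≤ 2 * η * (s - s') := by
          have : volume.real (P \ A) = volume.real P - volume.real A :=
            measureReal_sdiff hA2 hAm (h₁ := fin hPW)
          rw [this, hA3]
          nlinarith

end Pool.Agent.H356R3.LV
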