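import Pool.Agent.H356R3.LV.Defs

set_option autoImplicit false
open MeasureTheory Set Filter Topology Complex InnerProductSpace

namespace Pool.Agent.H356R3.LV

namespace GCL

/-- clamp to a small interval around `γ` -/
noncomputable def cl (γ g : ℝ) : ℝ := max (γ / 2) (min g ((1 + γ) / 2))

theorem cl_cont (γ : ℝ) : Continuous (cl γ) := by unfold cl; fun_prop

theorem cl_mem (γ g : ℝ) (h0 : 0 < γ) (h1 : γ < 1) : γ / 2 ≤ cl γ g ∧ cl γ g ≤ (1 + γ) / 2 := by
  unfold cl
  exact ⟨le_max_left _ _, max_le (by linarith) (min_le_right _ _)⟩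

theorem cl_eq (γ g : ℝ) (h0 : γ / 2 ≤ g) (h1 : g ≤ (1 + γ) / 2) : cl γ g = g := by
  unfold cl
  rw [min_eq_left h1, max_eq_right h0]

theorem cos_ne (γ g : ℝ) (h0 : 0 < γ) (h1 : γ < 1) :
    ((Real.cos (Real.pi * cl γ g / 2) : ℝ) : ℂ) ≠ 0 := by
  obtain ⟨h2, h3⟩ := cl_mem γ g h0 h1
  have : 0 < Real.cos (Real.pi * cl γ g / 2) := by
    refine Real.cos_pos_of_mem_Ioo ⟨?_, ?_⟩
    · have : 0 < Real.pi * cl γ g / 2 := by
        have : 0 < cl γ g := by linarith
        positivity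
      linarith [Real.pi_pos]
    · have : Real.pi * cl γ g < Real.pi * 1 := by
        refine mul_lt_mul_of_pos_left (by linarith) Real.pi_pos
      linarith
  exact_mod_cast this.ne'

theorem cont (γ : ℝ) (h0 : 0 < γ) (h1 : γ < 1) (hgJ : Continuous gJ) :
    Continuous (fun p : ℝ × ℂ => Ut (cl γ p.1) p.2) := by
  unfold Ut
  refine continuous_const.mul (hgJ.comp ?_)
  refine Continuous.div ?_ ?_ ?_
  · exact Complex.continuous_cos.comp (continuous_const.mul continuous_snd)
  · refine Complex.continuous_ofReal.comp (Real.continuous_cos.comp ?_)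
    have := (cl_cont γ).comp (continuous_fst : Continuous (Prod.fst : ℝ × ℂ → ℝ))
    exact (continuous_const.mul this).div_const 2
  · intro p
    exact cos_ne γ p.1 h0 h1

theorem ev (γ : ℝ) (h0 : 0 < γ) (h1 : γ < 1) : ∀ᶠ g in 𝓝 γ, cl γ g = g := by
  have : Icc (γ / 2) ((1 + γ) / 2) ∈ 𝓝 γ := Icc_mem_nhds (by linarith) (by linarith)
  filter_upwards [this] with g hg
  exact cl_eq γ g hg.1 hg.2

end GCL

open GCL

theorem GC_proof (h1 : S_GJ1) : S_GC := by
  intro γ hγ0 hγ1
  have hc := cont γ hγ0 hγ1 h1.1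
  have he := ev γ hγ0 hγ1
  have hγ : cl γ γ = γ := cl_eq γ γ (by linarith) (by linarith)
  refine ⟨fun z => ?_, fun s y => ?_⟩
  · have hq : Continuous (fun g : ℝ => ((g, z) : ℝ × ℂ)) := by fun_prop
    have h2 := hc.comp hq
    have h3 : Tendsto (fun g : ℝ => Ut (cl γ g) z) (𝓝 γ) (𝓝 (Ut (cl γ γ) z)) := h2.tendsto γ
    rw [hγ] at h3
    refine h3.congr' ?_
    filter_upwards [he] with g hg
    rw [hg]
  · have h2 : Continuous (Function.uncurry (fun (g : ℝ) (x : ℝ) => Ut (cl γ g) (x + y * I))) := by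
      have hq : Continuous (fun p : ℝ × ℝ => ((p.1, ((p.2 : ℂ) + y * I)) : ℝ × ℂ)) := by fun_prop
      have h2 := hc.comp hq
      exact h2
    have h3 : Continuous (fun g : ℝ => ∫ x in (-s)..s, Ut (cl γ g) (x + y * I)) :=
      intervalIntegral.continuous_parametric_intervalIntegral_of_continuous' h2 _ _
    have h4 := h3.tendsto γ
    rw [hγ] at h4
    refine h4.congr' ?_
    filter_upwards [he] with g hg
    rw [hg]
    rfl

end Pool.Agent.H356R3.LV
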