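import Pool.Agent.H356R3.LV.Defs

set_option autoImplicit false

open MeasureTheory Set Filter Topology Complex InnerProductSpace

namespace Pool.Agent.H356R3.LV

namespace GJ1L

noncomputable def J (ζ : ℂ) : ℝ := (‖ζ - 1‖ + ‖ζ + 1‖) / 2

theorem gJ_eq (ζ : ℂ) : gJ ζ = Real.log (J ζ + √(J ζ ^ 2 - 1)) := rfl

theorem one_le_J (ζ : ℂ) : 1 ≤ J ζ := by
  unfold J
  have h := norm_sub_le (ζ + 1) (ζ - 1)
  have h2 : (ζ + 1) - (ζ - 1) = 2 := by ring
  rw [h2] at h
  have h3 : ‖(2 : ℂ)‖ = 2 := by norm_num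
  rw [h3] at h
  linarith

theorem norm_le_J (ζ : ℂ) : ‖ζ‖ ≤ J ζ := by
  unfold J
  have h := norm_add_le (ζ + 1) (ζ - 1)
  have h2 : (ζ + 1) + (ζ - 1) = 2 * ζ := by ring
  rw [h2, norm_mul] at h
  have h3 : ‖(2 : ℂ)‖ = 2 := by norm_num
  rw [h3] at h
  linarith

theorem J_le (ζ : ℂ) : J ζ ≤ ‖ζ‖ + 1 := by
  unfold J
  have h1 := norm_add_le ζ 1
  have h2 := norm_sub_le ζ 1
  have h3 : ‖(1 : ℂ)‖ = 1 := by norm_num
  rw [h3] at h1 h2
  linarith

theorem sq_norm (z : ℂ) : ‖z‖ ^ 2 = z.re ^ 2 + z.im ^ 2 := by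
  rw [← Complex.normSq_eq_norm_sq, Complex.normSq_apply]
  ring

theorem J_eq_one (ζ : ℂ) : J ζ = 1 ↔ ζ.im = 0 ∧ |ζ.re| ≤ 1 := by
  have ha := sq_norm (ζ - 1)
  have hb := sq_norm (ζ + 1)
  simp only [Complex.sub_re, Complex.sub_im, Complex.add_re, Complex.add_im, Complex.one_re,
    Complex.one_im, sub_zero, add_zero] at ha hb
  have ha0 := norm_nonneg (ζ - 1)
  have hb0 := norm_nonneg (ζ + 1)
  unfold J
  constructor
  · intro h
    have hs : ‖ζ - 1‖ + ‖ζ + 1‖ = 2 := by linarith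
    have h1 : ‖ζ + 1‖ - ‖ζ - 1‖ = 2 * ζ.re := by nlinarith
    have h2 : ‖ζ + 1‖ = 1 + ζ.re := by linarith
    have h3 : ‖ζ - 1‖ = 1 - ζ.re := by linarith
    rw [h3] at ha
    rw [h3] at ha0
    rw [h2] at hb0
    refine ⟨?_, abs_le.2 ⟨by linarith, by linarith⟩⟩
    have : ζ.im ^ 2 = 0 := by nlinarith
    exact pow_eq_zero_iff (two_ne_zero) |>.1 this
  · rintro ⟨hi, hr⟩
    obtain ⟨hr1, hr2⟩ := abs_le.1 hr
    rw [hi] at ha hb
    have h3 : ‖ζ - 1‖ = 1 - ζ.re := by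
      have : ‖ζ - 1‖ ^ 2 = (1 - ζ.re) ^ 2 := by rw [ha]; ring
      exact (pow_left_inj₀ ha0 (by linarith) two_ne_zero).1 this
    have h2 : ‖ζ + 1‖ = 1 + ζ.re := by
      have : ‖ζ + 1‖ ^ 2 = (1 + ζ.re) ^ 2 := by rw [hb]; ring
      exact (pow_left_inj₀ hb0 (by linarith) two_ne_zero).1 this
    rw [h2, h3]
    ring

theorem J_cos (w : ℂ) : J (Complex.cos w) = Real.cosh w.im := by
  have hw : Complex.cos w = ((Real.cos w.re * Real.cosh w.im : ℝ) : ℂ) -
      ((Real.sin w.re * Real.sinh w.im : ℝ) : ℂ) * Complex.I := by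
    conv_lhs => rw [← Complex.re_add_im w]
    rw [Complex.cos_add_mul_I]
    push_cast
    ring
  have hre : (Complex.cos w).re = Real.cos w.re * Real.cosh w.im := by
    rw [hw, Complex.sub_re, Complex.ofReal_re, Complex.re_ofReal_mul, Complex.I_re]; ring
  have him : (Complex.cos w).im = -(Real.sin w.re * Real.sinh w.im) := by
    rw [hw, Complex.sub_im, Complex.ofReal_im, Complex.im_ofReal_mul, Complex.I_im]; ring
  have hsc := Real.sin_sq_add_cos_sq w.re
  have hch := Real.cosh_sq w.im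
  have hc1 : 1 ≤ Real.cosh w.im := Real.one_le_cosh _
  have hcl := Real.cos_le_one w.re
  have hcg := Real.neg_one_le_cos w.re
  have ha := sq_norm (Complex.cos w - 1)
  have hb := sq_norm (Complex.cos w + 1)
  simp only [Complex.sub_re, Complex.sub_im, Complex.add_re, Complex.add_im, Complex.one_re,
    Complex.one_im, sub_zero, add_zero, hre, him] at ha hb
  have hs2 : Real.sin w.re ^ 2 = 1 - Real.cos w.re ^ 2 := by linarith
  have hsh2 : Real.sinh w.im ^ 2 = Real.cosh w.im ^ 2 - 1 := by linarith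
  have h1 : ‖Complex.cos w - 1‖ = Real.cosh w.im - Real.cos w.re := by
    have : ‖Complex.cos w - 1‖ ^ 2 = (Real.cosh w.im - Real.cos w.re) ^ 2 := by
      rw [ha]
      have : (-(Real.sin w.re * Real.sinh w.im)) ^ 2 =
        (1 - Real.cos w.re ^ 2) * (Real.cosh w.im ^ 2 - 1) := by rw [← hs2, ← hsh2]; ring
      rw [this]
      ring
    exact (pow_left_inj₀ (norm_nonneg _) (by linarith) two_ne_zero).1 this
  have h2 : ‖Complex.cos w + 1‖ = Real.cosh w.im + Real.cos w.re := by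
    have : ‖Complex.cos w + 1‖ ^ 2 = (Real.cosh w.im + Real.cos w.re) ^ 2 := by
      rw [hb]
      have : (-(Real.sin w.re * Real.sinh w.im)) ^ 2 =
        (1 - Real.cos w.re ^ 2) * (Real.cosh w.im ^ 2 - 1) := by rw [← hs2, ← hsh2]; ring
      rw [this]
      ring
    exact (pow_left_inj₀ (norm_nonneg _) (by linarith) two_ne_zero).1 this
  unfold J
  rw [h1, h2]
  ring

theorem ach_cosh (q : ℝ) : Real.log (Real.cosh q + √(Real.cosh q ^ 2 - 1)) = |q| := by
  have h1 : Real.cosh q ^ 2 - 1 = Real.sinh q ^ 2 := by rw [Real.cosh_sq]; ring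
  rw [h1, Real.sqrt_sq_eq_abs, Real.abs_sinh, ← Real.cosh_abs q, Real.cosh_add_sinh, Real.log_exp]

end GJ1L

open GJ1L in
theorem GJ1_proof : S_GJ1 := by
  have hpos : ∀ ζ, 1 ≤ J ζ + √(J ζ ^ 2 - 1) := fun ζ => by
    have := one_le_J ζ
    have := Real.sqrt_nonneg (J ζ ^ 2 - 1)
    linarith
  refine ⟨?_, ?_, ?_, ?_, ?_, ?_, ?_, ?_⟩
  · have hJ : Continuous J := by
      unfold J
      fun_prop
    have : Continuous (fun ζ => Real.log (J ζ + √(J ζ ^ 2 - 1))) := by
      apply Continuous.log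
      · fun_prop
      · intro ζ
        have := hpos ζ
        linarith
    exact this
  · intro ζ
    rw [gJ_eq]
    exact Real.log_nonneg (hpos ζ)
  · intro ζ
    rw [gJ_eq, ← J_eq_one]
    have h1 := one_le_J ζ
    have h2 := Real.sqrt_nonneg (J ζ ^ 2 - 1)
    constructor
    · intro h
      have h3 : J ζ + √(J ζ ^ 2 - 1) = 1 := by
        have := hpos ζ
        exact Real.eq_one_of_pos_of_log_eq_zero (by linarith) h
      linarith
    · intro h
      rw [h]
      norm_num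
  · intro ζ
    rw [gJ_eq, gJ_eq]
    have : J ((starRingEnd ℂ) ζ) = J ζ := by
      unfold J
      have h1 : (starRingEnd ℂ) ζ - 1 = (starRingEnd ℂ) (ζ - 1) := by simp
      have h2 : (starRingEnd ℂ) ζ + 1 = (starRingEnd ℂ) (ζ + 1) := by simp
      rw [h1, h2, Complex.norm_conj, Complex.norm_conj]
    rw [this]
  · intro ζ
    rw [gJ_eq, gJ_eq]
    have : J (-ζ) = J ζ := by
      unfold J
      have h1 : -ζ - 1 = -(ζ + 1) := by ring
      have h2 : -ζ + 1 = -(ζ - 1) := by ring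
      rw [h1, h2, norm_neg, norm_neg, add_comm]
    rw [this]
  · intro w
    rw [gJ_eq, J_cos, ach_cosh]
  · intro ζ hζ
    rw [gJ_eq]
    apply Real.log_le_log (norm_pos_iff.2 hζ)
    have h1 := norm_le_J ζ
    have h2 := Real.sqrt_nonneg (J ζ ^ 2 - 1)
    linarith
  · intro ζ
    rw [gJ_eq]
    apply Real.log_le_log (by have := hpos ζ; linarith)
    have h1 := one_le_J ζ
    have h2 := J_le ζ
    have h3 : √(J ζ ^ 2 - 1) ≤ J ζ := by
      rw [Real.sqrt_le_left (by linarith)]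
      linarith
    linarith

end Pool.Agent.H356R3.LV
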