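import Pool.Agent.H356R3.LV.Defs

/-! GJ2: the Green function `gJ` of the complement of `[-1,1]` is harmonic (helper368). -/

set_option autoImplicit false
open MeasureTheory Set Filter Topology Complex InnerProductSpace
namespace Pool.Agent.H356R3.LV

namespace GJ2L

theorem pre (ζ : ℂ) (h : ¬ (ζ.im = 0 ∧ |ζ.re| ≤ 1)) :
    ∃ w : ℂ, Complex.cos w = ζ ∧ Complex.sin w ≠ 0 ∧ w.im ≠ 0 := by
  obtain ⟨w, hw⟩ := Complex.cos_surjective ζ
  refine ⟨w, hw, ?_, ?_⟩
  · intro hs
    apply h
    have h1 := Complex.sin_sq_add_cos_sq w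
    rw [hs, hw] at h1
    have h2 : (ζ - 1) * (ζ + 1) = 0 := by linear_combination h1
    rcases mul_eq_zero.1 h2 with h3 | h3
    · have : ζ = 1 := by linear_combination h3
      rw [this]; simp
    · have : ζ = -1 := by linear_combination h3
      rw [this]; simp
  · intro him
    apply h
    have h1 : w = (w.re : ℂ) := by
      apply Complex.ext <;> simp [him]
    have h2 : ζ = ((Real.cos w.re : ℝ) : ℂ) := by
      rw [← hw, h1]
      simp
    rw [h2]
    refine ⟨Complex.ofReal_im _, ?_⟩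
    rw [Complex.ofReal_re]
    exact Real.abs_cos_le_one _

theorem inv (w : ℂ) (hs : Complex.sin w ≠ 0) :
    ∃ L : ℂ → ℂ, ContDiffAt ℂ 2 L (Complex.cos w) ∧ L (Complex.cos w) = w ∧
      ∀ᶠ z in 𝓝 (Complex.cos w), Complex.cos (L z) = z := by
  have h0 : (-Complex.sin w) ≠ 0 := neg_ne_zero.2 hs
  have h1 : HasStrictDerivAt Complex.cos (-Complex.sin w) w := Complex.hasStrictDerivAt_cos w
  have h2 := h1.hasStrictFDerivAt_equiv h0
  have h3 : ContDiffAt ℂ 2 Complex.cos w := Complex.contDiff_cos.contDiffAt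
  refine ⟨h3.localInverse h2.hasFDerivAt (by norm_num), h3.to_localInverse h2.hasFDerivAt _,
    h3.localInverse_apply_image h2.hasFDerivAt _, ?_⟩
  exact (h3.hasStrictFDerivAt' h2.hasFDerivAt (by norm_num)).eventually_right_inverse

end GJ2L

open GJ2L in
theorem GJ2_proof (hGJ1 : S_GJ1) : S_GJ2 := by
  intro ζ hζ
  obtain ⟨-, -, -, -, -, hcos, -, -⟩ := hGJ1
  obtain ⟨w, hw, hs, him⟩ := pre ζ hζ
  obtain ⟨L, hL, hLw, hinv⟩ := inv w hs
  rw [hw] at hL hLw hinv
  have hH : HarmonicAt L ζ := hL.harmonicAt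
  have hI : HarmonicAt (Complex.imCLM ∘ L) ζ := hH.comp_CLM Complex.imCLM
  have hc : ContinuousAt (fun z => (L z).im) ζ :=
    Complex.continuous_im.continuousAt.comp hL.continuousAt
  have heq : ∀ᶠ z in 𝓝 ζ, gJ z = |(L z).im| := by
    filter_upwards [hinv] with z hz
    rw [← hcos (L z), hz]
  rcases lt_or_gt_of_ne him with h | h
  · have hneg : ∀ᶠ z in 𝓝 ζ, (L z).im < 0 := by
      have := hc.eventually (gt_mem_nhds (show (L ζ).im < 0 by rw [hLw]; exact h))
      exact this
    rw [harmonicAt_congr_nhds (f₂ := -(Complex.imCLM ∘ L))]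
    · exact hI.neg
    · filter_upwards [heq, hneg] with z h1 h2
      rw [h1, abs_of_neg h2]
      rfl
  · have hpos : ∀ᶠ z in 𝓝 ζ, 0 < (L z).im := by
      have := hc.eventually (lt_mem_nhds (show 0 < (L ζ).im by rw [hLw]; exact h))
      exact this
    rw [harmonicAt_congr_nhds (f₂ := Complex.imCLM ∘ L)]
    · exact hI
    · filter_upwards [heq, hpos] with z h1 h2
      rw [h1, abs_of_pos h2]
      rfl

end Pool.Agent.H356R3.LV
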