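import Pool.Agent.H356R3.LV.Defs

set_option autoImplicit false
open MeasureTheory Set Filter Topology Complex InnerProductSpace

namespace Pool.Agent.H356R3.LV

namespace GJ3L

theorem ach_mono {s t : ℝ} (hs : 1 ≤ s) (hst : s ≤ t) : ach s ≤ ach t := by
  unfold ach
  have h1 : √(s ^ 2 - 1) ≤ √(t ^ 2 - 1) := Real.sqrt_le_sqrt (by nlinarith)
  have h2 := Real.sqrt_nonneg (s ^ 2 - 1)
  exact Real.log_le_log (by linarith) (by linarith)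

end GJ3L

theorem GJ3_proof : S_GJ3 := by
  intro ζ t ht
  unfold gJ
  have ht0 : 0 < t := by linarith
  have hti : t⁻¹ ≤ 1 := inv_le_one_of_one_le₀ ht
  have hti0 : 0 < t⁻¹ := inv_pos.2 ht0
  have htc : (t : ℂ) ≠ 0 := by exact_mod_cast ht0.ne'
  refine GJ3L.ach_mono ?_ ?_
  · have h1 : ‖(ζ + 1) - (ζ - 1)‖ ≤ ‖ζ + 1‖ + ‖ζ - 1‖ := norm_sub_le _ _
    have h2 : (ζ + 1) - (ζ - 1) = 2 := by ring
    rw [h2] at h1
    have h3 : ‖(2 : ℂ)‖ = 2 := by norm_num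
    rw [h3] at h1
    linarith
  · set a : ℝ := (1 + t⁻¹) / 2 with ha
    set b : ℝ := (1 - t⁻¹) / 2 with hb
    have ha0 : 0 ≤ a := by rw [ha]; linarith
    have hb0 : 0 ≤ b := by rw [hb]; linarith
    have hna : ‖(a : ℂ)‖ = a := by rw [Complex.norm_real, Real.norm_of_nonneg ha0]
    have hnb : ‖(b : ℂ)‖ = b := by rw [Complex.norm_real, Real.norm_of_nonneg hb0]
    have hac : (a : ℂ) = (1 + (t : ℂ)⁻¹) / 2 := by rw [ha]; push_cast; ring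
    have hbc : (b : ℂ) = (1 - (t : ℂ)⁻¹) / 2 := by rw [hb]; push_cast; ring
    have e1 : ζ - 1 = (a : ℂ) * (t * ζ - 1) - b * (t * ζ + 1) := by
      rw [hac, hbc]
      field_simp
      ring
    have e2 : ζ + 1 = (a : ℂ) * (t * ζ + 1) - b * (t * ζ - 1) := by
      rw [hac, hbc]
      field_simp
      ring
    have h1 : ‖ζ - 1‖ ≤ a * ‖(t : ℂ) * ζ - 1‖ + b * ‖(t : ℂ) * ζ + 1‖ := by
      rw [e1]
      refine (norm_sub_le _ _).trans ?_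
      rw [norm_mul, norm_mul, hna, hnb]
    have h2 : ‖ζ + 1‖ ≤ a * ‖(t : ℂ) * ζ + 1‖ + b * ‖(t : ℂ) * ζ - 1‖ := by
      rw [e2]
      refine (norm_sub_le _ _).trans ?_
      rw [norm_mul, norm_mul, hna, hnb]
    have h3 : a + b = 1 := by rw [ha, hb]; ring
    have h4 : a * ‖(t : ℂ) * ζ - 1‖ + b * ‖(t : ℂ) * ζ + 1‖ +
        (a * ‖(t : ℂ) * ζ + 1‖ + b * ‖(t : ℂ) * ζ - 1‖) =
        ‖(t : ℂ) * ζ - 1‖ + ‖(t : ℂ) * ζ + 1‖ := by
      linear_combination (‖(t : ℂ) * ζ - 1‖ + ‖(t : ℂ) * ζ + 1‖) * h3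
    linarith

end Pool.Agent.H356R3.LV
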