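import Pool.Agent.H356R3.LV.Defs
set_option autoImplicit false
open MeasureTheory Set Filter Topology Complex InnerProductSpace
namespace Pool.Agent.H356R3.LV

namespace GROWL

theorem PK_nonneg {y : ℝ} (hy : 0 < y) (t : ℝ) : 0 ≤ PK y t := by
  unfold PK
  positivity

theorem PK_eq {y : ℝ} (hy : 0 < y) (t : ℝ) :
    PK y t = 1 / (Real.pi * y) * (1 + (t / y) ^ 2)⁻¹ := by
  unfold PK
  have := Real.pi_pos
  field_simp
  ring

theorem PK_integrable {y : ℝ} (hy : 0 < y) : Integrable (PK y) := by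
  have h1 : Integrable (fun t : ℝ => 1 / (Real.pi * y) * (1 + (t / y) ^ 2)⁻¹) :=
    (integrable_inv_one_add_sq.comp_div hy.ne').const_mul _
  refine h1.congr (Eventually.of_forall fun t => ?_)
  exact (PK_eq hy t).symm

theorem PK_integral {y : ℝ} (hy : 0 < y) : ∫ t : ℝ, PK y t = 1 := by
  have hπ := Real.pi_pos
  calc ∫ t : ℝ, PK y t = ∫ t : ℝ, 1 / (Real.pi * y) * (1 + (t / y) ^ 2)⁻¹ :=
        integral_congr_ae (Eventually.of_forall fun t => PK_eq hy t)
    _ = 1 / (Real.pi * y) * ∫ t : ℝ, (1 + (t / y) ^ 2)⁻¹ := integral_const_mul _ _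
    _ = 1 / (Real.pi * y) * (|y| * Real.pi) := by
        rw [Measure.integral_comp_div (fun t : ℝ => (1 + t ^ 2)⁻¹) y,
          integral_univ_inv_one_add_sq, smul_eq_mul]
    _ = 1 := by
        rw [abs_of_pos hy]
        field_simp

theorem PK_cont {y : ℝ} (hy : 0 < y) : Continuous (PK y) := by
  unfold PK
  refine continuous_const.div (by fun_prop) fun t => ?_
  have := Real.pi_pos
  positivity

theorem U_nonneg {E : Set ℝ} {U : ℂ → ℝ} (h : IsU E U) (z : ℂ) : 0 ≤ U z := by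
  by_cases hz : z ∈ (fun x : ℝ => (x : ℂ)) '' E
  · obtain ⟨x, hx, rfl⟩ := hz
    exact (h.zero x hx).ge
  · exact (h.pos z hz).le

theorem rep (hHG : S_HG) {E : Set ℝ} {U : ℂ → ℝ} (h : IsU E U) :
    (∀ x y : ℝ, 0 < y → Integrable (fun t : ℝ => PK y (x - t) * U t)) ∧
    ∀ x y : ℝ, 0 < y → U (x + y * I) = y + ∫ t : ℝ, PK y (x - t) * U t := by
  have h1 := hHG U h.cont.continuousOn (fun z _ => U_nonneg h z)
    (fun z hz => h.harm z ?_) h.norm
  · exact h1.2
  · rintro ⟨x, hx, rfl⟩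
    simp at hz

theorem symm' {E : Set ℝ} {U : ℂ → ℝ} (h : IsU E U) (x y : ℝ) :
    U (x + y * I) = U (x + |y| * I) := by
  rcases le_or_gt 0 y with hy | hy
  · rw [abs_of_nonneg hy]
  · rw [abs_of_neg hy, ← h.symm]
    congr 1
    apply Complex.ext <;> simp

theorem bound_pos (hHG : S_HG) {E : Set ℝ} {U : ℂ → ℝ} (h : IsU E U) {M : ℝ}
    (hM : ∀ x : ℝ, U x ≤ M) (x : ℝ) {y : ℝ} (hy : 0 < y) : U (x + y * I) ≤ y + M := by
  obtain ⟨hi, he⟩ := rep hHG h
  rw [he x y hy]
  have h1 : ∫ t : ℝ, PK y (x - t) * U t ≤ ∫ t : ℝ, PK y (x - t) * M :=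
    integral_mono (hi x y hy) (((PK_integrable hy).comp_sub_left x).mul_const M)
      fun t => mul_le_mul_of_nonneg_left (hM t) (PK_nonneg hy _)
  have h2 : ∫ t : ℝ, PK y (x - t) * M = M := by
    rw [integral_mul_const, integral_sub_left_eq_self (PK y) volume x, PK_integral hy, one_mul]
  linarith

theorem win_pos (hHG : S_HG) {E : Set ℝ} {U : ℂ → ℝ} (h : IsU E U) {M : ℝ}
    (hM : ∀ x : ℝ, U x ≤ M) {L : ℝ} (hL : ∀ a : ℝ, ∫ x in a..(a + 1), U x ≤ L) (a : ℝ) {y : ℝ}
    (hy : 0 < y) : ∫ x in a..(a + 1), U (x + y * I) ≤ y + L := by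
  obtain ⟨hi, he⟩ := rep hHG h
  have hU : Continuous fun x : ℝ => U (x : ℂ) := h.cont.comp Complex.continuous_ofReal
  have hab : a ≤ a + 1 := by linarith
  have e1 : ∀ x : ℝ, ∫ t : ℝ, PK y (x - t) * U t = ∫ t : ℝ, PK y t * U ((x - t : ℝ) : ℂ) := by
    intro x
    rw [← integral_sub_left_eq_self (fun t : ℝ => PK y t * U ((x - t : ℝ) : ℂ)) volume x]
    simp
  have hint : Integrable (fun p : ℝ × ℝ => PK y p.2 * U ((p.1 - p.2 : ℝ) : ℂ))
      ((volume.restrict (Ioc a (a + 1))).prod volume) := by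
    refine Integrable.mono' (g := fun p : ℝ × ℝ => PK y p.2 * M) ?_ ?_ ?_
    · exact ((PK_integrable hy).mul_const M).comp_snd _
    · refine Continuous.aestronglyMeasurable ?_
      exact ((PK_cont hy).comp continuous_snd).mul (hU.comp (continuous_fst.sub continuous_snd))
    · refine Eventually.of_forall fun p => ?_
      rw [Real.norm_eq_abs, abs_of_nonneg (mul_nonneg (PK_nonneg hy _) (U_nonneg h _))]
      exact mul_le_mul_of_nonneg_left (hM _) (PK_nonneg hy _)
  have hint2 : Integrable (fun x : ℝ => ∫ t : ℝ, PK y t * U ((x - t : ℝ) : ℂ))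
      (volume.restrict (Ioc a (a + 1))) := hint.integral_prod_left
  have e2 : ∫ x in a..(a + 1), U (x + y * I) =
      y + ∫ x in Ioc a (a + 1), ∫ t : ℝ, PK y t * U ((x - t : ℝ) : ℂ) := by
    rw [intervalIntegral.integral_of_le hab]
    have : ∀ x : ℝ, U (x + y * I) = y + ∫ t : ℝ, PK y t * U ((x - t : ℝ) : ℂ) := by
      intro x
      rw [he x y hy, e1 x]
    simp_rw [this]
    rw [integral_add (integrable_const _) hint2]
    simp
  rw [e2, integral_integral_swap hint]
  have h3 : ∀ t : ℝ, ∫ x in Ioc a (a + 1), PK y t * U ((x - t : ℝ) : ℂ) ≤ PK y t * L := by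
    intro t
    rw [integral_const_mul]
    refine mul_le_mul_of_nonneg_left ?_ (PK_nonneg hy t)
    rw [← intervalIntegral.integral_of_le hab,
      intervalIntegral.integral_comp_sub_right (fun x : ℝ => U (x : ℂ)) t]
    have := hL (a - t)
    rwa [show a + 1 - t = a - t + 1 by ring]
  have h4 : ∫ t : ℝ, ∫ x in Ioc a (a + 1), PK y t * U ((x - t : ℝ) : ℂ) ≤
      ∫ t : ℝ, PK y t * L :=
    integral_mono hint.integral_prod_right ((PK_integrable hy).mul_const L) h3
  rw [integral_mul_const, PK_integral hy, one_mul] at h4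
  linarith

end GROWL

open GROWL

theorem GROW_proof (hHG : S_HG) : S_GROW := by
  intro E U _ h M hM
  refine ⟨fun z => ?_, fun L hL a y => ?_⟩
  · rw [← Complex.re_add_im z, symm' h]
    rcases eq_or_ne z.im 0 with h0 | h0
    · simpa [h0] using hM z.re
    · have := bound_pos hHG h hM z.re (abs_pos.2 h0)
      simpa using this
  · have e : ∀ x : ℝ, U (x + y * I) = U (x + |y| * I) := fun x => symm' h x y
    simp_rw [e]
    rcases eq_or_ne y 0 with h0 | h0
    · simpa [h0] using hL a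
    · exact win_pos hHG h hM hL a (abs_pos.2 h0)

end Pool.Agent.H356R3.LV
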