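import Pool.Agent.H356R3.LV.Defs
set_option autoImplicit false
open MeasureTheory Set Filter Topology Complex InnerProductSpace

/-! Harmonic functions composed with (anti)holomorphic maps. -/

namespace Pool.Agent.H356R3.LV

/-- a harmonic function is locally the real part of a holomorphic function -/
lemma HarmonicAt_local_re {u : ℂ → ℝ} {z : ℂ} (hu : HarmonicAt u z) :
    ∃ (R : ℝ) (F : ℂ → ℂ), 0 < R ∧ AnalyticOnNhd ℂ F (Metric.ball z R) ∧
      ∀ w ∈ Metric.ball z R, (F w).re = u w := by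
  obtain ⟨R, hR, hb⟩ := Metric.eventually_nhds_iff_ball.1 hu.eventually
  have hn : HarmonicOnNhd u (Metric.ball z R) := fun w hw => hb w hw
  obtain ⟨F, hF1, hF2⟩ := hn.exists_analyticOnNhd_ball_re_eq
  exact ⟨R, F, hR, hF1, fun w hw => hF2 hw⟩

/-- harmonic ∘ holomorphic is harmonic -/
lemma HarmonicAt_comp {u : ℂ → ℝ} {f : ℂ → ℂ} {z : ℂ} (hu : HarmonicAt u (f z))
    (hf : AnalyticAt ℂ f z) : HarmonicAt (fun w => u (f w)) z := by
  obtain ⟨R, F, hR, hF, hFu⟩ := HarmonicAt_local_re hu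
  have h1 : AnalyticAt ℂ (fun w => F (f w)) z :=
    AnalyticAt.comp (hF (f z) (Metric.mem_ball_self hR)) hf
  have h2 := h1.harmonicAt_re
  refine (harmonicAt_congr_nhds ?_).1 h2
  have h3 : ∀ᶠ w in 𝓝 z, f w ∈ Metric.ball (f z) R :=
    hf.continuousAt.eventually_mem (Metric.ball_mem_nhds _ hR)
  filter_upwards [h3] with w hw
  exact hFu _ hw

/-- harmonic ∘ affine is harmonic -/
lemma HarmonicAt_comp_affine {u : ℂ → ℝ} {a b z : ℂ} (hu : HarmonicAt u (a * z + b)) :
    HarmonicAt (fun w => u (a * w + b)) z :=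
  HarmonicAt_comp (f := fun w => a * w + b) hu (by fun_prop)

/-- harmonic ∘ conjugation is harmonic -/
lemma HarmonicAt_comp_conj {u : ℂ → ℝ} {z : ℂ} (hu : HarmonicAt u ((starRingEnd ℂ) z)) :
    HarmonicAt (fun w => u ((starRingEnd ℂ) w)) z := by
  obtain ⟨R, F, hR, hF, hFu⟩ := HarmonicAt_local_re hu
  have hmem : ∀ w ∈ Metric.ball z R, (starRingEnd ℂ) w ∈ Metric.ball ((starRingEnd ℂ) z) R := by
    intro w hw
    rw [Metric.mem_ball, Complex.dist_conj_conj]
    exact hw
  have h1 : DifferentiableOn ℂ (fun w => (starRingEnd ℂ) (F ((starRingEnd ℂ) w)))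
      (Metric.ball z R) := by
    intro w hw
    have h3 : DifferentiableAt ℂ F ((starRingEnd ℂ) w) :=
      (hF _ (hmem w hw)).differentiableAt
    have := h3.hasDerivAt.conj_conj
    simp only [Complex.conj_conj] at this
    exact this.differentiableAt.differentiableWithinAt
  have h2 : AnalyticAt ℂ (fun w => (starRingEnd ℂ) (F ((starRingEnd ℂ) w))) z :=
    h1.analyticAt (Metric.ball_mem_nhds _ hR)
  refine (harmonicAt_congr_nhds ?_).1 h2.harmonicAt_re
  filter_upwards [Metric.ball_mem_nhds z hR] with w hw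
  rw [Complex.conj_re]
  exact hFu _ (hmem w hw)

/-- harmonic ∘ reflection in the imaginary axis is harmonic -/
lemma HarmonicAt_comp_neg_conj {u : ℂ → ℝ} {z : ℂ} (hu : HarmonicAt u (-(starRingEnd ℂ) z)) :
    HarmonicAt (fun w => u (-(starRingEnd ℂ) w)) z := by
  have h1 : HarmonicAt (fun w => u (-1 * w + 0)) ((starRingEnd ℂ) z) :=
    HarmonicAt_comp_affine (by simpa using hu)
  have h2 := HarmonicAt_comp_conj h1
  simpa using h2

end Pool.Agent.H356R3.LV
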