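import Pool.Agent.H356R3.LV.Defs

set_option autoImplicit false
open MeasureTheory Set Filter Topology Complex InnerProductSpace

namespace Pool.Agent.H356R3.LV

namespace HGL

/-- the cutoff -/
noncomputable def chi (R t : ℝ) : ℝ := max 0 (min 1 (R + 1 - |t|))

theorem chi_nonneg (R t : ℝ) : 0 ≤ chi R t := le_max_left _ _

theorem chi_le_one (R t : ℝ) : chi R t ≤ 1 := max_le zero_le_one (min_le_left _ _)

theorem chi_eq_one {R t : ℝ} (h : |t| ≤ R) : chi R t = 1 := by
  unfold chi
  rw [min_eq_left (by linarith), max_eq_right zero_le_one]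

theorem chi_eq_zero {R t : ℝ} (h : R + 1 ≤ |t|) : chi R t = 0 := by
  unfold chi
  exact max_eq_left ((min_le_right _ _).trans (by linarith))

theorem chi_cont (R : ℝ) : Continuous (chi R) := by
  unfold chi
  fun_prop

theorem PK_nonneg {y : ℝ} (hy : 0 ≤ y) (t : ℝ) : 0 ≤ PK y t := by
  unfold PK
  positivity

theorem PK_cont {y : ℝ} (hy : 0 < y) (x : ℝ) : Continuous (fun t => PK y (x - t)) := by
  unfold PK
  refine Continuous.div continuous_const (by fun_prop) fun t => ?_
  positivity

theorem supp_cut (φ : ℝ → ℝ) (R : ℝ) : HasCompactSupport (fun t => φ t * chi R t) := by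
  refine HasCompactSupport.of_support_subset_isCompact (K := Icc (-(R + 1)) (R + 1)) isCompact_Icc ?_
  intro t ht
  rw [Function.mem_support] at ht
  rw [mem_Icc, ← abs_le]
  by_contra hcon
  exact ht (by rw [chi_eq_zero (not_le.1 hcon).le, mul_zero])

theorem int_cut {φ : ℝ → ℝ} (hφ : Continuous φ) (R : ℝ) :
    Integrable (fun t => φ t * chi R t) :=
  (hφ.mul (chi_cont R)).integrable_of_hasCompactSupport (supp_cut φ R)

theorem int_PK_cut {φ : ℝ → ℝ} (hφ : Continuous φ) (R : ℝ) {y : ℝ} (hy : 0 < y) (x : ℝ) :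
    Integrable (fun t => PK y (x - t) * (φ t * chi R t)) := by
  refine Continuous.integrable_of_hasCompactSupport
    ((PK_cont hy x).mul (hφ.mul (chi_cont R))) ?_
  exact HasCompactSupport.mul_left (supp_cut φ R)

theorem PK_le {z : ℂ} {t D : ℝ} (_hz : 0 < z.im) (hD : 0 < D) (h : D ≤ ‖z - t‖) :
    PK z.im (z.re - t) ≤ 1 / (Real.pi * D) := by
  have h1 : (z.re - t) ^ 2 + z.im ^ 2 = ‖z - t‖ ^ 2 := by
    rw [← Complex.normSq_eq_norm_sq, Complex.normSq_apply]
    simp
    ring
  have h2 : z.im ≤ ‖z - t‖ := by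
    have := Complex.abs_im_le_norm (z - t)
    simp only [sub_im, ofReal_im, sub_zero] at this
    exact (le_abs_self _).trans this
  have h3 : 0 < ‖z - t‖ := hD.trans_le h
  unfold PK
  rw [h1, div_le_div_iff₀ (by positivity) (by positivity)]
  have h4 : z.im * D ≤ ‖z - t‖ * ‖z - t‖ := mul_le_mul h2 h hD.le h3.le
  nlinarith [Real.pi_pos]

theorem cut_le (hWMP : S_WMP) (hPI : S_PI) {U : ℂ → ℝ} (hUc : ContinuousOn U {z : ℂ | 0 ≤ z.im})
    (hU0 : ∀ z : ℂ, 0 ≤ z.im → 0 ≤ U z) (hUh : HarmonicOnNhd U {z : ℂ | 0 < z.im})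
    (R : ℝ) (z : ℂ) (hz : 0 < z.im) :
    ∫ t : ℝ, PK z.im (z.re - t) * (U t * chi R t) ≤ U z := by
  classical
  have hφc : Continuous (fun t : ℝ => U t) := by
    have h1 := hUc.comp_continuous (f := fun t : ℝ => (t : ℂ)) (by fun_prop) (fun t => by simp)
    exact h1
  have hφ0 : ∀ t : ℝ, 0 ≤ U t := fun t => hU0 t (by simp)
  have hint := int_cut hφc R
  have hψ0 : ∀ t : ℝ, 0 ≤ U t * chi R t := fun t => mul_nonneg (hφ0 t) (chi_nonneg R t)
  obtain ⟨hP1, hP2⟩ := hPI (fun t => U t * chi R t) (hφc.mul (chi_cont R)) hψ0 (by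
    refine Continuous.integrable_of_hasCompactSupport
      ((hφc.mul (chi_cont R)).div (by fun_prop) (fun t => by positivity)) ?_
    have : (fun t : ℝ => U t * chi R t / (1 + t ^ 2)) =
        fun t : ℝ => (1 + t ^ 2)⁻¹ * (U t * chi R t) := by
      funext t; rw [div_eq_inv_mul]
    rw [this]
    exact HasCompactSupport.mul_left (supp_cut _ R))
  set P : ℂ → ℝ := fun z => ∫ t : ℝ, PK z.im (z.re - t) * (U t * chi R t) with hP
  set S : Set ℂ := {z : ℂ | 0 ≤ z.im} with hS
  set H : Set ℂ := {z : ℂ | 0 < z.im} with hH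
  have hSc : IsClosed S := isClosed_le continuous_const Complex.continuous_im
  have hHo : IsOpen H := isOpen_lt continuous_const Complex.continuous_im
  set v : ℂ → ℝ := fun z => if 0 < z.im then P z - U z else U z.re * chi R z.re - U z with hv
  have hvH : ∀ z ∈ H, v =ᶠ[𝓝 z] (P - U) := by
    intro z hz
    filter_upwards [hHo.mem_nhds hz] with w hw
    have hw' : 0 < w.im := hw
    simp only [hv, if_pos hw', Pi.sub_apply]
  have hharm : ∀ z ∈ H, HarmonicAt v z := by
    intro z hz
    rw [harmonicAt_congr_nhds (hvH z hz)]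
    exact (hP1 z hz).sub (hUh z hz)
  have hline : ∀ z ∈ S, ¬ 0 < z.im → z = (z.re : ℂ) := by
    intro z hz hz'
    have h1 : z.im = 0 := le_antisymm (not_lt.1 hz') hz
    exact Complex.ext (by simp) (by simp [h1])
  have hvle : ∀ z ∈ S, ¬ 0 < z.im → v z ≤ 0 := by
    intro z hz hz'
    simp only [hv, if_neg hz']
    have h1 : U z = U z.re := by rw [← hline z hz hz']
    rw [h1]
    have h2 := chi_le_one R z.re
    have h3 := hφ0 z.re
    nlinarith
  have hcont : ContinuousOn v S := by
    intro z hz
    by_cases hz' : 0 < z.im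
    · exact (hharm z hz').1.continuousAt.continuousWithinAt
    · have hzx := hline z hz hz'
      have hvz : v z = U z.re * chi R z.re - U z := by simp only [hv, if_neg hz']
      have hSU : S = H ∪ {z : ℂ | z.im = 0} := by
        ext w
        simp only [hS, hH, mem_ofPred_eq, mem_union]
        constructor
        · intro h
          rcases h.lt_or_eq with h | h
          · exact Or.inl h
          · exact Or.inr h.symm
        · rintro (h | h)
          · exact h.le
          · exact h.ge
      unfold ContinuousWithinAt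
      rw [hvz]
      have hUz : Tendsto U (𝓝[S] z) (𝓝 (U z)) := hUc z hz
      rw [hSU, nhdsWithin_union] at hUz ⊢
      rw [tendsto_sup] at hUz ⊢
      constructor
      · have h1 : Tendsto P (𝓝[H] z) (𝓝 (U z.re * chi R z.re)) := by
          have := hP2 z.re
          have hzx' : ((z.re : ℝ) : ℂ) = z := hzx.symm
          have hnh : 𝓝[H] ((z.re : ℝ) : ℂ) = 𝓝[H] z := by rw [hzx']
          rw [← hnh]
          exact this
        refine (h1.sub hUz.1).congr' ?_
        filter_upwards [self_mem_nhdsWithin] with w hw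
        have hw' : 0 < w.im := hw
        simp only [hv, if_pos hw']
      · have h1 : Tendsto (fun w : ℂ => U w.re * chi R w.re) (𝓝[{z : ℂ | z.im = 0}] z)
            (𝓝 (U z.re * chi R z.re)) := by
          have h2 : Continuous (fun w : ℂ => U w.re * chi R w.re) :=
            (hφc.comp Complex.continuous_re).mul ((chi_cont R).comp Complex.continuous_re)
          exact h2.continuousAt.tendsto.mono_left nhdsWithin_le_nhds
        refine (h1.sub hUz.2).congr' ?_
        filter_upwards [self_mem_nhdsWithin] with w hw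
        have hw' : ¬ 0 < w.im := by
          have : w.im = 0 := hw
          rw [this]; exact lt_irrefl _
        simp only [hv, if_neg hw']
  have hgrow : ∀ c > 0, ∃ R' : ℝ, ∀ z ∈ S, R' < ‖z‖ → v z ≤ c := by
    intro c hc
    set M : ℝ := ∫ t : ℝ, U t * chi R t with hM
    have hM0 : 0 ≤ M := integral_nonneg hψ0
    refine ⟨|R| + 1 + (M / (Real.pi * c) + 1), fun z hz hzn => ?_⟩
    by_cases hz' : 0 < z.im
    · have hD : M / (Real.pi * c) + 1 < ‖z‖ - (|R| + 1) := by linarith
      set D : ℝ := ‖z‖ - (|R| + 1) with hDdef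
      have hq : 0 ≤ M / (Real.pi * c) := div_nonneg hM0 (by positivity)
      have hD0 : 0 < D := by linarith
      have h1 : P z ≤ M / (Real.pi * D) := by
        have h2 : P z ≤ ∫ t : ℝ, 1 / (Real.pi * D) * (U t * chi R t) := by
          refine integral_mono (int_PK_cut hφc R hz' z.re) (hint.const_mul _) fun t => ?_
          show PK z.im (z.re - t) * (U t * chi R t) ≤ 1 / (Real.pi * D) * (U t * chi R t)
          by_cases ht : |t| ≤ |R| + 1
          · refine mul_le_mul_of_nonneg_right (PK_le hz' hD0 ?_) (hψ0 t)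
            have h3 : ‖z‖ - ‖(t : ℂ)‖ ≤ ‖z - t‖ := norm_sub_norm_le _ _
            rw [Complex.norm_real, Real.norm_eq_abs] at h3
            rw [hDdef]
            linarith
          · rw [chi_eq_zero (by linarith [le_abs_self R, not_le.1 ht])]
            simp
        rw [integral_const_mul] at h2
        refine h2.trans (le_of_eq ?_)
        rw [← hM]
        ring
      have h4 : M / (Real.pi * D) ≤ c := by
        rw [div_le_iff₀ (by positivity)]
        have h5 : M / (Real.pi * c) ≤ D := by linarith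
        rw [div_le_iff₀ (by positivity)] at h5
        linarith
      have h6 := hU0 z hz
      simp only [hv, if_pos hz']
      linarith
    · exact (hvle z hz hz').trans hc.le
  have hfin := hWMP S v hSc hcont hgrow (by
    intro z hz hvz
    by_cases hz' : 0 < z.im
    · exact ⟨mem_of_superset (hHo.mem_nhds hz') (fun w hw => (show 0 ≤ w.im from
        le_of_lt (show 0 < w.im from hw))), hharm z hz'⟩
    · exact absurd (hvle z hz hz') (not_le.2 hvz)) z hz.le
  simp only [hv, if_pos hz] at hfin
  linarith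

end HGL

open HGL in
theorem HG_proof (hWMP : S_WMP) (hPI : S_PI) (hVAN : S_VAN) : S_HG := by
  intro U hUc hU0 hUh hlim
  have hφc : Continuous (fun t : ℝ => U t) := by
    have h1 := hUc.comp_continuous (f := fun t : ℝ => (t : ℂ)) (by fun_prop) (fun t => by simp)
    exact h1
  have hφ0 : ∀ t : ℝ, 0 ≤ U t := fun t => hU0 t (by simp)
  -- the truncated integrals are bounded
  have hb : ∀ x y : ℝ, 0 < y → ∀ n : ℕ,
      ∫ t in (-(n : ℝ))..n, PK y (x - t) * U t ≤ U (x + y * I) := by
    intro x y hy n
    have h1 := cut_le hWMP hPI hUc hU0 hUh n (x + y * I) (by simpa using hy)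
    have e1 : ((x : ℂ) + y * I).im = y := by simp
    have e2 : ((x : ℂ) + y * I).re = x := by simp
    rw [e1, e2] at h1
    refine le_trans ?_ h1
    have hn : -(n : ℝ) ≤ n := by
      have : (0 : ℝ) ≤ n := Nat.cast_nonneg n
      linarith
    rw [intervalIntegral.integral_of_le hn]
    have h2 : ∫ t in Ioc (-(n : ℝ)) n, PK y (x - t) * U t =
        ∫ t in Ioc (-(n : ℝ)) n, PK y (x - t) * (U t * chi n t) := by
      refine setIntegral_congr_fun measurableSet_Ioc fun t ht => ?_
      have : |t| ≤ n := abs_le.2 ⟨ht.1.le, ht.2⟩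
      show PK y (x - t) * U t = PK y (x - t) * (U t * chi n t)
      rw [chi_eq_one this, mul_one]
    rw [h2]
    exact setIntegral_le_integral (int_PK_cut hφc n hy x) (ae_of_all _ fun t =>
      mul_nonneg (PK_nonneg hy.le _) (mul_nonneg (hφ0 t) (chi_nonneg _ _)))
  have hI : ∀ x y : ℝ, 0 < y → Integrable (fun t : ℝ => PK y (x - t) * U t) := by
    intro x y hy
    have hc : Continuous (fun t : ℝ => PK y (x - t) * U t) := (PK_cont hy x).mul hφc
    refine integrable_of_intervalIntegral_norm_bounded (l := atTop) (a := fun n : ℕ => -(n : ℝ))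
      (b := fun n : ℕ => (n : ℝ)) (U (x + y * I)) (fun n => ?_) ?_ ?_ ?_
    · exact (hc.integrableOn_Icc).mono_set Ioc_subset_Icc_self
    · exact tendsto_neg_atTop_atBot.comp tendsto_natCast_atTop_atTop
    · exact tendsto_natCast_atTop_atTop
    · refine Eventually.of_forall fun n => ?_
      refine le_trans (le_of_eq ?_) (hb x y hy n)
      refine intervalIntegral.integral_congr fun t _ => ?_
      show ‖PK y (x - t) * U t‖ = PK y (x - t) * U t
      rw [Real.norm_eq_abs, abs_of_nonneg (mul_nonneg (PK_nonneg hy.le _) (hφ0 t))]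
  have hle : ∀ x y : ℝ, 0 < y → ∫ t : ℝ, PK y (x - t) * U t ≤ U (x + y * I) := by
    intro x y hy
    have h1 := intervalIntegral_tendsto_integral (hI x y hy) (l := atTop)
      (a := fun n : ℕ => -(n : ℝ)) (b := fun n : ℕ => (n : ℝ))
      (tendsto_neg_atTop_atBot.comp tendsto_natCast_atTop_atTop) tendsto_natCast_atTop_atTop
    exact le_of_tendsto' h1 (hb x y hy)
  have hI1 : Integrable (fun t : ℝ => U t / (1 + t ^ 2)) := by
    have h1 := (hI 0 1 one_pos).const_mul Real.pi
    refine h1.congr (ae_of_all _ fun t => ?_)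
    show Real.pi * (PK 1 (0 - t) * U t) = U t / (1 + t ^ 2)
    unfold PK
    have : (0 - t) ^ 2 + 1 ^ 2 = 1 + t ^ 2 := by ring
    rw [this]
    have hp := Real.pi_pos.ne'
    have h2 : (1 + t ^ 2) ≠ 0 := by positivity
    field_simp
  refine ⟨hI1, hI, ?_⟩
  obtain ⟨hP1, hP2⟩ := hPI (fun t => U t) hφc hφ0 hI1
  obtain ⟨c, hc⟩ := hVAN (U - fun z : ℂ => ∫ t : ℝ, PK z.im (z.re - t) * U t) (hUh.sub hP1) (by
    intro z hz
    have h1 := hle z.re z.im hz
    rw [Complex.re_add_im] at h1
    simp only [Pi.sub_apply]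
    linarith) (by
    intro x
    have h1 : Tendsto U (𝓝[{z : ℂ | 0 < z.im}] (x : ℂ)) (𝓝 (U x)) := by
      have h2 : Tendsto U (𝓝[{z : ℂ | 0 ≤ z.im}] (x : ℂ)) (𝓝 (U x)) := hUc x (by simp)
      exact h2.mono_left (nhdsWithin_mono _ fun z hz => (show 0 ≤ z.im from
        le_of_lt (show 0 < z.im from hz)))
    have h3 := h1.sub (hP2 x)
    rw [sub_self] at h3
    exact h3)
  have hPlim : Tendsto (fun y : ℝ => (∫ t : ℝ, PK y (0 - t) * U t) / y) atTop (𝓝 0) := by
    have h1 : Tendsto (fun y : ℝ => ∫ t : ℝ, PK y (0 - t) * U t / y) atTop (𝓝 (∫ _ : ℝ, (0 : ℝ))) := by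
      refine tendsto_integral_filter_of_dominated_convergence
        (fun t => 1 / Real.pi * (U t / (1 + t ^ 2))) ?_ ?_ (hI1.const_mul _) ?_
      · filter_upwards [eventually_gt_atTop (0 : ℝ)] with y hy
        exact (((PK_cont hy 0).mul hφc).div_const y).aestronglyMeasurable
      · filter_upwards [eventually_ge_atTop (1 : ℝ)] with y hy
        refine ae_of_all _ fun t => ?_
        have hy0 : 0 < y := by linarith
        rw [Real.norm_eq_abs, abs_of_nonneg (div_nonneg (mul_nonneg (PK_nonneg hy0.le _) (hφ0 t))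
          hy0.le)]
        have e : PK y (0 - t) * U t / y = U t / (Real.pi * (t ^ 2 + y ^ 2)) := by
          unfold PK
          have e2 : (0 - t) ^ 2 + y ^ 2 = t ^ 2 + y ^ 2 := by ring
          rw [e2]
          have h2 : t ^ 2 + y ^ 2 ≠ 0 := by positivity
          have hp := Real.pi_pos.ne'
          field_simp
        rw [e]
        have e3 : 1 / Real.pi * (U t / (1 + t ^ 2)) = U t / (Real.pi * (1 + t ^ 2)) := by
          have h2 : 1 + t ^ 2 ≠ 0 := by positivity
          have hp := Real.pi_pos.ne'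
          field_simp
        rw [e3]
        refine div_le_div_of_nonneg_left (hφ0 t) (by positivity) ?_
        refine mul_le_mul_of_nonneg_left ?_ Real.pi_pos.le
        nlinarith
      · refine ae_of_all _ fun t => ?_
        have h2 : Tendsto (fun y : ℝ => U t / Real.pi * (t ^ 2 + y ^ 2)⁻¹) atTop (𝓝 0) := by
          have h3 : Tendsto (fun y : ℝ => t ^ 2 + y ^ 2) atTop atTop :=
            tendsto_atTop_add_const_left _ _ (tendsto_pow_atTop two_ne_zero)
          have h4 := (tendsto_inv_atTop_zero.comp h3).const_mul (U t / Real.pi)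
          rw [mul_zero] at h4
          exact h4
        refine h2.congr' ?_
        filter_upwards [eventually_gt_atTop (0 : ℝ)] with y hy
        unfold PK
        have e2 : (0 - t) ^ 2 + y ^ 2 = t ^ 2 + y ^ 2 := by ring
        rw [e2]
        have h5 : t ^ 2 + y ^ 2 ≠ 0 := by positivity
        have hp := Real.pi_pos.ne'
        field_simp
    rw [integral_zero] at h1
    refine h1.congr fun y => ?_
    exact integral_div y _
  have hc1 : c = 1 := by
    have h1 : Tendsto (fun y : ℝ => U (y * I) / y - (∫ t : ℝ, PK y (0 - t) * U t) / y) atTop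
        (𝓝 (1 - 0)) := hlim.sub hPlim
    have h2 : Tendsto (fun y : ℝ => U (y * I) / y - (∫ t : ℝ, PK y (0 - t) * U t) / y) atTop
        (𝓝 c) := by
      refine tendsto_const_nhds.congr' ?_
      filter_upwards [eventually_gt_atTop (0 : ℝ)] with y hy
      have h3 := hc (y * I) (by simpa using hy)
      simp only [Pi.sub_apply] at h3
      have e1 : ((y : ℂ) * I).im = y := by simp
      have e2 : ((y : ℂ) * I).re = 0 := by simp
      rw [e1, e2] at h3
      rw [← sub_div, h3]
      field_simp
    have h3 := tendsto_nhds_unique h2 h1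
    rw [h3]
    norm_num
  intro x y hy
  have h1 := hc (x + y * I) (by simpa using hy)
  simp only [Pi.sub_apply] at h1
  have e1 : ((x : ℂ) + y * I).im = y := by simp
  have e2 : ((x : ℂ) + y * I).re = x := by simp
  rw [e1, e2, hc1] at h1
  linarith

end Pool.Agent.H356R3.LV
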