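import Pool.Agent.H356R3.LV.Defs

/-! Task HK: Harnack inequality at large height (helper155). -/

set_option autoImplicit false
open MeasureTheory Set Filter Topology Complex InnerProductSpace

namespace Pool.Agent.H356R3.LV

namespace HKL

theorem num1 {B y u d : ℝ} (hB : 1 ≤ B) (hd : |d| ≤ 3) (hy0 : 0 ≤ y) (hy : y ≤ 2) :
    (B + y) * ((u + d) ^ 2 + B ^ 2) ≤ (B + 100) * (u ^ 2 + (B + y) ^ 2) := by
  obtain ⟨h1, h2⟩ := abs_le.mp hd
  have e1 : (u + d) ^ 2 + B ^ 2 ≤ u ^ 2 + 6 * |u| + 9 + B ^ 2 := by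
    have hd2 : d ^ 2 ≤ 9 := by nlinarith
    have hud : u * d ≤ 3 * |u| := by
      calc u * d ≤ |u * d| := le_abs_self _
        _ = |u| * |d| := abs_mul _ _
        _ ≤ |u| * 3 := mul_le_mul_of_nonneg_left hd (abs_nonneg _)
        _ = 3 * |u| := by ring
    nlinarith
  have e2 : (B + y) * ((u + d) ^ 2 + B ^ 2) ≤ (B + 2) * (u ^ 2 + 6 * |u| + 9 + B ^ 2) := by
    apply mul_le_mul (by linarith) e1 (by positivity) (by linarith)
  have e3 : (B + 100) * (u ^ 2 + B ^ 2) ≤ (B + 100) * (u ^ 2 + (B + y) ^ 2) := by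
    apply mul_le_mul_of_nonneg_left _ (by linarith)
    nlinarith
  refine e2.trans (le_trans ?_ e3)
  have ha : |u| ^ 2 = u ^ 2 := sq_abs u
  have h5 : 0 ≤ |u| := abs_nonneg u
  generalize |u| = a at *
  rw [← ha]
  nlinarith [sq_nonneg (a - B), mul_nonneg h5 (by linarith : (0 : ℝ) ≤ B - 1), sq_nonneg a]

theorem num2 {B y v d : ℝ} (hB : 1 ≤ B) (hd : |d| ≤ 3) (hy0 : 0 ≤ y) (hy : y ≤ 2) :
    B * ((v - d) ^ 2 + (B + y) ^ 2) ≤ (B + 100) * (v ^ 2 + B ^ 2) := by
  obtain ⟨h1, h2⟩ := abs_le.mp hd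
  have e1 : (v - d) ^ 2 + (B + y) ^ 2 ≤ v ^ 2 + 6 * |v| + 9 + (B ^ 2 + 4 * B + 4) := by
    have hd2 : d ^ 2 ≤ 9 := by nlinarith
    have hud : -(v * d) ≤ 3 * |v| := by
      calc -(v * d) ≤ |v * d| := neg_le_abs _
        _ = |v| * |d| := abs_mul _ _
        _ ≤ |v| * 3 := mul_le_mul_of_nonneg_left hd (abs_nonneg _)
        _ = 3 * |v| := by ring
    nlinarith
  have e2 : B * ((v - d) ^ 2 + (B + y) ^ 2) ≤ B * (v ^ 2 + 6 * |v| + 9 + (B ^ 2 + 4 * B + 4)) :=
    mul_le_mul_of_nonneg_left e1 (by linarith)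
  refine e2.trans ?_
  have ha : |v| ^ 2 = v ^ 2 := sq_abs v
  have h5 : 0 ≤ |v| := abs_nonneg v
  generalize |v| = a at *
  rw [← ha]
  nlinarith [sq_nonneg (a - B), mul_nonneg h5 (by linarith : (0 : ℝ) ≤ B - 1), sq_nonneg a]

theorem fac {B : ℝ} (hB : 1 ≤ B) : (1 + 100 / B) * B = B + 100 := by
  have : B ≠ 0 := by linarith
  field_simp

theorem ker1 {B y x x0 t : ℝ} (hB : 1 ≤ B) (hd : |x - x0| ≤ 3) (hy0 : 0 ≤ y) (hy : y ≤ 2) :
    PK (B + y) (x - t) ≤ (1 + 100 / B) * PK B (x0 - t) := by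
  unfold PK
  have hB0 : 0 < B := by linarith
  have hpi := Real.pi_pos
  rw [← mul_div_assoc, fac hB, div_le_div_iff₀ (by positivity) (by positivity)]
  have h := num1 (u := x - t) (d := x0 - x) hB (by rwa [abs_sub_comm]) hy0 hy
  rw [show x - t + (x0 - x) = x0 - t by ring] at h
  nlinarith

theorem ker2 {B y x x0 t : ℝ} (hB : 1 ≤ B) (hd : |x - x0| ≤ 3) (hy0 : 0 ≤ y) (hy : y ≤ 2) :
    PK B (x0 - t) ≤ (1 + 100 / B) * PK (B + y) (x - t) := by
  unfold PK
  have hB0 : 0 < B := by linarith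
  have hpi := Real.pi_pos
  have h1 : B + 100 ≤ (1 + 100 / B) * (B + y) := by
    rw [mul_add, fac hB]
    have : 0 ≤ (1 + 100 / B) * y := by positivity
    linarith
  rw [← mul_div_assoc]
  refine le_trans ?_ (div_le_div_of_nonneg_right h1 (by positivity))
  rw [div_le_div_iff₀ (by positivity) (by positivity)]
  have h := num2 (v := x0 - t) (d := x0 - x) hB (by rwa [abs_sub_comm]) hy0 hy
  rw [show x0 - t - (x0 - x) = x - t by ring] at h
  nlinarith

end HKL

theorem HK_proof (hHG : S_HG) : S_HK := by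
  intro E U _ hU x x0 y B hB hx hy0 hy
  have hnn : ∀ z : ℂ, 0 ≤ U z := by
    intro z
    by_cases hz : z ∈ (fun x : ℝ => (x : ℂ)) '' E
    · obtain ⟨t, ht, rfl⟩ := hz
      exact (hU.zero t ht).ge
    · exact (hU.pos z hz).le
  have hB0 : 0 < B := by linarith
  obtain ⟨_, hint, hrep⟩ := hHG U hU.cont.continuousOn (fun z _ => hnn z)
    (hU.harm.mono (by
      intro z hz hz'
      obtain ⟨t, _, rfl⟩ := hz'
      simp at hz)) hU.norm
  have i1 := hint x (B + y) (by linarith)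
  have i2 := hint x0 B hB0
  rw [hrep x (B + y) (by linarith), hrep x0 B hB0]
  have hc : 0 ≤ 100 / B := by positivity
  constructor
  · rw [mul_add, ← integral_const_mul]
    apply add_le_add
    · rw [HKL.fac hB]; linarith
    · apply integral_mono i1 (i2.const_mul _)
      intro t
      show PK (B + y) (x - t) * U t ≤ (1 + 100 / B) * (PK B (x0 - t) * U t)
      rw [← mul_assoc]
      exact mul_le_mul_of_nonneg_right (HKL.ker1 hB hx hy0 hy) (hnn _)
  · rw [mul_add, ← integral_const_mul]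
    apply add_le_add
    · rw [mul_add, HKL.fac hB]
      have : 0 ≤ (1 + 100 / B) * y := by positivity
      linarith
    · apply integral_mono i2 (i1.const_mul _)
      intro t
      show PK B (x0 - t) * U t ≤ (1 + 100 / B) * (PK (B + y) (x - t) * U t)
      rw [← mul_assoc]
      exact mul_le_mul_of_nonneg_right (HKL.ker2 hB hx hy0 hy) (hnn _)

end Pool.Agent.H356R3.LV
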