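import Pool.Agent.H356R3.LV.Defs

set_option autoImplicit false
open MeasureTheory Set Filter Topology Complex InnerProductSpace

namespace Pool.Agent.H356R3.LV

namespace LOCL

theorem gl_cont (u : ℂ → ℝ) (hu : Continuous u) (y : ℝ) : Continuous (gl u y) := by
  unfold gl
  fun_prop

theorem gl_analytic (u : ℂ → ℝ) (y x : ℝ) (h : HarmonicAt u (x + y * I)) :
    AnalyticAt ℝ (gl u y) x := by
  have h1 : AnalyticAt ℝ u ((fun t : ℝ => (t : ℂ) + y * I) x) := HarmonicAt.analyticAt h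
  have h2 : AnalyticAt ℝ (fun t : ℝ => (t : ℂ) + y * I) x :=
    (Complex.ofRealCLM.analyticAt x).add analyticAt_const
  exact AnalyticAt.comp (g := u) (f := fun t : ℝ => (t : ℂ) + y * I) h1 h2

/-- positive part of the window -/
def PP (u : ℂ → ℝ) (y a lam : ℝ) : Set ℝ := {x | x ∈ Icc a (a + 1) ∧ lam < gl u y x}

def ZZ (u : ℂ → ℝ) (y a lam : ℝ) : Set ℝ := {x | x ∈ Icc a (a + 1) ∧ gl u y x = lam}

theorem PP_meas (u : ℂ → ℝ) (hu : Continuous u) (y a lam : ℝ) : MeasurableSet (PP u y a lam) :=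
  measurableSet_Icc.inter (measurableSet_lt measurable_const (gl_cont u hu y).measurable)

theorem signs (hSGN : S_SGN) (u : ℂ → ℝ) (hu : Continuous u) (y a lam : ℝ)
    (hh : ∀ x ∈ Icc a (a + 1), lam ≤ u (x + y * I) → HarmonicAt u (x + y * I))
    (hn : ∀ x ∈ Icc a (a + 1), ¬ (∀ᶠ t in 𝓝 x, gl u y t = lam)) :
    ∀ x ∈ Icc a (a + 1), ∃ κ > 0,
      ((∀ t ∈ Ioo x (x + κ), lam < gl u y t) ∨ (∀ t ∈ Ioo x (x + κ), gl u y t < lam)) ∧
      ((∀ t ∈ Ioo (x - κ) x, lam < gl u y t) ∨ (∀ t ∈ Ioo (x - κ) x, gl u y t < lam)) := by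
  intro x hx
  rcases lt_or_ge (gl u y x) lam with h | h
  · have h1 : ∀ᶠ t in 𝓝 x, gl u y t < lam :=
      (gl_cont u hu y).continuousAt.eventually_lt continuousAt_const h
    obtain ⟨κ, hκ, hb⟩ := Metric.eventually_nhds_iff_ball.1 h1
    rw [Real.ball_eq_Ioo] at hb
    exact ⟨κ, hκ, Or.inr fun t ht => hb t ⟨by linarith [ht.1], ht.2⟩,
      Or.inr fun t ht => hb t ⟨ht.1, by linarith [ht.2]⟩⟩
  · exact hSGN (gl u y) x lam (gl_analytic u y x (hh x hx h)) (hn x hx)

theorem ZZ_null (u : ℂ → ℝ) (y a lam : ℝ)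
    (hs : ∀ x ∈ Icc a (a + 1), ∃ κ > 0,
      ((∀ t ∈ Ioo x (x + κ), lam < gl u y t) ∨ (∀ t ∈ Ioo x (x + κ), gl u y t < lam)) ∧
      ((∀ t ∈ Ioo (x - κ) x, lam < gl u y t) ∨ (∀ t ∈ Ioo (x - κ) x, gl u y t < lam))) :
    volume (ZZ u y a lam) = 0 := by
  apply measure_null_of_locally_null
  intro x hx
  obtain ⟨κ, hκ, h1, h2⟩ := hs x hx.1
  refine ⟨{x}, ?_, measure_singleton x⟩
  rw [mem_nhdsWithin]
  refine ⟨Ioo (x - κ) (x + κ), isOpen_Ioo, ⟨by linarith, by linarith⟩, ?_⟩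
  rintro t ⟨ht1, ht2⟩
  rw [mem_singleton_iff]
  rcases lt_trichotomy t x with h | h | h
  · rcases h2 with h2 | h2
    · exact absurd ht2.2 (h2 t ⟨ht1.1, h⟩).ne'
    · exact absurd ht2.2 (h2 t ⟨ht1.1, h⟩).ne
  · exact h
  · rcases h1 with h1 | h1
    · exact absurd ht2.2 (h1 t ⟨h, ht1.2⟩).ne'
    · exact absurd ht2.2 (h1 t ⟨h, ht1.2⟩).ne

theorem int_window (u : ℂ → ℝ) (hu : Continuous u) (y a : ℝ) (B : Set ℝ) (hB : B ⊆ Icc a (a + 1)) :
    IntegrableOn (fun x : ℝ => u (x + y * I)) B := by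
  have h : IntegrableOn (fun x : ℝ => u (x + y * I)) (Icc a (a + 1)) :=
    (gl_cont u hu y).continuousOn.integrableOn_compact isCompact_Icc
  exact h.mono_set hB

/-- splitting off a part where `lam ≤ g` -/
theorem split (u : ℂ → ℝ) (hu : Continuous u) (y a lam : ℝ)
    (hZ : volume (ZZ u y a lam) = 0) (J : Set ℝ) (hJm : MeasurableSet J) (hJ : J ⊆ Icc a (a + 1))
    (hJl : ∀ x ∈ J, lam ≤ gl u y x) :
    volume (PP u y a lam \ J) + volume J = volume (PP u y a lam) ∧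
    ∫ x in PP u y a lam, u (x + y * I) =
      (∫ x in PP u y a lam \ J, u (x + y * I)) + ∫ x in J, u (x + y * I) := by
  have hP : PP u y a lam ⊆ Icc a (a + 1) := fun x hx => hx.1
  have hae : (PP u y a lam ∩ J : Set ℝ) =ᵐ[volume] J := by
    rw [ae_eq_set]
    constructor
    · rw [show (PP u y a lam ∩ J) \ J = ∅ by ext x; simp [and_assoc]]
      exact measure_empty
    · apply measure_mono_null _ hZ
      rintro x ⟨hx1, hx2⟩
      refine ⟨hJ hx1, le_antisymm ?_ (hJl x hx1)⟩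
      by_contra hlt
      exact hx2 ⟨⟨hJ hx1, not_le.1 hlt⟩, hx1⟩
  constructor
  · rw [← measure_congr hae, add_comm, measure_inter_add_sdiff _ hJm]
  · rw [← setIntegral_congr_set hae, add_comm,
      integral_inter_add_sdiff hJm (int_window u hu y a _ hP)]

theorem dd_int (u : ℂ → ℝ) (y : ℝ) (K B : Set ℝ) (hK : IsCompact K) (hB : B ⊆ K)
    (hh : ∀ x ∈ K, HarmonicAt u (x + y * I)) :
    IntegrableOn (fun x => deriv (deriv (gl u y)) x) B := by
  have hc : ContinuousOn (fun x => deriv (deriv (gl u y)) x) K := by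
    intro x hx
    have h1 := gl_analytic u y x (hh x hx)
    exact (h1.deriv.deriv.continuousAt).continuousWithinAt
  exact (hc.integrableOn_compact hK).mono_set hB

theorem ico (u : ℂ → ℝ) (y p q : ℝ) (h : p ≤ q) :
    ∫ x in Icc p q, u (x + y * I) = ∫ x in p..q, u (x + y * I) := by
  rw [intervalIntegral.integral_of_le h, integral_Icc_eq_integral_Ioc]

end LOCL

open LOCL in
theorem LOC_proof (hSTR : S_STR) (hSGN : S_SGN) (hCURV : S_CURV) (hCA : S_CA) (hCB : S_CB)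
    (hCBM : S_CBM) (hCC : S_CC) : S_LOC := by
  intro u H ε b a s y lam A hu hε hs0 hs1 hH hL hAm hAW hAv hVV hA1 hA2 hh hn
  have hg := gl_cont u hu y
  have hsg := signs hSGN u hu y a lam hh hn
  have hZ := ZZ_null u y a lam hsg
  set P := PP u y a lam with hP
  have hPW : P ⊆ Icc a (a + 1) := fun x hx => hx.1
  have hPm : MeasurableSet P := PP_meas u hu y a lam
  -- `A` and `P` agree up to a null set
  have hPA : P ⊆ A := by
    intro x hx
    by_contra hxA
    have := hA2 x ⟨hx.1, hxA⟩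
    exact absurd hx.2 (not_lt.2 this)
  have hAP : (A : Set ℝ) =ᵐ[volume] P := by
    rw [ae_eq_set]
    constructor
    · apply measure_mono_null _ hZ
      rintro x ⟨hx1, hx2⟩
      refine ⟨hAW hx1, le_antisymm ?_ (hA1 x hx1)⟩
      by_contra hlt
      exact hx2 ⟨hAW hx1, not_le.1 hlt⟩
    · rw [Set.sdiff_eq_empty.2 hPA]
      exact measure_empty
  have hPv : volume P = ENNReal.ofReal (2 * s) := by rw [← measure_congr hAP, hAv]
  have hPi : VV u a s y = ∫ x in P, u (x + y * I) := by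
    rw [hVV, setIntegral_congr_set hAP]
  -- both signs occur
  have hup : ∃ x ∈ Icc a (a + 1), lam < gl u y x := by
    have : P.Nonempty := by
      rw [nonempty_iff_ne_empty]
      intro h
      rw [h, measure_empty] at hPv
      have : 0 < ENNReal.ofReal (2 * s) := ENNReal.ofReal_pos.2 (by linarith)
      rw [← hPv] at this
      exact lt_irrefl _ this
    obtain ⟨x, hx⟩ := this
    exact ⟨x, hx.1, hx.2⟩
  have hdn : ∃ x ∈ Icc a (a + 1), gl u y x < lam := by
    by_contra hcon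
    push Not at hcon
    have hsub : Icc a (a + 1) ⊆ P ∪ ZZ u y a lam := by
      intro x hx
      rcases (hcon x hx).eq_or_lt with h | h
      · exact Or.inr ⟨hx, h.symm⟩
      · exact Or.inl ⟨hx, h⟩
    have h1 : volume (Icc a (a + 1)) ≤ ENNReal.ofReal (2 * s) := by
      calc volume (Icc a (a + 1)) ≤ volume (P ∪ ZZ u y a lam) := measure_mono hsub
        _ ≤ volume P + volume (ZZ u y a lam) := measure_union_le _ _
        _ = ENNReal.ofReal (2 * s) := by rw [hZ, add_zero, hPv]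
    rw [Real.volume_Icc, ENNReal.ofReal_le_ofReal_iff (by linarith)] at h1
    linarith
  -- the compact set
  set K : Set ℝ := Icc a (a + 1) ∩ {x | lam ≤ gl u y x} with hK
  have hKc : IsCompact K := isCompact_Icc.inter_right (isClosed_le continuous_const hg)
  have hKh : ∀ x ∈ K, HarmonicAt u (x + y * I) := fun x hx => hh x hx.1 hx.2
  have hPK : P ⊆ K := fun x hx => ⟨hx.1, hx.2.le⟩
  have hKa : ∀ x ∈ K, AnalyticAt ℝ (gl u y) x := fun x hx => gl_analytic u y x (hKh x hx)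
  -- curvature
  have hcurv : ∀ p q : ℝ, a ≤ p → q ≤ a + 1 → p ≤ q → gl u y p ≤ lam → gl u y q ≤ lam →
      ∫ x in {x | x ∈ Icc p q ∧ lam < gl u y x}, deriv (deriv (gl u y)) x ≤ 0 := by
    intro p q hp hq hpq h1 h2
    exact hCURV (gl u y) p q lam hpq hg h1 h2 fun x hx hx2 =>
      hKa x ⟨⟨hp.trans hx.1, hx.2.trans hq⟩, hx2⟩
  obtain ⟨κ, hκ, hcase⟩ := hSTR (gl u y) a lam hg hsg hup hdn
  rcases hcase with ⟨α, β, a1, a2, a3, a4, a5, a6, a7, a8⟩ | ⟨α, a1, a2, a3, a4, a5⟩ |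
    ⟨β, a1, a2, a3, a4, a5⟩ | ⟨α, β, a1, a2, a3, a4, a5, a6, a7⟩
  · -- (A)
    have hJW : Icc α β ⊆ Icc a (a + 1) := Icc_subset_Icc (by linarith) (by linarith)
    obtain ⟨s1, s2⟩ := split u hu y a lam hZ (Icc α β) measurableSet_Icc hJW a4
    rw [← hP] at s1 s2
    rw [ico u y α β a2.le] at s2
    have hRc : P \ Icc α β = {x | x ∈ Icc a (α - κ) ∧ lam < gl u y x} ∪
        {x | x ∈ Icc (β + κ) (a + 1) ∧ lam < gl u y x} := by
      ext x
      constructor
      · rintro ⟨⟨hx1, hx2⟩, hx3⟩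
        rcases lt_or_ge x α with h | h
        · left
          refine ⟨⟨hx1.1, ?_⟩, hx2⟩
          by_contra hlt
          exact absurd hx2 (not_lt.2 (a5 x ⟨(not_le.1 hlt).le, h⟩).le)
        · right
          have h2 : β < x := by
            by_contra hlt
            exact hx3 ⟨h, not_lt.1 hlt⟩
          refine ⟨⟨?_, hx1.2⟩, hx2⟩
          by_contra hlt
          exact absurd hx2 (not_lt.2 (a6 x ⟨h2, (not_le.1 hlt).le⟩).le)
      · rintro (⟨hx1, hx2⟩ | ⟨hx1, hx2⟩)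
        · exact ⟨⟨⟨hx1.1, by linarith [hx1.2]⟩, hx2⟩, fun h => by linarith [hx1.2, h.1]⟩
        · exact ⟨⟨⟨by linarith [hx1.1], hx1.2⟩, hx2⟩, fun h => by linarith [hx1.1, h.2]⟩
    refine hCA u H ε b a s y α β κ (P \ Icc α β) K hu hε hs0 hs1 hκ hH hL a1 a2 a3
      (hPm.diff measurableSet_Icc) (sdiff_subset.trans hPW) ?_ ?_ hKc (sdiff_subset.trans hPK)
      (fun x hx => ⟨hJW hx, a4 x hx⟩) hKh ?_ ?_
    · rw [Set.disjoint_left]
      intro x hx hx2
      rw [hRc] at hx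
      rcases hx with ⟨h1, h2⟩ | ⟨h1, h2⟩
      · have h3 : x = α - κ := le_antisymm h1.2 hx2.1
        exact absurd h2 (not_lt.2 (a5 x ⟨h3.ge, by linarith⟩).le)
      · have h3 : x = β + κ := le_antisymm hx2.2 h1.1
        exact absurd h2 (not_lt.2 (a6 x ⟨by linarith, h3.le⟩).le)
    · rw [← hPv, ← s1, Real.volume_Icc]
    · rw [hPi, s2]
    · rw [hRc, setIntegral_union]
      · have h1 := hcurv a (α - κ) le_rfl (by linarith) (by linarith) a7
          (a5 (α - κ) ⟨le_rfl, by linarith⟩).le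
        have h2 := hcurv (β + κ) (a + 1) (by linarith) le_rfl (by linarith)
          (a6 (β + κ) ⟨by linarith, le_rfl⟩).le a8
        linarith
      · rw [Set.disjoint_left]
        rintro x ⟨h1, _⟩ ⟨h2, _⟩
        linarith [h1.2, h2.1]
      · exact measurableSet_Icc.inter (measurableSet_lt measurable_const hg.measurable)
      · exact dd_int u y K _ hKc (fun x hx => ⟨⟨hx.1.1, by linarith [hx.1.2]⟩, hx.2.le⟩) hKh
      · exact dd_int u y K _ hKc (fun x hx => ⟨⟨by linarith [hx.1.1], hx.1.2⟩, hx.2.le⟩) hKh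
  · -- (B)
    have hJW : Icc α (a + 1) ⊆ Icc a (a + 1) := Icc_subset_Icc (by linarith) le_rfl
    obtain ⟨s1, s2⟩ := split u hu y a lam hZ (Icc α (a + 1)) measurableSet_Icc hJW a3
    rw [← hP] at s1 s2
    rw [ico u y α (a + 1) a2.le] at s2
    have hRc : P \ Icc α (a + 1) = {x | x ∈ Icc a (α - κ) ∧ lam < gl u y x} := by
      ext x
      constructor
      · rintro ⟨⟨hx1, hx2⟩, hx3⟩
        have h : x < α := by
          by_contra hlt
          exact hx3 ⟨not_lt.1 hlt, hx1.2⟩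
        refine ⟨⟨hx1.1, ?_⟩, hx2⟩
        by_contra hlt
        exact absurd hx2 (not_lt.2 (a4 x ⟨(not_le.1 hlt).le, h⟩).le)
      · rintro ⟨hx1, hx2⟩
        exact ⟨⟨⟨hx1.1, by linarith [hx1.2]⟩, hx2⟩, fun h => by linarith [hx1.2, h.1]⟩
    refine hCB u H ε b a s y α κ (P \ Icc α (a + 1)) K hu hε hs0 hs1 hκ hH hL a1 a2
      (hPm.diff measurableSet_Icc) ?_ ?_ hKc (sdiff_subset.trans hPK)
      (fun x hx => ⟨hJW hx, a3 x hx⟩) hKh ?_ ?_
    · rw [hRc]
      rintro x ⟨hx1, hx2⟩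
      refine ⟨?_, hx1.2⟩
      by_contra hlt
      exact absurd hx2 (not_lt.2 (a5 x ⟨hx1.1, (not_le.1 hlt).le⟩))
    · rw [← hPv, ← s1, Real.volume_Icc]
    · rw [hPi, s2]
    · rw [hRc]
      exact hcurv a (α - κ) le_rfl (by linarith) (by linarith) (a5 a ⟨le_rfl, by linarith⟩)
        (a4 (α - κ) ⟨le_rfl, by linarith⟩).le
  · -- (B')
    have hJW : Icc a β ⊆ Icc a (a + 1) := Icc_subset_Icc le_rfl (by linarith)
    obtain ⟨s1, s2⟩ := split u hu y a lam hZ (Icc a β) measurableSet_Icc hJW a3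
    rw [← hP] at s1 s2
    rw [ico u y a β a1.le] at s2
    have hRc : P \ Icc a β = {x | x ∈ Icc (β + κ) (a + 1) ∧ lam < gl u y x} := by
      ext x
      constructor
      · rintro ⟨⟨hx1, hx2⟩, hx3⟩
        have h : β < x := by
          by_contra hlt
          exact hx3 ⟨hx1.1, not_lt.1 hlt⟩
        refine ⟨⟨?_, hx1.2⟩, hx2⟩
        by_contra hlt
        exact absurd hx2 (not_lt.2 (a4 x ⟨h, (not_le.1 hlt).le⟩).le)
      · rintro ⟨hx1, hx2⟩
        exact ⟨⟨⟨by linarith [hx1.1], hx1.2⟩, hx2⟩, fun h => by linarith [hx1.1, h.2]⟩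
    refine hCBM u H ε b a s y β κ (P \ Icc a β) K hu hε hs0 hs1 hκ hH hL a1 (by linarith)
      (hPm.diff measurableSet_Icc) ?_ ?_ hKc (sdiff_subset.trans hPK)
      (fun x hx => ⟨hJW hx, a3 x hx⟩) hKh ?_ ?_
    · rw [hRc]
      rintro x ⟨hx1, hx2⟩
      refine ⟨hx1.1, ?_⟩
      by_contra hlt
      exact absurd hx2 (not_lt.2 (a5 x ⟨(not_le.1 hlt).le, hx1.2⟩))
    · rw [← hPv, ← s1, Real.volume_Icc]
    · rw [hPi, s2]
    · rw [hRc]
      exact hcurv (β + κ) (a + 1) (by linarith) le_rfl (by linarith)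
        (a4 (β + κ) ⟨by linarith, le_rfl⟩).le (a5 (a + 1) ⟨by linarith, le_rfl⟩)
  · -- (C)
    have hJ1 : Icc a β ⊆ Icc a (a + 1) := Icc_subset_Icc le_rfl (by linarith)
    have hJ2 : Icc α (a + 1) ⊆ Icc a (a + 1) := Icc_subset_Icc (by linarith) le_rfl
    have hdis : Disjoint (Icc a β) (Icc α (a + 1)) := by
      rw [Set.disjoint_left]
      intro x h1 h2
      linarith [h1.2, h2.1]
    obtain ⟨s1, s2⟩ := split u hu y a lam hZ (Icc a β ∪ Icc α (a + 1))
      (measurableSet_Icc.union measurableSet_Icc) (union_subset hJ1 hJ2) (by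
        rintro x (hx | hx)
        · exact a4 x hx
        · exact a5 x hx)
    rw [← hP] at s1 s2
    rw [setIntegral_union hdis measurableSet_Icc (int_window u hu y a _ hJ1)
      (int_window u hu y a _ hJ2), ico u y a β a1.le, ico u y α (a + 1) a3.le] at s2
    rw [measure_union hdis measurableSet_Icc, Real.volume_Icc, Real.volume_Icc] at s1
    have hRc : P \ (Icc a β ∪ Icc α (a + 1)) =
        {x | x ∈ Icc (β + κ) (α - κ) ∧ lam < gl u y x} := by
      ext x
      constructor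
      · rintro ⟨⟨hx1, hx2⟩, hx3⟩
        have h1 : β < x := by
          by_contra hlt
          exact hx3 (Or.inl ⟨hx1.1, not_lt.1 hlt⟩)
        have h2 : x < α := by
          by_contra hlt
          exact hx3 (Or.inr ⟨not_lt.1 hlt, hx1.2⟩)
        refine ⟨⟨?_, ?_⟩, hx2⟩
        · by_contra hlt
          exact absurd hx2 (not_lt.2 (a6 x ⟨h1, (not_le.1 hlt).le⟩).le)
        · by_contra hlt
          exact absurd hx2 (not_lt.2 (a7 x ⟨(not_le.1 hlt).le, h2⟩).le)
      · rintro ⟨hx1, hx2⟩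
        refine ⟨⟨⟨by linarith [hx1.1], by linarith [hx1.2]⟩, hx2⟩, ?_⟩
        rintro (h | h)
        · linarith [hx1.1, h.2]
        · linarith [hx1.2, h.1]
    refine hCC u H ε b a s y α β κ (P \ (Icc a β ∪ Icc α (a + 1))) K hu hε hs0 hs1 hκ hH hL a1
      (by linarith) a3 (hPm.diff (measurableSet_Icc.union measurableSet_Icc)) ?_ ?_ hKc
      (sdiff_subset.trans hPK) (fun x hx => ⟨hJ1 hx, a4 x hx⟩)
      (fun x hx => ⟨hJ2 hx, a5 x hx⟩) hKh ?_ ?_
    · rw [hRc]
      rintro x ⟨hx1, hx2⟩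
      exact hx1
    · rw [← hPv, ← s1, add_assoc]
    · rw [hPi, s2, add_assoc]
    · rw [hRc]
      exact hcurv (β + κ) (α - κ) (by linarith) (by linarith) (by linarith)
        (a6 (β + κ) ⟨by linarith, le_rfl⟩).le (a7 (α - κ) ⟨le_rfl, by linarith⟩).le

end Pool.Agent.H356R3.LV
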