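import Pool.Agent.H356R3.LV.Defs

/-!
LOCC: the constant case.
-/

set_option autoImplicit false
open MeasureTheory Set Filter Topology Complex InnerProductSpace

namespace Pool.Agent.H356R3.LV

theorem LOCC_proof (hCA : S_CA) (hV1 : S_V1) : S_LOCC := by
  intro u H ε b a s y lam hu hε hs hs2 hH hL hc hh
  obtain ⟨h1, h2, -⟩ := hV1 u hu
  have hint : ∀ A : Set ℝ, volume A = ENNReal.ofReal (2 * s) →
      ∫ x in A, u (x + y * I) = 2 * s * lam := by
    intro A hA
    simp only [hc]
    rw [setIntegral_const, Measure.real, hA, ENNReal.toReal_ofReal (by linarith), smul_eq_mul]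
  have hvol : volume (Icc (a + 1 / 2 - s) (a + 1 / 2 + s)) = ENNReal.ofReal (2 * s) := by
    rw [Real.volume_Icc]
    congr 1
    ring
  have hsub : Icc (a + 1 / 2 - s) (a + 1 / 2 + s) ⊆ Icc a (a + 1) :=
    Icc_subset_Icc (by linarith) (by linarith)
  have hV : VV u a s y = 2 * s * lam := by
    apply le_antisymm
    · exact h2 a s y _ hs.le hs2.le fun A _ _ hA => (hint A hA).le
    · rw [← hint _ hvol]
      exact h1 a s y hs.le hs2.le _ measurableSet_Icc hsub hvol
  refine hCA u H ε b a s y (a + 1 / 2 - s) (a + 1 / 2 + s) (1 / 2 - s) ∅ (Icc a (a + 1)) hu hε hs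
    hs2 (by linarith) hH hL (by linarith) (by linarith) (by linarith) MeasurableSet.empty
    (empty_subset _) (empty_disjoint _) ?_ isCompact_Icc (empty_subset _) hsub
    (fun x _ => hh x) ?_ (by simp)
  · rw [measure_empty, zero_add]
    congr 1
    ring
  · rw [hV, Measure.restrict_empty, integral_zero_measure, zero_add]
    simp only [hc]
    rw [intervalIntegral.integral_const, smul_eq_mul]
    ring

end Pool.Agent.H356R3.LV
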