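import Pool.Agent.H142R5.LevP8
import Pool.Agent.H197R2.LevP6
import Pool.Agent.H213R2.LevP5
import Pool.Agent.H260R2.LevT1
import Pool.Agent.H329R2.LevC3
import Pool.Agent.H398R2.Lev.C1
import Pool.Agent.H455R2.LevK3
import Pool.Agent.H455R2.LevP3
import Pool.Agent.H496R2.LevM1
import Pool.Agent.H509R2.LevM6
import Pool.Agent.H510R2.LevC10
import Pool.Agent.H510R2.LevP9
import Pool.Agent.H519R2.LevP10
import Pool.Agent.H532R2.Lev.M3
import Pool.Agent.H532R2.Lev.M5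
import Pool.Agent.H536R4.LevP4
import Pool.Agent.H588R2.LevM2
import Pool.Agent.H60R2.LevF4
import Pool.Agent.H60R2.LevP2
import Pool.Agent.H61R2.LevP7
import Pool.Agent.H642R2.LevC5
import Pool.Agent.H642R2.LevC6
import Pool.Agent.H64R2.Lev.K1
import Pool.Agent.H64R2.Lev.K2
import Pool.Agent.H697.Lev.LevF3
import Pool.Agent.H697.Lev.LevH1
import Pool.Agent.H715R2.LevC8
import Pool.Agent.H715R2.LevL1
import Pool.Agent.H715R2.LevP1
import Pool.Agent.H782R2.LevM4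
import Pool.Agent.H83R2.Lev.L2
import Pool.Agent.H85R2.LevC2
import Pool.Agent.H903R2.LevF1
import Pool.Agent.H903R2.LevF2
import Pool.Agent.H930R3.LevC9
import Pool.Agent.H930R3.LevL3
import Pool.Agent.H931R2.Lev.F0
import Pool.Agent.H933R2.LevC4
import Pool.Agent.H972R2.LEV.C7
import Pool.Agent.H961R2.Lev.F5
import Pool.Agent.H961R2.Lev.Scale

open MeasureTheory Set Filter Topology InnerProductSpace Complex H961Lev

namespace Pool.Agent.H356R3.Lev961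

theorem S5 : S_F5 := by
  have hH1 : S_H1 := T_H1
  have hP1 : S_P1 := T_P1
  have hP2 : S_P2 := T_P2
  have hP3 : S_P3 := T_P3
  have hP4 : S_P4 := T_P4 hP1 hP2 hP3
  have hP5 : S_P5 := T_P5
  have hP6 : S_P6 := T_P6 hP4
  have hP7 : S_P7 := H61Lev.T_P7 hP4 hP5
  have hP8 : S_P8 := T_P8 hH1 hP5 hP6 hP7
  have hP9 : S_P9 := T_P9 hH1 hP4 hP6 hP8
  have hP10 : S_P10 := H519R2.LevP10.T_P10 hP4 hP8 hP9
  have hC1 : S_C1 := T_C1
  have hC2 : S_C2 := Pool.Agent.H85R2.LevC2.T_C2 hC1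
  have hC3 : S_C3 := T_C3 hC2
  have hC4 : S_C4 := C4.T_C4
  have hC5 : S_C5 := T_C5 hC3 hC4
  have hC6 : S_C6 := T_C6 hC5
  have hC7 : S_C7 := T_C7 hC6
  have hC8 : S_C8 := T_C8
  have hC9 : S_C9 := T_C9
  have hC10 : S_C10 := T_C10 hC7 hC8 hC9
  have hK1 : S_K1 := T_K1
  have hK2 : S_K2 := T_K2
  have hK3 : S_K3 := T_K3 hK2
  have hM1 : S_M1 := H496LevM1.T_M1
  have hM2 : S_M2 := T_M2 hM1
  have hM3 : S_M3 := T_M3
  have hM4 : S_M4 := H782Lev.T_M4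
  have hM5 : S_M5 := T_M5
  have hL1 : S_L1 := T_L1
  have hL2 : S_L2 := T_L2
  have hL3 : S_L3 := T_L3
  have hM6 : S_M6 := T_M6 hP4 hM2 hM3 hM5 hL1
  have hT1 : S_T1 := T_T1 hH1 hP6
  have hF3 : S_F3 := T_F3
  have hF4 : S_F4 := T_F4 hH1 hF3
  have hF0 : S_F0 := T_F0 hC10 hK1 hK3 hP9 hP10 hM2 hM3 hM4 hM6 hL2 hL3
  have hF1 : S_F1 := T_F1 hP4 hM2 hF0
  have hF2 : S_F2 := T_F2 hM2 hM3 hF1
  exact T_F5 hT1 hM2 hM3 hF1 hF2 hF4

/-- Levin's extremal problem, for every window length `N` and every `0 < δ < N`: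
the bound, its attainment by the periodic set, and the uniqueness of the extremal set. -/
theorem full961 (N δ : ℝ) (h0 : 0 < δ) (h1 : δ < N) :
    (∀ (E : Set ℝ) (U : ℂ → ℝ), RDN N δ E → IsLevin E U →
      ∀ x : ℝ, U x ≤ N / Real.pi * Real.log (Real.cot (Real.pi * δ / (4 * N)))) ∧
    (RDN N δ {x : ℝ | ∃ n : ℤ, |x - n * N| ≤ δ / 2} ∧
      ∃ U : ℂ → ℝ, IsLevin {x : ℝ | ∃ n : ℤ, |x - n * N| ≤ δ / 2} U ∧
        U (N / 2) = N / Real.pi * Real.log (Real.cot (Real.pi * δ / (4 * N)))) ∧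
    (∀ (E : Set ℝ) (U : ℂ → ℝ) (x₀ : ℝ), RDN N δ E → IsLevin E U →
      U x₀ = N / Real.pi * Real.log (Real.cot (Real.pi * δ / (4 * N))) →
      E = {x : ℝ | ∃ n : ℤ, |x - (x₀ + N / 2 + n * N)| ≤ δ / 2}) :=
  full_of T_H1 S5 N δ h0 h1

end Pool.Agent.H356R3.Lev961
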