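import Pool.Agent.H356R3.LV.Defs
set_option autoImplicit false
open MeasureTheory Set Filter Topology Complex InnerProductSpace
namespace Pool.Agent.H356R3.LV

namespace PIL

open scoped NNReal in
theorem PK_int (x y : ℝ) (hy : 0 < y) :
    Integrable (fun t => PK y (x - t)) ∧ ∫ t, PK y (x - t) = 1 := by
  have e : (fun t => PK y (x - t)) = ProbabilityTheory.cauchyPDFReal x (Real.toNNReal y) := by
    funext t
    rw [ProbabilityTheory.cauchyPDFReal_def, Real.coe_toNNReal y hy.le]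
    unfold PK
    rw [div_eq_mul_inv, mul_inv, show (x - t) ^ 2 = (t - x) ^ 2 by ring]
    ring
  rw [e]
  refine ⟨ProbabilityTheory.integrable_cauchyPDFReal x,
    ProbabilityTheory.integral_cauchyPDFReal_eq_one x ?_⟩
  exact (Real.toNNReal_pos.2 hy).ne'

theorem key (t x y X c : ℝ) (hx : |x| ≤ X) (hc : 0 < c) (hy : c ≤ y ^ 2) :
    1 + t ^ 2 ≤ (2 + (1 + 2 * X ^ 2) / c) * ((t - x) ^ 2 + y ^ 2) := by
  have h1 : x ^ 2 ≤ X ^ 2 := by
    rw [← sq_abs x]
    exact pow_le_pow_left₀ (abs_nonneg x) hx 2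
  have h2 : (1 + 2 * X ^ 2) / c * c = 1 + 2 * X ^ 2 := div_mul_cancel₀ _ hc.ne'
  have h3 : 0 ≤ (1 + 2 * X ^ 2) / c := by positivity
  have h4 : (1 + 2 * X ^ 2) / c * c ≤ (1 + 2 * X ^ 2) / c * y ^ 2 :=
    mul_le_mul_of_nonneg_left hy h3
  have h5 : 0 ≤ (1 + 2 * X ^ 2) / c * (t - x) ^ 2 := mul_nonneg h3 (sq_nonneg _)
  nlinarith [sq_nonneg (t - 2 * x), sq_nonneg y]

/-- the kernel -/
noncomputable def KK (z : ℂ) (t : ℝ) : ℂ := ((t : ℂ) - z)⁻¹ - (t : ℂ) / (1 + (t : ℂ) ^ 2)

theorem norm_sub_sq (z : ℂ) (t : ℝ) : ‖(t : ℂ) - z‖ ^ 2 = (t - z.re) ^ 2 + z.im ^ 2 := by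
  rw [← Complex.normSq_eq_norm_sq, Complex.normSq_apply]
  simp
  ring

theorem sub_ne (z : ℂ) (hz : 0 < z.im) (t : ℝ) : (t : ℂ) - z ≠ 0 := by
  intro h
  have := congrArg Complex.im h
  simp at this
  exact hz.ne' this

theorem one_add_ne (t : ℝ) : (1 : ℂ) + (t : ℂ) ^ 2 ≠ 0 := by
  have : (1 : ℂ) + (t : ℂ) ^ 2 = ((1 + t ^ 2 : ℝ) : ℂ) := by push_cast; rfl
  rw [this, Ne, Complex.ofReal_eq_zero]
  positivity

theorem KK_eq (z : ℂ) (hz : 0 < z.im) (t : ℝ) :
    KK z t = (1 + t * z) / (((t : ℂ) - z) * (1 + (t : ℂ) ^ 2)) := by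
  unfold KK
  have h1 := sub_ne z hz t
  have h2 := one_add_ne t
  field_simp
  ring

theorem KK_bound (z : ℂ) (hz : 0 < z.im) : ∃ C : ℝ, 0 ≤ C ∧ ∀ t : ℝ, ‖KK z t‖ ≤ C / (1 + t ^ 2) := by
  obtain ⟨M, hM0, hM⟩ : ∃ M : ℝ, 0 ≤ M ∧ ∀ t : ℝ, 1 + t ^ 2 ≤ M * ‖(t : ℂ) - z‖ ^ 2 := by
    refine ⟨2 + (1 + 2 * |z.re| ^ 2) / z.im ^ 2, by positivity, fun t => ?_⟩
    rw [norm_sub_sq]
    exact key t z.re z.im |z.re| (z.im ^ 2) le_rfl (by positivity) le_rfl
  refine ⟨(1 + ‖z‖) * (1 + M), by positivity, fun t => ?_⟩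
  rw [KK_eq z hz, norm_div, norm_mul]
  have h1 : ‖(1 : ℂ) + (t : ℂ) ^ 2‖ = 1 + t ^ 2 := by
    have : (1 : ℂ) + (t : ℂ) ^ 2 = ((1 + t ^ 2 : ℝ) : ℂ) := by push_cast; rfl
    rw [this, Complex.norm_real, Real.norm_of_nonneg (by positivity)]
  have h2 : 0 < ‖(t : ℂ) - z‖ := norm_pos_iff.2 (sub_ne z hz t)
  have h3 : ‖(1 : ℂ) + t * z‖ ≤ (1 + ‖z‖) * (1 + M) * ‖(t : ℂ) - z‖ := by
    have h4 : ‖(1 : ℂ) + t * z‖ ≤ 1 + |t| * ‖z‖ := by
      refine (norm_add_le _ _).trans ?_
      rw [norm_one, norm_mul, Complex.norm_real, Real.norm_eq_abs]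
    have h5 : 1 + |t| * ‖z‖ ≤ (1 + ‖z‖) * √(1 + t ^ 2) := by
      have h6 : 1 ≤ √(1 + t ^ 2) := by
        rw [Real.one_le_sqrt]
        nlinarith [sq_nonneg t]
      have h7 : |t| ≤ √(1 + t ^ 2) := by
        apply Real.abs_le_sqrt
        linarith
      nlinarith [norm_nonneg z, mul_le_mul_of_nonneg_right h7 (norm_nonneg z)]
    have h6 : √(1 + t ^ 2) ≤ (1 + M) * ‖(t : ℂ) - z‖ := by
      apply Real.sqrt_le_iff.2
      refine ⟨by positivity, (hM t).trans ?_⟩
      rw [mul_pow]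
      apply mul_le_mul_of_nonneg_right _ (by positivity)
      nlinarith
    calc _ ≤ _ := h4
      _ ≤ _ := h5
      _ ≤ (1 + ‖z‖) * ((1 + M) * ‖(t : ℂ) - z‖) := by gcongr
      _ = _ := by ring
  rw [h1, div_le_div_iff₀ (by positivity) (by positivity)]
  have h4 : 0 < 1 + t ^ 2 := by positivity
  nlinarith [mul_le_mul_of_nonneg_right h3 h4.le]

theorem KK_meas (z : ℂ) : Measurable (KK z) := by
  unfold KK
  fun_prop

variable {φ : ℝ → ℝ}

theorem KK_integrable (hc : Continuous φ) (h0 : ∀ t, 0 ≤ φ t)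
    (hi : Integrable (fun t : ℝ => φ t / (1 + t ^ 2))) (z : ℂ) (hz : 0 < z.im) :
    Integrable (fun t : ℝ => KK z t * (φ t : ℂ)) := by
  obtain ⟨C, hC, hb⟩ := KK_bound z hz
  refine (hi.const_mul C).mono' ?_ ?_
  · exact ((KK_meas z).mul (Complex.measurable_ofReal.comp hc.measurable)).aestronglyMeasurable
  · refine Eventually.of_forall fun t => ?_
    rw [norm_mul, Complex.norm_real, Real.norm_of_nonneg (h0 t)]
    calc ‖KK z t‖ * φ t ≤ C / (1 + t ^ 2) * φ t := mul_le_mul_of_nonneg_right (hb t) (h0 t)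
      _ = _ := by ring

theorem F_deriv (hc : Continuous φ) (h0 : ∀ t, 0 ≤ φ t)
    (hi : Integrable (fun t : ℝ => φ t / (1 + t ^ 2))) (z : ℂ) (hz : 0 < z.im) :
    DifferentiableAt ℂ (fun z : ℂ => ∫ t : ℝ, KK z t * (φ t : ℂ)) z := by
  set M : ℝ := 2 + (1 + 2 * (|z.re| + z.im / 2) ^ 2) / (z.im / 2) ^ 2 with hM
  have hball : ∀ w ∈ Metric.ball z (z.im / 2), z.im / 2 ≤ w.im ∧ |w.re| ≤ |z.re| + z.im / 2 := by
    intro w hw
    rw [Metric.mem_ball, Complex.dist_eq] at hw
    have h1 := (Complex.abs_im_le_norm (w - z)).trans hw.le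
    have h2 := (Complex.abs_re_le_norm (w - z)).trans hw.le
    rw [Complex.sub_im, abs_le] at h1
    rw [Complex.sub_re] at h2
    refine ⟨by linarith, ?_⟩
    have := abs_add_le (w.re - z.re) z.re
    rw [sub_add_cancel] at this
    linarith
  have hder := hasDerivAt_integral_of_dominated_loc_of_deriv_le (μ := volume)
    (F := fun (w : ℂ) (t : ℝ) => KK w t * (φ t : ℂ))
    (F' := fun (w : ℂ) (t : ℝ) => (1 / ((t : ℂ) - w) ^ 2) * (φ t : ℂ))
    (x₀ := z) (s := Metric.ball z (z.im / 2)) (bound := fun t => M * (φ t / (1 + t ^ 2)))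
    (Metric.ball_mem_nhds z (by positivity))
    (Eventually.of_forall fun w =>
      ((KK_meas w).mul (Complex.measurable_ofReal.comp hc.measurable)).aestronglyMeasurable)
    (KK_integrable hc h0 hi z hz)
    (by
      apply Measurable.aestronglyMeasurable
      have := Complex.measurable_ofReal.comp hc.measurable
      simp only [Function.comp_def] at this
      fun_prop)
    (Eventually.of_forall fun t w hw => by
      obtain ⟨hw1, hw2⟩ := hball w hw
      have h1 := key t w.re w.im (|z.re| + z.im / 2) ((z.im / 2) ^ 2) hw2 (by positivity)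
        (pow_le_pow_left₀ (by positivity) hw1 2)
      rw [← norm_sub_sq, ← hM] at h1
      have h2 : 0 < ‖(t : ℂ) - w‖ := norm_pos_iff.2 (sub_ne w (by linarith) t)
      rw [norm_mul, norm_div, norm_one, norm_pow, Complex.norm_real, Real.norm_of_nonneg (h0 t)]
      have h3 : 1 / ‖(t : ℂ) - w‖ ^ 2 ≤ M / (1 + t ^ 2) := by
        rw [div_le_div_iff₀ (by positivity) (by positivity)]
        linarith
      calc 1 / ‖(t : ℂ) - w‖ ^ 2 * φ t ≤ M / (1 + t ^ 2) * φ t :=
            mul_le_mul_of_nonneg_right h3 (h0 t)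
        _ = _ := by ring)
    (hi.const_mul M)
    (Eventually.of_forall fun t w hw => by
      obtain ⟨hw1, hw2⟩ := hball w hw
      have hne := sub_ne w (by linarith) t
      have h1 := ((hasDerivAt_id w).const_sub (t : ℂ)).inv hne
      have h2 := (h1.sub_const ((t : ℂ) / (1 + (t : ℂ) ^ 2))).mul_const (φ t : ℂ)
      refine h2.congr_deriv ?_
      simp)
  exact hder.2.differentiableAt

theorem re_KK (z : ℂ) (t : ℝ) :
    ((1 / (Real.pi * I)) * KK z t).re = PK z.im (z.re - t) := by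
  have h1 : (1 / (Real.pi * I) : ℂ) = ((-(1 / Real.pi) : ℝ) : ℂ) * I := by
    have hpi : (Real.pi : ℂ) ≠ 0 := by exact_mod_cast Real.pi_ne_zero
    have hI := I_ne_zero
    push_cast
    field_simp
    rw [I_sq]
    ring
  have h2 : ((t : ℂ) / (1 + (t : ℂ) ^ 2)).im = 0 := by
    have : (t : ℂ) / (1 + (t : ℂ) ^ 2) = ((t / (1 + t ^ 2) : ℝ) : ℂ) := by push_cast; rfl
    rw [this, Complex.ofReal_im]
  rw [h1, mul_assoc, Complex.re_ofReal_mul, Complex.mul_re, I_re, I_im]
  unfold KK PK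
  rw [Complex.sub_im, h2, Complex.inv_im, Complex.normSq_apply]
  simp only [Complex.sub_re, Complex.sub_im, Complex.ofReal_re, Complex.ofReal_im]
  have e : (t - z.re) * (t - z.re) + (0 - z.im) * (0 - z.im) = (z.re - t) ^ 2 + z.im ^ 2 := by ring
  rw [e, mul_comm Real.pi, ← div_div, div_eq_mul_inv _ Real.pi]
  ring

theorem PI_eq (hc : Continuous φ) (h0 : ∀ t, 0 ≤ φ t)
    (hi : Integrable (fun t : ℝ => φ t / (1 + t ^ 2))) (z : ℂ) (hz : 0 < z.im) :
    Integrable (fun t : ℝ => PK z.im (z.re - t) * φ t) ∧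
    ∫ t : ℝ, PK z.im (z.re - t) * φ t =
      ((1 / (Real.pi * I)) * ∫ t : ℝ, KK z t * (φ t : ℂ)).re := by
  have hI := (KK_integrable hc h0 hi z hz).const_mul (1 / (Real.pi * I) : ℂ)
  have e : ∀ t : ℝ, ((1 / (Real.pi * I) : ℂ) * (KK z t * (φ t : ℂ))).re =
      PK z.im (z.re - t) * φ t := by
    intro t
    rw [← mul_assoc, Complex.re_mul_ofReal, re_KK]
  constructor
  · have := hI.re
    refine this.congr (Eventually.of_forall fun t => ?_)
    exact e t
  · rw [← integral_const_mul]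
    refine Eq.trans ?_ (integral_re hI)
    refine integral_congr_ae (Eventually.of_forall fun t => ?_)
    exact (e t).symm

end PIL

open PIL in
theorem PI_proof : S_PI := by
  intro φ hc h0 hi
  constructor
  · intro z hz
    have hz : 0 < z.im := hz
    have hopen : IsOpen {z : ℂ | 0 < z.im} := isOpen_lt continuous_const Complex.continuous_im
    have hd : DifferentiableOn ℂ (fun z : ℂ => (1 / (Real.pi * I)) *
        ∫ t : ℝ, KK z t * (φ t : ℂ)) {z : ℂ | 0 < z.im} := fun w hw =>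
      ((F_deriv hc h0 hi w hw).const_mul _).differentiableWithinAt
    have ha := hd.analyticAt (hopen.mem_nhds hz)
    refine (harmonicAt_congr_nhds ?_).2 ha.harmonicAt_re
    filter_upwards [hopen.mem_nhds hz] with w hw
    exact (PI_eq hc h0 hi w hw).2
  · intro x
    rw [Metric.tendsto_nhdsWithin_nhds]
    intro ε hε
    obtain ⟨d, hd, hd1⟩ := Metric.continuousAt_iff.1 hc.continuousAt (ε / 2) (by positivity)
    have hone : Integrable (fun t : ℝ => (1 + t ^ 2)⁻¹) := integrable_inv_one_add_sq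
    set J : ℝ := ∫ t : ℝ, (φ t + φ x) / (1 + t ^ 2) with hJ
    have hJi : Integrable (fun t : ℝ => (φ t + φ x) / (1 + t ^ 2)) := by
      refine (hi.add (hone.const_mul (φ x))).congr (Eventually.of_forall fun t => ?_)
      simp only [Pi.add_apply]
      ring
    have hJ0 : 0 ≤ J := integral_nonneg fun t => div_nonneg (add_nonneg (h0 t) (h0 x)) (by positivity)
    set C : ℝ := 4 / Real.pi * ((1 + 2 * x ^ 2) / d ^ 2 + 2) with hC
    have hC0 : 0 < C := by have := Real.pi_pos; positivity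
    refine ⟨min (d / 2) (ε / 2 / (C * (J + 1))), by positivity, ?_⟩
    intro z hz hzd
    have hz : 0 < z.im := hz
    rw [Complex.dist_eq] at hzd
    have h1 : |z.re - x| < d / 2 := by
      have := (Complex.abs_re_le_norm (z - x)).trans_lt (hzd.trans_le (min_le_left _ _))
      simpa using this
    have h2 : z.im < ε / 2 / (C * (J + 1)) := by
      have := (Complex.abs_im_le_norm (z - x)).trans_lt (hzd.trans_le (min_le_right _ _))
      simp only [Complex.sub_im, Complex.ofReal_im, sub_zero] at this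
      exact (le_abs_self _).trans_lt this
    obtain ⟨p1, p2⟩ := PK_int z.re z.im hz
    have p3 := (PI_eq hc h0 hi z hz).1
    have e : (∫ t : ℝ, PK z.im (z.re - t) * φ t) - φ x =
        ∫ t : ℝ, PK z.im (z.re - t) * (φ t - φ x) := by
      have : φ x = ∫ t : ℝ, PK z.im (z.re - t) * φ x := by
        rw [integral_mul_const, p2, one_mul]
      conv_lhs => rw [this]
      rw [← integral_sub p3 (p1.mul_const _)]
      refine integral_congr_ae (Eventually.of_forall fun t => ?_)
      simp only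
      ring
    have hPK0 : ∀ t, 0 ≤ PK z.im (z.re - t) := fun t => by
      unfold PK
      have := Real.pi_pos
      positivity
    rw [Real.dist_eq, e]
    have hpt : ∀ t : ℝ, ‖PK z.im (z.re - t) * (φ t - φ x)‖ ≤
        ε / 2 * PK z.im (z.re - t) + C * z.im * ((φ t + φ x) / (1 + t ^ 2)) := by
      intro t
      rw [norm_mul, Real.norm_of_nonneg (hPK0 t), Real.norm_eq_abs]
      have q1 : 0 ≤ C * z.im * ((φ t + φ x) / (1 + t ^ 2)) :=
        mul_nonneg (by positivity) (div_nonneg (add_nonneg (h0 t) (h0 x)) (by positivity))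
      have q2 : 0 ≤ ε / 2 * PK z.im (z.re - t) := mul_nonneg (by positivity) (hPK0 t)
      rcases lt_or_ge |t - x| d with h | h
      · have := hd1 (by rw [Real.dist_eq]; exact h)
        rw [Real.dist_eq] at this
        have q3 : PK z.im (z.re - t) * |φ t - φ x| ≤ PK z.im (z.re - t) * (ε / 2) :=
          mul_le_mul_of_nonneg_left this.le (hPK0 t)
        linarith
      · have q3 : |φ t - φ x| ≤ φ t + φ x := by
          rw [abs_le]
          constructor <;> linarith [h0 t, h0 x]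
        have q4 : |t - x| ≤ 2 * |z.re - t| := by
          have := abs_sub_le t z.re x
          have h6 : |t - z.re| = |z.re - t| := abs_sub_comm _ _
          linarith
        have q5 : (t - x) ^ 2 ≤ 4 * (z.re - t) ^ 2 := by
          rw [← sq_abs (t - x), ← sq_abs (z.re - t)]
          nlinarith [abs_nonneg (t - x), abs_nonneg (z.re - t)]
        have q6 : d ^ 2 ≤ (t - x) ^ 2 := by
          rw [← sq_abs (t - x)]
          exact pow_le_pow_left₀ hd.le h 2
        have q7 : 1 + t ^ 2 ≤ ((1 + 2 * x ^ 2) / d ^ 2 + 2) * (t - x) ^ 2 := by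
          have a1 : (1 + 2 * x ^ 2) / d ^ 2 * d ^ 2 = 1 + 2 * x ^ 2 :=
            div_mul_cancel₀ _ (by positivity)
          have a2 : (1 + 2 * x ^ 2) / d ^ 2 * d ^ 2 ≤ (1 + 2 * x ^ 2) / d ^ 2 * (t - x) ^ 2 :=
            mul_le_mul_of_nonneg_left q6 (by positivity)
          nlinarith [sq_nonneg (t - 2 * x)]
        have q8 : PK z.im (z.re - t) ≤ C * z.im / (1 + t ^ 2) := by
          unfold PK
          have hpi := Real.pi_pos
          rw [div_le_div_iff₀ (by positivity) (by positivity)]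
          have a3 : 1 + t ^ 2 ≤ ((1 + 2 * x ^ 2) / d ^ 2 + 2) * (4 * ((z.re - t) ^ 2 + z.im ^ 2)) := by
            refine q7.trans (mul_le_mul_of_nonneg_left ?_ (by positivity))
            nlinarith [sq_nonneg z.im]
          calc z.im * (1 + t ^ 2) ≤
              z.im * (((1 + 2 * x ^ 2) / d ^ 2 + 2) * (4 * ((z.re - t) ^ 2 + z.im ^ 2))) :=
                mul_le_mul_of_nonneg_left a3 hz.le
            _ = C * z.im * (Real.pi * ((z.re - t) ^ 2 + z.im ^ 2)) := by
                rw [hC]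
                field_simp
        calc PK z.im (z.re - t) * |φ t - φ x| ≤ C * z.im / (1 + t ^ 2) * (φ t + φ x) :=
              mul_le_mul q8 q3 (abs_nonneg _) (by positivity)
          _ = C * z.im * ((φ t + φ x) / (1 + t ^ 2)) := by ring
          _ ≤ _ := by linarith
    have hint : Integrable (fun t : ℝ => ε / 2 * PK z.im (z.re - t) +
        C * z.im * ((φ t + φ x) / (1 + t ^ 2))) := (p1.const_mul _).add (hJi.const_mul _)
    have h3 := norm_integral_le_of_norm_le hint (Eventually.of_forall hpt)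
    rw [integral_add (p1.const_mul _) (hJi.const_mul _), integral_const_mul, integral_const_mul,
      p2, ← hJ, Real.norm_eq_abs] at h3
    have h4 : C * z.im * J < ε / 2 := by
      have h5 : z.im * (C * (J + 1)) < ε / 2 := (lt_div_iff₀ (by positivity)).1 h2
      have h6 : 0 < z.im * C := by positivity
      nlinarith
    linarith

end Pool.Agent.H356R3.LV
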