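import Pool.Agent.H356R3.LV.Defs

/-! Task PT (helper862): pointwise bound. -/

set_option autoImplicit false
open MeasureTheory Set Filter Topology Complex InnerProductSpace
open scoped ENNReal

namespace Pool.Agent.H356R3.LV

namespace PTL

theorem U_nonneg {E : Set ℝ} {U : ℂ → ℝ} (hU : IsU E U) (z : ℂ) : 0 ≤ U z := by
  by_cases h : z ∈ (fun x : ℝ => (x : ℂ)) '' E
  · obtain ⟨x, hx, rfl⟩ := h
    exact (hU.zero x hx).ge
  · exact (hU.pos z h).le

theorem U_HG (hHG : S_HG) {E : Set ℝ} {U : ℂ → ℝ} (hU : IsU E U) :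
    (∀ x y : ℝ, 0 < y → Integrable (fun t : ℝ => PK y (x - t) * U t)) ∧
    ∀ x y : ℝ, 0 < y → U (x + y * I) = y + ∫ t : ℝ, PK y (x - t) * U t := by
  have h := hHG U hU.cont.continuousOn (fun z _ => U_nonneg hU z)
    (fun z hz => hU.harm z (by
      rintro ⟨x, _, rfl⟩
      simp at hz)) hU.norm
  exact ⟨h.2.1, h.2.2⟩

theorem PK_nonneg {y : ℝ} (hy : 0 < y) (s : ℝ) : 0 ≤ PK y s := by
  unfold PK; positivity

theorem PK_cont {y : ℝ} (hy : 0 < y) : Continuous (PK y) := by
  unfold PK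
  have h : ∀ s : ℝ, Real.pi * (s ^ 2 + y ^ 2) ≠ 0 := fun s => by positivity
  exact continuous_const.div (by fun_prop) h

theorem U_abs (hHG : S_HG) {E : Set ℝ} {U : ℂ → ℝ} (hU : IsU E U) (x y : ℝ) (hy : y ≠ 0) :
    U ((x : ℂ) + y * I) = |y| + ∫ t : ℝ, PK |y| (x - t) * U t := by
  have h1 := (U_HG hHG hU).2 x |y| (abs_pos.2 hy)
  rcases lt_or_gt_of_ne hy with h | h
  · rw [← h1, abs_of_neg h, ← hU.symm]
    congr 1
    simp
  · rw [← h1, abs_of_pos h]

/-- integral of the Poisson kernel over an interval of length four -/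
theorem PK_int {y : ℝ} (hy : 0 < y) (hy2 : y ≤ 2) (s : ℝ) :
    ∫ a in (-2 : ℝ)..2, PK y (s + a) ≤ 17 * Real.pi * PK 1 s := by
  have hpi := Real.pi_pos
  have hpi3 := Real.pi_gt_three
  have hK : 17 * Real.pi * PK 1 s = 17 / (s ^ 2 + 1) := by
    unfold PK
    field_simp
  rw [hK]
  by_cases hs : s ^ 2 < 16
  · have h1 : ∀ a ∈ uIcc (-2 : ℝ) 2, HasDerivAt (fun a => 1 / Real.pi * Real.arctan ((s + a) / y))
        (PK y (s + a)) a := by
      intro a _
      have h2 : HasDerivAt (fun a : ℝ => (s + a) / y) (1 / y) a :=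
        ((hasDerivAt_id a).const_add s).div_const y
      have h3 := (h2.arctan).const_mul (1 / Real.pi)
      refine h3.congr_deriv ?_
      unfold PK
      field_simp
      ring
    have h2 : IntervalIntegrable (fun a => PK y (s + a)) volume (-2) 2 :=
      ((PK_cont hy).comp (by fun_prop)).intervalIntegrable _ _
    rw [intervalIntegral.integral_eq_sub_of_hasDerivAt h1 h2]
    have h3 := Real.arctan_lt_pi_div_two ((s + 2) / y)
    have h4 := Real.neg_pi_div_two_lt_arctan ((s + -2) / y)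
    have h5 : 1 / Real.pi * Real.arctan ((s + 2) / y) - 1 / Real.pi * Real.arctan ((s + -2) / y) ≤ 1 := by
      rw [← mul_sub, one_div, inv_mul_le_iff₀ hpi]
      linarith
    refine h5.trans ?_
    rw [le_div_iff₀ (by positivity)]
    linarith
  · push Not at hs
    have h1 : ∀ a ∈ Icc (-2 : ℝ) 2, PK y (s + a) ≤ 8 / (Real.pi * s ^ 2) := by
      intro a ha
      unfold PK
      have h2 : s ^ 2 / 4 ≤ (s + a) ^ 2 := by
        have h3 : 4 ≤ |s| := by
          rw [← sq_abs] at hs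
          nlinarith [abs_nonneg s]
        have h4 : |a| ≤ 2 := abs_le.2 ⟨ha.1, ha.2⟩
        have h5 : |s| / 2 ≤ |s + a| := by
          have h6 : |s| ≤ |s + a| + |a| := by
            have := abs_sub (s + a) a
            simpa using this
          linarith
        have h6 : (|s| / 2) ^ 2 ≤ |s + a| ^ 2 := pow_le_pow_left₀ (by positivity) h5 2
        rw [sq_abs, div_pow, sq_abs] at h6
        linarith
      have hs0 : 0 < s ^ 2 := by linarith
      rw [div_le_div_iff₀ (by positivity) (by positivity)]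
      have h3 : s ^ 2 / 4 ≤ (s + a) ^ 2 + y ^ 2 := by nlinarith
      calc y * (Real.pi * s ^ 2) ≤ 2 * (Real.pi * s ^ 2) :=
            mul_le_mul_of_nonneg_right hy2 (by positivity)
        _ = 8 * (Real.pi * (s ^ 2 / 4)) := by ring
        _ ≤ 8 * (Real.pi * ((s + a) ^ 2 + y ^ 2)) := by
            apply mul_le_mul_of_nonneg_left _ (by norm_num)
            exact mul_le_mul_of_nonneg_left h3 hpi.le
    have hs0 : 0 < s ^ 2 := by linarith
    calc ∫ a in (-2 : ℝ)..2, PK y (s + a) ≤ ∫ a in (-2 : ℝ)..2, 8 / (Real.pi * s ^ 2) := by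
          apply intervalIntegral.integral_mono_on (by norm_num)
            (((PK_cont hy).comp (by fun_prop)).intervalIntegrable _ _)
            (by simp) h1
      _ = 4 * (8 / (Real.pi * s ^ 2)) := by
          rw [intervalIntegral.integral_const]
          norm_num
      _ ≤ 17 / (s ^ 2 + 1) := by
          rw [mul_div_assoc', div_le_div_iff₀ (by positivity) (by positivity)]
          nlinarith [mul_pos hs0 (by linarith : 0 < Real.pi - 3)]

theorem PK_lint {y : ℝ} (hy : 0 < y) (hy2 : y ≤ 2) (s : ℝ) :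
    ∫⁻ a in Icc (-2 : ℝ) 2, ENNReal.ofReal (PK y (s + a)) ≤
      ENNReal.ofReal (17 * Real.pi * PK 1 s) := by
  have h1 : Continuous (fun a => PK y (s + a)) := (PK_cont hy).comp (by fun_prop)
  rw [← ofReal_integral_eq_lintegral_ofReal (h1.integrableOn_Icc)
    (ae_of_all _ fun a => PK_nonneg hy _)]
  apply ENNReal.ofReal_le_ofReal
  rw [integral_Icc_eq_integral_Ioc, ← intervalIntegral.integral_of_le (by norm_num)]
  exact PK_int hy hy2 s

/-- the integral over a horizontal segment -/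
theorem line_bound (hHG : S_HG) {E : Set ℝ} {U : ℂ → ℝ} (hU : IsU E U) (x b : ℝ) (hb : b ≠ 0)
    (hb2 : |b| ≤ 2) :
    ∫⁻ a in Icc (-2 : ℝ) 2, ENNReal.ofReal (U (((x + a : ℝ) : ℂ) + b * I)) ≤
      ENNReal.ofReal (8 + 17 * Real.pi * ∫ t : ℝ, PK 1 (x - t) * U t) := by
  have hβ : 0 < |b| := abs_pos.2 hb
  obtain ⟨hint, hform⟩ := U_HG hHG hU
  have hUc : Continuous (fun t : ℝ => U t) := hU.cont.comp continuous_ofReal
  have h1 : ∀ a : ℝ, ENNReal.ofReal (U (((x + a : ℝ) : ℂ) + b * I)) =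
      ENNReal.ofReal |b| + ∫⁻ t : ℝ, ENNReal.ofReal (PK |b| (x + a - t)) * ENNReal.ofReal (U t) := by
    intro a
    rw [U_abs hHG hU (x + a) b hb, ENNReal.ofReal_add hβ.le
      (integral_nonneg fun t => mul_nonneg (PK_nonneg hβ _) (U_nonneg hU _)),
      ofReal_integral_eq_lintegral_ofReal (hint (x + a) |b| hβ)
      (ae_of_all _ fun t => mul_nonneg (PK_nonneg hβ _) (U_nonneg hU _))]
    congr 1
    refine lintegral_congr fun t => ?_
    rw [ENNReal.ofReal_mul (PK_nonneg hβ _)]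
  simp_rw [h1]
  rw [lintegral_add_left measurable_const, setLIntegral_const, Real.volume_Icc]
  have hcont : Continuous (fun p : ℝ × ℝ => PK |b| (x + p.1 - p.2)) :=
    (PK_cont hβ).comp (by fun_prop)
  have hmeas : Measurable (fun p : ℝ × ℝ =>
      ENNReal.ofReal (PK |b| (x + p.1 - p.2)) * ENNReal.ofReal (U (p.2 : ℂ))) :=
    (hcont.measurable.ennreal_ofReal).mul ((hUc.comp continuous_snd).measurable.ennreal_ofReal)
  rw [lintegral_lintegral_swap hmeas.aemeasurable]
  have h2 : ∫⁻ t : ℝ, ∫⁻ a in Icc (-2 : ℝ) 2,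
      ENNReal.ofReal (PK |b| (x + a - t)) * ENNReal.ofReal (U t) ≤
      ENNReal.ofReal (17 * Real.pi * ∫ t : ℝ, PK 1 (x - t) * U t) := by
    have h3 : ∀ t : ℝ, ∫⁻ a in Icc (-2 : ℝ) 2,
        ENNReal.ofReal (PK |b| (x + a - t)) * ENNReal.ofReal (U t) ≤
        ENNReal.ofReal (17 * Real.pi * (PK 1 (x - t) * U t)) := by
      intro t
      have hm : Measurable (fun a : ℝ => ENNReal.ofReal (PK |b| (x + a - t))) :=
        ((PK_cont hβ).comp (by fun_prop :
          Continuous fun a : ℝ => x + a - t)).measurable.ennreal_ofReal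
      rw [lintegral_mul_const _ hm]
      have h4 := PK_lint hβ hb2 (x - t)
      have h5 : ∀ a : ℝ, x + a - t = x - t + a := fun a => by ring
      simp_rw [h5]
      calc (∫⁻ a in Icc (-2 : ℝ) 2, ENNReal.ofReal (PK |b| (x - t + a))) * ENNReal.ofReal (U t)
          ≤ ENNReal.ofReal (17 * Real.pi * PK 1 (x - t)) * ENNReal.ofReal (U t) := by gcongr
        _ = ENNReal.ofReal (17 * Real.pi * (PK 1 (x - t) * U t)) := by
            rw [← ENNReal.ofReal_mul (by
              have := PK_nonneg one_pos (x - t)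
              positivity)]
            congr 1
            ring
    refine (lintegral_mono h3).trans ?_
    rw [← integral_const_mul, ofReal_integral_eq_lintegral_ofReal
      ((hint x 1 one_pos).const_mul _) (ae_of_all _ fun t => by
        have h6 := PK_nonneg one_pos (x - t)
        have h7 := U_nonneg hU (t : ℂ)
        have := Real.pi_pos
        positivity)]
  have hJ : 0 ≤ ∫ t : ℝ, PK 1 (x - t) * U t :=
    integral_nonneg fun t => mul_nonneg (PK_nonneg one_pos _) (U_nonneg hU _)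
  calc ENNReal.ofReal |b| * ENNReal.ofReal (2 - -2) + _
      ≤ ENNReal.ofReal 8 + ENNReal.ofReal (17 * Real.pi * ∫ t : ℝ, PK 1 (x - t) * U t) := by
        refine add_le_add ?_ h2
        rw [← ENNReal.ofReal_mul (abs_nonneg b)]
        apply ENNReal.ofReal_le_ofReal
        linarith
    _ = _ := by
        rw [← ENNReal.ofReal_add (by norm_num)]
        have := Real.pi_pos
        positivity

/-- the integral over a square -/
theorem square_bound (hHG : S_HG) {E : Set ℝ} {U : ℂ → ℝ} (hU : IsU E U) (x : ℝ) :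
    ∫⁻ p in (Icc (-2 : ℝ) 2) ×ˢ (Icc (-2 : ℝ) 2),
      ENNReal.ofReal (U (((x + p.1 : ℝ) : ℂ) + p.2 * I)) ≤
      4 * ENNReal.ofReal (8 + 17 * Real.pi * ∫ t : ℝ, PK 1 (x - t) * U t) := by
  have hc : Continuous (fun p : ℝ × ℝ => U (((x + p.1 : ℝ) : ℂ) + p.2 * I)) :=
    hU.cont.comp (by fun_prop)
  rw [Measure.volume_eq_prod, ← Measure.prod_restrict,
    lintegral_prod_symm' _ hc.measurable.ennreal_ofReal]
  have h0 : ∀ᵐ b : ℝ ∂(volume.restrict (Icc (-2 : ℝ) 2)), b ∈ Icc (-2 : ℝ) 2 ∧ b ≠ 0 := by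
    have h1 : ∀ᵐ b : ℝ ∂(volume.restrict (Icc (-2 : ℝ) 2)), b ≠ 0 := by
      apply ae_restrict_of_ae
      have : volume ({0} : Set ℝ) = 0 := measure_singleton 0
      exact (measure_eq_zero_iff_ae_notMem.1 this).mono fun b hb => hb
    filter_upwards [ae_restrict_mem measurableSet_Icc, h1] with b h2 h3
    exact ⟨h2, h3⟩
  calc ∫⁻ b in Icc (-2 : ℝ) 2, ∫⁻ a in Icc (-2 : ℝ) 2,
        ENNReal.ofReal (U (((x + a : ℝ) : ℂ) + b * I))
      ≤ ∫⁻ b in Icc (-2 : ℝ) 2,
        ENNReal.ofReal (8 + 17 * Real.pi * ∫ t : ℝ, PK 1 (x - t) * U t) := by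
        refine lintegral_mono_ae ?_
        filter_upwards [h0] with b hb
        exact line_bound hHG hU x b hb.2 (abs_le.2 ⟨hb.1.1, hb.1.2⟩)
    _ = _ := by
        rw [setLIntegral_const, Real.volume_Icc, mul_comm]
        congr 1
        norm_num

/-- the circle averages -/
theorem circle_bound (hSUBM : S_SUBM) {E : Set ℝ} {U : ℂ → ℝ} (hE : IsClosed E) (hU : IsU E U)
    (x r : ℝ) (hr : 0 < r) :
    ENNReal.ofReal (2 * Real.pi * U x) ≤ ∫⁻ θ in Ioo (-Real.pi) Real.pi,
      ENNReal.ofReal (U (((x + r * Real.cos θ : ℝ) : ℂ) + (r * Real.sin θ : ℝ) * I)) := by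
  have hpi := Real.pi_pos
  have h1 := hSUBM E U hE hU x r hr
  rw [Real.circleAverage_def, smul_eq_mul] at h1
  have hper : Function.Periodic (fun θ : ℝ => U (circleMap x r θ)) (2 * Real.pi) := by
    intro θ
    simp only
    rw [periodic_circleMap x r θ]
  have h2 : ∫ θ in (0 : ℝ)..2 * Real.pi, U (circleMap x r θ) =
      ∫ θ in Ioo (-Real.pi) Real.pi, U (circleMap x r θ) := by
    have h3 := hper.intervalIntegral_add_eq 0 (-Real.pi)
    rw [zero_add] at h3
    rw [h3, show -Real.pi + 2 * Real.pi = Real.pi by ring,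
      intervalIntegral.integral_of_le (by linarith), integral_Ioc_eq_integral_Ioo]
  rw [h2] at h1
  have hcirc : ∀ θ : ℝ, circleMap x r θ =
      ((x + r * Real.cos θ : ℝ) : ℂ) + (r * Real.sin θ : ℝ) * I := by
    intro θ
    rw [circleMap, Complex.exp_mul_I]
    push_cast
    ring
  have hc : Continuous (fun θ : ℝ => U (circleMap x r θ)) :=
    hU.cont.comp (continuous_circleMap x r)
  have h4 : 2 * Real.pi * U x ≤ ∫ θ in Ioo (-Real.pi) Real.pi, U (circleMap x r θ) := by
    rw [inv_mul_eq_div, le_div_iff₀ (by positivity)] at h1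
    linarith
  refine (ENNReal.ofReal_le_ofReal h4).trans ?_
  rw [ofReal_integral_eq_lintegral_ofReal
    (hc.integrableOn_Icc.mono_set Ioo_subset_Icc_self) (ae_of_all _ fun θ => U_nonneg hU _)]
  refine le_of_eq (lintegral_congr fun θ => ?_)
  rw [hcirc]

theorem area_bound (hSUBM : S_SUBM) {E : Set ℝ} {U : ℂ → ℝ} (hE : IsClosed E) (hU : IsU E U)
    (x : ℝ) :
    ENNReal.ofReal (2 * Real.pi * U x) ≤ ∫⁻ p in (Icc (-2 : ℝ) 2) ×ˢ (Icc (-2 : ℝ) 2),
      ENNReal.ofReal (U (((x + p.1 : ℝ) : ℂ) + p.2 * I)) := by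
  set Q : Set (ℝ × ℝ) := (Icc (-2 : ℝ) 2) ×ˢ (Icc (-2 : ℝ) 2) with hQ
  set g : ℝ × ℝ → ℝ≥0∞ := fun p => ENNReal.ofReal (U (((x + p.1 : ℝ) : ℂ) + p.2 * I)) with hg
  have hQm : MeasurableSet Q := measurableSet_Icc.prod measurableSet_Icc
  have hgm : Measurable g := by
    have hc : Continuous (fun p : ℝ × ℝ => U (((x + p.1 : ℝ) : ℂ) + p.2 * I)) :=
      hU.cont.comp (by fun_prop)
    exact hc.measurable.ennreal_ofReal
  have h1 : ∫⁻ p in Q, g p = ∫⁻ p, Q.indicator g p := (lintegral_indicator hQm g).symm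
  have h2 := lintegral_comp_polarCoord_symm (Q.indicator g)
  rw [h1, ← h2]
  set P : Set (ℝ × ℝ) := (Ioo (1 : ℝ) 2) ×ˢ (Ioo (-Real.pi) Real.pi) with hP
  have hPm : MeasurableSet P := measurableSet_Ioo.prod measurableSet_Ioo
  have hPt : P ⊆ polarCoord.target := by
    rintro ⟨r, θ⟩ ⟨h3, h4⟩
    rw [polarCoord_target]
    exact ⟨lt_trans one_pos h3.1, h4⟩
  have hgc : Measurable (fun p : ℝ × ℝ => g (p.1 * Real.cos p.2, p.1 * Real.sin p.2)) :=
    hgm.comp (by fun_prop)
  calc ENNReal.ofReal (2 * Real.pi * U x)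
      = ∫⁻ r in Ioo (1 : ℝ) 2, ENNReal.ofReal (2 * Real.pi * U x) := by
        rw [setLIntegral_const, Real.volume_Ioo]
        norm_num
    _ ≤ ∫⁻ r in Ioo (1 : ℝ) 2, ∫⁻ θ in Ioo (-Real.pi) Real.pi,
          g (r * Real.cos θ, r * Real.sin θ) := by
        refine setLIntegral_mono' measurableSet_Ioo fun r hr => ?_
        exact circle_bound hSUBM hE hU x r (by linarith [hr.1])
    _ = ∫⁻ p in P, g (p.1 * Real.cos p.2, p.1 * Real.sin p.2) := by
        rw [hP, Measure.volume_eq_prod, ← Measure.prod_restrict,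
          lintegral_prod _ hgc.aemeasurable]
    _ ≤ ∫⁻ p in P, ENNReal.ofReal p.1 • (Q.indicator g (polarCoord.symm p)) := by
        refine setLIntegral_mono' hPm ?_
        rintro ⟨r, θ⟩ ⟨h3, h4⟩
        have h5 : polarCoord.symm (r, θ) = (r * Real.cos θ, r * Real.sin θ) := by
          rw [polarCoord_symm_apply]
        have h6 : (r * Real.cos θ, r * Real.sin θ) ∈ Q := by
          have h7 : |r * Real.cos θ| ≤ 2 := by
            rw [abs_mul, abs_of_pos (lt_trans one_pos h3.1)]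
            have := Real.abs_cos_le_one θ
            have := h3.2
            have := h3.1
            simp only at *
            nlinarith [abs_nonneg (Real.cos θ)]
          have h8 : |r * Real.sin θ| ≤ 2 := by
            rw [abs_mul, abs_of_pos (lt_trans one_pos h3.1)]
            have := Real.abs_sin_le_one θ
            have := h3.2
            have := h3.1
            simp only at *
            nlinarith [abs_nonneg (Real.sin θ)]
          exact ⟨abs_le.1 h7, abs_le.1 h8⟩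
        rw [h5, indicator_of_mem h6, smul_eq_mul]
        have h9 : (1 : ℝ≥0∞) ≤ ENNReal.ofReal r := by
          rw [← ENNReal.ofReal_one]
          exact ENNReal.ofReal_le_ofReal h3.1.le
        calc g (r * Real.cos θ, r * Real.sin θ) = 1 * g (r * Real.cos θ, r * Real.sin θ) := by
              rw [one_mul]
          _ ≤ _ := by gcongr
    _ ≤ ∫⁻ p in polarCoord.target, ENNReal.ofReal p.1 • (Q.indicator g (polarCoord.symm p)) :=
        lintegral_mono_set hPt

end PTL

theorem PT_proof (hHG : S_HG) (hSUBM : S_SUBM) : S_PT := by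
  intro E U hE hU
  have hpi := Real.pi_pos
  refine ⟨6 + 17 * Real.pi, by positivity, fun x B hB => ?_⟩
  set J : ℝ := ∫ t : ℝ, PK 1 (x - t) * U t with hJ
  have hJ0 : 0 ≤ J :=
    integral_nonneg fun t => mul_nonneg (PTL.PK_nonneg one_pos _) (PTL.U_nonneg hU _)
  have h1 : 2 * Real.pi * U x ≤ 4 * (8 + 17 * Real.pi * J) := by
    have h2 := (PTL.area_bound hSUBM hE hU x).trans (PTL.square_bound hHG hU x)
    have h3 : (4 : ℝ≥0∞) * ENNReal.ofReal (8 + 17 * Real.pi * J) =
        ENNReal.ofReal (4 * (8 + 17 * Real.pi * J)) := by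
      rw [ENNReal.ofReal_mul (by norm_num)]
      norm_num
    rw [h3] at h2
    exact (ENNReal.ofReal_le_ofReal_iff (by positivity)).1 h2
  have hB0 : 0 < B := by linarith
  obtain ⟨hint, hform⟩ := PTL.U_HG hHG hU
  have h2 := hform x B hB0
  have h3 : J ≤ B * ∫ t : ℝ, PK B (x - t) * U t := by
    rw [← integral_const_mul]
    refine integral_mono (hint x 1 one_pos) ((hint x B hB0).const_mul B) fun t => ?_
    show PK 1 (x - t) * U t ≤ B * (PK B (x - t) * U t)
    rw [← mul_assoc]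
    apply mul_le_mul_of_nonneg_right _ (PTL.U_nonneg hU _)
    unfold PK
    rw [mul_div_assoc', div_le_div_iff₀ (by positivity) (by positivity)]
    have h4 : (x - t) ^ 2 + B ^ 2 ≤ B * B * ((x - t) ^ 2 + 1 ^ 2) := by
      nlinarith [sq_nonneg (x - t), mul_nonneg (sq_nonneg (x - t)) (by nlinarith : 0 ≤ B * B - 1)]
    nlinarith
  have h4 : 0 ≤ ∫ t : ℝ, PK B (x - t) * U t :=
    integral_nonneg fun t => mul_nonneg (PTL.PK_nonneg hB0 _) (PTL.U_nonneg hU _)
  set K : ℝ := ∫ t : ℝ, PK B (x - t) * U t with hK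
  have h5 : 3 * U x ≤ Real.pi * U x :=
    mul_le_mul_of_nonneg_right Real.pi_gt_three.le (PTL.U_nonneg hU _)
  have h6 : U x ≤ 16 / 3 + 34 / 3 * (Real.pi * J) := by
    linarith
  have h7 : Real.pi * J ≤ Real.pi * (B * K) := mul_le_mul_of_nonneg_left h3 hpi.le
  rw [h2]
  have h8 : 0 ≤ Real.pi * (B * K) := by positivity
  have h9 : (6 + 17 * Real.pi) * B * (B + K) =
      6 * B * B + 6 * (B * K) + 17 * Real.pi * (B * B) + 17 * (Real.pi * (B * K)) := by ring
  rw [h9]
  have h10 : 1 ≤ B * B := by nlinarith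
  have h11 : 0 ≤ B * K := by positivity
  have h12 : 0 ≤ 17 * Real.pi * (B * B) := by positivity
  nlinarith

end Pool.Agent.H356R3.LV
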