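import Pool.Agent.H356R3.LV.HC
set_option autoImplicit false
open MeasureTheory Set Filter Topology Complex InnerProductSpace
namespace Pool.Agent.H356R3.LV

/-- the complement of the set is mapped to the complement -/
lemma SCLL.notMem {E : Set ℝ} {N : ℝ} (hN : 0 < N) {z : ℂ}
    (hz : z ∉ (fun x : ℝ => (x : ℂ)) '' {t : ℝ | N * t ∈ E}) :
    (N : ℂ) * z ∉ (fun x : ℝ => (x : ℂ)) '' E := by
  rintro ⟨x, hx, hxz⟩
  apply hz
  refine ⟨x / N, ?_, ?_⟩
  · change N * (x / N) ∈ E
    rwa [mul_div_cancel₀ _ hN.ne']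
  · simp only at hxz ⊢
    have hNc : (N : ℂ) ≠ 0 := by exact_mod_cast hN.ne'
    push_cast
    rw [hxz]
    field_simp

theorem SCL_proof : S_SCL := by
  intro E U N hN hU
  have hNc : (N : ℂ) ≠ 0 := by exact_mod_cast hN.ne'
  refine ⟨?_, ?_, ?_, ?_, ?_, ?_⟩
  · exact (hU.cont.comp (continuous_const.mul continuous_id)).div_const N
  · intro x hx
    have h := hU.zero (N * x) hx
    push_cast at h
    simp only [h, zero_div]
  · intro z hz
    exact div_pos (hU.pos _ (SCLL.notMem hN hz)) hN
  · intro z hz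
    have h1 : HarmonicAt U ((N : ℂ) * z + 0) := by
      rw [add_zero]
      exact hU.harm _ (SCLL.notMem hN hz)
    have h2 := HarmonicAt_comp_affine h1
    have h3 := h2.const_smul (c := N⁻¹)
    refine (harmonicAt_congr_nhds (Filter.Eventually.of_forall fun w => ?_)).1 h3
    simp only [Pi.smul_apply, smul_eq_mul, add_zero]
    rw [div_eq_inv_mul]
  · intro z
    have h := hU.symm ((N : ℂ) * z)
    rw [map_mul, Complex.conj_ofReal] at h
    simp only [h]
  · have h := hU.norm.comp (tendsto_id.const_mul_atTop hN)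
    refine h.congr fun y => ?_
    simp only [Function.comp, id]
    push_cast
    rw [div_div, mul_assoc]

end Pool.Agent.H356R3.LV
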