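import Pool.Agent.H356R3.LV.Defs

set_option autoImplicit false
open MeasureTheory Set Filter Topology Complex InnerProductSpace

namespace Pool.Agent.H356R3.LV

theorem SD2_proof : S_SD2 := by
  intro f D x c hf hD hmax
  by_contra hc
  push Not at hc
  have hmax' : IsLocalMax f x := hmax
  have hd : deriv f =ᶠ[𝓝 x] D := hf.mono fun t ht => ht.deriv
  have h1 : deriv (deriv f) x = c := by
    rw [hd.deriv_eq]
    exact hD.deriv
  have h2 : deriv f x = 0 := hmax'.deriv_eq_zero
  have h3 : IsLocalMin f x :=
    isLocalMin_of_deriv_deriv_pos (by rw [h1]; exact hc) h2 hf.self_of_nhds.continuousAt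
  have h4 : f =ᶠ[𝓝 x] fun _ => f x := by
    filter_upwards [hmax', h3] with t a b
    exact le_antisymm a b
  have h5 : deriv f =ᶠ[𝓝 x] deriv (fun _ => f x) := h4.deriv
  have h6 : D =ᶠ[𝓝 x] fun _ => 0 := by
    refine hd.symm.trans (h5.trans ?_)
    filter_upwards with t
    simp
  have h7 : c = 0 := by
    have h8 := h6.deriv_eq
    rw [hD.deriv] at h8
    simpa using h8
  linarith

end Pool.Agent.H356R3.LV
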