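import Pool.Agent.H356R3.LV.Defs

/-! Task SGN (helper180): constant sign near a point. -/

set_option autoImplicit false
open MeasureTheory Set Filter Topology Complex InnerProductSpace

namespace Pool.Agent.H356R3.LV

namespace SGNL

theorem sign_of_ne (g : ℝ → ℝ) (p q lam : ℝ) (hc : ContinuousOn g (Ioo p q))
    (h : ∀ t ∈ Ioo p q, g t ≠ lam) : (∀ t ∈ Ioo p q, lam < g t) ∨ (∀ t ∈ Ioo p q, g t < lam) := by
  by_contra hcon
  push Not at hcon
  obtain ⟨⟨t1, ht1, h1⟩, ⟨t2, ht2, h2⟩⟩ := hcon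
  obtain ⟨t, ht, h3⟩ := isPreconnected_Ioo.intermediate_value ht1 ht2 hc ⟨h1, h2⟩
  exact h t ht h3

end SGNL

theorem SGN_proof : S_SGN := by
  intro g x lam hg hne
  have h1 : ∀ᶠ t in 𝓝[≠] x, g t ≠ lam := by
    rcases hg.eventually_eq_or_eventually_ne (analyticAt_const (v := lam)) with h | h
    · exact absurd h hne
    · exact h
  rw [eventually_nhdsWithin_iff] at h1
  have h2 := h1.and hg.eventually_analyticAt
  rw [Metric.eventually_nhds_iff] at h2
  obtain ⟨κ, hκ, h3⟩ := h2
  refine ⟨κ, hκ, SGNL.sign_of_ne g x (x + κ) lam ?_ ?_, SGNL.sign_of_ne g (x - κ) x lam ?_ ?_⟩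
  · intro t ht
    have h4 := (h3 (y := t) (by rw [Real.dist_eq, abs_lt]; constructor <;> linarith [ht.1, ht.2])).2
    exact h4.continuousAt.continuousWithinAt
  · intro t ht
    exact (h3 (y := t) (by rw [Real.dist_eq, abs_lt]; constructor <;> linarith [ht.1, ht.2])).1
      ht.1.ne'
  · intro t ht
    have h4 := (h3 (y := t) (by rw [Real.dist_eq, abs_lt]; constructor <;> linarith [ht.1, ht.2])).2
    exact h4.continuousAt.continuousWithinAt
  · intro t ht
    exact (h3 (y := t) (by rw [Real.dist_eq, abs_lt]; constructor <;> linarith [ht.1, ht.2])).1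
      ht.2.ne

end Pool.Agent.H356R3.LV
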