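import Pool.Agent.H356R3.LV.Defs

set_option autoImplicit false
open MeasureTheory Set Filter Topology Complex InnerProductSpace

namespace Pool.Agent.H356R3.LV

namespace STRL

def Sg (g : ℝ → ℝ) (lam x : ℝ) : Prop := ∃ κ > 0,
  ((∀ t ∈ Ioo x (x + κ), lam < g t) ∨ (∀ t ∈ Ioo x (x + κ), g t < lam)) ∧
  ((∀ t ∈ Ioo (x - κ) x, lam < g t) ∨ (∀ t ∈ Ioo (x - κ) x, g t < lam))

theorem right_le {g : ℝ → ℝ} (hg : Continuous g) {x κ lam : ℝ} (hκ : 0 < κ)
    (h : ∀ t ∈ Ioo x (x + κ), g t ≤ lam) : g x ≤ lam := by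
  have h1 : Tendsto g (𝓝[>] x) (𝓝 (g x)) := hg.continuousWithinAt
  refine le_of_tendsto h1 ?_
  filter_upwards [Ioo_mem_nhdsGT (show x < x + κ by linarith)] with t ht
  exact h t ht

theorem right_ge {g : ℝ → ℝ} (hg : Continuous g) {x κ lam : ℝ} (hκ : 0 < κ)
    (h : ∀ t ∈ Ioo x (x + κ), lam ≤ g t) : lam ≤ g x := by
  have h1 : Tendsto g (𝓝[>] x) (𝓝 (g x)) := hg.continuousWithinAt
  refine ge_of_tendsto h1 ?_
  filter_upwards [Ioo_mem_nhdsGT (show x < x + κ by linarith)] with t ht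
  exact h t ht

theorem left_le {g : ℝ → ℝ} (hg : Continuous g) {x κ lam : ℝ} (hκ : 0 < κ)
    (h : ∀ t ∈ Ioo (x - κ) x, g t ≤ lam) : g x ≤ lam := by
  have h1 : Tendsto g (𝓝[<] x) (𝓝 (g x)) := hg.continuousWithinAt
  refine le_of_tendsto h1 ?_
  filter_upwards [Ioo_mem_nhdsLT (show x - κ < x by linarith)] with t ht
  exact h t ht

theorem left_ge {g : ℝ → ℝ} (hg : Continuous g) {x κ lam : ℝ} (hκ : 0 < κ)
    (h : ∀ t ∈ Ioo (x - κ) x, lam ≤ g t) : lam ≤ g x := by
  have h1 : Tendsto g (𝓝[<] x) (𝓝 (g x)) := hg.continuousWithinAt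
  refine ge_of_tendsto h1 ?_
  filter_upwards [Ioo_mem_nhdsLT (show x - κ < x by linarith)] with t ht
  exact h t ht

theorem lemR (g : ℝ → ℝ) (hg : Continuous g) (lam p q : ℝ) (hpq : p ≤ q) (hp : lam ≤ g p)
    (hq : g q < lam) (hS : ∀ x ∈ Icc p q, Sg g lam x) :
    ∃ β κ : ℝ, p ≤ β ∧ β < q ∧ 0 < κ ∧ β + κ ≤ q ∧ (∀ x ∈ Icc p β, lam ≤ g x) ∧
      (∀ x ∈ Ioc β (β + κ), g x < lam) := by
  set T : Set ℝ := {x | x ∈ Icc p q ∧ g x < lam} with hT
  have hne : T.Nonempty := ⟨q, ⟨hpq, le_rfl⟩, hq⟩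
  have hbd : BddBelow T := ⟨p, fun x hx => hx.1.1⟩
  set β := sInf T with hβ
  have h1 : p ≤ β := le_csInf hne fun x hx => hx.1.1
  have h2 : β ≤ q := csInf_le hbd ⟨⟨hpq, le_rfl⟩, hq⟩
  have h3 : ∀ x, p ≤ x → x < β → lam ≤ g x := by
    intro x hx1 hx2
    by_contra hlt
    have : x ∈ T := ⟨⟨hx1, hx2.le.trans h2⟩, not_le.1 hlt⟩
    exact absurd (csInf_le hbd this) (not_le.2 hx2)
  have h4 : lam ≤ g β := by
    rcases h1.eq_or_lt with h | h
    · rw [← h]; exact hp
    · apply left_ge hg (sub_pos.2 h)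
      intro t ht
      apply h3 t _ ht.2
      have := ht.1
      linarith
  have h5 : β < q := by
    rcases h2.eq_or_lt with h | h
    · rw [h] at h4; exact absurd hq (not_lt.2 h4)
    · exact h
  obtain ⟨κ0, hκ0, hr, _⟩ := hS β ⟨h1, h2⟩
  have hr2 : ∀ t ∈ Ioo β (β + κ0), g t < lam := by
    rcases hr with hr | hr
    · exfalso
      obtain ⟨t, ht, htlt⟩ := exists_lt_of_csInf_lt hne (show sInf T < β + κ0 by
        rw [← hβ]; linarith)
      have h6 : β ≤ t := csInf_le hbd ht
      have h7 : β ≠ t := by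
        intro h
        rw [h] at h4
        exact absurd ht.2 (not_lt.2 h4)
      exact absurd ht.2 (not_lt.2 (hr t ⟨lt_of_le_of_ne h6 h7, htlt⟩).le)
    · exact hr
  refine ⟨β, min (κ0 / 2) (q - β), h1, h5, lt_min (by linarith) (by linarith), ?_, ?_, ?_⟩
  · have := min_le_right (κ0 / 2) (q - β)
    linarith
  · rintro x ⟨hx1, hx2⟩
    rcases hx2.eq_or_lt with h | h
    · rw [h]; exact h4
    · exact h3 x hx1 h
  · rintro x ⟨hx1, hx2⟩
    have := min_le_left (κ0 / 2) (q - β)
    exact hr2 x ⟨hx1, by linarith⟩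

theorem lemL (g : ℝ → ℝ) (hg : Continuous g) (lam p q : ℝ) (hpq : p ≤ q) (hp : g p < lam)
    (hq : lam ≤ g q) (hS : ∀ x ∈ Icc p q, Sg g lam x) :
    ∃ α κ : ℝ, α ≤ q ∧ p < α ∧ 0 < κ ∧ p ≤ α - κ ∧ (∀ x ∈ Icc α q, lam ≤ g x) ∧
      (∀ x ∈ Ico (α - κ) α, g x < lam) := by
  obtain ⟨β, κ, b1, b2, b3, b4, b5, b6⟩ := lemR (fun x => g (-x)) (hg.comp continuous_neg) lam
    (-q) (-p) (by linarith) (by simpa using hq) (by simpa using hp) (by
      rintro x ⟨hx1, hx2⟩
      obtain ⟨κ0, hκ0, hr, hl⟩ := hS (-x) ⟨by linarith, by linarith⟩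
      refine ⟨κ0, hκ0, ?_, ?_⟩
      · rcases hl with hl | hl
        · left
          intro t ht
          exact hl (-t) ⟨by linarith [ht.2], by linarith [ht.1]⟩
        · right
          intro t ht
          exact hl (-t) ⟨by linarith [ht.2], by linarith [ht.1]⟩
      · rcases hr with hr | hr
        · left
          intro t ht
          exact hr (-t) ⟨by linarith [ht.2], by linarith [ht.1]⟩
        · right
          intro t ht
          exact hr (-t) ⟨by linarith [ht.2], by linarith [ht.1]⟩)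
  refine ⟨-β, κ, by linarith, by linarith, b3, by linarith, ?_, ?_⟩
  · rintro x ⟨hx1, hx2⟩
    have := b5 (-x) ⟨by linarith, by linarith⟩
    simpa using this
  · rintro x ⟨hx1, hx2⟩
    have := b6 (-x) ⟨by linarith, by linarith⟩
    simpa using this

end STRL

open STRL in
theorem STR_proof : S_STR := by
  intro g a lam hg hS hup hdn
  have hS' : ∀ x ∈ Icc a (a + 1), Sg g lam x := hS
  obtain ⟨κa, hκa, hra, _⟩ := hS a ⟨le_rfl, by linarith⟩
  obtain ⟨κb, hκb, _, hlb⟩ := hS (a + 1) ⟨by linarith, le_rfl⟩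
  obtain ⟨x1, hx1, hgx1⟩ := hup
  obtain ⟨x2, hx2, hgx2⟩ := hdn
  have hsub : ∀ p q : ℝ, a ≤ p → q ≤ a + 1 → ∀ x ∈ Icc p q, Sg g lam x := fun p q hp hq x hx =>
    hS' x ⟨hp.trans hx.1, hx.2.trans hq⟩
  rcases hra with hra | hra <;> rcases hlb with hlb | hlb
  · -- (C)
    have hga : lam ≤ g a := right_ge hg hκa fun t ht => (hra t ht).le
    have hgb : lam ≤ g (a + 1) := left_ge hg hκb fun t ht => (hlb t ht).le
    obtain ⟨β, κ2, b1, b2, b3, b4, b5, b6⟩ := lemR g hg lam a x2 hx2.1 hga hgx2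
      (hsub _ _ le_rfl hx2.2)
    obtain ⟨α, κ1, c1, c2, c3, c4, c5, c6⟩ := lemL g hg lam x2 (a + 1) hx2.2 hgx2 hgb
      (hsub _ _ hx2.1 le_rfl)
    have hβ : a < β := by
      rcases b1.eq_or_lt with h | h
      · exfalso
        set t := a + min κa κ2 / 2 with ht
        have hm : 0 < min κa κ2 := lt_min hκa b3
        have h1 := min_le_left κa κ2
        have h2 := min_le_right κa κ2
        have h3 := hra t ⟨by linarith, by linarith⟩
        have h4 := b6 t ⟨by linarith, by linarith⟩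
        linarith
      · exact h
    have hα : α < a + 1 := by
      rcases c1.eq_or_lt with h | h
      · exfalso
        set t := a + 1 - min κb κ1 / 2 with ht
        have hm : 0 < min κb κ1 := lt_min hκb c3
        have h1 := min_le_left κb κ1
        have h2 := min_le_right κb κ1
        have h3 := hlb t ⟨by linarith, by linarith⟩
        have h4 := c6 t ⟨by linarith, by linarith⟩
        linarith
      · exact h
    have m1 := min_le_left κ1 κ2
    have m2 := min_le_right κ1 κ2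
    refine ⟨min κ1 κ2, lt_min c3 b3, Or.inr (Or.inr (Or.inr ⟨α, β, hβ, by linarith, hα, b5, c5,
      fun x hx => b6 x ⟨hx.1, by linarith [hx.2]⟩, fun x hx => c6 x ⟨by linarith [hx.1], hx.2⟩⟩))⟩
  · -- (B')
    have hga : lam ≤ g a := right_ge hg hκa fun t ht => (hra t ht).le
    have hgb : g (a + 1) ≤ lam := left_le hg hκb fun t ht => (hlb t ht).le
    -- a point q left of `a + 1`
    set κ' := min κb 1 / 2 with hκ'
    have hm0 : 0 < min κb 1 := lt_min hκb one_pos
    have hm1 := min_le_left κb 1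
    have hm2 := min_le_right κb 1
    have hq : g (a + 1 - κ') < lam := hlb _ ⟨by linarith, by linarith⟩
    obtain ⟨β, κ2, b1, b2, b3, b4, b5, b6⟩ := lemR g hg lam a (a + 1 - κ') (by linarith) hga hq
      (hsub _ _ le_rfl (by linarith))
    have hβ : a < β := by
      rcases b1.eq_or_lt with h | h
      · exfalso
        set t := a + min κa κ2 / 2 with ht
        have hm : 0 < min κa κ2 := lt_min hκa b3
        have h1 := min_le_left κa κ2
        have h2 := min_le_right κa κ2
        have h3 := hra t ⟨by linarith, by linarith⟩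
        have h4 := b6 t ⟨by linarith, by linarith⟩
        linarith
      · exact h
    have m1 := min_le_left κ2 κ'
    have m2 := min_le_right κ2 κ'
    refine ⟨min κ2 κ', lt_min b3 (by linarith), Or.inr (Or.inr (Or.inl ⟨β, hβ, by linarith, b5,
      fun x hx => b6 x ⟨hx.1, by linarith [hx.2]⟩, ?_⟩))⟩
    rintro x ⟨hx1, hx2⟩
    rcases hx2.eq_or_lt with h | h
    · rw [h]; exact hgb
    · exact (hlb x ⟨by linarith, h⟩).le
  · -- (B)
    have hga : g a ≤ lam := right_le hg hκa fun t ht => (hra t ht).le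
    have hgb : lam ≤ g (a + 1) := left_ge hg hκb fun t ht => (hlb t ht).le
    set κ' := min κa 1 / 2 with hκ'
    have hm0 : 0 < min κa 1 := lt_min hκa one_pos
    have hm1 := min_le_left κa 1
    have hm2 := min_le_right κa 1
    have hp : g (a + κ') < lam := hra _ ⟨by linarith, by linarith⟩
    obtain ⟨α, κ1, c1, c2, c3, c4, c5, c6⟩ := lemL g hg lam (a + κ') (a + 1) (by linarith) hp hgb
      (hsub _ _ (by linarith) le_rfl)
    have hα : α < a + 1 := by
      rcases c1.eq_or_lt with h | h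
      · exfalso
        set t := a + 1 - min κb κ1 / 2 with ht
        have hm : 0 < min κb κ1 := lt_min hκb c3
        have h1 := min_le_left κb κ1
        have h2 := min_le_right κb κ1
        have h3 := hlb t ⟨by linarith, by linarith⟩
        have h4 := c6 t ⟨by linarith, by linarith⟩
        linarith
      · exact h
    have m1 := min_le_left κ1 κ'
    have m2 := min_le_right κ1 κ'
    refine ⟨min κ1 κ', lt_min c3 (by linarith), Or.inr (Or.inl ⟨α, by linarith, hα, c5,
      fun x hx => c6 x ⟨by linarith [hx.1], hx.2⟩, ?_⟩)⟩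
    rintro x ⟨hx1, hx2⟩
    rcases hx1.eq_or_lt with h | h
    · rw [← h]; exact hga
    · exact (hra x ⟨h, by linarith⟩).le
  · -- (A)
    have hga : g a ≤ lam := right_le hg hκa fun t ht => (hra t ht).le
    have hgb : g (a + 1) ≤ lam := left_le hg hκb fun t ht => (hlb t ht).le
    set κ' := min κa κb / 2 with hκ'
    have hm0 : 0 < min κa κb := lt_min hκa hκb
    have hm1 := min_le_left κa κb
    have hm2 := min_le_right κa κb
    -- `x1` is not near the ends
    have hx1a : a + κa ≤ x1 := by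
      by_contra hlt
      rw [not_le] at hlt
      rcases hx1.1.eq_or_lt with h | h
      · rw [← h] at hgx1; linarith
      · have := hra x1 ⟨h, hlt⟩
        linarith
    have hx1b : x1 ≤ a + 1 - κb := by
      by_contra hlt
      rw [not_le] at hlt
      rcases hx1.2.eq_or_lt with h | h
      · rw [h] at hgx1; linarith
      · have := hlb x1 ⟨hlt, h⟩
        linarith
    have hp : g (a + κ') < lam := hra _ ⟨by linarith, by linarith⟩
    have hq : g (a + 1 - κ') < lam := hlb _ ⟨by linarith, by linarith⟩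
    obtain ⟨α, κ1, c1, c2, c3, c4, c5, c6⟩ := lemL g hg lam (a + κ') x1 (by linarith) hp hgx1.le
      (hsub _ _ (by linarith) hx1.2)
    obtain ⟨β, κ2, b1, b2, b3, b4, b5, b6⟩ := lemR g hg lam x1 (a + 1 - κ') (by linarith)
      hgx1.le hq (hsub _ _ hx1.1 (by linarith))
    have hβ : x1 < β := by
      rcases b1.eq_or_lt with h | h
      · exfalso
        have := right_le hg b3 (x := x1) (κ := κ2) (lam := lam) (fun t ht =>
          (b6 t ⟨by rw [← h]; exact ht.1, by rw [← h]; exact ht.2.le⟩).le)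
        linarith
      · exact h
    have m1 := min_le_left (min κ1 κ2) κ'
    have m2 := min_le_right (min κ1 κ2) κ'
    have m3 := min_le_left κ1 κ2
    have m4 := min_le_right κ1 κ2
    refine ⟨min (min κ1 κ2) κ', lt_min (lt_min c3 b3) (by linarith), Or.inl ⟨α, β, by linarith,
      by linarith, by linarith, ?_, fun x hx => c6 x ⟨by linarith [hx.1], hx.2⟩,
      fun x hx => b6 x ⟨hx.1, by linarith [hx.2]⟩, hga, hgb⟩⟩
    rintro x ⟨h1, h2⟩
    rcases le_total x x1 with h | h
    · exact c5 x ⟨h1, h⟩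
    · exact b5 x ⟨h, h2⟩

end Pool.Agent.H356R3.LV
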