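import Pool.Agent.H356R3.LV.Defs
set_option autoImplicit false
open MeasureTheory Set Filter Topology Complex InnerProductSpace
namespace Pool.Agent.H356R3.LV

namespace SUBML

/-- uniform approximation of continuous periodic functions by real parts of polynomials in
`exp (i θ)` -/
theorem approx (f : ℝ → ℝ) (hf : Continuous f) (hper : Function.Periodic f (2 * Real.pi))
    (ε : ℝ) (hε : 0 < ε) :
    ∃ P : Polynomial ℂ, ∀ θ : ℝ, |f θ - (P.eval (Complex.exp (θ * I))).re| ≤ ε := by
  have : Fact (0 < 2 * Real.pi) := ⟨Real.two_pi_pos⟩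
  have hc : Continuous hper.lift := by
    refine continuous_coinduced_dom.2 ?_
    exact hf
  let F : C(AddCircle (2 * Real.pi), ℂ) :=
    ⟨fun t => ((hper.lift t : ℝ) : ℂ), Complex.continuous_ofReal.comp hc⟩
  have hF : F ∈ (Submodule.span ℂ (range (@fourier (2 * Real.pi)))).topologicalClosure := by
    rw [span_fourier_closure_eq_top]
    trivial
  have hF' : F ∈ closure ((Submodule.span ℂ (range (@fourier (2 * Real.pi)))) :
      Set C(AddCircle (2 * Real.pi), ℂ)) := hF
  obtain ⟨g, hg, hd⟩ := Metric.mem_closure_iff.1 hF' ε hε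
  have key : ∃ P Q : Polynomial ℂ, ∀ θ : ℝ, g (θ : AddCircle (2 * Real.pi)) =
      P.eval (Complex.exp (θ * I)) + (starRingEnd ℂ) (Q.eval (Complex.exp (θ * I))) := by
    clear hd
    refine Submodule.span_induction (p := fun (g : C(AddCircle (2 * Real.pi), ℂ)) _ =>
      ∃ P Q : Polynomial ℂ, ∀ θ : ℝ, g (θ : AddCircle (2 * Real.pi)) =
      P.eval (Complex.exp (θ * I)) + (starRingEnd ℂ) (Q.eval (Complex.exp (θ * I))))
      ?_ ?_ ?_ ?_ hg
    · rintro _ ⟨n, rfl⟩
      have h1 : ∀ m : ℕ, ∀ θ : ℝ, fourier (m : ℤ) (θ : AddCircle (2 * Real.pi)) =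
          Complex.exp (θ * I) ^ m := by
        intro m θ
        rw [fourier_coe_apply, ← Complex.exp_nat_mul]
        congr 1
        have : (Real.pi : ℂ) ≠ 0 := Complex.ofReal_ne_zero.2 Real.pi_ne_zero
        push_cast
        field_simp
      rcases Int.eq_nat_or_neg n with ⟨m, rfl | rfl⟩
      · refine ⟨Polynomial.X ^ m, 0, fun θ => ?_⟩
        rw [h1]
        simp
      · refine ⟨0, Polynomial.X ^ m, fun θ => ?_⟩
        rw [fourier_neg, h1]
        simp
    · exact ⟨0, 0, fun θ => by simp⟩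
    · rintro g1 g2 _ _ ⟨P1, Q1, h1⟩ ⟨P2, Q2, h2⟩
      refine ⟨P1 + P2, Q1 + Q2, fun θ => ?_⟩
      rw [ContinuousMap.add_apply, h1, h2]
      simp only [Polynomial.eval_add, map_add]
      ring
    · rintro c g1 _ ⟨P1, Q1, h1⟩
      refine ⟨Polynomial.C c * P1, Polynomial.C ((starRingEnd ℂ) c) * Q1, fun θ => ?_⟩
      rw [ContinuousMap.smul_apply, h1]
      simp only [Polynomial.eval_mul, Polynomial.eval_C, map_mul, Complex.conj_conj, smul_eq_mul]
      ring
  obtain ⟨P, Q, hPQ⟩ := key
  refine ⟨P + Q, fun θ => ?_⟩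
  have h1 : ‖F (θ : AddCircle (2 * Real.pi)) - g (θ : AddCircle (2 * Real.pi))‖ ≤ ε := by
    rw [← dist_eq_norm]
    exact (ContinuousMap.dist_apply_le_dist _).trans hd.le
  have h2 : F (θ : AddCircle (2 * Real.pi)) = ((f θ : ℝ) : ℂ) := rfl
  rw [h2, hPQ] at h1
  have h3 := (Complex.abs_re_le_norm _).trans h1
  simp only [Complex.sub_re, Complex.add_re, Complex.ofReal_re, Complex.conj_re] at h3
  rw [Polynomial.eval_add, Complex.add_re]
  exact h3

end SUBML

theorem SUBM_proof (hWMP : S_WMP) : S_SUBM := by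
  intro E U hE hU x r hr
  have hU0 : ∀ z, 0 ≤ U z := by
    intro z
    by_cases h : z ∈ (fun x : ℝ => (x : ℂ)) '' E
    · obtain ⟨t, ht, rfl⟩ := h
      exact (hU.zero t ht).ge
    · exact (hU.pos z h).le
  refine le_of_forall_pos_le_add fun ε hε => ?_
  obtain ⟨P, hP⟩ := SUBML.approx (fun θ => U (circleMap x r θ))
    (hU.cont.comp (continuous_circleMap _ _))
    (fun θ => by simp only [periodic_circleMap x r θ]) (ε / 2) (by positivity)
  let h : ℂ → ℝ := fun z => (P.eval ((z - x) / r)).re
  have hr' : (r : ℂ) ≠ 0 := Complex.ofReal_ne_zero.2 hr.ne'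
  have hana : ∀ z, AnalyticAt ℂ (fun z : ℂ => P.eval ((z - x) / r)) z := by
    intro z
    have hd : Differentiable ℂ (fun z : ℂ => P.eval ((z - x) / r)) := by
      have h1 : Differentiable ℂ (fun z : ℂ => (z - x) / r) := by fun_prop
      exact P.differentiable.comp h1
    exact hd.analyticAt z
  have hharm : ∀ z, HarmonicAt h z := fun z => (hana z).harmonicAt_re
  have hcont : Continuous h := by
    refine Complex.continuous_re.comp ?_
    exact P.continuous.comp (by fun_prop)
  have hcirc : ∀ z : ℂ, z ∈ Metric.sphere (x : ℂ) r → |U z - h z| ≤ ε / 2 := by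
    intro z hz
    have hz' : z ∈ Metric.sphere (x : ℂ) |r| := by rwa [abs_of_pos hr]
    rw [← range_circleMap] at hz'
    obtain ⟨θ, rfl⟩ := hz'
    have h1 := hP θ
    have h2 : h (circleMap x r θ) = (P.eval (Complex.exp (θ * I))).re := by
      change (P.eval ((circleMap x r θ - x) / r)).re = _
      have : (circleMap x r θ - x) / r = Complex.exp (θ * I) := by
        rw [circleMap, add_sub_cancel_left]
        field_simp
      rw [this]
    rw [h2]
    exact h1
  have hbdd : ∀ v : ℂ → ℝ, ∀ c > 0, ∃ R : ℝ, ∀ z ∈ Metric.closedBall (x : ℂ) r, R < ‖z‖ →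
      v z ≤ c := by
    intro v c _
    refine ⟨‖(x : ℂ)‖ + r, fun z hz hR => ?_⟩
    exfalso
    have h1 : ‖z - x‖ ≤ r := by
      rw [← dist_eq_norm]
      exact hz
    have h2 : ‖z‖ ≤ ‖(x : ℂ)‖ + ‖z - x‖ := by
      calc ‖z‖ = ‖(x : ℂ) + (z - x)‖ := by congr 1; ring
        _ ≤ _ := norm_add_le _ _
    linarith
  have hin : ∀ z ∈ Metric.closedBall (x : ℂ) r, z ∉ Metric.sphere (x : ℂ) r →
      Metric.closedBall (x : ℂ) r ∈ 𝓝 z := by
    intro z hz hz'
    have h1 : z ∈ Metric.ball (x : ℂ) r := by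
      rw [Metric.mem_ball]
      exact lt_of_le_of_ne hz hz'
    exact Filter.mem_of_superset (Metric.isOpen_ball.mem_nhds h1) Metric.ball_subset_closedBall
  -- step 1
  have s1 : ∀ z ∈ Metric.closedBall (x : ℂ) r, -(h z + ε / 2) ≤ 0 := by
    refine hWMP (Metric.closedBall (x : ℂ) r) (fun z => -(h z + ε / 2)) Metric.isClosed_closedBall
      (by fun_prop) (hbdd _) ?_
    intro z hz hpos
    have hns : z ∉ Metric.sphere (x : ℂ) r := by
      intro hs
      have h1 := abs_le.1 (hcirc z hs)
      have h2 := hU0 z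
      linarith [h1.1, h1.2]
    refine ⟨hin z hz hns, ?_⟩
    have h3 : HarmonicAt (fun w : ℂ => (-(P.eval ((w - x) / r) + (ε / 2 : ℝ))).re) z := by
      refine AnalyticAt.harmonicAt_re ?_
      exact ((hana z).add analyticAt_const).neg
    have h4 : (fun w : ℂ => (-(P.eval ((w - x) / r) + (ε / 2 : ℝ))).re) =
        fun z => -(h z + ε / 2) := by
      funext w
      simp only [Complex.neg_re, Complex.add_re, Complex.ofReal_re]
      rfl
    rw [← h4]
    exact h3
  -- step 2
  have s2 : ∀ z ∈ Metric.closedBall (x : ℂ) r, U z - (h z + ε / 2) ≤ 0 := by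
    refine hWMP (Metric.closedBall (x : ℂ) r) (fun z => U z - (h z + ε / 2))
      Metric.isClosed_closedBall ?_ (hbdd _) ?_
    · exact (hU.cont.sub (hcont.add continuous_const)).continuousOn
    intro z hz hpos
    have hns : z ∉ Metric.sphere (x : ℂ) r := by
      intro hs
      have h1 := abs_le.1 (hcirc z hs)
      linarith [h1.1, h1.2]
    refine ⟨hin z hz hns, ?_⟩
    have hUz : 0 < U z := by
      have h1 := s1 z hz
      linarith
    have hzE : z ∈ ((fun x : ℝ => (x : ℂ)) '' E)ᶜ := by
      rintro ⟨t, ht, rfl⟩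
      rw [hU.zero t ht] at hUz
      exact lt_irrefl _ hUz
    have h3 : HarmonicAt (fun w : ℂ => (-(P.eval ((w - x) / r) + (ε / 2 : ℝ))).re) z := by
      refine AnalyticAt.harmonicAt_re ?_
      exact ((hana z).add analyticAt_const).neg
    have h4 : (U + fun w : ℂ => (-(P.eval ((w - x) / r) + (ε / 2 : ℝ))).re) =
        fun z => U z - (h z + ε / 2) := by
      funext w
      simp only [Pi.add_apply, Complex.neg_re, Complex.add_re, Complex.ofReal_re]
      rw [sub_eq_add_neg]
      rfl
    rw [← h4]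
    exact (hU.harm z hzE).add h3
  have hx := s2 (x : ℂ) (Metric.mem_closedBall_self hr.le)
  have hmean : Real.circleAverage h x r = h x :=
    InnerProductSpace.HarmonicOnNhd.circleAverage_eq (fun z _ => hharm z)
  have hle : Real.circleAverage h x r ≤ Real.circleAverage (fun z => U z + ε / 2) x r := by
    refine Real.circleAverage_mono hcont.continuousOn.circleIntegrable'
      (hU.cont.add continuous_const).continuousOn.circleIntegrable' ?_
    intro z hz
    rw [abs_of_pos hr] at hz
    have h1 := abs_le.1 (hcirc z hz)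
    linarith [h1.1, h1.2]
  have hsum : Real.circleAverage (fun z => U z + ε / 2) x r = Real.circleAverage U x r + ε / 2 := by
    rw [Real.circleAverage_fun_add hU.cont.continuousOn.circleIntegrable'
      continuous_const.continuousOn.circleIntegrable', Real.circleAverage_const]
  rw [hsum] at hle
  rw [hmean] at hle
  linarith

end Pool.Agent.H356R3.LV
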