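import Pool.Agent.H356R3.LV.HC
set_option autoImplicit false
open MeasureTheory Set Filter Topology Complex InnerProductSpace
namespace Pool.Agent.H356R3.LV

namespace TRNL

lemma PK_eq (y t : ℝ) (hy : 0 < y) : PK y t = (Real.pi * y)⁻¹ * (1 + (t / y) ^ 2)⁻¹ := by
  unfold PK
  have hpi := Real.pi_pos
  have h1 : 0 < t ^ 2 + y ^ 2 := by positivity
  field_simp
  ring

lemma PK_nonneg (y t : ℝ) (hy : 0 < y) : 0 ≤ PK y t := by
  rw [PK_eq y t hy]
  have hpi := Real.pi_pos
  positivity

lemma PK_integrable (x y : ℝ) (hy : 0 < y) : Integrable (fun t : ℝ => PK y (x - t)) := by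
  have h1 : Integrable (fun t : ℝ => PK y t) := by
    have h2 : Integrable (fun t : ℝ => (Real.pi * y)⁻¹ * (1 + (t / y) ^ 2)⁻¹) :=
      (integrable_inv_one_add_sq.comp_div hy.ne').const_mul _
    exact h2.congr (Filter.Eventually.of_forall fun t => (PK_eq y t hy).symm)
  exact h1.comp_sub_left x

lemma PK_integral (x y : ℝ) (hy : 0 < y) : ∫ t : ℝ, PK y (x - t) = 1 := by
  rw [integral_sub_left_eq_self (fun t => PK y t) volume x]
  rw [integral_congr_ae (Filter.Eventually.of_forall fun t => PK_eq y t hy)]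
  rw [integral_const_mul, Measure.integral_comp_div (fun t => (1 + t ^ 2)⁻¹) y,
    integral_univ_inv_one_add_sq, abs_of_pos hy, smul_eq_mul]
  have hpi := Real.pi_pos
  field_simp

end TRNL

open TRNL in
theorem TRN_proof (hHG : S_HG) : S_TRN := by
  intro E U M x hE hU hM
  have hnn : ∀ z, 0 ≤ U z := by
    intro z
    by_cases hz : z ∈ (fun x : ℝ => (x : ℂ)) '' E
    · obtain ⟨e, he, rfl⟩ := hz
      exact (hU.zero e he).ge
    · exact (hU.pos z hz).le
  have himg : ∀ z : ℂ, z ∉ (fun x : ℝ => (x : ℂ)) '' {t : ℝ | x + t ∈ E} →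
      (x : ℂ) + z ∉ (fun x : ℝ => (x : ℂ)) '' E := by
    rintro z hz ⟨e, he, h⟩
    apply hz
    refine ⟨e - x, ?_, ?_⟩
    · simpa using he
    · simp only at h ⊢
      push_cast
      rw [h]
      ring
  obtain ⟨-, h2, h3⟩ := hHG U hU.cont.continuousOn (fun z _ => hnn z) (by
    intro z hz
    apply hU.harm
    rintro ⟨e, -, rfl⟩
    simp at hz) hU.norm
  refine ⟨?_, ?_, ?_, ?_, ?_, ?_⟩
  · exact hU.cont.comp (by fun_prop)
  · intro t ht
    have := hU.zero (x + t) ht
    simpa using this
  · intro z hz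
    exact hU.pos _ (himg z hz)
  · intro z hz
    have h1 : HarmonicAt U (1 * z + x) := by
      rw [one_mul, add_comm]
      exact hU.harm _ (himg z hz)
    have h2 := HarmonicAt_comp_affine h1
    simpa [add_comm] using h2
  · intro z
    have := hU.symm (x + z)
    simpa using this
  · have hlow : ∀ᶠ y : ℝ in atTop, (1 : ℝ) ≤ U ((x : ℂ) + y * I) / y := by
      filter_upwards [eventually_gt_atTop 0] with y hy
      rw [le_div_iff₀ hy, one_mul, h3 x y hy]
      have : 0 ≤ ∫ t : ℝ, PK y (x - t) * U t :=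
        integral_nonneg fun t => mul_nonneg (PK_nonneg _ _ hy) (hnn _)
      linarith
    have hup : ∀ᶠ y : ℝ in atTop, U ((x : ℂ) + y * I) / y ≤ 1 + M / y := by
      filter_upwards [eventually_gt_atTop 0] with y hy
      rw [div_le_iff₀ hy, h3 x y hy, add_mul, one_mul, div_mul_cancel₀ _ hy.ne']
      have h4 : ∫ t : ℝ, PK y (x - t) * U t ≤ ∫ t : ℝ, PK y (x - t) * M :=
        integral_mono (h2 x y hy) ((PK_integrable x y hy).mul_const M)
          fun t => mul_le_mul_of_nonneg_left (hM t) (PK_nonneg _ _ hy)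
      rw [integral_mul_const, PK_integral x y hy, one_mul] at h4
      linarith
    have hlim : Tendsto (fun y : ℝ => 1 + M / y) atTop (𝓝 1) := by
      have : Tendsto (fun y : ℝ => M / y) atTop (𝓝 0) := tendsto_const_nhds.div_atTop tendsto_id
      simpa using tendsto_const_nhds.add this
    exact tendsto_of_tendsto_of_tendsto_of_le_of_le' tendsto_const_nhds hlim hlow hup

end Pool.Agent.H356R3.LV
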