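import Pool.Agent.H356R3.LV.Defs
set_option autoImplicit false
open MeasureTheory Set Filter Topology Complex InnerProductSpace
namespace Pool.Agent.H356R3.LV

namespace TT1L

/-- continuity of the restriction to a line -/
theorem cont_line {u : ℂ → ℝ} (hu : Continuous u) (y : ℝ) :
    Continuous (fun x : ℝ => u (x + y * I)) := by
  apply hu.comp
  fun_prop

theorem Tt_eq (γ : ℝ) (hu : Continuous (Ut γ)) (s y : ℝ) :
    Tt γ s y = (∫ x in (0:ℝ)..s, Ut γ (x + y * I)) - ∫ x in (0:ℝ)..(-s), Ut γ (x + y * I) := by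
  unfold Tt
  exact (intervalIntegral.integral_interval_sub_left
    ((cont_line hu y).intervalIntegrable _ _) ((cont_line hu y).intervalIntegrable _ _)).symm

theorem Tt_cont (γ : ℝ) (hu : Continuous (Ut γ)) : Continuous (fun p : ℝ × ℝ => Tt γ p.1 p.2) := by
  have hf : Continuous (Function.uncurry fun (p : ℝ × ℝ) (x : ℝ) => Ut γ (x + p.2 * I)) := by
    apply hu.comp
    fun_prop
  have h1 := intervalIntegral.continuous_parametric_intervalIntegral_of_continuous (μ := volume)
    (a₀ := 0) hf (s := fun p : ℝ × ℝ => p.1) continuous_fst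
  have h2 := intervalIntegral.continuous_parametric_intervalIntegral_of_continuous (μ := volume)
    (a₀ := 0) hf (s := fun p : ℝ × ℝ => -p.1) continuous_fst.neg
  refine (h1.sub h2).congr fun p => ?_
  exact (Tt_eq γ hu p.1 p.2).symm

theorem Tt_der (γ : ℝ) (hu : Continuous (Ut γ)) (hs : ∀ z, Ut γ (-(starRingEnd ℂ) z) = Ut γ z)
    (s y : ℝ) : HasDerivAt (fun s' => Tt γ s' y) (2 * Ut γ (s + y * I)) s := by
  have hc := cont_line hu y
  have h1 : HasDerivAt (fun s' : ℝ => ∫ x in (0:ℝ)..s', Ut γ (x + y * I)) (Ut γ (s + y * I)) s :=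
    (hc.integral_hasStrictDerivAt 0 s).hasDerivAt
  have h2 : HasDerivAt (fun s' : ℝ => ∫ x in (0:ℝ)..s', Ut γ (x + y * I))
      (Ut γ ((-s : ℝ) + y * I)) (-s) :=
    (hc.integral_hasStrictDerivAt 0 (-s)).hasDerivAt
  have h3 : HasDerivAt (fun s' : ℝ => ∫ x in (0:ℝ)..(-s'), Ut γ (x + y * I))
      (Ut γ ((-s : ℝ) + y * I) * (-1)) s :=
    HasDerivAt.comp s h2 (hasDerivAt_neg s)
  have h4 := h1.sub h3
  have h5 : Ut γ ((-s : ℝ) + y * I) = Ut γ (s + y * I) := by
    rw [← hs (s + y * I)]
    congr 1
    apply Complex.ext <;> simp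
  rw [h5] at h4
  have h6 : Ut γ (s + y * I) - Ut γ (s + y * I) * (-1) = 2 * Ut γ (s + y * I) := by ring
  rw [h6] at h4
  refine h4.congr_of_eventuallyEq (Filter.Eventually.of_forall fun s' => ?_)
  exact Tt_eq γ hu s' y

/-- functions with vanishing second derivative on the half line -/
theorem affine (J : ℝ → ℝ) (h : ∀ y > 0, ∃ D : ℝ → ℝ, (∀ᶠ y' in 𝓝 y, HasDerivAt J (D y') y') ∧
    HasDerivAt D 0 y) : ∃ c d : ℝ, ∀ y > 0, J y = c * y + d := by
  have h1 : ∀ y > 0, HasDerivAt J (deriv J y) y := by
    intro y hy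
    obtain ⟨D, hD, -⟩ := h y hy
    exact hD.self_of_nhds.differentiableAt.hasDerivAt
  have h2 : ∀ y > 0, HasDerivAt (deriv J) 0 y := by
    intro y hy
    obtain ⟨D, hD, hD2⟩ := h y hy
    refine hD2.congr_of_eventuallyEq ?_
    filter_upwards [hD] with y' hy'
    exact hy'.deriv
  obtain ⟨c, hc⟩ := isOpen_Ioi.exists_is_const_of_deriv_eq_zero (s := Ioi (0:ℝ)) (f := deriv J)
    isPreconnected_Ioi
    (fun y hy => (h2 y hy).differentiableAt.differentiableWithinAt)
    (fun y hy => (h2 y hy).deriv)
  have h3 : ∀ y > 0, HasDerivAt (fun y => J y - c * y) 0 y := by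
    intro y hy
    have := (h1 y hy).sub ((hasDerivAt_id y).const_mul c)
    rw [hc y hy, mul_one, sub_self] at this
    exact this
  obtain ⟨d, hd⟩ := isOpen_Ioi.exists_is_const_of_deriv_eq_zero (s := Ioi (0:ℝ))
    (f := fun y => J y - c * y) isPreconnected_Ioi
    (fun y hy => (h3 y hy).differentiableAt.differentiableWithinAt)
    (fun y hy => (h3 y hy).deriv)
  refine ⟨c, d, fun y hy => ?_⟩
  have := hd y hy
  linarith

/-- the integral of the second derivative of a periodic function -/
theorem per_int (g : ℝ → ℝ) (hg : ContDiff ℝ 2 g) (hp : ∀ x, g (x + 1) = g x) :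
    ∫ x in Ioc (-(1/2) : ℝ) (1/2), deriv (deriv g) x = 0 := by
  have h1 : ContDiff ℝ 1 (deriv g) := by
    have : ContDiff ℝ (1 + 1) g := by norm_num; exact hg
    exact (contDiff_succ_iff_deriv.1 this).2.2
  have h2 : Continuous (deriv (deriv g)) := h1.continuous_deriv le_rfl
  rw [← intervalIntegral.integral_of_le (by norm_num)]
  have h3 : ∫ x in (-(1/2) : ℝ)..(1/2), deriv (deriv g) x = deriv g (1/2) - deriv g (-(1/2)) := by
    apply intervalIntegral.integral_eq_sub_of_hasDerivAt
    · intro x _
      exact ((h1.differentiable one_ne_zero) x).hasDerivAt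
    · exact h2.intervalIntegrable _ _
  have h4 : deriv g (1/2) = deriv g (-(1/2)) := by
    have h5 : g = fun x => g (x + 1) := by
      funext x
      exact (hp x).symm
    have h6 : deriv g (-(1/2)) = deriv g (-(1/2) + 1) := by
      conv_lhs => rw [h5]
      rw [deriv_comp_add_const]
    rw [h6]
    norm_num
  rw [h3, h4, sub_self]

end TT1L

open TT1L in
theorem TT1_proof (hA : S_UTA) (hR : S_UTR) (hP : S_UTP) (hYD : S_YD) : S_TT1 := by
  intro γ hγ0 hγ1
  have hU := hA γ hγ0 hγ1
  obtain ⟨-, hE⟩ := hR γ hγ0 hγ1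
  obtain ⟨hs, hper, him, ⟨C, hC⟩, -⟩ := hP γ hγ0 hγ1
  have hu := hU.cont
  have hc := fun y => cont_line hu y
  have hder := Tt_der γ hu hs
  have hcont := Tt_cont γ hu
  have hlow : ∀ s y : ℝ, 0 ≤ s → 2 * s * |y| ≤ Tt γ s y := by
    intro s y h0
    have h1 : ∫ _x in (-s)..s, |y| ≤ ∫ x in (-s)..s, Ut γ (x + y * I) := by
      apply intervalIntegral.integral_mono_on (by linarith) (by simp)
        ((hc y).intervalIntegrable _ _)
      intro x _
      have := him (x + y * I)
      simpa using this
    rw [intervalIntegral.integral_const, smul_eq_mul] at h1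
    unfold Tt
    linarith
  have hdiff : ∀ s₁ s₂ : ℝ, Tt γ s₂ 0 - Tt γ s₁ 0 = ∫ x in s₁..s₂, 2 * Ut γ (x + (0:ℝ) * I) := by
    intro s₁ s₂
    symm
    apply intervalIntegral.integral_eq_sub_of_hasDerivAt
    · intro x _
      exact hder x 0
    · exact (continuous_const.mul (hc 0)).intervalIntegrable _ _
  have hz : ∀ x : ℝ, ((x : ℂ) + (0:ℝ) * I) = x := by
    intro x
    simp
  refine ⟨hcont, hlow, ?_, ?_, ?_, ?_, hder⟩
  · -- the inequality
    set J : ℝ → ℝ := fun y => Tt γ (1 / 2) y with hJ
    have hJA : ∀ y, J y = ∫ x in Ioc (-(1/2) : ℝ) (1/2), Ut γ (x + y * I) := by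
      intro y
      show Tt γ (1/2) y = _
      unfold Tt
      rw [intervalIntegral.integral_of_le (by norm_num)]
    have hsec : ∀ y > 0, ∃ D : ℝ → ℝ, (∀ᶠ y' in 𝓝 y, HasDerivAt J (D y') y') ∧
        HasDerivAt D 0 y := by
      intro y hy
      have hharm : ∀ x : ℝ, HarmonicAt (Ut γ) (x + y * I) := by
        intro x
        apply hU.harm
        rintro ⟨t, -, ht⟩
        have := congrArg Complex.im ht
        simp at this
        linarith
      obtain ⟨-, D, hD1, hD2⟩ := hYD (Ut γ) y (Ioc (-(1/2)) (1/2)) (Icc (-(1/2)) (1/2))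
        measurableSet_Ioc isCompact_Icc Ioc_subset_Icc_self (fun x _ => hharm x)
      have hg : ContDiff ℝ 2 (gl (Ut γ) y) := by
        rw [contDiff_iff_contDiffAt]
        intro x
        have h1 : ContDiffAt ℝ 2 (Ut γ) ((x : ℂ) + y * I) := (hharm x).1
        have h2 : ContDiffAt ℝ 2 (fun x : ℝ => (x : ℂ) + y * I) x := by
          apply ContDiffAt.add
          · exact Complex.ofRealCLM.contDiff.contDiffAt
          · exact contDiffAt_const
        exact ContDiffAt.comp x h1 h2
      have hgp : ∀ x, gl (Ut γ) y (x + 1) = gl (Ut γ) y x := by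
        intro x
        unfold gl
        rw [← hper (x + y * I)]
        congr 1
        push_cast
        ring
      rw [per_int _ hg hgp, neg_zero] at hD2
      refine ⟨D, ?_, hD2⟩
      filter_upwards [hD1] with y' hy'
      refine hy'.congr_of_eventuallyEq (Filter.Eventually.of_forall fun t => ?_)
      exact hJA t
    obtain ⟨c, d, hcd⟩ := affine J hsec
    have hJlow : ∀ y > 0, y ≤ J y := by
      intro y hy
      have := hlow (1/2) y (by norm_num)
      rw [abs_of_pos hy] at this
      show y ≤ Tt γ (1/2) y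
      linarith
    have hJup : ∀ y > 0, J y ≤ y + C := by
      intro y hy
      have h1 : ∫ x in (-(1/2 : ℝ))..(1/2), Ut γ (x + y * I) ≤ ∫ _x in (-(1/2 : ℝ))..(1/2), (y + C) := by
        apply intervalIntegral.integral_mono_on (by norm_num)
          ((hc y).intervalIntegrable _ _) (by simp)
        intro x _
        have := hC (x + y * I)
        simp only [add_im, ofReal_im, mul_im, ofReal_re, I_im, mul_one, I_re, mul_zero,
          add_zero, zero_add, abs_of_pos hy] at this
        exact this
      rw [intervalIntegral.integral_const, smul_eq_mul] at h1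
      show Tt γ (1/2) y ≤ _
      unfold Tt
      linarith
    have hc1 : c = 1 := by
      by_contra hne
      rcases lt_or_gt_of_ne hne with h | h
      · -- c < 1
        have h0 : 0 < 1 - c := by linarith
        set y := (|d| + 1) / (1 - c) with hy
        have hy0 : 0 < y := by positivity
        have h1 := hJlow y hy0
        rw [hcd y hy0] at h1
        have h2 : (1 - c) * y = |d| + 1 := by
          rw [hy]; field_simp
        have h3 := le_abs_self d
        nlinarith
      · have h0 : 0 < c - 1 := by linarith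
        set y := (|C| + |d| + 1) / (c - 1) with hy
        have hy0 : 0 < y := by positivity
        have h1 := hJup y hy0
        rw [hcd y hy0] at h1
        have h2 : (c - 1) * y = |C| + |d| + 1 := by
          rw [hy]; field_simp
        have h3 := neg_abs_le d
        have h4 := le_abs_self C
        nlinarith
    subst hc1
    have hJc : Continuous J := by
      have hk : Continuous (fun y : ℝ => ((1 / 2 : ℝ), y)) := by fun_prop
      exact Continuous.comp (g := fun p : ℝ × ℝ => Tt γ p.1 p.2) (f := fun y : ℝ => ((1 / 2 : ℝ), y))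
        hcont hk
    have hJ0 : J 0 = d := by
      have h1 : Tendsto J (𝓝[>] 0) (𝓝 (J 0)) := hJc.continuousAt.continuousWithinAt
      have h2 : Tendsto (fun y : ℝ => 1 * y + d) (𝓝[>] 0) (𝓝 (1 * 0 + d)) := by
        apply Tendsto.mono_left _ nhdsWithin_le_nhds
        exact (tendsto_id.const_mul 1).add_const d
      have h3 : Tendsto J (𝓝[>] 0) (𝓝 (1 * 0 + d)) := by
        refine h2.congr' ?_
        filter_upwards [self_mem_nhdsWithin] with y hy
        exact (hcd y hy).symm
      have := tendsto_nhds_unique h1 h3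
      linarith
    have hJpos : ∀ y, 0 ≤ y → y + J 0 ≤ J y := by
      intro y hy
      rcases eq_or_lt_of_le hy with h | h
      · rw [← h]; linarith
      · rw [hcd y h, hJ0]; linarith
    have hJsym : ∀ y, J (-y) = J y := by
      intro y
      show Tt γ (1/2) (-y) = Tt γ (1/2) y
      unfold Tt
      refine intervalIntegral.integral_congr fun x _ => ?_
      show Ut γ _ = Ut γ _
      rw [← hU.symm (x + y * I)]
      congr 1
      apply Complex.ext <;> simp
    intro y
    show |y| + J 0 ≤ J y
    rcases le_total 0 y with h | h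
    · rw [abs_of_nonneg h]
      exact hJpos y h
    · rw [abs_of_nonpos h, ← hJsym y]
      exact hJpos (-y) (by linarith)
  · -- constancy
    intro s h1 h2
    have h3 := hdiff s (1/2)
    have h4 : ∫ x in s..(1/2 : ℝ), 2 * Ut γ (x + (0:ℝ) * I) = 0 := by
      have h5 : ∫ x in s..(1/2 : ℝ), 2 * Ut γ (x + (0:ℝ) * I) = ∫ _x in s..(1/2 : ℝ), (0:ℝ) := by
        refine intervalIntegral.integral_congr fun x hx => ?_
        rw [uIcc_of_le h2] at hx
        show 2 * Ut γ (x + (0:ℝ) * I) = 0
        rw [hz, hU.zero x ((hE x (by rw [abs_of_nonneg (by linarith [hx.1])]; exact hx.2)).2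
          (by rw [abs_of_nonneg (by linarith [hx.1])]; linarith [hx.1])), mul_zero]
      rw [h5]
      simp
    linarith
  · -- strict monotonicity
    intro s₁ s₂ h0 h12 h2
    have h3 := hdiff s₁ s₂
    have h4 : 0 < ∫ x in s₁..s₂, 2 * Ut γ (x + (0:ℝ) * I) := by
      apply intervalIntegral.intervalIntegral_pos_of_pos_on
        ((continuous_const.mul (hc 0)).intervalIntegrable _ _) _ h12
      intro x hx
      show 0 < 2 * Ut γ (x + (0:ℝ) * I)
      rw [hz]
      have h5 : 0 < Ut γ x := by
        apply hU.pos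
        rintro ⟨t, ht, hxt⟩
        have htx : t = x := Complex.ofReal_injective hxt
        subst htx
        have h6 := (hE t (by rw [abs_of_nonneg (by linarith [hx.1])]; linarith [hx.2])).1 ht
        rw [abs_of_nonneg (by linarith [hx.1])] at h6
        linarith [hx.2]
      linarith
    linarith
  · intro y
    unfold Tt
    simp

end Pool.Agent.H356R3.LV
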