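import Pool.Agent.H356R3.LV.Defs
set_option autoImplicit false
open MeasureTheory Set Filter Topology Complex InnerProductSpace
namespace Pool.Agent.H356R3.LV

theorem TT2_proof (hA : S_UTA) (hR : S_UTR) (hP : S_UTP) (hYD : S_YD) : S_TT2 := by
  intro γ hγ0 hγ1 s y hs0 hs1 hsy
  have hU := hA γ hγ0 hγ1
  have hharm : ∀ x ∈ Icc (-s) s, HarmonicAt (Ut γ) ((x : ℂ) + y * I) := by
    intro x hx
    refine hU.harm _ ?_
    rintro ⟨t, ht, htx⟩
    have h1 := congrArg Complex.im htx
    have h2 := congrArg Complex.re htx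
    simp only [Complex.ofReal_im, Complex.add_im, Complex.mul_im, Complex.ofReal_re,
      Complex.I_im, Complex.I_re, mul_one, mul_zero, add_zero, zero_add] at h1
    simp only [Complex.ofReal_re, Complex.add_re, Complex.mul_re, Complex.ofReal_im,
      Complex.I_im, Complex.I_re, mul_one, mul_zero, sub_zero, add_zero] at h2
    rcases hsy with h | h
    · exact h h1.symm
    · have h3 : |t| ≤ s := by
        rw [h2]
        exact abs_le.2 hx
      have h4 := ((hR γ hγ0 hγ1).2 t (by linarith)).1 ht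
      linarith
  have hana : ∀ x ∈ Icc (-s) s, AnalyticAt ℝ (gl (Ut γ) y) x := by
    intro x hx
    have h1 : AnalyticAt ℝ (Ut γ) ((x : ℂ) + y * I) := _root_.HarmonicAt.analyticAt (hharm x hx)
    have h2 : AnalyticAt ℝ (fun x : ℝ => (x : ℂ) + y * I) x :=
      (Complex.ofRealCLM.analyticAt x).add analyticAt_const
    exact AnalyticAt.fun_comp (f := fun x : ℝ => (x : ℂ) + y * I) h1 h2
  obtain ⟨hint, D, hD1, hD2⟩ := hYD (Ut γ) y (Ioc (-s) s) (Icc (-s) s) measurableSet_Ioc
    isCompact_Icc Ioc_subset_Icc_self hharm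
  have heven : (fun x => gl (Ut γ) y (-x)) = gl (Ut γ) y := by
    funext x
    unfold gl
    rw [← (hP γ hγ0 hγ1).1 ((x : ℂ) + y * I)]
    congr 1
    simp only [map_add, map_mul, Complex.conj_ofReal, Complex.conj_I, Complex.ofReal_neg]
    ring
  have hodd : deriv (gl (Ut γ) y) (-s) = - deriv (gl (Ut γ) y) s := by
    have h1 := deriv_comp_neg (gl (Ut γ) y) s
    rw [heven] at h1
    rw [h1, neg_neg]
  have hFTC : ∫ x in Ioc (-s) s, deriv (deriv (gl (Ut γ) y)) x = 2 * deriv (gl (Ut γ) y) s := by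
    rw [← intervalIntegral.integral_of_le (by linarith)]
    rw [intervalIntegral.integral_eq_sub_of_hasDerivAt (f := deriv (gl (Ut γ) y))]
    · rw [hodd]
      ring
    · intro x hx
      rw [uIcc_of_le (by linarith)] at hx
      exact (hana x hx).deriv.differentiableAt.hasDerivAt
    · rw [intervalIntegrable_iff_integrableOn_Ioc_of_le (by linarith)]
      exact hint
  refine ⟨2 * deriv (gl (Ut γ) y) s, ?_, D, ?_, ?_⟩
  · have h1 : HasDerivAt (gl (Ut γ) y) (deriv (gl (Ut γ) y) s) s :=
      (hana s ⟨by linarith, le_rfl⟩).differentiableAt.hasDerivAt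
    exact h1.const_mul 2
  · filter_upwards [hD1] with y' hy'
    have h1 : (fun y'' => Tt γ s y'') = fun t : ℝ => ∫ x in Ioc (-s) s, Ut γ (x + t * I) := by
      funext t
      unfold Tt
      rw [intervalIntegral.integral_of_le (by linarith)]
    rw [h1]
    exact hy'
  · rw [← hFTC]
    exact hD2

end Pool.Agent.H356R3.LV
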