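import Pool.Agent.H356R3.LV.Defs2
import Pool.Agent.H356R3.LV.HC
set_option autoImplicit false
open MeasureTheory Set Filter Topology Complex InnerProductSpace

/-! Assembly: a non-periodic set with the same supremum. -/

namespace Pool.Agent.H356R3.LV

/-- the periodic set with the bands `[nN - δ/2, nN + δ/2]` -/
def perSet (N δ : ℝ) : Set ℝ := ⋃ n : ℤ, Icc (n * N - δ / 2) (n * N + δ / 2)

namespace TopL

lemma cos_sub_half (x : ℝ) : Real.cos (Real.pi * x) = - Real.sin (Real.pi * (x - 1 / 2)) := by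
  rw [mul_sub, show Real.pi * (1 / 2) = Real.pi / 2 by ring, Real.sin_sub_pi_div_two]
  ring

lemma Eg_eq {δ : ℝ} (h0 : 0 < δ) (h1 : δ < 1) :
    Eg (1 - δ) = {s : ℝ | s - 1 / 2 ∈ perSet 1 δ} := by
  have hc : Real.cos (Real.pi * (1 - δ) / 2) = Real.sin (Real.pi * (δ / 2)) := by
    rw [show Real.pi * (1 - δ) / 2 = Real.pi / 2 - Real.pi * (δ / 2) by ring,
      Real.cos_pi_div_two_sub]
  ext x
  simp only [Eg, mem_ofPred_eq, perSet, mem_iUnion, mem_Icc, mul_one]
  rw [hc, cos_sub_half, abs_neg]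
  set y := x - 1 / 2 with hy
  have hpi := Real.pi_pos
  constructor
  · intro h
    refine ⟨round y, ?_⟩
    set e := y - round y with he
    have he2 : |e| ≤ 1 / 2 := abs_sub_round y
    have hper : |Real.sin (Real.pi * y)| = |Real.sin (Real.pi * e)| := by
      have : Real.pi * y = Real.pi * e + (round y : ℤ) * Real.pi := by rw [he]; ring
      rw [this, Real.sin_add_int_mul_pi, abs_mul]
      simp
    rw [hper] at h
    have h2 : |Real.sin (Real.pi * e)| = Real.sin (Real.pi * |e|) := by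
      rcases le_total 0 e with h3 | h3
      · rw [abs_of_nonneg h3, abs_of_nonneg]
        apply Real.sin_nonneg_of_nonneg_of_le_pi (by positivity)
        rw [abs_of_nonneg h3] at he2
        nlinarith
      · rw [abs_of_nonpos h3, mul_neg, Real.sin_neg, abs_of_nonpos]
        rw [abs_of_nonpos h3] at he2
        have : 0 ≤ Real.sin (Real.pi * (-e)) := by
          apply Real.sin_nonneg_of_nonneg_of_le_pi
          · have : 0 ≤ -e := by linarith
            positivity
          · nlinarith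
        rw [mul_neg, Real.sin_neg] at this
        linarith
    rw [h2] at h
    have h3 : |e| ≤ δ / 2 := by
      by_contra hcon
      push Not at hcon
      have : Real.sin (Real.pi * (δ / 2)) < Real.sin (Real.pi * |e|) := by
        apply Real.strictMonoOn_sin
        · constructor <;> nlinarith
        · constructor <;> nlinarith [abs_nonneg e]
        · nlinarith
      linarith
    have h4 := abs_le.1 h3
    constructor <;> linarith [h4.1, h4.2]
  · rintro ⟨n, hn1, hn2⟩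
    set e := y - n with he
    have h3 : |e| ≤ δ / 2 := abs_le.2 ⟨by linarith, by linarith⟩
    have hper : |Real.sin (Real.pi * y)| = |Real.sin (Real.pi * e)| := by
      have : Real.pi * y = Real.pi * e + (n : ℤ) * Real.pi := by rw [he]; ring
      rw [this, Real.sin_add_int_mul_pi, abs_mul]
      simp
    rw [hper, abs_le]
    have h4 := abs_le.1 h3
    constructor
    · rw [← Real.sin_neg]
      apply Real.strictMonoOn_sin.monotoneOn
      · constructor <;> nlinarith
      · constructor <;> nlinarith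
      · nlinarith
    · apply Real.strictMonoOn_sin.monotoneOn
      · constructor <;> nlinarith
      · constructor <;> nlinarith
      · nlinarith

lemma perSet_scale {N δ t : ℝ} (hN : 0 < N) : t ∈ perSet 1 (δ / N) ↔ N * t ∈ perSet N δ := by
  simp only [perSet, mem_iUnion, mem_Icc, mul_one]
  have key : ∀ n : ℤ, ((n : ℝ) - δ / N / 2 ≤ t ∧ t ≤ n + δ / N / 2) ↔
      (n * N - δ / 2 ≤ N * t ∧ N * t ≤ n * N + δ / 2) := by
    intro n
    have e1 : n * N - δ / 2 = N * ((n : ℝ) - δ / N / 2) := by field_simp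
    have e2 : n * N + δ / 2 = N * ((n : ℝ) + δ / N / 2) := by field_simp
    rw [e1, e2, mul_le_mul_iff_right₀ hN, mul_le_mul_iff_right₀ hN]
  exact exists_congr key

lemma Rel_scale {M δ c : ℝ} {E : Set ℝ} (hc : 0 < c) (h : Rel M δ E) :
    Rel (M / c) (δ / c) {t : ℝ | c * t ∈ E} := by
  refine ⟨h.closed.preimage (continuous_const.mul continuous_id), fun a => ?_⟩
  have e1 : {t : ℝ | c * t ∈ E} ∩ Icc a (a + M / c) =
      (fun t => c * t) ⁻¹' (E ∩ Icc (c * a) (c * a + M)) := by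
    ext t
    simp only [mem_inter_iff, mem_ofPred_eq, mem_Icc, mem_preimage]
    have : c * a + M = c * (a + M / c) := by field_simp
    rw [this, mul_le_mul_iff_right₀ hc, mul_le_mul_iff_right₀ hc]
  rw [e1, Real.volume_preimage_mul_left hc.ne', abs_of_pos (inv_pos.2 hc)]
  calc ENNReal.ofReal (δ / c) = ENNReal.ofReal c⁻¹ * ENNReal.ofReal δ := by
        rw [← ENNReal.ofReal_mul (inv_pos.2 hc).le]; congr 1; field_simp
    _ ≤ _ := by gcongr; exact h.meas (c * a)

variable (hA : S_UTA) (hR : S_UTR) (hP : S_UTP)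
  (hUQ4 : S_UQ4) (hBDD : S_BDD) (hGROW : S_GROW) (hTRN : S_TRN) (hSCL : S_SCL) (hXT : S_XT)

include hA hR hP hUQ4 hBDD hGROW hTRN in
/-- the function of a translate of the periodic set attains the value -/
theorem translate_attains {δ : ℝ} (h0 : 0 < δ) (h1 : δ < 1) (E : Set ℝ) (U : ℂ → ℝ)
    (hE : Rel 1 δ E) (hU : IsU E U) (h : ∃ t : ℝ, E = {s : ℝ | s - t ∈ perSet 1 δ}) :
    ∃ x : ℝ, U x = Ut (1 - δ) 0 := by
  obtain ⟨t, ht⟩ := h
  refine ⟨t - 1 / 2, ?_⟩
  obtain ⟨M, hM⟩ := hBDD δ E U h0 hE hU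
  have hT := hTRN E U M (t - 1 / 2) hE.closed hU hM
  have hE' : {s : ℝ | t - 1 / 2 + s ∈ E} = Eg (1 - δ) := by
    rw [Eg_eq h0 h1, ht]
    ext s
    simp only [mem_ofPred_eq]
    rw [show t - 1 / 2 + s - t = s - 1 / 2 by ring]
  rw [hE'] at hT
  have hγ0 : 0 < 1 - δ := by linarith
  have hγ1 : 1 - δ < 1 := by linarith
  have hUt := hA (1 - δ) hγ0 hγ1
  obtain ⟨-, -, -, ⟨C, hC⟩, -⟩ := hP (1 - δ) hγ0 hγ1
  have hcl : IsClosed (Eg (1 - δ)) := (hR (1 - δ) hγ0 hγ1).1.closed
  have hG := (hGROW E U hE.closed hU M hM).1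
  have h3 := hUQ4 (Eg (1 - δ)) _ _ (1 - δ) M hγ0 hγ1 hcl hT hUt subset_rfl
    (fun z => by
      have := hG (((t - 1 / 2 : ℝ) : ℂ) + z)
      simpa using this) 0
  have h4 := hUQ4 (Eg (1 - δ)) _ _ (1 - δ) C hγ0 hγ1 hcl hUt hT subset_rfl hC 0
  simp only [add_zero] at h3 h4
  exact le_antisymm h3 h4

include hP in
lemma value {N δ : ℝ} (h0 : 0 < δ) (h1 : δ < N) :
    N * Ut (1 - δ / N) 0 = N / Real.pi * Real.log (Real.cot (Real.pi * δ / (4 * N))) := by
  have hN : 0 < N := h0.trans h1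
  have hd0 : 0 < δ / N := div_pos h0 hN
  have hd1 : δ / N < 1 := (div_lt_one hN).2 h1
  obtain ⟨-, -, -, -, h⟩ := hP (1 - δ / N) (by linarith) (by linarith)
  rw [h, Real.cot_eq_cos_div_sin,
    show Real.pi * (1 - (1 - δ / N)) / 4 = Real.pi * δ / (4 * N) by field_simp; ring]
  ring

include hA hR hP hUQ4 hBDD hGROW hTRN hSCL hXT in
theorem top2 {N δ : ℝ} (h0 : 0 < δ) (h1 : δ < N) :
    ∃ (E : Set ℝ) (U : ℂ → ℝ), Rel N δ E ∧ IsU E U ∧
      IsLUB (range fun x : ℝ => U (x : ℂ))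
        (N / Real.pi * Real.log (Real.cot (Real.pi * δ / (4 * N)))) ∧
      (∀ x : ℝ, U x < N / Real.pi * Real.log (Real.cot (Real.pi * δ / (4 * N)))) ∧
      ¬ ∃ t : ℝ, E = {s : ℝ | s - t ∈ perSet N δ} := by
  have hN : 0 < N := h0.trans h1
  have hd0 : 0 < δ / N := div_pos h0 hN
  have hd1 : δ / N < 1 := (div_lt_one hN).2 h1
  rw [← value hP h0 h1]
  set v := Ut (1 - δ / N) 0 with hv
  have hIN : (0 : ℝ) < N⁻¹ := inv_pos.2 hN
  -- transfer of a unit example
  obtain ⟨E, U, hE, hU, hlt, hap⟩ := hXT (δ / N) hd0 hd1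
  have g1 := Rel_scale hIN hE
  rw [show (1 : ℝ) / N⁻¹ = N by field_simp, show δ / N / N⁻¹ = δ by field_simp] at g1
  have g2 := hSCL E U N⁻¹ hIN hU
  have hlt2 : ∀ x : ℝ, U (((N⁻¹ : ℝ) : ℂ) * x) / N⁻¹ < N * v := by
    intro x
    have h3 := hlt (N⁻¹ * x)
    rw [Complex.ofReal_mul, ← hv] at h3
    simp only [div_inv_eq_mul]
    nlinarith
  refine ⟨_, _, g1, g2, ⟨?_, ?_⟩, hlt2, ?_⟩
  · rintro _ ⟨x, rfl⟩
    exact (hlt2 x).le
  · intro b hb
    by_contra hcon
    push Not at hcon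
    obtain ⟨x, hx⟩ := hap ((N * v - b) / N) (div_pos (by linarith) hN)
    have h5 := hb ⟨N * x, rfl⟩
    have e : (((N⁻¹ : ℝ) : ℂ) * ((N * x : ℝ) : ℂ)) = x := by
      push_cast
      have : (N : ℂ) ≠ 0 := by exact_mod_cast hN.ne'
      field_simp
    simp only [e, div_inv_eq_mul] at h5
    rw [← hv] at hx
    have h6 : N * (v - (N * v - b) / N) < N * U x := mul_lt_mul_of_pos_left hx hN
    have e2 : N * (v - (N * v - b) / N) = b := by field_simp; ring
    linarith
  · rintro ⟨t, ht⟩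
    have h7 : ∃ t : ℝ, E = {s : ℝ | s - t ∈ perSet 1 (δ / N)} := by
      refine ⟨t / N, ?_⟩
      ext s
      have h8 : s ∈ E ↔ N * s ∈ {t : ℝ | N⁻¹ * t ∈ E} := by
        simp only [mem_ofPred_eq]
        rw [inv_mul_cancel_left₀ hN.ne']
      rw [h8, ht]
      simp only [mem_ofPred_eq]
      rw [perSet_scale hN]
      congr! 1
      field_simp
    obtain ⟨x, hx⟩ := translate_attains hA hR hP hUQ4 hBDD hGROW hTRN hd0 hd1 E U hE hU h7
    exact absurd hx (hlt x).ne

end TopL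

end Pool.Agent.H356R3.LV
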