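import Pool.Agent.H356R3.LV.HC

set_option autoImplicit false
open MeasureTheory Set Filter Topology Complex InnerProductSpace

namespace Pool.Agent.H356R3.LV

namespace UNIQL

theorem nonneg {E : Set ℝ} {U : ℂ → ℝ} (h : IsU E U) (z : ℂ) : 0 ≤ U z := by
  by_cases hz : z ∈ (fun x : ℝ => (x : ℂ)) '' E
  · obtain ⟨x, hx, rfl⟩ := hz
    exact (h.zero x hx).ge
  · exact (h.pos z hz).le

theorem zero_iff {E : Set ℝ} {U : ℂ → ℝ} (h : IsU E U) (t : ℝ) : U (t : ℂ) = 0 ↔ t ∈ E := by
  constructor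
  · intro h0
    by_contra ht
    have h1 : (t : ℂ) ∉ (fun x : ℝ => (x : ℂ)) '' E := by
      rintro ⟨s, hs, hst⟩
      exact ht (Complex.ofReal_injective hst ▸ hs)
    exact (h.pos _ h1).ne' h0
  · exact h.zero t

theorem harm_of_im {E : Set ℝ} {U : ℂ → ℝ} (h : IsU E U) {z : ℂ} (hz : z.im ≠ 0) :
    HarmonicAt U z := by
  refine h.harm z ?_
  rintro ⟨s, hs, rfl⟩
  exact hz (Complex.ofReal_im s)

theorem harm_ball {E : Set ℝ} {U : ℂ → ℝ} (h : IsU E U) {r : ℝ}
    (hr : ∀ t : ℝ, |t| < r → t ∉ E) {z : ℂ} (hz : z ∈ Metric.ball (0 : ℂ) r) :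
    HarmonicAt U z := by
  refine h.harm z ?_
  rintro ⟨s, hs, rfl⟩
  refine hr s ?_ hs
  rw [Metric.mem_ball, dist_zero_right] at hz
  simpa using hz

theorem exists_r {E : Set ℝ} (hE : IsClosed E) (h0 : (0 : ℝ) ∉ E) :
    ∃ r : ℝ, 0 < r ∧ ∀ t : ℝ, |t| < r → t ∉ E := by
  obtain ⟨r, hr, hb⟩ := Metric.isOpen_iff.1 hE.isOpen_compl 0 h0
  refine ⟨r, hr, fun t ht => hb ?_⟩
  rw [Metric.mem_ball, dist_zero_right, Real.norm_eq_abs]
  exact ht

end UNIQL

open UNIQL in
theorem UNIQ_proof (hBDD : S_BDD) (hGROW : S_GROW) (hA : S_UTA) (hR : S_UTR) (hP : S_UTP)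
    (hBND : S_BND) (h1 : S_UQ1) (h2 : S_UQ2) (h3 : S_UQ3) (hT : S_TRN) : S_UNIQ := by
  intro δ E U x hδ hδ1 hRel hU hx
  set γ := 1 - δ with hγ
  have hγ0 : 0 < γ := by rw [hγ]; linarith
  have hγ1 : γ < 1 := by rw [hγ]; linarith
  obtain ⟨M, hM⟩ := hBDD δ E U hδ hRel hU
  have hgrow := (hGROW E U hRel.closed hU M hM).1
  have hU' := hT E U M x hRel.closed hU hM
  have hV := hA γ hγ0 hγ1
  obtain ⟨hsym, -, -, -, -⟩ := hP γ hγ0 hγ1
  obtain ⟨hRg, hEg⟩ := hR γ hγ0 hγ1
  set E' : Set ℝ := {t : ℝ | x + t ∈ E} with hE'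
  set U' : ℂ → ℝ := fun z => U (x + z) with hU'def
  have hE'c : IsClosed E' := hRel.closed.preimage (continuous_const.add continuous_id)
  have hncc : Continuous fun z : ℂ => -(starRingEnd ℂ) z := Complex.continuous_conj.neg
  -- the function k
  set k : ℂ → ℝ := fun z => Ut γ z - (U' z + U' (-(starRingEnd ℂ) z)) / 2 with hk
  have hkc : Continuous k :=
    hV.cont.sub ((hU'.cont.add (hU'.cont.comp hncc)).div_const 2)
  have hkh : ∀ z : ℂ, HarmonicAt (Ut γ) z → HarmonicAt U' z →
      HarmonicAt U' (-(starRingEnd ℂ) z) → HarmonicAt k z := by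
    intro z ha hb hc
    have hd : HarmonicAt (fun z => U' (-(starRingEnd ℂ) z)) z := HarmonicAt_comp_neg_conj hc
    have he : HarmonicAt ((-(1/2 : ℝ)) • (U' + fun z => U' (-(starRingEnd ℂ) z))) z :=
      (hb.add hd).const_smul
    have hf := ha.add he
    refine (harmonicAt_congr_nhds ?_).1 hf
    filter_upwards with w
    simp only [hk, Pi.add_apply, Pi.smul_apply, smul_eq_mul]
    ring
  have hksym : ∀ z, k (-(starRingEnd ℂ) z) = k z := by
    intro z
    simp only [hk]
    rw [hsym z]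
    have : -(starRingEnd ℂ) (-(starRingEnd ℂ) z) = z := by
      rw [map_neg, Complex.conj_conj, neg_neg]
    rw [this]
    ring
  have h0U : U' 0 = Ut γ 0 := by
    simp only [hU'def]
    rw [add_zero]
    exact hx
  have hk0 : k 0 = 0 := by
    simp only [hk]
    rw [map_zero, neg_zero, h0U]
    ring
  have h0g : (0 : ℝ) ∉ Eg γ := by
    rw [hEg 0 (by norm_num)]
    rw [abs_zero]
    linarith
  have hUt0 : 0 < Ut γ 0 := by
    have := (zero_iff hV 0).not.2 h0g
    have h5 := nonneg hV 0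
    rw [Complex.ofReal_zero] at this
    exact lt_of_le_of_ne h5 (Ne.symm this)
  have h0E : (0 : ℝ) ∉ E' := by
    intro hc
    have h6 := (zero_iff hU' 0).2 hc
    rw [Complex.ofReal_zero, h0U] at h6
    linarith
  obtain ⟨r1, hr1, hb1⟩ := exists_r hE'c h0E
  obtain ⟨r2, hr2, hb2⟩ := exists_r hRg.closed h0g
  set r := min (min r1 r2) (1 / 2) with hr
  have hr0 : 0 < r := lt_min (lt_min hr1 hr2) (by norm_num)
  have hrr1 : r ≤ r1 := (min_le_left _ _).trans (min_le_left _ _)
  have hrr2 : r ≤ r2 := (min_le_left _ _).trans (min_le_right _ _)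
  have hrr3 : r ≤ 1 / 2 := min_le_right _ _
  have hb1' : ∀ t : ℝ, |t| < r → t ∉ E' := fun t ht => hb1 t (ht.trans_le hrr1)
  have hb2' : ∀ t : ℝ, |t| < r → t ∉ Eg γ := fun t ht => hb2 t (ht.trans_le hrr2)
  have hkball : HarmonicOnNhd k (Metric.ball 0 r) := by
    intro z hz
    refine hkh z (harm_ball hV hb2' hz) (harm_ball hU' hb1' hz) (harm_ball hU' hb1' ?_)
    rw [Metric.mem_ball, dist_zero_right] at hz ⊢
    rw [norm_neg, Complex.norm_conj]
    exact hz
  -- the integral inequality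
  have hint : ∀ s y : ℝ, 0 ≤ s → s ^ 2 + y ^ 2 < r ^ 2 → 0 ≤ ∫ t in (-s)..s, k (t + y * I) := by
    intro s y hs hsy
    have hsr : s < r := by
      by_contra hc
      push Not at hc
      nlinarith [sq_nonneg y]
    have hs2 : s ≤ 1 / 2 := by linarith
    have hb := (hBND δ E U hδ hδ1 hRel hU).2 x s y hs hs2
    have c1 : Continuous fun t : ℝ => ((t : ℂ) + y * I) := by fun_prop
    have i1 : IntervalIntegrable (fun t : ℝ => Ut γ (t + y * I)) volume (-s) s :=
      (hV.cont.comp c1).intervalIntegrable _ _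
    have i2 : IntervalIntegrable (fun t : ℝ => U' (t + y * I)) volume (-s) s :=
      (hU'.cont.comp c1).intervalIntegrable _ _
    have i3 : IntervalIntegrable (fun t : ℝ => U' (-(starRingEnd ℂ) (t + y * I))) volume (-s) s :=
      ((hU'.cont.comp hncc).comp c1).intervalIntegrable _ _
    have e1 : ∫ t in (-s)..s, U' (t + y * I) = ∫ t in (x - s)..(x + s), U (t + y * I) := by
      have h7 := intervalIntegral.integral_comp_add_left (a := -s) (b := s)
        (fun t : ℝ => U (t + y * I)) x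
      rw [← sub_eq_add_neg] at h7
      rw [← h7]
      refine intervalIntegral.integral_congr fun t _ => ?_
      simp only [hU'def]
      congr 1
      push_cast
      ring
    have e2 : ∫ t in (-s)..s, U' (-(starRingEnd ℂ) (t + y * I)) = ∫ t in (-s)..s, U' (t + y * I) := by
      have h8 := intervalIntegral.integral_comp_neg (a := -s) (b := s)
        (fun t : ℝ => U' (t + y * I))
      rw [neg_neg] at h8
      rw [← h8]
      refine intervalIntegral.integral_congr fun t _ => ?_
      show U' (-(starRingEnd ℂ) (t + y * I)) = U' (((-t : ℝ) : ℂ) + y * I)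
      congr 1
      rw [map_add, map_mul, Complex.conj_ofReal, Complex.conj_ofReal, Complex.conj_I]
      push_cast
      ring
    have e3 : ∫ t in (-s)..s, k (t + y * I) = Tt γ s y - ∫ t in (-s)..s, U' (t + y * I) := by
      have h9 : ∫ t in (-s)..s, k (t + y * I) =
          (∫ t in (-s)..s, Ut γ (t + y * I)) -
            ((∫ t in (-s)..s, U' (t + y * I)) +
              ∫ t in (-s)..s, U' (-(starRingEnd ℂ) (t + y * I))) / 2 := by
        rw [← intervalIntegral.integral_add i2 i3, ← intervalIntegral.integral_div,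
          ← intervalIntegral.integral_sub i1 ((i2.add i3).div_const 2)]
      rw [h9, e2]
      unfold Tt
      ring
    rw [e3, e1]
    linarith
  have hkz := h1 k r hr0 hkball hksym hk0 hint
  have hkup := h2 k r hr0 hkc.continuousOn (by
    intro z hz
    have hz' : z.im ≠ 0 := ne_of_gt hz
    refine hkh z (harm_of_im hV hz') (harm_of_im hU' hz') (harm_of_im hU' ?_)
    rw [Complex.neg_im, Complex.conj_im, neg_neg]
    exact hz') hkz
  have hkall : ∀ z, k z = 0 := by
    intro z
    rcases le_total 0 z.im with hz | hz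
    · exact hkup z hz
    · have h9 := hkup ((starRingEnd ℂ) z) (by rw [Complex.conj_im]; linarith)
      rw [← h9]
      simp only [hk]
      rw [hV.symm z, hU'.symm z, Complex.conj_conj]
      have h10 := hU'.symm (-(starRingEnd ℂ) z)
      rw [map_neg, Complex.conj_conj] at h10
      rw [h10]
  have hsum : ∀ z, U' z + U' (-(starRingEnd ℂ) z) = 2 * Ut γ z := by
    intro z
    have := hkall z
    simp only [hk] at this
    linarith
  have hsub : Eg γ ⊆ E' := by
    intro t ht
    have h11 := hsum t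
    rw [(zero_iff hV t).2 ht] at h11
    have h12 := nonneg hU' (t : ℂ)
    have h13 := nonneg hU' (-(starRingEnd ℂ) (t : ℂ))
    exact (zero_iff hU' t).1 (by linarith)
  have hle := h3 E' U' γ M hγ0 hγ1 hE'c hU' hsub (by
    intro z
    have := hgrow (x + z)
    rw [Complex.add_im, Complex.ofReal_im, zero_add] at this
    exact this)
  have heq : ∀ z, U' z = Ut γ z := by
    intro z
    have h14 := hle z
    have h15 := hle (-(starRingEnd ℂ) z)
    rw [hsym z] at h15
    have h16 := hsum z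
    linarith
  refine ⟨heq, ?_⟩
  ext t
  have h17 : t ∈ E ↔ (t - x) ∈ E' := by
    show t ∈ E ↔ x + (t - x) ∈ E
    rw [add_sub_cancel]
  rw [h17, ← zero_iff hU' (t - x), heq, zero_iff hV]
  rfl

end Pool.Agent.H356R3.LV
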