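import Pool.Agent.H356R3.LV.Defs
set_option autoImplicit false
open MeasureTheory Set Filter Topology Complex InnerProductSpace

namespace Pool.Agent.H356R3.LV

namespace UQ1L

/-- the first cosine coefficient of a holomorphic function on a circle -/
lemma cos_coeff {r ρ : ℝ} {F : ℂ → ℂ} (hρ : 0 < ρ) (hr : ρ < r)
    (hF : DifferentiableOn ℂ F (Metric.ball 0 r)) :
    ∫ θ in (0:ℝ)..2 * Real.pi, (Real.cos θ : ℂ) * F (circleMap 0 ρ θ) =
      Real.pi * ρ * deriv F 0 := by
  have hsub : Metric.closedBall (0:ℂ) ρ ⊆ Metric.ball 0 r := Metric.closedBall_subset_ball hr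
  have hcont : Continuous (fun θ : ℝ => F (circleMap 0 ρ θ)) := by
    refine (hF.continuousOn).comp_continuous (continuous_circleMap 0 ρ) ?_
    intro θ
    exact hsub (circleMap_mem_closedBall 0 hρ.le θ)
  have h1 : ∮ z in C(0, ρ), F z = 0 :=
    (hF.diffContOnCl_ball hsub).circleIntegral_eq_zero hρ.le
  have h2 := two_pi_I_inv_smul_circleIntegral_sub_sq_inv_smul_of_differentiable
    Metric.isOpen_ball hsub hF (Metric.mem_ball_self hρ)
  have hρ' : (ρ : ℂ) ≠ 0 := by exact_mod_cast hρ.ne'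
  have hcm : ∀ θ : ℝ, circleMap 0 ρ θ = ρ * Complex.exp (θ * I) := by
    intro θ; simp [circleMap]
  have e1 : ∫ θ in (0:ℝ)..2 * Real.pi, Complex.exp (θ * I) * F (circleMap 0 ρ θ) = 0 := by
    have h3 : (∮ z in C(0, ρ), F z) = (I * ρ) *
        ∫ θ in (0:ℝ)..2 * Real.pi, Complex.exp (θ * I) * F (circleMap 0 ρ θ) := by
      rw [circleIntegral, ← intervalIntegral.integral_const_mul]
      refine intervalIntegral.integral_congr fun θ _ => ?_
      simp only [deriv_circleMap, smul_eq_mul]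
      rw [hcm θ]; ring
    rw [h1] at h3
    have h4 : (I * ρ : ℂ) ≠ 0 := mul_ne_zero I_ne_zero hρ'
    exact (mul_eq_zero.mp h3.symm).resolve_left h4
  have e2 : ∫ θ in (0:ℝ)..2 * Real.pi, Complex.exp (-(θ * I)) * F (circleMap 0 ρ θ) =
      2 * Real.pi * ρ * deriv F 0 := by
    have h3 : (∮ z in C(0, ρ), ((z - 0) ^ 2)⁻¹ • F z) = (I / ρ) *
        ∫ θ in (0:ℝ)..2 * Real.pi, Complex.exp (-(θ * I)) * F (circleMap 0 ρ θ) := by
      rw [circleIntegral, ← intervalIntegral.integral_const_mul]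
      refine intervalIntegral.integral_congr fun θ _ => ?_
      simp only [deriv_circleMap, smul_eq_mul]
      have h5 : Complex.exp (θ * I) ≠ 0 := Complex.exp_ne_zero _
      have h6 : F (circleMap 0 ρ θ) = F (circleMap 0 ρ θ) := rfl
      rw [Complex.exp_neg]
      generalize F (circleMap 0 ρ θ) = w
      rw [hcm θ]
      field_simp
      ring
    rw [h3] at h2
    have h7 : (2 * Real.pi * I : ℂ) ≠ 0 := by
      simp [Real.pi_ne_zero]
    rw [← h2, smul_eq_mul]
    generalize (∫ θ in (0:ℝ)..2 * Real.pi, Complex.exp (-(θ * I)) * F (circleMap 0 ρ θ)) = J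
    have hpi : (Real.pi : ℂ) ≠ 0 := by exact_mod_cast Real.pi_ne_zero
    have hI : (I : ℂ) ≠ 0 := I_ne_zero
    field_simp
  have hc1 : IntervalIntegrable (fun θ : ℝ => Complex.exp (θ * I) * F (circleMap 0 ρ θ))
      volume 0 (2 * Real.pi) := by
    apply Continuous.intervalIntegrable
    exact (by fun_prop : Continuous fun θ : ℝ => Complex.exp (θ * I)).mul hcont
  have hc2 : IntervalIntegrable (fun θ : ℝ => Complex.exp (-(θ * I)) * F (circleMap 0 ρ θ))
      volume 0 (2 * Real.pi) := by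
    apply Continuous.intervalIntegrable
    exact (by fun_prop : Continuous fun θ : ℝ => Complex.exp (-(θ * I))).mul hcont
  have h8 : ∫ θ in (0:ℝ)..2 * Real.pi, (Real.cos θ : ℂ) * F (circleMap 0 ρ θ) =
      (1/2) * ((∫ θ in (0:ℝ)..2 * Real.pi, Complex.exp (θ * I) * F (circleMap 0 ρ θ)) +
        ∫ θ in (0:ℝ)..2 * Real.pi, Complex.exp (-(θ * I)) * F (circleMap 0 ρ θ)) := by
    rw [← intervalIntegral.integral_add hc1 hc2, ← intervalIntegral.integral_const_mul]
    refine intervalIntegral.integral_congr fun θ _ => ?_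
    simp only [Complex.ofReal_cos, Complex.cos]
    rw [show -(θ : ℂ) * I = -(θ * I) by ring]
    ring
  rw [h8, e1, e2]
  ring

/-- nonnegative cosine coefficient implies vanishing -/
lemma half_circle {ρ : ℝ} {u : ℂ → ℝ} (hcont : Continuous fun θ : ℝ => u (circleMap 0 ρ θ))
    (h0 : ∫ θ in (0:ℝ)..2 * Real.pi, Real.cos θ * u (circleMap 0 ρ θ) = 0)
    (hnn : ∀ θ : ℝ, -(Real.pi / 2) ≤ θ → θ ≤ Real.pi / 2 →
      0 ≤ u (circleMap 0 ρ θ) - u (circleMap 0 ρ (Real.pi - θ))) :
    ∀ θ : ℝ, -(Real.pi / 2) < θ → θ < Real.pi / 2 →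
      u (circleMap 0 ρ θ) - u (circleMap 0 ρ (Real.pi - θ)) = 0 := by
  set H : ℝ → ℝ := fun θ => Real.cos θ * u (circleMap 0 ρ θ) with hH
  have hHc : Continuous H := Real.continuous_cos.mul hcont
  have hHp : Function.Periodic H (2 * Real.pi) := by
    intro θ
    simp only [hH]
    rw [Real.cos_add_two_pi]
    have : circleMap 0 ρ (θ + 2 * Real.pi) = circleMap 0 ρ θ := periodic_circleMap 0 ρ θ
    rw [this]
  have h1 : ∫ θ in (-(Real.pi/2))..(-(Real.pi/2) + 2 * Real.pi), H θ = 0 := by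
    rw [hHp.intervalIntegral_add_eq (-(Real.pi/2)) 0, zero_add]
    exact h0
  have hii : ∀ a b : ℝ, IntervalIntegrable H volume a b := fun a b => hHc.intervalIntegrable a b
  have h2 : (∫ θ in (-(Real.pi/2))..(Real.pi/2), H θ) +
      ∫ θ in (Real.pi/2)..(-(Real.pi/2) + 2 * Real.pi), H θ = 0 := by
    rw [intervalIntegral.integral_add_adjacent_intervals (hii _ _) (hii _ _)]
    exact h1
  have h3 : ∫ θ in (Real.pi/2)..(-(Real.pi/2) + 2 * Real.pi), H θ =
      ∫ θ in (-(Real.pi/2))..(Real.pi/2), H (Real.pi - θ) := by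
    rw [intervalIntegral.integral_comp_sub_left (fun θ => H θ) Real.pi]
    congr 1 <;> ring
  have hi2 : IntervalIntegrable (fun θ => H (Real.pi - θ)) volume (-(Real.pi/2)) (Real.pi/2) :=
    (hHc.comp (by fun_prop : Continuous fun θ : ℝ => Real.pi - θ)).intervalIntegrable _ _
  rw [h3, ← intervalIntegral.integral_add (hii _ _) hi2] at h2
  have h4 : ∀ θ : ℝ, H θ + H (Real.pi - θ) =
      Real.cos θ * (u (circleMap 0 ρ θ) - u (circleMap 0 ρ (Real.pi - θ))) := by
    intro θ
    simp only [hH]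
    rw [Real.cos_pi_sub]
    ring
  intro θ₀ ht1 ht2
  by_contra hne
  have hpi := Real.pi_pos
  have hpos : 0 < ∫ θ in (-(Real.pi/2))..(Real.pi/2), (H θ + H (Real.pi - θ)) := by
    apply intervalIntegral.integral_pos (by linarith)
    · exact (hHc.add (hHc.comp (by fun_prop : Continuous fun θ : ℝ => Real.pi - θ))).continuousOn
    · intro θ hθ
      rw [h4]
      exact mul_nonneg (Real.cos_nonneg_of_mem_Icc ⟨hθ.1.le, hθ.2⟩)
        (hnn θ hθ.1.le hθ.2)
    · refine ⟨θ₀, ⟨ht1.le, ht2.le⟩, ?_⟩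
      rw [h4]
      exact mul_pos (Real.cos_pos_of_mem_Ioo ⟨ht1, ht2⟩)
        (lt_of_le_of_ne (hnn θ₀ ht1.le ht2.le) (Ne.symm hne))
  rw [h2] at hpos
  exact lt_irrefl _ hpos

end UQ1L

open UQ1L in
theorem UQ1_proof : S_UQ1 := by
  intro k r hr hk hsym hk0 hG z hz
  obtain ⟨f, hf, hfk⟩ := hk.exists_analyticOnNhd_ball_re_eq
  have hfd : DifferentiableOn ℂ f (Metric.ball 0 r) := hf.differentiableOn
  obtain ⟨F, hF⟩ := hfd.isExactOn_ball
  have hFd : DifferentiableOn ℂ F (Metric.ball 0 r) := fun w hw =>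
    (hF w hw).differentiableAt.differentiableWithinAt
  have hmem : ∀ x y : ℝ, x ^ 2 + y ^ 2 < r ^ 2 → (x + y * I : ℂ) ∈ Metric.ball (0:ℂ) r := by
    intro x y h
    rw [mem_ball_zero_iff, Complex.norm_add_mul_I]
    rw [Real.sqrt_lt' hr]
    exact h
  -- horizontal derivative
  have hder : ∀ x y : ℝ, x ^ 2 + y ^ 2 < r ^ 2 →
      HasDerivAt (fun t : ℝ => (F (t + y * I)).re) (k (x + y * I)) x := by
    intro x y h
    have h1 : HasDerivAt F (f (x + y * I)) ((x : ℂ) + y * I) := hF _ (hmem x y h)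
    have h2 : HasDerivAt (fun w : ℂ => F (w + y * I)) (f (x + y * I)) (x : ℂ) :=
      HasDerivAt.comp_add_const (x : ℂ) (y * I) h1
    have h3 := h2.real_of_complex
    have h4 : k (x + y * I) = (f (x + y * I)).re := (hfk (hmem x y h)).symm
    rw [h4]
    exact h3
  have hkc : ContinuousOn k (Metric.ball 0 r) := by
    have : ContinuousOn (fun z => (f z).re) (Metric.ball 0 r) :=
      Complex.continuous_re.comp_continuousOn hfd.continuousOn
    exact this.congr fun w hw => (hfk hw).symm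
  -- the window integral
  have hint : ∀ s y : ℝ, 0 ≤ s → s ^ 2 + y ^ 2 < r ^ 2 →
      ∫ x in (-s)..s, k (x + y * I) = (F (s + y * I)).re - (F (((-s : ℝ) : ℂ) + y * I)).re := by
    intro s y hs hsy
    have hb : ∀ x ∈ uIcc (-s) s, x ^ 2 + y ^ 2 < r ^ 2 := by
      intro x hx
      rw [uIcc_of_le (by linarith)] at hx
      nlinarith [hx.1, hx.2]
    have := intervalIntegral.integral_eq_sub_of_hasDerivAt
      (f := fun t : ℝ => (F (t + y * I)).re) (f' := fun x : ℝ => k (x + y * I))
      (a := -s) (b := s) (fun x hx => hder x y (hb x hx)) ?_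
    · exact this
    · apply ContinuousOn.intervalIntegrable
      refine hkc.comp (by fun_prop) ?_
      intro x hx
      exact hmem x y (hb x hx)
  -- the cosine coefficient
  have hzero : ∀ s y : ℝ, 0 < s → s ^ 2 + y ^ 2 < r ^ 2 →
      (F (s + y * I)).re - (F (((-s : ℝ) : ℂ) + y * I)).re = 0 := by
    intro s y hs hsy
    set ρ : ℝ := Real.sqrt (s ^ 2 + y ^ 2) with hρdef
    have hρ2 : ρ ^ 2 = s ^ 2 + y ^ 2 := Real.sq_sqrt (by positivity)
    have hρ : 0 < ρ := Real.sqrt_pos.mpr (by positivity)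
    have hρr : ρ < r := by
      rw [hρdef, Real.sqrt_lt' hr]; exact hsy
    have hcm : ∀ θ : ℝ, circleMap 0 ρ θ = ((ρ * Real.cos θ : ℝ) : ℂ) + ((ρ * Real.sin θ : ℝ) : ℂ) * I := by
      intro θ
      simp only [circleMap, zero_add, Complex.exp_mul_I]
      push_cast
      ring
    have hcont : Continuous fun θ : ℝ => (F (circleMap 0 ρ θ)).re := by
      refine Complex.continuous_re.comp ?_
      refine (hFd.continuousOn).comp_continuous (continuous_circleMap 0 ρ) ?_
      intro θ
      exact Metric.closedBall_subset_ball hρr (circleMap_mem_closedBall 0 hρ.le θ)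
    have hcc : Continuous fun θ : ℝ => F (circleMap 0 ρ θ) := by
      refine (hFd.continuousOn).comp_continuous (continuous_circleMap 0 ρ) ?_
      intro θ
      exact Metric.closedBall_subset_ball hρr (circleMap_mem_closedBall 0 hρ.le θ)
    have h0 : ∫ θ in (0:ℝ)..2 * Real.pi, Real.cos θ * (F (circleMap 0 ρ θ)).re = 0 := by
      have h1 := cos_coeff hρ hρr hFd
      have h2 : (∫ θ in (0:ℝ)..2 * Real.pi, (Real.cos θ : ℂ) * F (circleMap 0 ρ θ)).re =
          ∫ θ in (0:ℝ)..2 * Real.pi, Real.cos θ * (F (circleMap 0 ρ θ)).re := by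
        have h3 := intervalIntegral.intervalIntegral_re (μ := volume) (a := (0:ℝ)) (b := 2 * Real.pi)
          (f := fun θ : ℝ => (Real.cos θ : ℂ) * F (circleMap 0 ρ θ)) ?_
        · have h4 : ∀ θ : ℝ, RCLike.re ((Real.cos θ : ℂ) * F (circleMap 0 ρ θ)) =
              Real.cos θ * (F (circleMap 0 ρ θ)).re := by
            intro θ
            exact Complex.re_ofReal_mul _ _
          simp only [h4] at h3
          exact h3.symm
        · exact Continuous.intervalIntegrable
            ((by fun_prop : Continuous fun θ : ℝ => (Real.cos θ : ℂ)).mul hcc) _ _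
      rw [← h2, h1]
      have h5 : deriv F 0 = f 0 := (hF 0 (Metric.mem_ball_self hr)).deriv
      have h6 : (f 0).re = 0 := by
        have := hfk (Metric.mem_ball_self hr)
        simp only at this
        rw [this]; exact hk0
      rw [h5]
      have h7 : ((Real.pi : ℂ) * ρ * f 0).re = Real.pi * ρ * (f 0).re := by
        rw [show (Real.pi : ℂ) * ρ = ((Real.pi * ρ : ℝ) : ℂ) by push_cast; ring]
        exact Complex.re_ofReal_mul _ _
      rw [h7, h6, mul_zero]
    have hrel : ∀ θ : ℝ, circleMap 0 ρ (Real.pi - θ) =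
        ((-(ρ * Real.cos θ) : ℝ) : ℂ) + ((ρ * Real.sin θ : ℝ) : ℂ) * I := by
      intro θ
      rw [hcm, Real.cos_pi_sub, Real.sin_pi_sub]
      congr 2
      ring
    have hkey := half_circle (u := fun w => (F w).re) (ρ := ρ) hcont h0 ?_
    · -- choose the angle
      have hθ : ∃ θ : ℝ, -(Real.pi / 2) < θ ∧ θ < Real.pi / 2 ∧ ρ * Real.cos θ = s ∧
          ρ * Real.sin θ = y := by
        refine ⟨Real.arcsin (y / ρ), ?_, ?_, ?_, ?_⟩
        · rw [Real.neg_pi_div_two_lt_arcsin, lt_div_iff₀ hρ]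
          nlinarith
        · rw [Real.arcsin_lt_pi_div_two, div_lt_iff₀ hρ]
          nlinarith
        · rw [Real.cos_arcsin]
          have : 1 - (y / ρ) ^ 2 = (s / ρ) ^ 2 := by
            field_simp
            linarith
          rw [this, Real.sqrt_sq (by positivity)]
          field_simp
        · rw [Real.sin_arcsin]
          · field_simp
          · rw [le_div_iff₀ hρ]; nlinarith
          · rw [div_le_iff₀ hρ]; nlinarith
      obtain ⟨θ, ht1, ht2, ht3, ht4⟩ := hθ
      have := hkey θ ht1 ht2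
      rw [hcm, hrel, ht3, ht4] at this
      exact this
    · intro θ ht1 ht2
      have hc : 0 ≤ ρ * Real.cos θ := mul_nonneg hρ.le (Real.cos_nonneg_of_mem_Icc ⟨ht1, ht2⟩)
      have hlt : (ρ * Real.cos θ) ^ 2 + (ρ * Real.sin θ) ^ 2 < r ^ 2 := by
        have : (ρ * Real.cos θ) ^ 2 + (ρ * Real.sin θ) ^ 2 = ρ ^ 2 := by
          have := Real.cos_sq_add_sin_sq θ
          nlinarith
        rw [this, hρ2]; exact hsy
      have h1 := hG _ _ hc hlt
      rw [hint _ _ hc hlt] at h1
      rw [hcm, hrel]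
      exact h1
  -- conclusion by differentiation
  have hfin : ∀ s y : ℝ, 0 < s → s ^ 2 + y ^ 2 < r ^ 2 → k (s + y * I) = 0 := by
    intro s y hs hsy
    have h1 := hder s y hsy
    have h2 : HasDerivAt (fun t : ℝ => (F (((-t : ℝ) : ℂ) + y * I)).re)
        (-(k (((-s : ℝ) : ℂ) + y * I))) s := by
      have h3 := hder (-s) y (by nlinarith)
      have h4 := HasDerivAt.scomp s (h := fun t : ℝ => -t) (h' := -1) h3 (hasDerivAt_neg s)
      have h4' : HasDerivAt (fun t : ℝ => (F (((-t : ℝ) : ℂ) + y * I)).re)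
        ((-1 : ℝ) • k (((-s : ℝ) : ℂ) + y * I)) s := h4
      rw [smul_eq_mul, neg_one_mul] at h4'
      exact h4'
    have h5 := h1.sub h2
    have h6 : k (((-s : ℝ) : ℂ) + y * I) = k (s + y * I) := by
      have := hsym (s + y * I)
      rw [← this]
      congr 1
      simp
      ring
    rw [h6] at h5
    have h7 : HasDerivAt (fun t : ℝ => (F (t + y * I)).re - (F (((-t : ℝ) : ℂ) + y * I)).re) 0 s := by
      have h8 : (fun t : ℝ => (F (t + y * I)).re - (F (((-t : ℝ) : ℂ) + y * I)).re) =ᶠ[𝓝 s]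
          fun _ => (0 : ℝ) := by
        have h9 : ∀ᶠ t in 𝓝 s, 0 < t ∧ t ^ 2 + y ^ 2 < r ^ 2 := by
          apply Filter.Eventually.and
          · exact eventually_gt_nhds hs
          · have hc : Continuous fun t : ℝ => t ^ 2 + y ^ 2 := by fun_prop
            exact hc.continuousAt.eventually_lt continuousAt_const hsy
        filter_upwards [h9] with t ht
        exact hzero t y ht.1 ht.2
      exact (hasDerivAt_const s (0:ℝ)).congr_of_eventuallyEq h8
    have h10 := h5.unique h7
    linarith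
  have hz' : z.re ^ 2 + z.im ^ 2 < r ^ 2 := by
    rw [mem_ball_zero_iff] at hz
    have h1 : ‖z‖ ^ 2 = z.re ^ 2 + z.im ^ 2 := by
      rw [Complex.sq_norm, Complex.normSq_apply]; ring
    rw [← h1]
    exact pow_lt_pow_left₀ hz (norm_nonneg z) (by norm_num)
  have hzz : z = (z.re : ℂ) + z.im * I := (Complex.re_add_im z).symm
  rcases lt_trichotomy z.re 0 with h | h | h
  · have h1 := hfin (-z.re) z.im (by linarith) (by nlinarith)
    rw [← hsym z]
    have : -(starRingEnd ℂ) z = ((-z.re : ℝ) : ℂ) + z.im * I := by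
      apply Complex.ext <;> simp
    rw [this]; exact h1
  · -- by continuity
    have hlim : Tendsto (fun t : ℝ => k (t + z.im * I)) (𝓝[>] 0) (𝓝 (k (((0:ℝ):ℂ) + z.im * I))) := by
      have hca : ContinuousAt k (((0:ℝ):ℂ) + z.im * I) := by
        refine hkc.continuousAt (Metric.isOpen_ball.mem_nhds ?_)
        apply hmem
        rw [h] at hz'; simpa using hz'
      have hcb : ContinuousAt (fun t : ℝ => (t : ℂ) + z.im * I) 0 := by
        apply Continuous.continuousAt; fun_prop
      exact ((ContinuousAt.comp (f := fun t : ℝ => (t : ℂ) + z.im * I) (x := (0:ℝ)) hca hcb).tendsto).mono_left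
        nhdsWithin_le_nhds
    have hev : (fun t : ℝ => k (t + z.im * I)) =ᶠ[𝓝[>] 0] fun _ => (0:ℝ) := by
      have h9 : ∀ᶠ t in 𝓝 (0:ℝ), t ^ 2 + z.im ^ 2 < r ^ 2 := by
        have hc : Continuous fun t : ℝ => t ^ 2 + z.im ^ 2 := by fun_prop
        refine hc.continuousAt.eventually_lt continuousAt_const ?_
        rw [h] at hz'; simpa using hz'
      filter_upwards [nhdsWithin_le_nhds h9, self_mem_nhdsWithin] with t ht1 ht2
      exact hfin t z.im ht2 ht1
    have h2 := tendsto_nhds_unique (hlim.congr' hev) tendsto_const_nhds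
    rw [hzz, h]; exact h2
  · rw [hzz]; exact hfin z.re z.im h hz'

end Pool.Agent.H356R3.LV
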