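import Pool.Agent.H356R3.LV.Defs

set_option autoImplicit false

open MeasureTheory Set Filter Topology Complex InnerProductSpace

namespace Pool.Agent.H356R3.LV

theorem UQ2_proof : S_UQ2 := by
  intro k r hr hc hh hz
  have han : AnalyticOnNhd ℝ k {z : ℂ | 0 < z.im} := fun z hz' =>
    HarmonicAt.analyticAt (hh z hz')
  have hconv : Convex ℝ {z : ℂ | 0 < z.im} := by
    intro a ha b hb s t hs ht hst
    simp only [Set.mem_ofPred_eq] at ha hb ⊢
    simp only [Complex.add_im, Complex.real_smul, Complex.mul_im, Complex.ofReal_re,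
      Complex.ofReal_im, zero_mul, add_zero]
    rcases hs.eq_or_lt with h | h
    · have : t = 1 := by linarith
      rw [← h, this]
      linarith
    · have h1 : 0 < s * a.im := mul_pos h ha
      have h2 : 0 ≤ t * b.im := mul_nonneg ht hb.le
      linarith
  obtain ⟨p, hp⟩ : ∃ p : ℂ, p = ((r / 2 : ℝ) : ℂ) * Complex.I := ⟨_, rfl⟩
  have hpim : p.im = r / 2 := by
    rw [hp]
    simp
  have hpm : p ∈ {z : ℂ | 0 < z.im} := by
    simp only [Set.mem_ofPred_eq]
    rw [hpim]
    linarith
  have hpn : p ∈ Metric.ball (0 : ℂ) r := by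
    rw [Metric.mem_ball, dist_zero_right, hp, norm_mul, Complex.norm_I, mul_one,
      Complex.norm_real, Real.norm_of_nonneg (by linarith)]
    linarith
  have hev : k =ᶠ[𝓝 p] 0 := by
    filter_upwards [Metric.isOpen_ball.mem_nhds hpn] with w hw
    exact hz w hw
  have h0 := han.eqOn_zero_of_preconnected_of_eventuallyEq_zero hconv.isPreconnected hpm hev
  intro z hz'
  rcases hz'.eq_or_lt with h | h
  · -- boundary point
    have ht : Tendsto (fun n : ℕ => z + ((1 / ((n : ℝ) + 1) : ℝ) : ℂ) * Complex.I) atTop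
        (𝓝[{z : ℂ | 0 ≤ z.im}] z) := by
      rw [tendsto_nhdsWithin_iff]
      constructor
      · have h1 : Tendsto (fun n : ℕ => ((1 / ((n : ℝ) + 1) : ℝ) : ℂ)) atTop (𝓝 ((0 : ℝ) : ℂ)) :=
          (Complex.continuous_ofReal.tendsto 0).comp tendsto_one_div_add_atTop_nhds_zero_nat
        have h2 := (h1.mul_const Complex.I).const_add z
        simpa using h2
      · refine Eventually.of_forall fun n => ?_
        simp only [Set.mem_ofPred_eq, Complex.add_im, Complex.mul_im, Complex.ofReal_re,
          Complex.ofReal_im, Complex.I_re, Complex.I_im, mul_zero, mul_one, zero_add, add_zero]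
        have : (0 : ℝ) < 1 / ((n : ℝ) + 1) := by positivity
        linarith
    have h1 := (hc z hz').tendsto.comp ht
    have h2 : (k ∘ fun n : ℕ => z + ((1 / ((n : ℝ) + 1) : ℝ) : ℂ) * Complex.I) = fun _ => 0 := by
      funext n
      apply h0
      simp only [Set.mem_ofPred_eq, Complex.add_im, Complex.mul_im, Complex.ofReal_re,
        Complex.ofReal_im, Complex.I_re, Complex.I_im, mul_zero, mul_one, zero_add, add_zero]
      have : (0 : ℝ) < 1 / ((n : ℝ) + 1) := by positivity
      linarith
    rw [h2] at h1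
    exact (tendsto_nhds_unique h1 tendsto_const_nhds)
  · exact h0 h

end Pool.Agent.H356R3.LV
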