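import Pool.Agent.H356R3.LV.HC

/-! Task UQ3: a larger set with a dominating function (helper155). -/

set_option autoImplicit false
open MeasureTheory Set Filter Topology Complex InnerProductSpace

namespace Pool.Agent.H356R3.LV

namespace UQ3L

/-- the affine map which maps the band to the segment -/
noncomputable def f (ρ : ℝ) (z : ℂ) : ℂ := ((ρ⁻¹ : ℝ) : ℂ) * z + ((-(ρ⁻¹ / 2) : ℝ) : ℂ)

theorem f_re (ρ : ℝ) (z : ℂ) : (f ρ z).re = ρ⁻¹ * (z.re - 1 / 2) := by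
  simp only [f, Complex.add_re, Complex.re_ofReal_mul, Complex.ofReal_re]
  ring

theorem f_im (ρ : ℝ) (z : ℂ) : (f ρ z).im = ρ⁻¹ * z.im := by
  simp only [f, Complex.add_im, Complex.im_ofReal_mul, Complex.ofReal_im, add_zero]

theorem f_eq (ρ : ℝ) (z : ℂ) : f ρ z = ((ρ⁻¹ : ℝ) : ℂ) * (z - ((1 / 2 : ℝ) : ℂ)) := by
  unfold f
  push_cast
  ring

theorem f_norm {ρ : ℝ} (hρ : 0 < ρ) (z : ℂ) : ‖f ρ z‖ = ρ⁻¹ * ‖z - ((1 / 2 : ℝ) : ℂ)‖ := by
  rw [f_eq, norm_mul, Complex.norm_real, Real.norm_of_nonneg (by positivity)]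

theorem band {γ : ℝ} (hR : S_UTR) (h0 : 0 < γ) (h1 : γ < 1) {x : ℝ}
    (hx : |x - 1 / 2| ≤ (1 - γ) / 2) : x ∈ Eg γ := by
  obtain ⟨_, h⟩ := hR γ h0 h1
  obtain ⟨a, b⟩ := abs_le.mp hx
  by_cases hx2 : x ≤ 1 / 2
  · rw [h x (abs_le.mpr ⟨by linarith, hx2⟩)]
    exact le_trans (by linarith) (le_abs_self x)
  · push Not at hx2
    have h3 : x - 1 ∈ Eg γ := by
      rw [h (x - 1) (abs_le.mpr ⟨by linarith, by linarith⟩)]
      exact le_trans (by linarith) (neg_le_abs (x - 1))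
    unfold Eg at h3 ⊢
    have h4 : Real.cos (Real.pi * (x - 1)) = - Real.cos (Real.pi * x) := by
      rw [mul_sub, mul_one, Real.cos_sub_pi]
    have h5 : |Real.cos (Real.pi * (x - 1))| ≤ Real.cos (Real.pi * γ / 2) := h3
    rw [h4, abs_neg] at h5
    exact h5

end UQ3L

theorem UQ3_proof (hWMP : S_WMP) (h1 : S_GJ1) (h2 : S_GJ2) (hA : S_UTA) (hR : S_UTR)
    (hP : S_UTP) : S_UQ3 := by
  intro E U γ M hγ0 hγ1 hE hU hsub hM
  obtain ⟨ρ, hρdef⟩ : ∃ ρ : ℝ, ρ = (1 - γ) / 2 := ⟨_, rfl⟩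
  have hρ : 0 < ρ := by rw [hρdef]; linarith
  have hUt := hA γ hγ0 hγ1
  obtain ⟨hgc, hg0, _, _, _, _, hglog, _⟩ := h1
  obtain ⟨_, _, hUtim, _, _⟩ := hP γ hγ0 hγ1
  have hfc : Continuous (UQ3L.f ρ) := by
    unfold UQ3L.f
    fun_prop
  have hUtnn : ∀ z, 0 ≤ Ut γ z := fun z => (abs_nonneg _).trans (hUtim z)
  have key : ∀ ε : ℝ, 0 < ε → ∀ z : ℂ, U z ≤ Ut γ z + ε * gJ (UQ3L.f ρ z) := by
    intro ε hε z
    have hw := hWMP Set.univ (fun z => U z - Ut γ z - ε * gJ (UQ3L.f ρ z)) isClosed_univ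
      (((hU.cont.sub hUt.cont).sub (continuous_const.mul (hgc.comp hfc))).continuousOn) ?_ ?_ z
      (Set.mem_univ z)
    · have hw' : U z - Ut γ z - ε * gJ (UQ3L.f ρ z) ≤ 0 := hw
      linarith
    · intro c hc
      refine ⟨1 / 2 + ρ * Real.exp (|M| / ε), fun z _ hz => ?_⟩
      have hz1 : ρ * Real.exp (|M| / ε) < ‖z - ((1 / 2 : ℝ) : ℂ)‖ := by
        have h3 : ‖z‖ ≤ ‖z - ((1 / 2 : ℝ) : ℂ)‖ + ‖((1 / 2 : ℝ) : ℂ)‖ := by
          have := norm_add_le (z - ((1 / 2 : ℝ) : ℂ)) ((1 / 2 : ℝ) : ℂ)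
          rwa [sub_add_cancel] at this
        have h4 : ‖((1 / 2 : ℝ) : ℂ)‖ = 1 / 2 := by
          rw [Complex.norm_real, Real.norm_of_nonneg (by norm_num)]
        rw [h4] at h3
        linarith
      have hfn : Real.exp (|M| / ε) < ‖UQ3L.f ρ z‖ := by
        rw [UQ3L.f_norm hρ, inv_mul_eq_div, lt_div_iff₀ hρ, mul_comm]
        exact hz1
      have hf0 : UQ3L.f ρ z ≠ 0 := by
        intro h0
        rw [h0, norm_zero] at hfn
        exact absurd hfn (not_lt.mpr (Real.exp_pos _).le)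
      have h5 : |M| / ε ≤ gJ (UQ3L.f ρ z) := by
        refine le_trans ?_ (hglog _ hf0)
        rw [Real.le_log_iff_exp_le (norm_pos_iff.mpr hf0)]
        exact hfn.le
      have h6 : |M| ≤ ε * gJ (UQ3L.f ρ z) := by
        rw [div_le_iff₀ hε] at h5
        linarith
      have h7 := hM z
      have h8 := hUtim z
      have h9 := le_abs_self M
      show U z - Ut γ z - ε * gJ (UQ3L.f ρ z) ≤ c
      linarith
    · intro z _ hv
      have hv' : 0 < U z - Ut γ z - ε * gJ (UQ3L.f ρ z) := hv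
      have hgz : 0 ≤ ε * gJ (UQ3L.f ρ z) := mul_nonneg hε.le (hg0 _)
      have hUpos : 0 < U z := by linarith [hUtnn z]
      have hzE : z ∉ (fun x : ℝ => (x : ℂ)) '' E := by
        rintro ⟨t, ht, rfl⟩
        exact absurd hUpos (not_lt.mpr (hU.zero t ht).le)
      have hzEg : z ∉ (fun x : ℝ => (x : ℂ)) '' (Eg γ) := fun h =>
        hzE (Set.image_mono hsub h)
      refine ⟨Filter.univ_mem, ?_⟩
      have a1 : HarmonicAt U z := hU.harm z hzE
      have a2 : HarmonicAt (Ut γ) z := hUt.harm z hzEg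
      have a3 : HarmonicAt (fun w => gJ (UQ3L.f ρ w)) z := by
        refine HarmonicAt_comp_affine (h2 (UQ3L.f ρ z) ?_)
        rintro ⟨him, hre⟩
        apply hzEg
        rw [UQ3L.f_im, mul_eq_zero] at him
        have him' : z.im = 0 := by
          rcases him with h | h
          · exact absurd h (by positivity)
          · exact h
        refine ⟨z.re, UQ3L.band hR hγ0 hγ1 ?_, Complex.ext rfl him'.symm⟩
        rw [UQ3L.f_re, abs_mul, abs_of_pos (by positivity), inv_mul_eq_div, div_le_one hρ] at hre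
        rwa [← hρdef]
      have a4 : HarmonicAt (U - Ut γ - ε • (fun w => gJ (UQ3L.f ρ w))) z :=
        (a1.sub a2).sub (HarmonicAt.const_smul a3)
      exact a4
  intro z
  refine le_of_forall_pos_le_add fun δ hδ => ?_
  have hg := hg0 (UQ3L.f ρ z)
  have h3 := key (δ / (gJ (UQ3L.f ρ z) + 1)) (by positivity) z
  have h4 : δ / (gJ (UQ3L.f ρ z) + 1) * gJ (UQ3L.f ρ z) ≤ δ := by
    rw [div_mul_eq_mul_div, div_le_iff₀ (by positivity)]
    nlinarith
  linarith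

end Pool.Agent.H356R3.LV
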