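import Pool.Agent.H356R3.LV.Defs

/-! # UTA: `Ut γ` is the function of `Eg γ` -/

set_option autoImplicit false
open MeasureTheory Set Filter Topology Complex InnerProductSpace

namespace Pool.Agent.H356R3.LV.UTAL

lemma harm_comp {f : ℂ → ℝ} {g : ℂ → ℂ} {z : ℂ} (hf : HarmonicAt f (g z))
    (hg : AnalyticAt ℂ g z) : HarmonicAt (fun w => f (g w)) z := by
  obtain ⟨R, hR, hball⟩ := Metric.eventually_nhds_iff_ball.mp hf.eventually
  obtain ⟨F, hF, hFe⟩ :=
    InnerProductSpace.HarmonicOnNhd.exists_analyticOnNhd_ball_re_eq (z := g z) (R := R) (f := f)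
      (fun w hw => hball w hw)
  have h1 : AnalyticAt ℂ (fun w => F (g w)) z :=
    AnalyticAt.comp (g := F) (f := g) (hF (g z) (Metric.mem_ball_self hR)) hg
  have h2 := h1.harmonicAt_re
  refine (harmonicAt_congr_nhds ?_).mp h2
  have h3 : ∀ᶠ w in 𝓝 z, g w ∈ Metric.ball (g z) R :=
    hg.continuousAt (Metric.ball_mem_nhds _ hR)
  filter_upwards [h3] with w hw
  exact hFe hw

lemma cpos {γ : ℝ} (h0 : 0 < γ) (h1 : γ < 1) : 0 < Real.cos (Real.pi * γ / 2) := by
  apply Real.cos_pos_of_mem_Ioo
  constructor <;> nlinarith [Real.pi_pos]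

lemma clt {γ : ℝ} (h0 : 0 < γ) (h1 : γ < 1) : Real.cos (Real.pi * γ / 2) < 1 := by
  have := Real.cos_lt_cos_of_nonneg_of_le_pi (x := 0) (y := Real.pi * γ / 2) le_rfl
    (by nlinarith [Real.pi_pos]) (by positivity)
  simpa using this

lemma cos_parts (x y : ℝ) : (Complex.cos (Real.pi * (x + y * I))).re =
    Real.cos (Real.pi * x) * Real.cosh (Real.pi * y) ∧
    (Complex.cos (Real.pi * (x + y * I))).im =
      -(Real.sin (Real.pi * x) * Real.sinh (Real.pi * y)) := by
  have h : (Real.pi : ℂ) * (x + y * I) = ((Real.pi * x : ℝ) : ℂ) + ((Real.pi * y : ℝ) : ℂ) * I := by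
    push_cast; ring
  rw [h, Complex.cos_add_mul_I]
  rw [← Complex.ofReal_cos, ← Complex.ofReal_sin, ← Complex.ofReal_cosh, ← Complex.ofReal_sinh]
  generalize Real.cos (Real.pi * x) = a
  generalize Real.sin (Real.pi * x) = b
  generalize Real.cosh (Real.pi * y) = c
  generalize Real.sinh (Real.pi * y) = d
  constructor
  · simp
  · simp

lemma seg {γ : ℝ} (h0 : 0 < γ) (h1 : γ < 1) (z : ℂ) :
    ((Complex.cos (Real.pi * z) / (Real.cos (Real.pi * γ / 2) : ℂ)).im = 0 ∧
      |(Complex.cos (Real.pi * z) / (Real.cos (Real.pi * γ / 2) : ℂ)).re| ≤ 1) ↔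
    z ∈ (fun x : ℝ => (x : ℂ)) '' Eg γ := by
  have hc := cpos h0 h1
  have hc1 := clt h0 h1
  set c := Real.cos (Real.pi * γ / 2) with hcdef
  rw [Complex.div_ofReal_im, Complex.div_ofReal_re]
  obtain ⟨hre, him⟩ := cos_parts z.re z.im
  rw [Complex.re_add_im] at hre him
  rw [hre, him]
  constructor
  · rintro ⟨ha, hb⟩
    have ha' : Real.sin (Real.pi * z.re) * Real.sinh (Real.pi * z.im) = 0 := by
      rcases div_eq_zero_iff.mp ha with h | h
      · linarith
      · exact absurd h hc.ne'
    rw [abs_div, abs_of_pos hc, div_le_one hc, abs_mul, abs_of_pos (Real.cosh_pos _)] at hb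
    rcases mul_eq_zero.mp ha' with h | h
    · exfalso
      have h2 : |Real.cos (Real.pi * z.re)| = 1 := by
        rw [Real.abs_cos_eq_sqrt_one_sub_sin_sq, h]; simp
      rw [h2] at hb
      have := Real.one_le_cosh (Real.pi * z.im)
      linarith
    · rw [Real.sinh_eq_zero] at h
      have hz : z.im = 0 := by
        rcases mul_eq_zero.mp h with h | h
        · exact absurd h Real.pi_ne_zero
        · exact h
      refine ⟨z.re, ?_, ?_⟩
      · show |Real.cos (Real.pi * z.re)| ≤ Real.cos (Real.pi * γ / 2)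
        rw [hz] at hb
        simpa using hb
      · apply Complex.ext
        · simp
        · simp [hz]
  · rintro ⟨x, hx, rfl⟩
    have hx' : |Real.cos (Real.pi * x)| ≤ c := hx
    simp only [Complex.ofReal_re, Complex.ofReal_im, mul_zero, Real.sinh_zero, Real.cosh_zero,
      neg_zero, zero_div, mul_one, true_and]
    rw [abs_div, abs_of_pos hc, div_le_one hc]
    exact hx'

lemma cont_arg (c : ℝ) : Continuous (fun z : ℂ => Complex.cos (Real.pi * z) / (c : ℂ)) := by
  apply Continuous.div_const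
  exact Complex.continuous_cos.comp (continuous_const.mul continuous_id)

lemma an_arg (c : ℝ) (z : ℂ) :
    AnalyticAt ℂ (fun z : ℂ => Complex.cos (Real.pi * z) / (c : ℂ)) z := by
  apply Differentiable.analyticAt
  apply Differentiable.div_const
  exact Complex.differentiable_cos.comp ((differentiable_const _).mul differentiable_id)

lemma cosh_lower (t : ℝ) : Real.exp t / 2 ≤ Real.cosh t := by
  rw [Real.cosh_eq]
  have := Real.exp_pos (-t)
  linarith

lemma cosh_upper {t : ℝ} (ht : 0 ≤ t) : Real.cosh t ≤ Real.exp t := by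
  rw [Real.cosh_eq]
  have : Real.exp (-t) ≤ Real.exp t := Real.exp_le_exp.mpr (by linarith)
  linarith

lemma norm_tendsto (h1 : S_GJ1) {γ : ℝ} (h0 : 0 < γ) (hg1 : γ < 1) :
    Tendsto (fun y : ℝ => Ut γ (y * I) / y) atTop (𝓝 1) := by
  obtain ⟨-, -, -, -, -, -, hlow, hup⟩ := h1
  have hc := cpos h0 hg1
  have hc1 := clt h0 hg1
  have hpi := Real.pi_pos
  have key : ∀ y : ℝ, 0 < y →
      1 + (-(Real.log 2 / Real.pi)) * y⁻¹ ≤ Ut γ (y * I) / y ∧
      Ut γ (y * I) / y ≤
        1 + (Real.log (4 / Real.cos (Real.pi * γ / 2)) / Real.pi) * y⁻¹ := by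
    intro y hy
    unfold Ut
    set c := Real.cos (Real.pi * γ / 2) with hcdef
    have harg : Complex.cos (Real.pi * (y * I)) / (c : ℂ) =
        ((Real.cosh (Real.pi * y) / c : ℝ) : ℂ) := by
      have : (Real.pi : ℂ) * (y * I) = ((Real.pi * y : ℝ) : ℂ) * I := by push_cast; ring
      rw [this, Complex.cos_mul_I, ← Complex.ofReal_cosh, Complex.ofReal_div]
    rw [harg]
    have hch : 0 < Real.cosh (Real.pi * y) := Real.cosh_pos _
    have hq : 0 < Real.cosh (Real.pi * y) / c := div_pos hch hc
    have hnorm : ‖((Real.cosh (Real.pi * y) / c : ℝ) : ℂ)‖ = Real.cosh (Real.pi * y) / c := by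
      rw [Complex.norm_real, Real.norm_eq_abs, abs_of_pos hq]
    have hl := hlow ((Real.cosh (Real.pi * y) / c : ℝ) : ℂ) (by
      exact_mod_cast hq.ne')
    have hu := hup ((Real.cosh (Real.pi * y) / c : ℝ) : ℂ)
    rw [hnorm] at hl hu
    set G := gJ ((Real.cosh (Real.pi * y) / c : ℝ) : ℂ) with hG
    have hE := Real.exp_pos (Real.pi * y)
    have h3 : Real.pi * y - Real.log 2 ≤ G := by
      refine le_trans ?_ hl
      have : Real.pi * y - Real.log 2 = Real.log (Real.exp (Real.pi * y) / 2) := by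
        rw [Real.log_div hE.ne' (by norm_num), Real.log_exp]
      rw [this]
      apply Real.log_le_log (by positivity)
      refine le_trans (cosh_lower _) ?_
      rw [le_div_iff₀ hc]
      nlinarith
    have h4 : G ≤ Real.pi * y + Real.log (4 / c) := by
      refine le_trans hu ?_
      have : Real.pi * y + Real.log (4 / c) = Real.log (Real.exp (Real.pi * y) * (4 / c)) := by
        rw [Real.log_mul hE.ne' (by positivity), Real.log_exp]
      rw [this]
      apply Real.log_le_log (by positivity)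
      have hcu := cosh_upper (t := Real.pi * y) (by positivity)
      have hE1 : 1 ≤ Real.exp (Real.pi * y) := Real.one_le_exp (by positivity)
      have e1 : Real.cosh (Real.pi * y) / c ≤ Real.exp (Real.pi * y) / c :=
        div_le_div_of_nonneg_right hcu hc.le
      have e2 : 1 ≤ Real.exp (Real.pi * y) / c := by
        rw [le_div_iff₀ hc]; linarith
      calc 2 * (Real.cosh (Real.pi * y) / c + 1)
          ≤ 2 * (Real.exp (Real.pi * y) / c + Real.exp (Real.pi * y) / c) := by linarith
        _ = Real.exp (Real.pi * y) * (4 / c) := by ring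
    constructor
    · rw [le_div_iff₀ hy]
      have e3 : (1 + -(Real.log 2 / Real.pi) * y⁻¹) * y = 1 / Real.pi * (Real.pi * y - Real.log 2) := by
        field_simp
        ring
      rw [e3]
      exact mul_le_mul_of_nonneg_left h3 (by positivity)
    · rw [div_le_iff₀ hy]
      have e4 : (1 + Real.log (4 / c) / Real.pi * y⁻¹) * y =
          1 / Real.pi * (Real.pi * y + Real.log (4 / c)) := by
        field_simp
      rw [e4]
      exact mul_le_mul_of_nonneg_left h4 (by positivity)
  have t1 : ∀ a : ℝ, Tendsto (fun y : ℝ => 1 + a * y⁻¹) atTop (𝓝 1) := by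
    intro a
    have := (tendsto_inv_atTop_zero (𝕜 := ℝ)).const_mul a
    have h := this.const_add 1
    simpa using h
  refine tendsto_of_tendsto_of_tendsto_of_le_of_le' (t1 (-(Real.log 2 / Real.pi)))
    (t1 (Real.log (4 / Real.cos (Real.pi * γ / 2)) / Real.pi)) ?_ ?_
  · filter_upwards [eventually_gt_atTop 0] with y hy
    exact (key y hy).1
  · filter_upwards [eventually_gt_atTop 0] with y hy
    exact (key y hy).2

end Pool.Agent.H356R3.LV.UTAL

namespace Pool.Agent.H356R3.LV

open UTAL in
theorem UTA_proof (h1 : S_GJ1) (h2 : S_GJ2) : S_UTA := by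
  intro γ h0 hg1
  have hc := cpos h0 hg1
  have hnt := norm_tendsto h1 h0 hg1
  obtain ⟨hcont, hnn, hzero, hconj, hneg, hcos, hlow, hup⟩ := h1
  refine ⟨?_, ?_, ?_, ?_, ?_, hnt⟩
  · exact (continuous_const.mul (hcont.comp (cont_arg _)))
  · intro x hx
    have h := (seg h0 hg1 (x : ℂ)).mpr ⟨x, hx, rfl⟩
    unfold Ut
    rw [(hzero _).mpr h, mul_zero]
  · intro z hz
    have h : ¬ _ := fun h => hz ((seg h0 hg1 z).mp h)
    have hne : gJ (Complex.cos (Real.pi * z) / (Real.cos (Real.pi * γ / 2) : ℂ)) ≠ 0 :=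
      fun h' => h ((hzero _).mp h')
    have hp := lt_of_le_of_ne (hnn _) hne.symm
    unfold Ut
    have hpi := Real.pi_pos
    positivity
  · intro z hz
    have h : ¬ _ := fun h => hz ((seg h0 hg1 z).mp h)
    have hh := harm_comp (f := gJ)
      (g := fun z : ℂ => Complex.cos (Real.pi * z) / (Real.cos (Real.pi * γ / 2) : ℂ)) (h2 _ h)
      (an_arg _ z)
    have := hh.const_smul (c := 1 / Real.pi)
    exact this
  · intro z
    unfold Ut
    congr 1
    rw [← hconj]
    congr 1
    rw [map_div₀, Complex.conj_ofReal, ← Complex.cos_conj, map_mul, Complex.conj_conj,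
      Complex.conj_ofReal]

end Pool.Agent.H356R3.LV
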