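import Pool.Agent.H356R3.LV.Defs
set_option autoImplicit false
open MeasureTheory Set Filter Topology Complex InnerProductSpace
namespace Pool.Agent.H356R3.LV

namespace UTPL

theorem cos_pos {γ : ℝ} (h0 : 0 < γ) (h1 : γ < 1) : 0 < Real.cos (Real.pi * γ / 2) := by
  have := Real.pi_pos
  apply Real.cos_pos_of_mem_Ioo
  constructor <;> nlinarith

theorem norm_cos_le (w : ℂ) : ‖Complex.cos w‖ ≤ Real.exp |w.im| := by
  have h1 : ‖Complex.exp (w * I)‖ ≤ Real.exp |w.im| := by
    rw [Complex.norm_exp]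
    apply Real.exp_le_exp.2
    simpa using neg_le_abs w.im
  have h2 : ‖Complex.exp (-w * I)‖ ≤ Real.exp |w.im| := by
    rw [Complex.norm_exp]
    apply Real.exp_le_exp.2
    simpa using le_abs_self w.im
  rw [Complex.cos, norm_div]
  have h3 := norm_add_le (Complex.exp (w * I)) (Complex.exp (-w * I))
  have h4 : ‖(2 : ℂ)‖ = 2 := by norm_num
  rw [h4, div_le_iff₀ (by norm_num)]
  linarith

end UTPL

open UTPL

theorem UTP_proof (h1 : S_GJ1) (h3 : S_GJ3) : S_UTP := by
  obtain ⟨_, _, _, hconj, hneg, hcos, _, hup⟩ := h1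
  intro γ hγ0 hγ1
  have hc := cos_pos hγ0 hγ1
  have hπ := Real.pi_pos
  set c : ℝ := Real.cos (Real.pi * γ / 2) with hcdef
  have hc1 : c ≤ 1 := Real.cos_le_one _
  refine ⟨fun z => ?_, fun z => ?_, fun z => ?_, ⟨1 / Real.pi * Real.log (2 * (1 / c + 1)), fun z => ?_⟩, ?_⟩
  · unfold Ut
    congr 1
    rw [← hconj]
    congr 1
    rw [map_div₀, Complex.conj_ofReal, ← Complex.cos_conj, ← Complex.cos_neg]
    congr 2
    simp
  · unfold Ut
    congr 1
    rw [← hneg]
    congr 1
    rw [mul_add, mul_one, Complex.cos_add_pi, neg_div, neg_neg]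
  · unfold Ut
    have e : Complex.cos (Real.pi * z) / ((Real.cos (Real.pi * γ / 2) : ℝ) : ℂ) =
        ((1 / c : ℝ) : ℂ) * Complex.cos (Real.pi * z) := by
      rw [← hcdef]; push_cast; ring
    rw [e]
    have h4 := h3 (Complex.cos (Real.pi * z)) (1 / c) (by rw [le_div_iff₀ hc]; linarith)
    rw [hcos] at h4
    have e2 : (Real.pi * z : ℂ).im = Real.pi * z.im := by simp
    rw [e2, abs_mul, abs_of_pos hπ] at h4
    rw [div_mul_eq_mul_div, one_mul, le_div_iff₀ hπ]
    linarith
  · unfold Ut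
    have h4 := hup (Complex.cos (Real.pi * z) / ((c : ℝ) : ℂ))
    have h5 := norm_cos_le (Real.pi * z)
    have e2 : (Real.pi * z : ℂ).im = Real.pi * z.im := by simp
    rw [e2, abs_mul, abs_of_pos hπ] at h5
    have e3 : ‖Complex.cos (Real.pi * z) / ((c : ℝ) : ℂ)‖ = ‖Complex.cos (Real.pi * z)‖ / c := by
      rw [norm_div, Complex.norm_real, Real.norm_eq_abs, abs_of_pos hc]
    rw [e3] at h4
    have h6 : (1 : ℝ) ≤ Real.exp (Real.pi * |z.im|) := Real.one_le_exp (by positivity)
    have h7 : 2 * (‖Complex.cos (Real.pi * z)‖ / c + 1) ≤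
        Real.exp (Real.pi * |z.im|) * (2 * (1 / c + 1)) := by
      have : ‖Complex.cos (Real.pi * z)‖ / c ≤ Real.exp (Real.pi * |z.im|) / c := by gcongr
      have h8 : Real.exp (Real.pi * |z.im|) * (2 * (1 / c + 1)) =
        2 * (Real.exp (Real.pi * |z.im|) / c + Real.exp (Real.pi * |z.im|)) := by ring
      rw [h8]
      linarith
    have h8 := Real.log_le_log (by positivity) h7
    rw [Real.log_mul (x := Real.exp (Real.pi * |z.im|)) (by positivity) (by positivity),
      Real.log_exp] at h8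
    have h9 := h4.trans h8
    rw [← hcdef]
    calc 1 / Real.pi * gJ (Complex.cos (Real.pi * z) / ((c : ℝ) : ℂ))
        ≤ 1 / Real.pi * (Real.pi * |z.im| + Real.log (2 * (1 / c + 1))) := by gcongr
      _ = |z.im| + 1 / Real.pi * Real.log (2 * (1 / c + 1)) := by field_simp
  · unfold Ut
    rw [← hcdef]
    congr 1
    have e0 : Complex.cos (Real.pi * 0) / ((c : ℝ) : ℂ) = ((1 / c : ℝ) : ℂ) := by simp
    rw [e0]
    unfold gJ ach
    have hinv : 1 ≤ 1 / c := by rw [le_div_iff₀ hc]; linarith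
    have e1 : ‖((1 / c : ℝ) : ℂ) - 1‖ = 1 / c - 1 := by
      rw [← Complex.ofReal_one, ← Complex.ofReal_sub, Complex.norm_real, Real.norm_eq_abs,
        abs_of_nonneg (by linarith)]
    have e2 : ‖((1 / c : ℝ) : ℂ) + 1‖ = 1 / c + 1 := by
      rw [← Complex.ofReal_one, ← Complex.ofReal_add, Complex.norm_real, Real.norm_eq_abs,
        abs_of_nonneg (by linarith)]
    rw [e1, e2]
    have e3 : (1 / c - 1 + (1 / c + 1)) / 2 = 1 / c := by ring
    rw [e3]
    set u : ℝ := Real.pi * (1 - γ) / 4 with hu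
    have hu0 : 0 < u := by rw [hu]; have : 0 < 1 - γ := by linarith
                           positivity
    have hu1 : u < Real.pi / 4 := by rw [hu]; nlinarith
    have hs : 0 < Real.sin u := Real.sin_pos_of_pos_of_lt_pi hu0 (by linarith)
    have hcu : 0 < Real.cos u := Real.cos_pos_of_mem_Ioo ⟨by linarith, by linarith⟩
    have hc2 : c = 2 * Real.sin u * Real.cos u := by
      rw [hcdef, ← Real.sin_two_mul, ← Real.cos_pi_div_two_sub]
      congr 1
      rw [hu]; ring
    congr 1
    have hsc := Real.sin_sq_add_cos_sq u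
    have e4 : √((1 / c) ^ 2 - 1) = (Real.cos u ^ 2 - Real.sin u ^ 2) / c := by
      have : (1 / c) ^ 2 - 1 = ((Real.cos u ^ 2 - Real.sin u ^ 2) / c) ^ 2 := by
        have h1 : (Real.cos u ^ 2 - Real.sin u ^ 2) ^ 2 = 1 - c ^ 2 := by
          rw [hc2]
          have : Real.cos u ^ 2 = 1 - Real.sin u ^ 2 := by linarith
          rw [mul_pow, mul_pow, this]; ring
        rw [div_pow, div_pow, h1]
        field_simp
      rw [this, Real.sqrt_sq]
      have : Real.sin u ≤ Real.cos u := by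
        rw [← Real.cos_pi_div_two_sub]
        apply Real.cos_le_cos_of_nonneg_of_le_pi hu0.le (by linarith) (by linarith)
      have h2 : Real.sin u ^ 2 ≤ Real.cos u ^ 2 := pow_le_pow_left₀ hs.le this 2
      have h3 : 0 ≤ Real.cos u ^ 2 - Real.sin u ^ 2 := by linarith
      positivity
    rw [e4, ← add_div, hc2, div_eq_div_iff (by positivity) hs.ne']
    have : 1 + (Real.cos u ^ 2 - Real.sin u ^ 2) = 2 * Real.cos u ^ 2 := by linarith
    rw [this]
    ring

end Pool.Agent.H356R3.LV
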