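import Pool.Agent.H356R3.LV.Defs
set_option autoImplicit false
open MeasureTheory Set Filter Topology Complex InnerProductSpace
namespace Pool.Agent.H356R3.LV
namespace UTRL

lemma mem_iff {γ : ℝ} (h0 : 0 < γ) (h1 : γ < 1) {x : ℝ} (hx : |x| ≤ 1 / 2) :
    x ∈ Eg γ ↔ γ / 2 ≤ |x| := by
  have hpi := Real.pi_pos
  have e1 : Real.cos (Real.pi * x) = Real.cos (Real.pi * |x|) := by
    rw [← Real.cos_abs (Real.pi * x), abs_mul, abs_of_pos hpi]
  have e2 : 0 ≤ Real.cos (Real.pi * |x|) := by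
    apply Real.cos_nonneg_of_mem_Icc
    constructor
    · nlinarith [abs_nonneg x]
    · nlinarith [abs_nonneg x]
  show |Real.cos (Real.pi * x)| ≤ Real.cos (Real.pi * γ / 2) ↔ _
  rw [e1, abs_of_nonneg e2]
  have m1 : Real.pi * |x| ∈ Icc 0 Real.pi := by
    constructor
    · positivity
    · nlinarith [abs_nonneg x]
  have m2 : Real.pi * γ / 2 ∈ Icc 0 Real.pi := by
    constructor
    · positivity
    · nlinarith
  rw [Real.strictAntiOn_cos.le_iff_ge m1 m2]
  constructor
  · intro h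
    have : Real.pi * (γ / 2) ≤ Real.pi * |x| := by linarith
    exact le_of_mul_le_mul_left this hpi
  · intro h
    nlinarith

lemma isClosed_Eg (γ : ℝ) : IsClosed (Eg γ) := by
  unfold Eg
  exact isClosed_le (by fun_prop) continuous_const

lemma periodic_Eg (γ : ℝ) (x : ℝ) : x + 1 ∈ Eg γ ↔ x ∈ Eg γ := by
  show |Real.cos (Real.pi * (x + 1))| ≤ _ ↔ |Real.cos (Real.pi * x)| ≤ _
  have : Real.pi * (x + 1) = Real.pi * x + Real.pi := by ring
  rw [this, Real.cos_add_pi, abs_neg]

lemma vol_eq (γ a : ℝ) : (volume (Eg γ ∩ Ioc a (a + 1))).toReal =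
    ∫ x in a..(a + 1), (Eg γ).indicator (fun _ => (1 : ℝ)) x := by
  rw [intervalIntegral.integral_of_le (by linarith), integral_indicator (isClosed_Eg γ).measurableSet]
  rw [Measure.restrict_restrict (isClosed_Eg γ).measurableSet]
  simp [Measure.real]

lemma vol_const (γ a b : ℝ) : (volume (Eg γ ∩ Ioc a (a + 1))).toReal =
    (volume (Eg γ ∩ Ioc b (b + 1))).toReal := by
  rw [vol_eq, vol_eq]
  have hp : Function.Periodic ((Eg γ).indicator (fun _ => (1 : ℝ))) 1 := by
    intro x
    by_cases h : x ∈ Eg γ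
    · rw [indicator_of_mem h, indicator_of_mem ((periodic_Eg γ x).2 h)]
    · rw [indicator_of_notMem h, indicator_of_notMem (fun h' => h ((periodic_Eg γ x).1 h'))]
  exact hp.intervalIntegral_add_eq a b

lemma vol_ne_top (γ a : ℝ) : volume (Eg γ ∩ Ioc a (a + 1)) ≠ ⊤ :=
  ((measure_mono inter_subset_right).trans_lt (by simp)).ne

end UTRL

open UTRL in
theorem UTR_proof : S_UTR := by
  intro γ h0 h1
  refine ⟨⟨isClosed_Eg γ, ?_⟩, fun x hx => mem_iff h0 h1 hx⟩
  intro a
  have e1 : volume (Eg γ ∩ Ioc a (a + 1)) = volume (Eg γ ∩ Ioc (-1/2) (-1/2 + 1)) := by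
    rw [← ENNReal.toReal_eq_toReal_iff' (vol_ne_top _ _) (vol_ne_top _ _)]
    exact vol_const γ a _
  have e2 : ENNReal.ofReal (1 - γ) ≤ volume (Eg γ ∩ Ioc (-1/2) (-1/2 + 1)) := by
    have hs : Ioc (-1/2 : ℝ) (-γ/2) ∪ Icc (γ/2) (1/2) ⊆ Eg γ ∩ Ioc (-1/2) (-1/2 + 1) := by
      rintro x (hx | hx)
      · obtain ⟨ha, hb⟩ := hx
        have habs : |x| = -x := abs_of_neg (by linarith)
        refine ⟨(mem_iff h0 h1 (by rw [habs]; linarith)).2 (by rw [habs]; linarith), ha, by linarith⟩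
      · obtain ⟨ha, hb⟩ := hx
        have habs : |x| = x := abs_of_pos (by linarith)
        refine ⟨(mem_iff h0 h1 (by rw [habs]; linarith)).2 (by rw [habs]; linarith), by linarith, by linarith⟩
    refine le_trans ?_ (measure_mono hs)
    rw [measure_union _ measurableSet_Icc, Real.volume_Ioc, Real.volume_Icc, ← ENNReal.ofReal_add]
    · apply ENNReal.ofReal_le_ofReal
      linarith
    · linarith
    · linarith
    · rw [Set.disjoint_left]
      intro x hx hx'
      have := hx.2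
      have := hx'.1
      linarith
  rw [← e1] at e2
  exact e2.trans (measure_mono (inter_subset_inter_right _ Ioc_subset_Icc_self))

end Pool.Agent.H356R3.LV
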