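import Pool.Agent.H356R3.LV.Defs
set_option autoImplicit false
open MeasureTheory Set Filter Topology Complex InnerProductSpace
namespace Pool.Agent.H356R3.LV

namespace V2L

/-- subsets of prescribed measure -/
theorem sub_exists (A : Set ℝ) (hA : MeasurableSet A) (a : ℝ) (hAa : A ⊆ Icc a (a + 1)) (t : ℝ)
    (ht0 : 0 ≤ t) (ht : ENNReal.ofReal t ≤ volume A) :
    ∃ A2 ⊆ A, MeasurableSet A2 ∧ volume A2 = ENNReal.ofReal t := by
  have hfin : volume A ≠ ⊤ := ((measure_mono hAa).trans_lt (by simp)).ne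
  have hfin2 : ∀ c : ℝ, volume (A ∩ Iic c) ≠ ⊤ := fun c =>
    ((measure_mono inter_subset_left).trans_lt hfin.lt_top).ne
  set f : ℝ → ℝ := fun c => (volume (A ∩ Iic c)).toReal with hf
  have hmono : ∀ c d : ℝ, c ≤ d → f c ≤ f d ∧ f d ≤ f c + (d - c) := by
    intro c d hcd
    constructor
    · exact ENNReal.toReal_mono (hfin2 d)
        (measure_mono (inter_subset_inter_right _ (Iic_subset_Iic.2 hcd)))
    · have h1 : A ∩ Iic d ⊆ (A ∩ Iic c) ∪ Ioc c d := by
        rintro x ⟨hx, hxd⟩
        by_cases hxc : x ≤ c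
        · exact Or.inl ⟨hx, hxc⟩
        · exact Or.inr ⟨not_le.1 hxc, hxd⟩
      have h2 : volume (A ∩ Iic d) ≤ volume (A ∩ Iic c) + volume (Ioc c d) :=
        (measure_mono h1).trans (measure_union_le _ _)
      have h3 : (volume (Ioc c d)) ≠ ⊤ := by simp
      have h4 := ENNReal.toReal_mono (ENNReal.add_ne_top.2 ⟨hfin2 c, h3⟩) h2
      rw [ENNReal.toReal_add (hfin2 c) h3] at h4
      have h5 : (volume (Ioc c d)).toReal = d - c := by
        rw [Real.volume_Ioc, ENNReal.toReal_ofReal (by linarith)]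
      rw [h5] at h4
      exact h4
  have hcont : Continuous f := by
    have hl : LipschitzWith 1 f := by
      apply LipschitzWith.of_le_add
      intro c d
      rcases le_total c d with h | h
      · have := (hmono c d h).1
        have h2 := dist_nonneg (x := c) (y := d)
        linarith
      · have := (hmono d c h).2
        have h3 : dist c d = c - d := by rw [Real.dist_eq, abs_of_nonneg (by linarith)]
        linarith
    exact hl.continuous
  have hlow : f (a - 1) = 0 := by
    have : A ∩ Iic (a - 1) = ∅ := by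
      ext x
      simp only [mem_inter_iff, mem_Iic, mem_empty_iff_false, iff_false, not_and, not_le]
      intro hx
      have := (hAa hx).1
      linarith
    simp [hf, this]
  have hhigh : f (a + 1) = (volume A).toReal := by
    have : A ∩ Iic (a + 1) = A := by
      apply inter_eq_left.2
      intro x hx
      exact (hAa hx).2
    simp [hf, this]
  have ht' : t ≤ (volume A).toReal := by
    have := ENNReal.toReal_mono hfin ht
    rwa [ENNReal.toReal_ofReal ht0] at this
  have hmem : t ∈ Icc (f (a - 1)) (f (a + 1)) := by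
    rw [hlow, hhigh]
    exact ⟨ht0, ht'⟩
  obtain ⟨c, -, hc⟩ := intermediate_value_Icc (by linarith : a - 1 ≤ a + 1) hcont.continuousOn hmem
  refine ⟨A ∩ Iic c, inter_subset_left, hA.inter measurableSet_Iic, ?_⟩
  rw [← hc]
  exact (ENNReal.ofReal_toReal (hfin2 c)).symm

theorem intOn (g : ℝ → ℝ) (hg : Continuous g) (a : ℝ) (A : Set ℝ) (hA : A ⊆ Icc a (a + 1)) :
    IntegrableOn g A :=
  (hg.continuousOn.integrableOn_compact (K := Icc a (a + 1)) isCompact_Icc).mono_set hA

theorem key (hV1 : S_V1) (u : ℂ → ℝ) (hu : Continuous u) (a s y a' s' y' om B : ℝ)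
    (hs : 0 ≤ s) (hs2 : s ≤ 1 / 2) (hs' : 0 ≤ s') (hs2' : s' ≤ 1 / 2) (hom0 : 0 ≤ om)
    (hom : ∀ x ∈ Icc a' (a' + 1), u ((x - (a' - a) : ℝ) + y * I) ≤ u (x + y' * I) + om)
    (hB : ∀ x ∈ Icc a' (a' + 1), |u (x + y' * I)| ≤ B) :
    VV u a s y ≤ VV u a' s' y' + om + 2 * B * |s - s'| := by
  have hB0 : 0 ≤ B := (abs_nonneg _).trans (hB a' ⟨le_rfl, by linarith⟩)
  have hg' : Continuous fun x : ℝ => u (x + y' * I) := by fun_prop
  have hg : Continuous fun x : ℝ => u (x + y * I) := by fun_prop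
  have hgs : Continuous fun x : ℝ => u ((x - (a' - a) : ℝ) + y * I) := by fun_prop
  apply (hV1 u hu).2.1 a s y _ hs hs2
  intro A hA hAa hAs
  -- translate
  set τ : ℝ := a' - a with hτ
  set A1 : Set ℝ := (fun x : ℝ => x - τ) ⁻¹' A with hA1
  have hmp : MeasurePreserving (fun x : ℝ => x - τ) volume volume := by
    simpa [sub_eq_add_neg] using measurePreserving_add_right volume (-τ)
  have hA1m : MeasurableSet A1 := hmp.measurable hA
  have hA1s : volume A1 = ENNReal.ofReal (2 * s) := by
    rw [hA1, hmp.measure_preimage hA.nullMeasurableSet, hAs]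
  have hA1a : A1 ⊆ Icc a' (a' + 1) := by
    intro x hx
    have h := hAa hx
    simp only [mem_Icc] at h
    constructor <;> linarith [h.1, h.2]
  have hme : MeasurableEmbedding (fun x : ℝ => x - τ) := by
    simpa [sub_eq_add_neg] using measurableEmbedding_addRight (-τ)
  have hint1 : ∫ x in A, u (x + y * I) = ∫ x in A1, u ((x - τ : ℝ) + y * I) := by
    rw [hA1]
    exact (hmp.setIntegral_preimage_emb hme (fun x : ℝ => u (x + y * I)) A).symm
  have hint2 : ∫ x in A1, u ((x - τ : ℝ) + y * I) ≤ (∫ x in A1, u (x + y' * I)) + om := by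
    have h1 : ∫ x in A1, u ((x - τ : ℝ) + y * I) ≤ ∫ x in A1, (u (x + y' * I) + om) := by
      apply setIntegral_mono_on (intOn _ hgs a' A1 hA1a) (intOn _ (hg'.add continuous_const) a' A1 hA1a)
        hA1m
      intro x hx
      exact hom x (hA1a hx)
    have h2 : ∫ x in A1, (u (x + y' * I) + om) = (∫ x in A1, u (x + y' * I)) + 2 * s * om := by
      rw [integral_add (intOn _ hg' a' A1 hA1a) (intOn _ continuous_const a' A1 hA1a)]
      congr 1
      rw [setIntegral_const, smul_eq_mul, Measure.real, hA1s, ENNReal.toReal_ofReal (by linarith)]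
    have h3 : 2 * s * om ≤ om := by nlinarith
    linarith
  -- change of s
  have hbnd : ∀ D : Set ℝ, MeasurableSet D → D ⊆ Icc a' (a' + 1) → ∀ m : ℝ, 0 ≤ m →
      volume D = ENNReal.ofReal m → |∫ x in D, u (x + y' * I)| ≤ B * m := by
    intro D hD hDa m hm hDm
    have h := norm_setIntegral_le_of_norm_le_const (μ := volume) (s := D) (C := B)
      (f := fun x : ℝ => u (x + y' * I)) (by rw [hDm]; exact ENNReal.ofReal_lt_top)
      (fun x hx => by rw [Real.norm_eq_abs]; exact hB x (hDa hx))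
    rw [Real.norm_eq_abs, Measure.real, hDm, ENNReal.toReal_ofReal hm] at h
    exact h
  have hmain : ∃ A2 : Set ℝ, MeasurableSet A2 ∧ A2 ⊆ Icc a' (a' + 1) ∧
      volume A2 = ENNReal.ofReal (2 * s') ∧
      ∫ x in A1, u (x + y' * I) ≤ (∫ x in A2, u (x + y' * I)) + B * (2 * |s - s'|) := by
    rcases le_total s' s with h | h
    · obtain ⟨A2, h2A, h2m, h2v⟩ := sub_exists A1 hA1m a' hA1a (2 * s') (by linarith)
        (by rw [hA1s]; exact ENNReal.ofReal_le_ofReal (by linarith))
      refine ⟨A2, h2m, h2A.trans hA1a, h2v, ?_⟩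
      have hD : volume (A1 \ A2) = ENNReal.ofReal (2 * (s - s')) := by
        rw [measure_diff h2A h2m.nullMeasurableSet (by rw [h2v]; exact ENNReal.ofReal_ne_top), hA1s,
          h2v, ← ENNReal.ofReal_sub _ (by linarith)]
        congr 1
        ring
      have hb := hbnd (A1 \ A2) (hA1m.diff h2m) (diff_subset.trans hA1a) (2 * (s - s'))
        (by linarith) hD
      have hsp : ∫ x in A1 \ A2, u (x + y' * I) =
          (∫ x in A1, u (x + y' * I)) - ∫ x in A2, u (x + y' * I) :=
        integral_diff h2m (intOn _ hg' a' A1 hA1a) h2A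
      rw [abs_of_nonneg (by linarith : 0 ≤ s - s')]
      have := (abs_le.1 hb).2
      linarith
    · obtain ⟨D, hDA, hDm, hDv⟩ := sub_exists (Icc a' (a' + 1) \ A1) (measurableSet_Icc.diff hA1m) a'
        diff_subset (2 * (s' - s)) (by linarith)
        (by
          rw [measure_diff hA1a hA1m.nullMeasurableSet (by rw [hA1s]; exact ENNReal.ofReal_ne_top),
            hA1s, Real.volume_Icc, ← ENNReal.ofReal_sub _ (by linarith)]
          exact ENNReal.ofReal_le_ofReal (by linarith))
      have hdis : Disjoint A1 D := by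
        rw [Set.disjoint_left]
        intro x hx hxD
        exact (hDA hxD).2 hx
      have hDa : D ⊆ Icc a' (a' + 1) := hDA.trans diff_subset
      refine ⟨A1 ∪ D, hA1m.union hDm, union_subset hA1a hDa, ?_, ?_⟩
      · rw [measure_union hdis hDm, hA1s, hDv, ← ENNReal.ofReal_add (by linarith) (by linarith)]
        congr 1
        ring
      · have hb := hbnd D hDm hDa (2 * (s' - s)) (by linarith) hDv
        have hsp : ∫ x in A1 ∪ D, u (x + y' * I) =
            (∫ x in A1, u (x + y' * I)) + ∫ x in D, u (x + y' * I) :=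
          setIntegral_union hdis hDm (intOn _ hg' a' A1 hA1a) (intOn _ hg' a' D hDa)
        rw [abs_of_nonpos (by linarith : s - s' ≤ 0)]
        have := (abs_le.1 hb).1
        linarith
  obtain ⟨A2, h2m, h2a, h2v, h2i⟩ := hmain
  have h3 := (hV1 u hu).1 a' s' y' hs' hs2' A2 h2m h2a h2v
  rw [hint1]
  linarith

end V2L

theorem V2_proof (hV1 : S_V1) : S_V2 := by
  intro u hu
  rintro ⟨a0, s0, y0⟩ hp0
  simp only [mem_setOf_eq] at hp0
  obtain ⟨hs0, hs0'⟩ := hp0
  set F : ℝ × ℝ → ℝ := fun p => u ((p.1 : ℂ) + (p.2 : ℂ) * I) with hF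
  have hFc : Continuous F := by
    rw [hF]
    fun_prop
  set K : Set (ℝ × ℝ) := Icc (a0 - 2) (a0 + 3) ×ˢ Icc (y0 - 1) (y0 + 1) with hK
  have hKc : IsCompact K := isCompact_Icc.prod isCompact_Icc
  obtain ⟨B0, hB0⟩ := hKc.exists_bound_of_continuousOn hFc.continuousOn
  have hUC := hKc.uniformContinuousOn_of_continuous hFc.continuousOn
  rw [Metric.uniformContinuousOn_iff] at hUC
  set B : ℝ := max B0 1 with hB
  have hB1 : 0 < B := lt_of_lt_of_le one_pos (le_max_right _ _)
  have hBb : ∀ p ∈ K, |F p| ≤ B := fun p hp => (hB0 p hp).trans (le_max_left _ _)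
  rw [Metric.continuousWithinAt_iff]
  intro ε hε
  obtain ⟨d, hd, hd2⟩ := hUC (ε / 3) (by linarith)
  refine ⟨min (d / 2) (min (1 / 2) (ε / (8 * B))), by positivity, ?_⟩
  rintro ⟨a, s, y⟩ hp hdist
  simp only [mem_setOf_eq] at hp
  obtain ⟨hs, hs'⟩ := hp
  rw [Prod.dist_eq, Prod.dist_eq] at hdist
  have hle : max (dist a a0) (max (dist s s0) (dist y y0)) < min (d / 2) (min (1 / 2) (ε / (8 * B))) :=
    hdist
  have ha := lt_of_le_of_lt (le_max_left _ _) hle
  have hss := lt_of_le_of_lt ((le_max_left _ _).trans (le_max_right _ _)) hle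
  have hyy := lt_of_le_of_lt ((le_max_right _ _).trans (le_max_right _ _)) hle
  rw [Real.dist_eq] at ha hss hyy
  simp only [lt_min_iff] at ha hss hyy
  obtain ⟨ha1, ha2, -⟩ := ha
  obtain ⟨-, -, hss3⟩ := hss
  obtain ⟨hy1, hy2, -⟩ := hyy
  have ha2' := abs_lt.1 ha2
  have hy2' := abs_lt.1 hy2
  have hs3 : 2 * B * |s - s0| ≤ ε / 4 := by
    have h1 : |s - s0| ≤ ε / (8 * B) := hss3.le
    have h2 : 2 * B * |s - s0| ≤ 2 * B * (ε / (8 * B)) :=
      mul_le_mul_of_nonneg_left h1 (by positivity)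
    have h3 : 2 * B * (ε / (8 * B)) = ε / 4 := by
      field_simp
      norm_num
    linarith
  have hcomp : ∀ x x' y1 y2 : ℝ, (x, y1) ∈ K → (x', y2) ∈ K → |x - x'| < d → |y1 - y2| < d →
      |F (x, y1) - F (x', y2)| < ε / 3 := by
    intro x x' y1 y2 h1 h2 h3 h4
    have := hd2 (x, y1) h1 (x', y2) h2 (by
      rw [Prod.dist_eq]
      exact max_lt (by rw [Real.dist_eq]; exact h3) (by rw [Real.dist_eq]; exact h4))
    rwa [Real.dist_eq] at this
  have hK1 : ∀ x y1 : ℝ, a0 - 2 ≤ x → x ≤ a0 + 3 → y0 - 1 ≤ y1 → y1 ≤ y0 + 1 → (x, y1) ∈ K := by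
    intro x y1 h1 h2 h3 h4
    exact ⟨⟨h1, h2⟩, ⟨h3, h4⟩⟩
  have e1 : VV u a s y ≤ VV u a0 s0 y0 + ε / 3 + 2 * B * |s - s0| := by
    apply V2L.key hV1 u hu a s y a0 s0 y0 (ε / 3) B hs hs' hs0 hs0' (by linarith)
    · intro x hx
      obtain ⟨hx1, hx2⟩ := hx
      have h := hcomp (x - (a0 - a)) x y y0 (hK1 _ _ (by linarith) (by linarith) (by linarith)
        (by linarith)) (hK1 _ _ (by linarith) (by linarith) (by linarith) (by linarith))
        (by
          have : x - (a0 - a) - x = a - a0 := by ring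
          rw [this]; linarith) (by linarith)
      have h2 := (abs_lt.1 h).2
      simp only [hF] at h2
      linarith
    · intro x hx
      obtain ⟨hx1, hx2⟩ := hx
      exact hBb (x, y0) (hK1 _ _ (by linarith) (by linarith) (by linarith) (by linarith))
  have e2 : VV u a0 s0 y0 ≤ VV u a s y + ε / 3 + 2 * B * |s0 - s| := by
    apply V2L.key hV1 u hu a0 s0 y0 a s y (ε / 3) B hs0 hs0' hs hs' (by linarith)
    · intro x hx
      obtain ⟨hx1, hx2⟩ := hx
      have h := hcomp (x - (a - a0)) x y0 y (hK1 _ _ (by linarith) (by linarith) (by linarith)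
        (by linarith)) (hK1 _ _ (by linarith) (by linarith) (by linarith) (by linarith))
        (by
          have : x - (a - a0) - x = -(a - a0) := by ring
          rw [this, abs_neg]; linarith) (by rw [abs_sub_comm]; linarith)
      have h2 := (abs_lt.1 h).2
      simp only [hF] at h2
      linarith
    · intro x hx
      obtain ⟨hx1, hx2⟩ := hx
      exact hBb (x, y) (hK1 _ _ (by linarith) (by linarith) (by linarith) (by linarith))
  rw [abs_sub_comm s0 s] at e2
  show dist (VV u a s y) (VV u a0 s0 y0) < ε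
  rw [Real.dist_eq, abs_lt]
  constructor <;> linarith

end Pool.Agent.H356R3.LV
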