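import Pool.Agent.H356R3.LV.Defs
set_option autoImplicit false
open MeasureTheory Set Filter Topology Complex InnerProductSpace
namespace Pool.Agent.H356R3.LV

namespace V3L

/-- the upper level: measure of `{lam < g}` is at most `m`, of `{lam ≤ g}` at least `m` -/
theorem exists_level (g : ℝ → ℝ) (hg : Continuous g) (a m : ℝ) (h0 : 0 < m) (h1 : m < 1) :
    ∃ lam : ℝ, volume {x | x ∈ Icc a (a + 1) ∧ lam < g x} ≤ ENNReal.ofReal m ∧
      ENNReal.ofReal m ≤ volume {x | x ∈ Icc a (a + 1) ∧ lam ≤ g x} := by
  set S : ℝ → Set ℝ := fun t => {x | x ∈ Icc a (a + 1) ∧ t < g x} with hS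
  have hSanti : ∀ {t t' : ℝ}, t ≤ t' → S t' ⊆ S t := fun h x hx => ⟨hx.1, lt_of_le_of_lt h hx.2⟩
  have hSmeas : ∀ t, MeasurableSet (S t) := fun t =>
    measurableSet_Icc.inter (measurableSet_lt measurable_const hg.measurable)
  obtain ⟨xM, hxM, hM⟩ := isCompact_Icc.exists_isMaxOn (nonempty_Icc.2 (by linarith : a ≤ a + 1))
    hg.continuousOn
  obtain ⟨xm, hxm, hm⟩ := isCompact_Icc.exists_isMinOn (nonempty_Icc.2 (by linarith : a ≤ a + 1))
    hg.continuousOn
  set T : Set ℝ := {t | volume (S t) ≤ ENNReal.ofReal m} with hT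
  have hTne : T.Nonempty := by
    refine ⟨g xM, ?_⟩
    have : S (g xM) = ∅ := by
      ext x
      simp only [hS, mem_ofPred_eq, mem_empty_iff_false, iff_false, not_and, not_lt]
      intro hx
      exact hM hx
    simp [hT, this]
  have hTbdd : BddBelow T := by
    refine ⟨g xm - 1, ?_⟩
    intro t ht
    by_contra hlt
    push Not at hlt
    have hfull : S t = Icc a (a + 1) := by
      ext x
      simp only [hS, mem_ofPred_eq]
      constructor
      · exact fun h => h.1
      · intro hx
        refine ⟨hx, ?_⟩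
        have := hm hx
        simp only [mem_ofPred_eq] at this
        linarith
    have : ENNReal.ofReal 1 ≤ ENNReal.ofReal m := by
      have h2 : volume (S t) ≤ ENNReal.ofReal m := ht
      rw [hfull, Real.volume_Icc] at h2
      simpa using h2
    rw [ENNReal.ofReal_le_ofReal_iff h0.le] at this
    linarith
  refine ⟨sInf T, ?_, ?_⟩
  · have hU : {x | x ∈ Icc a (a + 1) ∧ sInf T < g x} = ⋃ n : ℕ, S (sInf T + 1 / ((n : ℝ) + 1)) := by
      ext x
      simp only [hS, mem_ofPred_eq, mem_iUnion]
      constructor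
      · rintro ⟨hx, hlt⟩
        obtain ⟨n, hn⟩ := exists_nat_one_div_lt (sub_pos.2 hlt)
        exact ⟨n, hx, by linarith⟩
      · rintro ⟨n, hx, hlt⟩
        refine ⟨hx, lt_trans ?_ hlt⟩
        have : (0 : ℝ) < 1 / ((n : ℝ) + 1) := by positivity
        linarith
    rw [hU, Monotone.measure_iUnion]
    · refine iSup_le fun n => ?_
      have hpos : (0 : ℝ) < 1 / ((n : ℝ) + 1) := by positivity
      obtain ⟨t, ht, htl⟩ := exists_lt_of_csInf_lt hTne (lt_add_of_pos_right (sInf T) hpos)
      exact (measure_mono (hSanti htl.le)).trans ht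
    · intro n k hnk
      apply hSanti
      have : (1 : ℝ) / ((k : ℝ) + 1) ≤ 1 / ((n : ℝ) + 1) := by
        apply one_div_le_one_div_of_le (by positivity)
        have : (n : ℝ) ≤ k := by exact_mod_cast hnk
        linarith
      linarith
  · have hI : {x | x ∈ Icc a (a + 1) ∧ sInf T ≤ g x} = ⋂ n : ℕ, S (sInf T - 1 / ((n : ℝ) + 1)) := by
      ext x
      simp only [hS, mem_ofPred_eq, mem_iInter]
      constructor
      · rintro ⟨hx, hle⟩ n
        have : (0 : ℝ) < 1 / ((n : ℝ) + 1) := by positivity
        exact ⟨hx, by linarith⟩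
      · intro h
        refine ⟨(h 0).1, ?_⟩
        by_contra hlt
        push Not at hlt
        obtain ⟨n, hn⟩ := exists_nat_one_div_lt (sub_pos.2 hlt)
        have := (h n).2
        linarith
    rw [hI, Antitone.measure_iInter]
    · refine le_iInf fun n => ?_
      have hpos : (0 : ℝ) < 1 / ((n : ℝ) + 1) := by positivity
      have hnot : sInf T - 1 / ((n : ℝ) + 1) ∉ T := by
        intro hmem
        have := csInf_le hTbdd hmem
        linarith
      simp only [hT, mem_ofPred_eq, not_le] at hnot
      exact hnot.le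
    · intro n k hnk
      apply hSanti
      have : (1 : ℝ) / ((k : ℝ) + 1) ≤ 1 / ((n : ℝ) + 1) := by
        apply one_div_le_one_div_of_le (by positivity)
        have : (n : ℝ) ≤ k := by exact_mod_cast hnk
        linarith
      linarith
    · intro n
      exact (hSmeas _).nullMeasurableSet
    · refine ⟨0, ne_of_lt (lt_of_le_of_lt (measure_mono (t := Icc a (a + 1)) (fun x hx => hx.1)) ?_)⟩
      rw [Real.volume_Icc]; exact ENNReal.ofReal_lt_top

theorem exists_superlevel (g : ℝ → ℝ) (hg : Continuous g) (a m : ℝ) (h0 : 0 < m) (h1 : m < 1) :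
    ∃ (lam : ℝ) (A : Set ℝ), MeasurableSet A ∧ A ⊆ Icc a (a + 1) ∧
      volume A = ENNReal.ofReal m ∧ (∀ x ∈ A, lam ≤ g x) ∧
      (∀ x ∈ Icc a (a + 1) \ A, g x ≤ lam) := by
  obtain ⟨lam, hlo, hhi⟩ := exists_level g hg a m h0 h1
  set P : Set ℝ := {x | x ∈ Icc a (a + 1) ∧ lam < g x} with hP
  set Q : Set ℝ := {x | x ∈ Icc a (a + 1) ∧ g x = lam} with hQ
  have hPm : MeasurableSet P :=
    measurableSet_Icc.inter (measurableSet_lt measurable_const hg.measurable)
  have hQm : MeasurableSet Q :=
    measurableSet_Icc.inter (measurableSet_eq_fun hg.measurable measurable_const)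
  set A : ℝ → Set ℝ := fun c => P ∪ (Q ∩ Iic c) with hA
  have hAm : ∀ c, MeasurableSet (A c) := fun c => hPm.union (hQm.inter measurableSet_Iic)
  have hAW : ∀ c, A c ⊆ Icc a (a + 1) := by
    intro c x hx
    rcases hx with hx | hx
    · exact hx.1
    · exact hx.1.1
  have hWfin : volume (Icc a (a + 1)) ≠ ⊤ := by
    rw [Real.volume_Icc]; exact ENNReal.ofReal_ne_top
  have hAfin : ∀ c, volume (A c) ≠ ⊤ := fun c => measure_ne_top_of_subset (hAW c) hWfin
  have hlip : ∀ c c' : ℝ, c ≤ c' → volume.real (A c) ≤ volume.real (A c') ∧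
      volume.real (A c') ≤ volume.real (A c) + (c' - c) := by
    intro c c' hcc
    constructor
    · exact measureReal_mono (union_subset_union_right _ (inter_subset_inter_right _
        (Iic_subset_Iic.2 hcc))) (hAfin c')
    · have hsub : A c' ⊆ A c ∪ Ioc c c' := by
        intro x hx
        rcases hx with hx | hx
        · exact Or.inl (Or.inl hx)
        · by_cases hxc : x ≤ c
          · exact Or.inl (Or.inr ⟨hx.1, hxc⟩)
          · exact Or.inr ⟨not_le.1 hxc, hx.2⟩
      have hfin2 : volume (A c ∪ Ioc c c') ≠ ⊤ := by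
        refine ne_of_lt (lt_of_le_of_lt (measure_union_le _ _) ?_)
        rw [ENNReal.add_lt_top]
        exact ⟨(hAfin c).lt_top, by rw [Real.volume_Ioc]; exact ENNReal.ofReal_lt_top⟩
      calc volume.real (A c') ≤ volume.real (A c ∪ Ioc c c') := measureReal_mono hsub hfin2
        _ ≤ volume.real (A c) + volume.real (Ioc c c') := measureReal_union_le _ _
        _ = volume.real (A c) + (c' - c) := by
          rw [Real.volume_real_Ioc_of_le hcc]
  have hcont : Continuous (fun c => volume.real (A c)) := by
    refine (LipschitzWith.of_dist_le_mul (K := 1) ?_).continuous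
    intro c c'
    rw [Real.dist_eq, Real.dist_eq, NNReal.coe_one, one_mul]
    rcases le_total c c' with h | h
    · have := hlip c c' h
      rw [abs_sub_comm, abs_sub_comm c, abs_of_nonneg (by linarith), abs_of_nonneg (by linarith)]
      linarith
    · have := hlip c' c h
      rw [abs_of_nonneg (by linarith), abs_of_nonneg (by linarith)]
      linarith
  have hlow : volume.real (A (a - 1)) ≤ m := by
    have : A (a - 1) = P := by
      ext x
      simp only [hA, mem_union, mem_inter_iff, mem_Iic]
      constructor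
      · rintro (h | ⟨h, h'⟩)
        · exact h
        · exfalso; have := h.1.1; linarith
      · exact fun h => Or.inl h
    rw [this]
    have := ENNReal.toReal_mono ENNReal.ofReal_ne_top hlo
    rwa [ENNReal.toReal_ofReal h0.le] at this
  have hupp : m ≤ volume.real (A (a + 1)) := by
    have hsub : {x | x ∈ Icc a (a + 1) ∧ lam ≤ g x} ⊆ A (a + 1) := by
      intro x hx
      rcases eq_or_lt_of_le hx.2 with h | h
      · exact Or.inr ⟨⟨hx.1, h.symm⟩, hx.1.2⟩
      · exact Or.inl ⟨hx.1, h⟩
    have := ENNReal.toReal_mono (hAfin _) (hhi.trans (measure_mono hsub))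
    rwa [ENNReal.toReal_ofReal h0.le] at this
  obtain ⟨c, -, hc⟩ := intermediate_value_Icc (by linarith : a - 1 ≤ a + 1) hcont.continuousOn
    ⟨hlow, hupp⟩
  refine ⟨lam, A c, hAm c, hAW c, ?_, ?_, ?_⟩
  · have hc' : volume.real (A c) = m := hc
    rw [← hc', ofReal_measureReal (hAfin c)]
  · intro x hx
    rcases hx with hx | hx
    · exact hx.2.le
    · exact hx.1.2.ge
  · intro x hx
    by_contra hlt
    exact hx.2 (Or.inl ⟨hx.1, not_le.1 hlt⟩)

end V3L

theorem V3_proof (hV1 : S_V1) : S_V3 := by
  intro u hu a s y hs0 hs1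
  have hg : Continuous (fun x : ℝ => u (x + y * I)) := by fun_prop
  obtain ⟨lam, A, hAm, hAW, hAv, hA1, hA2⟩ := V3L.exists_superlevel (fun x : ℝ => u (x + y * I)) hg a
    (2 * s) (by linarith) (by linarith)
  obtain ⟨hge, hle, -⟩ := hV1 u hu
  refine ⟨lam, A, hAm, hAW, hAv, ?_, hA1, hA2⟩
  apply le_antisymm _ (hge a s y hs0.le hs1.le A hAm hAW hAv)
  apply hle a s y _ hs0.le hs1.le
  intro A' hA'm hA'W hA'v
  have hint : IntegrableOn (fun x : ℝ => u (x + y * I)) (Icc a (a + 1)) volume :=
    hg.continuousOn.integrableOn_compact isCompact_Icc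
  have hlamint : IntegrableOn (fun _ : ℝ => lam) (Icc a (a + 1)) volume :=
    continuousOn_const.integrableOn_compact isCompact_Icc
  have hkey : ∫ x in A', (u (x + y * I) - lam) ≤ ∫ x in A, (u (x + y * I) - lam) := by
    rw [← integral_indicator hA'm, ← integral_indicator hAm]
    apply integral_mono
    · rw [integrable_indicator_iff hA'm]
      exact ((hint.mono_set hA'W).sub (hlamint.mono_set hA'W))
    · rw [integrable_indicator_iff hAm]
      exact ((hint.mono_set hAW).sub (hlamint.mono_set hAW))
    · intro x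
      by_cases h' : x ∈ A'
      · by_cases h : x ∈ A
        · simp [h, h']
        · simp only [h', indicator_of_mem, h, not_false_eq_true, indicator_of_notMem]
          have := hA2 x ⟨hA'W h', h⟩
          linarith
      · by_cases h : x ∈ A
        · simp only [h', not_false_eq_true, indicator_of_notMem, h, indicator_of_mem]
          have := hA1 x h
          linarith
        · simp [h, h']
  rw [integral_sub (hint.mono_set hA'W) (hlamint.mono_set hA'W),
    integral_sub (hint.mono_set hAW) (hlamint.mono_set hAW)] at hkey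
  have e1 : ∫ _ in A', lam = ∫ _ in A, lam := by
    rw [setIntegral_const, setIntegral_const, measureReal_def, measureReal_def, hA'v, hAv]
  linarith

end Pool.Agent.H356R3.LV
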