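import Pool.Agent.H356R3.LV.Defs
set_option autoImplicit false
open MeasureTheory Set Filter Topology Complex InnerProductSpace
namespace Pool.Agent.H356R3.LV

namespace VANL

lemma circ (B : ℝ) (hB : 1 < B) (ζ : ℂ) (hζ : ‖ζ - B * I‖ = √(B ^ 2 - 1)) :
    ζ.re ^ 2 + ζ.im ^ 2 + 1 = 2 * B * ζ.im := by
  have h1 : ‖ζ - B * I‖ ^ 2 = B ^ 2 - 1 := by
    rw [hζ]; exact Real.sq_sqrt (by nlinarith)
  rw [← Complex.normSq_eq_norm_sq, Complex.normSq_apply] at h1
  simp at h1
  nlinarith

lemma pk (B : ℝ) (hB : 1 < B) (z ζ : ℂ) (hζ : ‖ζ - B * I‖ = √(B ^ 2 - 1)) :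
    poissonKernel (B * I) z ζ = (2 * B * z.im - (z.re ^ 2 + z.im ^ 2) - 1) / ‖ζ - z‖ ^ 2 := by
  rw [poissonKernel_def]
  have h1 : ‖ζ - B * I‖ ^ 2 = B ^ 2 - 1 := by
    rw [hζ]; exact Real.sq_sqrt (by nlinarith)
  have h2 : ‖z - B * I‖ ^ 2 = z.re ^ 2 + (z.im - B) ^ 2 := by
    rw [← Complex.normSq_eq_norm_sq, Complex.normSq_apply]
    simp
    ring
  have h3 : ζ - B * I - (z - B * I) = ζ - z := by ring
  rw [h1, h2, h3]
  congr 1
  ring

lemma near (w : ℂ → ℝ) (hw : ∀ x : ℝ, Tendsto w (𝓝[{z : ℂ | 0 < z.im}] (x : ℂ)) (𝓝 0))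
    (K ε : ℝ) (hε : 0 < ε) :
    ∃ δ > 0, ∀ ζ : ℂ, |ζ.re| ≤ K → 0 < ζ.im → ζ.im < δ → w ζ < ε := by
  set O : Set ℂ := interior {ζ : ℂ | 0 < ζ.im → w ζ < ε} with hO
  have hSO : (fun x : ℝ => (x : ℂ)) '' Icc (-K) K ⊆ O := by
    rintro _ ⟨x, -, rfl⟩
    rw [hO, mem_interior_iff_mem_nhds]
    have h1 : ∀ᶠ ζ in 𝓝[{z : ℂ | 0 < z.im}] (x : ℂ), w ζ < ε := (hw x).eventually_lt_const hε
    rw [eventually_nhdsWithin_iff] at h1
    exact h1
  have hSc : IsCompact ((fun x : ℝ => (x : ℂ)) '' Icc (-K) K) :=
    isCompact_Icc.image Complex.continuous_ofReal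
  obtain ⟨δ, hδ, hsub⟩ := hSc.exists_thickening_subset_open isOpen_interior hSO
  refine ⟨δ, hδ, fun ζ h1 h2 h3 => ?_⟩
  have h4 : ζ ∈ O := by
    apply hsub
    rw [Metric.mem_thickening_iff]
    refine ⟨(ζ.re : ℂ), ⟨ζ.re, abs_le.1 h1, rfl⟩, ?_⟩
    rw [dist_eq_norm]
    have e : ζ - (ζ.re : ℂ) = (ζ.im : ℂ) * I := by
      apply Complex.ext <;> simp
    rw [e, norm_mul, Complex.norm_I, mul_one, Complex.norm_real, Real.norm_eq_abs, abs_of_pos h2]
    exact h3
  exact interior_subset h4 h2

lemma ratio (a b d T ε : ℝ) (ha : 0 ≤ a) (hab : |a - b| ≤ d) (hT1 : 1 ≤ T) (hTb : T ≤ b)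
    (hd : 0 ≤ d) (hT : 2 * d + d ^ 2 ≤ ε * T) : |a ^ 2 / b ^ 2 - 1| ≤ ε := by
  have hb : 0 < b := by linarith
  have hb2 : 0 < b ^ 2 := by positivity
  have e : a ^ 2 / b ^ 2 - 1 = (a - b) * (a + b) / b ^ 2 := by
    field_simp
    ring
  rw [e, abs_div, abs_mul, abs_of_pos hb2, div_le_iff₀ hb2, abs_of_nonneg (by linarith : 0 ≤ a + b)]
  have h1 : a + b ≤ 2 * b + d := by
    have := (abs_le.1 hab).2
    linarith
  have h2 : |a - b| * (a + b) ≤ d * (2 * b + d) :=
    mul_le_mul hab h1 (by linarith) hd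
  have h3 : d * (2 * b + d) ≤ (2 * d + d ^ 2) * b := by nlinarith
  have h4 : (2 * d + d ^ 2) * b ≤ ε * T * b := mul_le_mul_of_nonneg_right hT hb.le
  have h5 : 0 ≤ ε * T := le_trans (by positivity) hT
  have h6 : 0 ≤ ε := by
    by_contra h
    push Not at h
    nlinarith
  have h7 : ε * T * b ≤ ε * b * b := by
    have := mul_le_mul_of_nonneg_left hTb h6
    nlinarith
  nlinarith

lemma cont_pk (B : ℝ) (z : ℂ) (hz : z ∈ Metric.ball ((B : ℂ) * I) √(B ^ 2 - 1)) :
    ContinuousOn (poissonKernel (B * I) z) (Metric.sphere ((B : ℂ) * I) √(B ^ 2 - 1)) := by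
  have h : poissonKernel (B * I) z =
      fun ζ => (‖ζ - B * I‖ ^ 2 - ‖z - B * I‖ ^ 2) / ‖(ζ - B * I) - (z - B * I)‖ ^ 2 := by
    funext ζ
    rfl
  rw [h]
  apply ContinuousOn.div (by fun_prop) (by fun_prop)
  intro ζ hζ h0
  have h1 : ζ - B * I - (z - B * I) = 0 := by
    have := pow_eq_zero_iff (two_ne_zero) |>.1 h0
    exact norm_eq_zero.1 this
  have h2 : ζ = z := by
    have := sub_eq_zero.1 h1
    exact sub_left_injective this
  rw [h2, mem_sphere_iff_norm] at hζ
  rw [mem_ball_iff_norm] at hz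
  linarith

end VANL

open VANL in
theorem VAN_proof : S_VAN := by
  intro w hharm hpos hbd
  have key : ∀ z : ℂ, 0 < z.im → ∀ ε : ℝ, 0 < ε →
      w z ≤ (z.im + ε) * w I + ε * (1 + z.im) ∧ (z.im - ε) * w I - ε * (1 + z.im) ≤ w z := by
    intro z hz ε hε
    set y0 := z.im with hy0
    set n0 := z.re ^ 2 + z.im ^ 2 with hn0
    have hn0' : 0 ≤ n0 := by positivity
    set κ := |2 * y0 - n0 - 1| with hκ
    have hκ0 : 0 ≤ κ := abs_nonneg _
    set d := ‖z - I‖ with hd
    have hd0 : 0 ≤ d := norm_nonneg _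
    set ε₁ := ε / (2 * (y0 + 1)) with hε₁
    have hε₁0 : 0 < ε₁ := by positivity
    set T := 1 + (2 * d + d ^ 2) / ε₁ with hT
    have hT1 : 1 ≤ T := by
      have : 0 ≤ (2 * d + d ^ 2) / ε₁ := by positivity
      linarith
    have hT2 : 2 * d + d ^ 2 ≤ ε₁ * T := by
      rw [hT, mul_add, mul_div_cancel₀ _ hε₁0.ne']
      linarith
    set K := T + ‖z‖ with hK
    obtain ⟨δ, hδ, hnear⟩ := near w hbd K ε hε
    set B := 2 + (K ^ 2 + 1) / δ + (n0 + 1) / y0 + κ + 4 * κ / ε with hB
    have b1 : 0 ≤ (K ^ 2 + 1) / δ := by positivity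
    have b2 : 0 ≤ (n0 + 1) / y0 := by positivity
    have b3 : 0 ≤ 4 * κ / ε := by positivity
    have hB2 : 2 ≤ B := by linarith
    have hB1 : 1 < B := by linarith
    set R := √(B ^ 2 - 1) with hR
    have hR2 : R ^ 2 = B ^ 2 - 1 := Real.sq_sqrt (by nlinarith)
    have hR0 : 0 < R := Real.sqrt_pos.2 (by nlinarith)
    have hRB : R < B := by nlinarith
    set C := 2 * B - 2 with hC
    have hCB : B ≤ C := by linarith
    have hC0 : 0 < C := by linarith
    set A := 2 * B * y0 - n0 - 1 with hA
    have hAC : A = y0 * C + (2 * y0 - n0 - 1) := by rw [hA, hC]; ring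
    have hA0 : 0 < A := by
      have h1 : (n0 + 1) / y0 * y0 = n0 + 1 := div_mul_cancel₀ _ hz.ne'
      have h2 : (n0 + 1) / y0 ≤ B := by linarith
      have h3 : n0 + 1 ≤ B * y0 := by
        rw [← h1]; exact mul_le_mul_of_nonneg_right h2 hz.le
      nlinarith
    -- the points are in the ball
    have hzb : z ∈ Metric.ball ((B : ℂ) * I) R := by
      rw [mem_ball_iff_norm]
      have h2 : ‖z - B * I‖ ^ 2 = z.re ^ 2 + (z.im - B) ^ 2 := by
        rw [← Complex.normSq_eq_norm_sq, Complex.normSq_apply]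
        simp
        ring
      have h3 : ‖z - B * I‖ ^ 2 < R ^ 2 := by
        rw [h2, hR2]
        nlinarith
      exact lt_of_pow_lt_pow_left₀ 2 hR0.le h3
    have hIb : I ∈ Metric.ball ((B : ℂ) * I) R := by
      rw [mem_ball_iff_norm]
      have h2 : ‖I - B * I‖ ^ 2 = (1 - B) ^ 2 := by
        rw [← Complex.normSq_eq_norm_sq, Complex.normSq_apply]
        simp
        ring
      have h3 : ‖I - B * I‖ ^ 2 < R ^ 2 := by
        rw [h2, hR2]
        nlinarith
      exact lt_of_pow_lt_pow_left₀ 2 hR0.le h3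
    have hsub : Metric.closedBall ((B : ℂ) * I) R ⊆ {z : ℂ | 0 < z.im} := by
      intro ζ hζ
      rw [mem_closedBall_iff_norm] at hζ
      have h1 := (Complex.abs_im_le_norm (ζ - B * I)).trans hζ
      simp at h1
      have h2 := (abs_le.1 h1).1
      show 0 < ζ.im
      linarith
    have hH : HarmonicOnNhd w (Metric.closedBall ((B : ℂ) * I) R) := hharm.mono hsub
    have hH1 : HarmonicOnNhd (fun _ : ℂ => (1 : ℝ)) (Metric.closedBall ((B : ℂ) * I) R) :=
      harmonicOnNhd_const 1
    have A1 := HarmonicOnNhd.circleAverage_poissonKernel_smul hH hzb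
    have A2 := HarmonicOnNhd.circleAverage_poissonKernel_smul hH hIb
    have A3 := HarmonicOnNhd.circleAverage_poissonKernel_smul hH1 hzb
    have A4 := HarmonicOnNhd.circleAverage_poissonKernel_smul hH1 hIb
    set c : ℂ := (B : ℂ) * I with hc
    have hwc : ContinuousOn w (Metric.sphere c R) := fun ζ hζ =>
      (hH ζ (Metric.sphere_subset_closedBall hζ)).1.continuousAt.continuousWithinAt
    have c1 := cont_pk B z hzb
    have c2 := cont_pk B I hIb
    have i1 : CircleIntegrable (poissonKernel c z • w) c R :=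
      (c1.smul hwc).circleIntegrable hR0.le
    have i2 : CircleIntegrable (poissonKernel c I • w) c R :=
      (c2.smul hwc).circleIntegrable hR0.le
    have i3 : CircleIntegrable (poissonKernel c z • fun _ : ℂ => (1 : ℝ)) c R :=
      (c1.smul continuousOn_const).circleIntegrable hR0.le
    have i4 : CircleIntegrable (poissonKernel c I • fun _ : ℂ => (1 : ℝ)) c R :=
      (c2.smul continuousOn_const).circleIntegrable hR0.le
    -- pointwise inequality
    have hpt : ∀ ζ ∈ Metric.sphere c R, 0 ≤ w ζ ∧ 0 ≤ poissonKernel c z ζ ∧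
        0 ≤ poissonKernel c I ζ ∧ (w ζ ≤ ε ∨
          |poissonKernel c z ζ - y0 * poissonKernel c I ζ| ≤ ε * poissonKernel c I ζ) := by
      intro ζ hζ
      have hζ' : ‖ζ - B * I‖ = √(B ^ 2 - 1) := by
        rw [mem_sphere_iff_norm] at hζ
        exact hζ
      have hcirc := circ B hB1 ζ hζ'
      have hζim : 0 < ζ.im := hsub (Metric.sphere_subset_closedBall hζ)
      have p1 : poissonKernel c z ζ = A / ‖ζ - z‖ ^ 2 := by
        rw [hc, pk B hB1 z ζ hζ']
      have p2 : poissonKernel c I ζ = C / ‖ζ - I‖ ^ 2 := by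
        rw [hc, pk B hB1 I ζ hζ']
        congr 1
        simp
        ring
      refine ⟨hpos ζ hζim, by rw [p1]; positivity, by rw [p2]; positivity, ?_⟩
      by_cases hζK : ‖ζ‖ ≤ K
      · left
        have hre : |ζ.re| ≤ K := (Complex.abs_re_le_norm ζ).trans hζK
        have hn : ζ.re ^ 2 + ζ.im ^ 2 ≤ K ^ 2 := by
          have h1 : ‖ζ‖ ^ 2 = ζ.re ^ 2 + ζ.im ^ 2 := by
            rw [← Complex.normSq_eq_norm_sq, Complex.normSq_apply]; ring
          rw [← h1]
          exact pow_le_pow_left₀ (norm_nonneg _) hζK 2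
        have him : ζ.im < δ := by
          have h1 : 2 * B * ζ.im ≤ K ^ 2 + 1 := by linarith
          have h2 : (K ^ 2 + 1) / δ ≤ B := by linarith
          rw [div_le_iff₀ hδ] at h2
          have h3 : 2 * B * ζ.im ≤ B * δ := h1.trans h2
          have h4 : 2 * ζ.im ≤ δ := by
            have h5 : B * (2 * ζ.im) ≤ B * δ := by linarith
            exact le_of_mul_le_mul_left h5 (by linarith)
          linarith
        exact (hnear ζ hre hζim him).le
      · right
        push Not at hζK
        have hbT : T ≤ ‖ζ - z‖ := by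
          have h1 := norm_sub_norm_le ζ z
          have h2 := hζK
          rw [hK] at h2
          linarith
        have hab : |‖ζ - I‖ - ‖ζ - z‖| ≤ d := by
          have h1 := abs_norm_sub_norm_le (ζ - I) (ζ - z)
          have e : (ζ - I) - (ζ - z) = z - I := by ring
          rwa [e] at h1
        have hr := ratio ‖ζ - I‖ ‖ζ - z‖ d T ε₁ (norm_nonneg _) hab hT1 hbT hd0 hT2
        have ha : 0 < ‖ζ - I‖ := by
          rw [norm_pos_iff, sub_ne_zero]
          rintro rfl
          rw [mem_sphere_iff_norm] at hζ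
          rw [mem_ball_iff_norm] at hIb
          linarith
        have hb : 0 < ‖ζ - z‖ := by linarith
        rw [p1, p2]
        set a := ‖ζ - I‖ with ha'
        set b := ‖ζ - z‖ with hb'
        set q := a ^ 2 / b ^ 2 with hq
        have e1 : A / b ^ 2 - y0 * (C / a ^ 2) = (A * q - y0 * C) / a ^ 2 := by
          rw [hq]
          field_simp
        have ha2 : 0 < a ^ 2 := by positivity
        have e5 : ε * (C / a ^ 2) = ε * C / a ^ 2 := by ring
        rw [e1, abs_div, abs_of_pos ha2, e5, div_le_div_iff_of_pos_right ha2]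
        have e2 : A * q - y0 * C = A * (q - 1) + (A - y0 * C) := by ring
        have e3 : A - y0 * C = 2 * y0 - n0 - 1 := by rw [hAC]; ring
        rw [e2, e3]
        refine (abs_add_le _ _).trans ?_
        rw [abs_mul, abs_of_pos hA0]
        have hAle : A ≤ (y0 + 1) * C := by
          have h1 : 2 * y0 - n0 - 1 ≤ κ := le_abs_self _
          have h2 : κ ≤ C := by linarith
          rw [hAC]
          nlinarith
        have hκC : κ ≤ ε * C / 4 := by
          have h1 : 4 * κ / ε ≤ C := by linarith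
          rw [div_le_iff₀ hε] at h1
          linarith
        have h3 : A * |q - 1| ≤ (y0 + 1) * C * ε₁ := mul_le_mul hAle hr (abs_nonneg _) (by positivity)
        have h4 : (y0 + 1) * C * ε₁ = ε * C / 2 := by
          rw [hε₁]
          field_simp
        have h5 : 0 < ε * C := by positivity
        linarith
    have hRabs : |R| = R := abs_of_pos hR0
    constructor
    · have m1 : Real.circleAverage (poissonKernel c z • w) c R ≤
          Real.circleAverage ((y0 + ε) • (poissonKernel c I • w) +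
            (ε • (poissonKernel c z • fun _ : ℂ => (1 : ℝ)) +
              (ε * y0) • (poissonKernel c I • fun _ : ℂ => (1 : ℝ)))) c R := by
        apply Real.circleAverage_mono i1
        · exact (i2.const_smul).add ((i3.const_smul).add (i4.const_smul))
        · intro ζ hζ
          rw [hRabs] at hζ
          obtain ⟨q1, q2, q3, q4⟩ := hpt ζ hζ
          simp only [Pi.smul_apply, Pi.add_apply, smul_eq_mul, mul_one, Pi.smul_apply', Pi.mul_apply]
          set P0 := poissonKernel c z ζ
          set P1 := poissonKernel c I ζ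
          rcases q4 with q4 | q4
          · have t1 : P0 * w ζ ≤ P0 * ε := mul_le_mul_of_nonneg_left q4 q2
            have t2 : 0 ≤ (y0 + ε) * (P1 * w ζ) := by positivity
            have t3 : 0 ≤ ε * y0 * P1 := by positivity
            linarith
          · have t1 : P0 ≤ (y0 + ε) * P1 := by
              have := (abs_le.1 q4).2
              linarith
            have t2 : P0 * w ζ ≤ (y0 + ε) * P1 * w ζ := mul_le_mul_of_nonneg_right t1 q1
            have t3 : 0 ≤ ε * P0 := by positivity
            have t4 : 0 ≤ ε * y0 * P1 := by positivity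
            linarith
      rw [Real.circleAverage_add (i2.const_smul) ((i3.const_smul).add (i4.const_smul)),
        Real.circleAverage_add (i3.const_smul) (i4.const_smul), Real.circleAverage_smul,
        Real.circleAverage_smul, Real.circleAverage_smul, A1, A2, A3, A4] at m1
      simp only [smul_eq_mul] at m1
      linarith
    · have m1 : Real.circleAverage ((y0 - ε) • (poissonKernel c I • w) -
            (ε • (poissonKernel c z • fun _ : ℂ => (1 : ℝ)) +
              (ε * y0) • (poissonKernel c I • fun _ : ℂ => (1 : ℝ)))) c R ≤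
          Real.circleAverage (poissonKernel c z • w) c R := by
        apply Real.circleAverage_mono _ i1
        · intro ζ hζ
          rw [hRabs] at hζ
          obtain ⟨q1, q2, q3, q4⟩ := hpt ζ hζ
          simp only [Pi.smul_apply, Pi.sub_apply, Pi.add_apply, smul_eq_mul, mul_one,
            Pi.smul_apply', Pi.mul_apply]
          set P0 := poissonKernel c z ζ
          set P1 := poissonKernel c I ζ
          rcases q4 with q4 | q4
          · have t1 : y0 * P1 * w ζ ≤ y0 * P1 * ε := mul_le_mul_of_nonneg_left q4 (by positivity)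
            have t2 : 0 ≤ ε * (P1 * w ζ) := by positivity
            have t3 : 0 ≤ ε * P0 := by positivity
            have t4 : 0 ≤ P0 * w ζ := by positivity
            linarith
          · have t1 : (y0 - ε) * P1 ≤ P0 := by
              have := (abs_le.1 q4).1
              linarith
            have t2 : (y0 - ε) * P1 * w ζ ≤ P0 * w ζ := mul_le_mul_of_nonneg_right t1 q1
            have t3 : 0 ≤ ε * P0 := by positivity
            have t4 : 0 ≤ ε * y0 * P1 := by positivity
            linarith
        · exact (i2.const_smul).sub ((i3.const_smul).add (i4.const_smul))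
      rw [Real.circleAverage_sub (i2.const_smul) ((i3.const_smul).add (i4.const_smul)),
        Real.circleAverage_add (i3.const_smul) (i4.const_smul), Real.circleAverage_smul,
        Real.circleAverage_smul, Real.circleAverage_smul, A1, A2, A3, A4] at m1
      simp only [smul_eq_mul] at m1
      linarith
  refine ⟨w I, fun z hz => ?_⟩
  have hI : 0 ≤ w I := hpos I (by simp)
  apply le_antisymm
  · apply le_of_forall_pos_le_add
    intro η hη
    have h1 := (key z hz (η / (w I + 1 + z.im)) (by positivity)).1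
    have e : (z.im + η / (w I + 1 + z.im)) * w I + η / (w I + 1 + z.im) * (1 + z.im) =
        w I * z.im + η := by
      have : w I + 1 + z.im ≠ 0 := by positivity
      field_simp
      ring
    rwa [e] at h1
  · apply le_of_forall_pos_le_add
    intro η hη
    have h1 := (key z hz (η / (w I + 1 + z.im)) (by positivity)).2
    have e : (z.im - η / (w I + 1 + z.im)) * w I - η / (w I + 1 + z.im) * (1 + z.im) =
        w I * z.im - η := by
      have : w I + 1 + z.im ≠ 0 := by positivity
      field_simp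
      ring
    rw [e] at h1
    linarith

end Pool.Agent.H356R3.LV
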