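import Pool.Agent.H356R3.LV.Defs

set_option autoImplicit false
open MeasureTheory Set Filter Topology Complex InnerProductSpace

namespace Pool.Agent.H356R3.LV

namespace WMPL

/-- a harmonic function is constant near a local maximum point -/
theorem locconst (v : ℂ → ℝ) (z : ℂ) (hz : HarmonicAt v z) (hmax : ∀ᶠ y in 𝓝 z, v y ≤ v z) :
    ∀ᶠ y in 𝓝 z, v y = v z := by
  obtain ⟨r, hr, hb⟩ := Metric.eventually_nhds_iff_ball.1 hz.eventually
  obtain ⟨G, hG1, hG2⟩ := InnerProductSpace.HarmonicOnNhd.exists_analyticOnNhd_ball_re_eq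
    (f := v) (z := z) (R := r) hb
  have hd : ∀ᶠ y in 𝓝 z, DifferentiableAt ℂ (fun w => Complex.exp (G w)) y := by
    filter_upwards [Metric.ball_mem_nhds z hr] with y hy
    exact (hG1 y hy).differentiableAt.cexp
  have hm : IsLocalMax (norm ∘ fun w => Complex.exp (G w)) z := by
    show ∀ᶠ y in 𝓝 z, _ ≤ _
    filter_upwards [Metric.ball_mem_nhds z hr, hmax] with y hy hy2
    simp only [Function.comp_apply, Complex.norm_exp]
    have e1 : (G y).re = v y := hG2 hy
    have e2 : (G z).re = v z := hG2 (Metric.mem_ball_self hr)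
    rw [e1, e2]
    exact Real.exp_le_exp.2 hy2
  have h := Complex.eventually_eq_of_isLocalMax_norm hd hm
  filter_upwards [Metric.ball_mem_nhds z hr, h] with y hy hy2
  have e1 : (G y).re = v y := hG2 hy
  have e2 : (G z).re = v z := hG2 (Metric.mem_ball_self hr)
  have e3 := congrArg norm hy2
  simp only [Complex.norm_exp] at e3
  rw [e1, e2] at e3
  exact Real.exp_injective e3

end WMPL

theorem WMP_proof : S_WMP := by
  intro S v hS hv hinf hharm z0 hz0
  by_contra hpos
  rw [not_le] at hpos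
  obtain ⟨R, hR⟩ := hinf (v z0 / 2) (by linarith)
  set R' := max R ‖z0‖ with hR'
  have hcomp : IsCompact (S ∩ Metric.closedBall 0 R') :=
    (isCompact_closedBall (0 : ℂ) R').inter_left hS
  have hne : (S ∩ Metric.closedBall (0 : ℂ) R').Nonempty :=
    ⟨z0, hz0, by rw [mem_closedBall_zero_iff]; exact le_max_right _ _⟩
  obtain ⟨z1, hz1, hmax⟩ := hcomp.exists_isMaxOn hne (hv.mono inter_subset_left)
  have h01 : v z0 ≤ v z1 := hmax (show z0 ∈ S ∩ Metric.closedBall 0 R' from
    ⟨hz0, by rw [mem_closedBall_zero_iff]; exact le_max_right _ _⟩)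
  have hall : ∀ z ∈ S, v z ≤ v z1 := by
    intro z hz
    by_cases h : ‖z‖ ≤ R'
    · exact hmax (show z ∈ S ∩ Metric.closedBall 0 R' from ⟨hz, by
        rw [mem_closedBall_zero_iff]; exact h⟩)
    · have := hR z hz ((le_max_left _ _).trans_lt (not_le.1 h))
      linarith
  set F : Set ℂ := S ∩ v ⁻¹' {v z1} with hF
  have hclosed : IsClosed F := hv.preimage_isClosed_of_isClosed hS isClosed_singleton
  have hopen : IsOpen F := by
    rw [isOpen_iff_mem_nhds]
    rintro z ⟨hz, hzv⟩
    rw [mem_preimage, mem_singleton_iff] at hzv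
    obtain ⟨hSn, hh⟩ := hharm z hz (by linarith)
    have h := WMPL.locconst v z hh (by
      filter_upwards [hSn] with y hy
      rw [hzv]; exact hall y hy)
    filter_upwards [h, hSn] with y hy hyS
    exact ⟨hyS, by rw [mem_preimage, mem_singleton_iff, hy, hzv]⟩
  have hne2 : F.Nonempty := ⟨z1, hz1.1, rfl⟩
  rcases isClopen_iff.1 ⟨hclosed, hopen⟩ with h | h
  · rw [h] at hne2; exact Set.not_nonempty_empty hne2
  · have hmem : ((|R| + 1 : ℝ) : ℂ) ∈ F := by rw [h]; exact mem_univ _
    have h1 := hR _ hmem.1 (by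
      rw [Complex.norm_real, Real.norm_eq_abs, abs_of_pos (by positivity)]
      linarith [le_abs_self R])
    have h2 : v ((|R| + 1 : ℝ) : ℂ) = v z1 := hmem.2
    linarith

end Pool.Agent.H356R3.LV
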