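import Pool.Agent.H356R3.LV.Defs2

set_option autoImplicit false
open MeasureTheory Set Filter Topology Complex InnerProductSpace
namespace Pool.Agent.H356R3.LV

namespace XAL

lemma sq1 (q q' : ℝ) (hq0 : 0 < q) (hq0' : 0 < q') (h : q + q' ≤ 2) : (q - q') ^ 2 ≤ 2 * (q + q') := by
  have h1 : (q - q') ^ 2 = (q + q') * (q + q') - 4 * (q * q') := by ring
  have h2 : 0 < q * q' := mul_pos hq0 hq0'
  have h3 : (q + q') * (q + q') ≤ 2 * (q + q') := mul_le_mul_of_nonneg_right h (by linarith)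
  linarith

lemma sq2 (p p' : ℝ) : (p + p') ^ 2 ≤ 2 * (p ^ 2 + p' ^ 2) := by
  nlinarith [sq_nonneg (p - p')]

lemma sq3 (C S u v : ℝ) : (C * u - S * v) ^ 2 ≤ (C ^ 2 + S ^ 2) * (u ^ 2 + v ^ 2) := by
  nlinarith [sq_nonneg (C * v + S * u)]

lemma sq4 (u v : ℝ) : (u + v) ^ 2 ≤ 2 * u ^ 2 + 2 * v ^ 2 := by
  nlinarith [sq_nonneg (u - v)]

/-- the algebraic inequality -/
lemma alg (C S c s κ q q' p p' ε γ : ℝ) (hCS : C ^ 2 + S ^ 2 = 1) (hcs : c ^ 2 + s ^ 2 = 1)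
    (hc : 0 < c) (hs : 0 ≤ s) (hκ0 : 0 ≤ κ) (hκ : κ ≤ 1) (hq0 : 0 < q) (hq0' : 0 < q')
    (hq1 : q ≤ 1) (hq1' : q' ≤ 1) (hp : p ^ 2 ≤ q) (hp' : p' ^ 2 ≤ q')
    (hpp : |p' - p| ≤ γ * ((q + q') / 2)) (hγ : κ * γ * s ≤ c) (hε0 : 0 < ε) (hε : ε ≤ c ^ 2 / 7) :
    |C * (2 * c - ε * (c * (q + q') + κ * s * (p' - p))) -
      S * (ε * (s * (q - q') + κ * c * (p + p')))| ≤ 2 * c := by
  set A : ℝ := c * (q + q') + κ * s * (p' - p) with hA
  set B : ℝ := s * (q - q') + κ * c * (p + p') with hB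
  have hσ : 0 < q + q' := by linarith
  have hσ2 : q + q' ≤ 2 := by linarith
  have h1 : |κ * s * (p' - p)| ≤ c * ((q + q') / 2) := by
    rw [abs_mul, abs_of_nonneg (mul_nonneg hκ0 hs)]
    calc κ * s * |p' - p| ≤ κ * s * (γ * ((q + q') / 2)) :=
          mul_le_mul_of_nonneg_left hpp (mul_nonneg hκ0 hs)
      _ = (κ * γ * s) * ((q + q') / 2) := by ring
      _ ≤ c * ((q + q') / 2) := mul_le_mul_of_nonneg_right hγ (by linarith)
  obtain ⟨h1a, h1b⟩ := abs_le.mp h1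
  have hAl : c * (q + q') / 2 ≤ A := by rw [hA]; linarith
  have hAu : A ≤ 3 * c * (q + q') / 2 := by rw [hA]; linarith
  have hA0 : 0 ≤ A := le_trans (by positivity) hAl
  have hc1 : c ^ 2 ≤ 1 := by have := sq_nonneg s; linarith
  have hA2 : A ^ 2 ≤ 9 / 2 * (q + q') := by
    have e1 : A ^ 2 ≤ (3 * c * (q + q') / 2) ^ 2 := by
      apply pow_le_pow_left₀ hA0 hAu
    have e2 : (3 * c * (q + q') / 2) ^ 2 = 9 / 4 * (c ^ 2 * ((q + q') * (q + q'))) := by ring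
    have e3 : (q + q') * (q + q') ≤ 2 * (q + q') := mul_le_mul_of_nonneg_right hσ2 hσ.le
    have e4 : c ^ 2 * ((q + q') * (q + q')) ≤ 1 * (2 * (q + q')) := by
      apply mul_le_mul hc1 e3 (by positivity) (by norm_num)
    rw [e2] at e1
    linarith
  have hB2 : B ^ 2 ≤ 4 * (q + q') := by
    have e1 : B ^ 2 ≤ 2 * (s * (q - q')) ^ 2 + 2 * (κ * c * (p + p')) ^ 2 := by
      rw [hB]; exact sq4 _ _
    have e2 : (s * (q - q')) ^ 2 ≤ s ^ 2 * (2 * (q + q')) := by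
      rw [mul_pow]
      exact mul_le_mul_of_nonneg_left (sq1 q q' hq0 hq0' hσ2) (sq_nonneg s)
    have e3 : (κ * c * (p + p')) ^ 2 ≤ c ^ 2 * (2 * (q + q')) := by
      have e4 : (κ * c * (p + p')) ^ 2 = κ ^ 2 * (c ^ 2 * (p + p') ^ 2) := by ring
      have e5 : (p + p') ^ 2 ≤ 2 * (q + q') := by have := sq2 p p'; linarith
      have e6 : κ ^ 2 ≤ 1 := pow_le_one₀ hκ0 hκ
      rw [e4]
      calc κ ^ 2 * (c ^ 2 * (p + p') ^ 2) ≤ 1 * (c ^ 2 * (2 * (q + q'))) := by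
            apply mul_le_mul e6 _ (by positivity) (by norm_num)
            exact mul_le_mul_of_nonneg_left e5 (sq_nonneg c)
        _ = c ^ 2 * (2 * (q + q')) := by ring
    calc B ^ 2 ≤ 2 * (s ^ 2 * (2 * (q + q'))) + 2 * (c ^ 2 * (2 * (q + q'))) := by linarith
      _ = 4 * (q + q') * (c ^ 2 + s ^ 2) := by ring
      _ = 4 * (q + q') := by rw [hcs, mul_one]
  have key : ε * (A ^ 2 + B ^ 2) ≤ 4 * c * A := by
    have e1 : ε * (A ^ 2 + B ^ 2) ≤ (c ^ 2 / 7) * (17 / 2 * (q + q')) := by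
      apply mul_le_mul hε (by linarith) (by positivity) (by positivity)
    have e2 : (c ^ 2 / 7) * (17 / 2 * (q + q')) ≤ 2 * (c ^ 2 * (q + q')) := by
      have : 0 ≤ c ^ 2 * (q + q') := by positivity
      linarith
    have e3 : 2 * (c ^ 2 * (q + q')) = 4 * c * (c * (q + q') / 2) := by ring
    have e4 : 4 * c * (c * (q + q') / 2) ≤ 4 * c * A := mul_le_mul_of_nonneg_left hAl (by linarith)
    linarith
  apply abs_le_of_sq_le_sq _ (by linarith)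
  have e1 : (C * (2 * c - ε * A) - S * (ε * B)) ^ 2 ≤
      (C ^ 2 + S ^ 2) * ((2 * c - ε * A) ^ 2 + (ε * B) ^ 2) := by
    exact sq3 _ _ _ _
  rw [hCS, one_mul] at e1
  have e2 : (2 * c - ε * A) ^ 2 + (ε * B) ^ 2 = (2 * c) ^ 2 + ε * (ε * (A ^ 2 + B ^ 2) - 4 * c * A) := by
    ring
  have e3 : ε * (ε * (A ^ 2 + B ^ 2) - 4 * c * A) ≤ 0 :=
    mul_nonpos_of_nonneg_of_nonpos hε0.le (by linarith)
  linarith

lemma pp (T γ x : ℝ) (hT : 1 ≤ T) (hγ : 0 < γ) :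
    |(x + γ) * (1 / ((x + γ) ^ 2 + T ^ 2)) - x * (1 / (x ^ 2 + T ^ 2))| ≤
      γ * ((1 / (x ^ 2 + T ^ 2) + 1 / ((x + γ) ^ 2 + T ^ 2)) / 2) := by
  have h1 : 0 < x ^ 2 + T ^ 2 := by positivity
  have h2 : 0 < (x + γ) ^ 2 + T ^ 2 := by positivity
  have e1 : (x + γ) * (1 / ((x + γ) ^ 2 + T ^ 2)) - x * (1 / (x ^ 2 + T ^ 2)) =
      γ * (T ^ 2 - x * (x + γ)) / ((x ^ 2 + T ^ 2) * ((x + γ) ^ 2 + T ^ 2)) := by
    field_simp
    ring
  have e2 : γ * ((1 / (x ^ 2 + T ^ 2) + 1 / ((x + γ) ^ 2 + T ^ 2)) / 2) =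
      γ * (((x ^ 2 + T ^ 2) + ((x + γ) ^ 2 + T ^ 2)) / 2) /
        ((x ^ 2 + T ^ 2) * ((x + γ) ^ 2 + T ^ 2)) := by
    field_simp
    ring
  rw [e1, e2, abs_div, abs_of_pos (mul_pos h1 h2)]
  apply div_le_div_of_nonneg_right _ (mul_pos h1 h2).le
  rw [abs_mul, abs_of_pos hγ]
  apply mul_le_mul_of_nonneg_left _ hγ.le
  rw [abs_le]
  constructor
  · nlinarith [sq_nonneg (x - (x + γ)), sq_nonneg T]
  · nlinarith [sq_nonneg (x + (x + γ)), sq_nonneg T]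

lemma psq (T x : ℝ) (hT : 1 ≤ T) : (x * (1 / (x ^ 2 + T ^ 2))) ^ 2 ≤ 1 / (x ^ 2 + T ^ 2) := by
  have h1 : 0 < x ^ 2 + T ^ 2 := by positivity
  rw [mul_one_div, div_pow, div_le_div_iff₀ (by positivity) h1]
  nlinarith [sq_nonneg T, sq_nonneg x, mul_nonneg (sq_nonneg T) h1.le]

lemma qle (T x : ℝ) (hT : 1 ≤ T) : 1 / (x ^ 2 + T ^ 2) ≤ 1 := by
  have h1 : 0 < x ^ 2 + T ^ 2 := by positivity
  rw [div_le_one h1]
  nlinarith [sq_nonneg x]

end XAL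

theorem XA_proof : S_XA := by
  intro ε T γ hγ0 hγ1 hT hκ1 hκγ hε0 hε x
  have hκ0 : 0 ≤ kap T := by
    unfold kap
    have h1 : 0 ≤ Real.pi * T := by positivity
    have h2 : 0 ≤ Real.sinh (Real.pi * T) := Real.sinh_nonneg_iff.mpr h1
    have h3 : 0 < Real.cosh (Real.pi * T) := Real.cosh_pos _
    positivity
  set m : ℝ := x + γ / 2 with hm
  have hpi := Real.pi_pos
  have hc : 0 < Real.cos (Real.pi * γ / 2) := by
    apply Real.cos_pos_of_mem_Ioo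
    constructor
    · nlinarith
    · nlinarith
  have hs : 0 ≤ Real.sin (Real.pi * γ / 2) := by
    apply Real.sin_nonneg_of_nonneg_of_le_pi
    · positivity
    · nlinarith
  have h := XAL.alg (Real.cos (Real.pi * m)) (Real.sin (Real.pi * m)) (Real.cos (Real.pi * γ / 2))
    (Real.sin (Real.pi * γ / 2)) (kap T) (1 / (x ^ 2 + T ^ 2)) (1 / ((x + γ) ^ 2 + T ^ 2))
    (x * (1 / (x ^ 2 + T ^ 2))) ((x + γ) * (1 / ((x + γ) ^ 2 + T ^ 2))) ε γ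
    (by rw [add_comm]; exact Real.sin_sq_add_cos_sq _) (by rw [add_comm]; exact Real.sin_sq_add_cos_sq _)
    hc hs hκ0 hκ1 (by positivity) (by positivity) (XAL.qle T x hT) (XAL.qle T _ hT)
    (XAL.psq T x hT) (XAL.psq T _ hT) (XAL.pp T γ x hT hγ0) hκγ hε0 hε
  have e : Fr ε T x + Fr ε T (x + γ) = Real.cos (Real.pi * m) * (2 * Real.cos (Real.pi * γ / 2) -
      ε * (Real.cos (Real.pi * γ / 2) * (1 / (x ^ 2 + T ^ 2) + 1 / ((x + γ) ^ 2 + T ^ 2)) +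
        kap T * Real.sin (Real.pi * γ / 2) *
          ((x + γ) * (1 / ((x + γ) ^ 2 + T ^ 2)) - x * (1 / (x ^ 2 + T ^ 2))))) -
      Real.sin (Real.pi * m) * (ε * (Real.sin (Real.pi * γ / 2) *
        (1 / (x ^ 2 + T ^ 2) - 1 / ((x + γ) ^ 2 + T ^ 2)) +
        kap T * Real.cos (Real.pi * γ / 2) *
          (x * (1 / (x ^ 2 + T ^ 2)) + (x + γ) * (1 / ((x + γ) ^ 2 + T ^ 2))))) := by
    unfold Fr Gr
    have e1 : Real.pi * x = Real.pi * m - Real.pi * γ / 2 := by rw [hm]; ring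
    have e2 : Real.pi * (x + γ) = Real.pi * m + Real.pi * γ / 2 := by rw [hm]; ring
    rw [e1, e2, Real.cos_sub, Real.cos_add, Real.sin_sub, Real.sin_add]
    ring
  rw [e]
  exact h

end Pool.Agent.H356R3.LV
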