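import Pool.Agent.H356R3.LV.Defs2

set_option autoImplicit false

open MeasureTheory Set Filter Topology Complex InnerProductSpace

namespace Pool.Agent.H356R3.LV

namespace XBL

theorem rot (S C a b r : ℝ) (h : S ^ 2 + C ^ 2 = 1) (hr : 0 ≤ r) (hab : a ^ 2 + b ^ 2 ≤ r ^ 2) :
    |S * a - C * b| ≤ r := by
  apply abs_le_of_sq_le_sq _ hr
  have h1 : (S * a - C * b) ^ 2 + (S * b + C * a) ^ 2 = (S ^ 2 + C ^ 2) * (a ^ 2 + b ^ 2) := by ring
  rw [h, one_mul] at h1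
  nlinarith [sq_nonneg (S * b + C * a)]

theorem core (ε s A B Q : ℝ) (hε : 0 < ε) (hε7 : ε ≤ 1 / 7) (hs : 0 ≤ s) (hQ : 0 ≤ Q) (hQ2 : Q ≤ 2)
    (hA1 : s / 2 * Q ≤ A) (hA2 : A ≤ 3 * s / 2 * Q) (hB : B ^ 2 ≤ 8 * s ^ 2 * Q) :
    (2 * s - ε * A) ^ 2 + (ε * B) ^ 2 ≤ (2 * s) ^ 2 := by
  have hA0 : 0 ≤ A := le_trans (by positivity) hA1
  have h1 : A ^ 2 ≤ 9 / 2 * s ^ 2 * Q := by
    have : A ^ 2 ≤ (3 * s / 2 * Q) ^ 2 := pow_le_pow_left₀ hA0 hA2 2
    have h2 : s ^ 2 * Q * Q ≤ s ^ 2 * Q * 2 := mul_le_mul_of_nonneg_left hQ2 (by positivity)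
    nlinarith
  have h3 : ε * (A ^ 2 + B ^ 2) ≤ 4 * s * A := by
    have h4 : A ^ 2 + B ^ 2 ≤ 25 / 2 * (s ^ 2 * Q) := by linarith
    have h5 : ε * (A ^ 2 + B ^ 2) ≤ 1 / 7 * (25 / 2 * (s ^ 2 * Q)) := 
      mul_le_mul hε7 h4 (by positivity) (by norm_num)
    have h6 : s * (s / 2 * Q) ≤ s * A := mul_le_mul_of_nonneg_left hA1 hs
    have h7 : 0 ≤ s ^ 2 * Q := by positivity
    nlinarith
  have h8 : ε * (ε * (A ^ 2 + B ^ 2)) ≤ ε * (4 * s * A) := mul_le_mul_of_nonneg_left h3 hε.le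
  nlinarith

/-- bounds of `A'` and `B'` -/
theorem bds (T κ x x' d s c q q' : ℝ) (hT : 1 ≤ T) (hκ : 0 < κ) (hκ1 : κ ≤ 1) (hd : 0 ≤ d) (hx : x' = x + d)
    (hs : d ≤ s) (hc : |c| ≤ 1) (hqd : q = 1 / (x ^ 2 + T ^ 2)) (hqd' : q' = 1 / (x' ^ 2 + T ^ 2)) : 
    s / 2 * (q + q') ≤ s * (q + q') - κ * c * (x' * q' - x * q) ∧ 
    s * (q + q') - κ * c * (x' * q' - x * q) ≤ 3 * s / 2 * (q + q') ∧ 
    (c * (q - q') - κ * s * (x * q + x' * q')) ^ 2 ≤ 8 * s ^ 2 * (q + q') ∧ 0 ≤ q + q' ∧ q + q' ≤ 2 := by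
  have hs0 : 0 ≤ s := hd.trans hs
  have hT2 : 1 ≤ T ^ 2 := by nlinarith
  have hX : 0 < x ^ 2 + T ^ 2 := by positivity
  have hX' : 0 < x' ^ 2 + T ^ 2 := by positivity
  have hq0 : 0 < q := by rw [hqd]; positivity
  have hq0' : 0 < q' := by rw [hqd']; positivity
  have e1 : q * (x ^ 2 + T ^ 2) = 1 := by rw [hqd]; exact one_div_mul_cancel hX.ne'
  have e2 : q' * (x' ^ 2 + T ^ 2) = 1 := by rw [hqd']; exact one_div_mul_cancel hX'.ne'
  have hq1 : q ≤ 1 := by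
    rw [hqd, div_le_one hX]; nlinarith [sq_nonneg x]
  have hq1' : q' ≤ 1 := by
    rw [hqd', div_le_one hX']; nlinarith [sq_nonneg x']
  clear hqd hqd'
  have hqq : 0 < q * q' := mul_pos hq0 hq0'
  -- p' - p
  have hp : x' * q' - x * q = d * (T ^ 2 - x * x') * (q * q') := by
    have : x' * q' - x * q = x' * q' * (q * (x ^ 2 + T ^ 2)) - x * q * (q' * (x' ^ 2 + T ^ 2)) := by
      rw [e1, e2]; ring
    rw [this, hx]; ring
  have hp2 : |x' * q' - x * q| ≤ d * (q + q') / 2 := by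
    have h1 : |T ^ 2 - x * x'| ≤ ((x ^ 2 + T ^ 2) + (x' ^ 2 + T ^ 2)) / 2 := by
      rw [abs_le]
      constructor <;> nlinarith [sq_nonneg (x - x'), sq_nonneg (x + x'), sq_nonneg T]
    have h2 : (q * q') * (((x ^ 2 + T ^ 2) + (x' ^ 2 + T ^ 2)) / 2) = (q + q') / 2 := by
      have : (q * q') * (((x ^ 2 + T ^ 2) + (x' ^ 2 + T ^ 2)) / 2) = 
        (q' * (q * (x ^ 2 + T ^ 2)) + q * (q' * (x' ^ 2 + T ^ 2))) / 2 := by ring
      rw [this, e1, e2]; ring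
    rw [hp, abs_mul, abs_mul, abs_of_nonneg hd, abs_of_pos hqq]
    calc d * |T ^ 2 - x * x'| * (q * q') = d * ((q * q') * |T ^ 2 - x * x'|) := by ring
      _ ≤ d * ((q * q') * (((x ^ 2 + T ^ 2) + (x' ^ 2 + T ^ 2)) / 2)) := by gcongr
      _ = d * (q + q') / 2 := by rw [h2]; ring
  have hp3 : |κ * c * (x' * q' - x * q)| ≤ s * (q + q') / 2 := by
    rw [abs_mul, abs_mul, abs_of_pos hκ]
    calc κ * |c| * |x' * q' - x * q| ≤ 1 * 1 * (d * (q + q') / 2) := by gcongr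
      _ ≤ s * (q + q') / 2 := by
        have := mul_le_mul_of_nonneg_right hs (by positivity : 0 ≤ q + q')
        linarith
  have hp4 := abs_le.1 hp3
  -- q - q'
  have hqd : |q - q'| ≤ d * (q + q') := by
    have h1 : q - q' = d * (x + x') * (q * q') := by
      have : q - q' = q * (q' * (x' ^ 2 + T ^ 2)) - q' * (q * (x ^ 2 + T ^ 2)) := by
        rw [e1, e2]; ring
      rw [this, hx]; ring
    have h2 : ∀ y r : ℝ, 0 < r → r * (y ^ 2 + T ^ 2) = 1 → |y| * r ≤ 1 := by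
      intro y r hr h
      rw [← h, mul_comm]
      apply mul_le_mul_of_nonneg_left _ hr.le
      nlinarith [sq_abs y, sq_nonneg (|y| - 1), abs_nonneg y]
    have h3 := h2 x q hq0 e1
    have h4 := h2 x' q' hq0' e2
    rw [h1, abs_mul, abs_mul, abs_of_nonneg hd, abs_of_pos hqq]
    calc d * |x + x'| * (q * q') ≤ d * (|x| + |x'|) * (q * q') := by
          gcongr; exact abs_add_le _ _
      _ = d * ((|x| * q) * q' + (|x'| * q') * q) := by ring
      _ ≤ d * (1 * q' + 1 * q) := by gcongr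
      _ = d * (q + q') := by ring
  have h5 : (c * (q - q')) ^ 2 ≤ s ^ 2 * (q + q') * 2 := by
    have h6 : |c * (q - q')| ≤ s * (q + q') := by
      rw [abs_mul]
      calc |c| * |q - q'| ≤ 1 * (d * (q + q')) := by gcongr
        _ ≤ s * (q + q') := by
          rw [one_mul]; exact mul_le_mul_of_nonneg_right hs (by positivity)
    have h7 : (c * (q - q')) ^ 2 ≤ (s * (q + q')) ^ 2 := by
      rw [← sq_abs (c * (q - q'))]
      exact pow_le_pow_left₀ (abs_nonneg _) h6 2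
    have h8 : s ^ 2 * (q + q') * (q + q') ≤ s ^ 2 * (q + q') * 2 := 
      mul_le_mul_of_nonneg_left (by linarith) (by positivity)
    nlinarith
  have h9 : ∀ y r : ℝ, 0 < r → r * (y ^ 2 + T ^ 2) = 1 → (y * r) ^ 2 ≤ r := by
    intro y r hr h
    have : (y * r) ^ 2 = r * (r * y ^ 2) := by ring
    rw [this]
    have h10 : r * y ^ 2 ≤ 1 := by
      rw [← h]
      apply mul_le_mul_of_nonneg_left _ hr.le
      nlinarith
    calc r * (r * y ^ 2) ≤ r * 1 := mul_le_mul_of_nonneg_left h10 hr.le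
      _ = r := mul_one r
  have h11 : (κ * s * (x * q + x' * q')) ^ 2 ≤ s ^ 2 * (q + q') * 2 := by
    have h12 := h9 x q hq0 e1
    have h13 := h9 x' q' hq0' e2
    have h14 : (x * q + x' * q') ^ 2 ≤ 2 * (q + q') := by
      have h16 : (x * q + x' * q') ^ 2 = 2 * ((x * q) ^ 2 + (x' * q') ^ 2) - (x * q - x' * q') ^ 2 := by
        ring
      have h17 := sq_nonneg (x * q - x' * q')
      linarith
    have h15 : κ ^ 2 ≤ 1 := pow_le_one₀ hκ.le hκ1
    calc (κ * s * (x * q + x' * q')) ^ 2 = κ ^ 2 * (s ^ 2 * (x * q + x' * q') ^ 2) := by ring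
      _ ≤ 1 * (s ^ 2 * (2 * (q + q'))) := by gcongr
      _ = s ^ 2 * (q + q') * 2 := by ring
  refine ⟨by linarith [hp4.2], by linarith [hp4.1], ?_, by positivity, by linarith⟩
  have h18 : (c * (q - q') - κ * s * (x * q + x' * q')) ^ 2 = 2 * ((c * (q - q')) ^ 2 + 
      (κ * s * (x * q + x' * q')) ^ 2) - (c * (q - q') + κ * s * (x * q + x' * q')) ^ 2 := by ring
  have h19 := sq_nonneg (c * (q - q') + κ * s * (x * q + x' * q'))
  linarith

theorem kap_pos {T : ℝ} (hT : 1 ≤ T) : 0 < kap T := by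
  unfold kap
  have hT0 : 0 < T := by linarith
  have : 0 < Real.sinh (Real.pi * T) := Real.sinh_pos_iff.2 (mul_pos Real.pi_pos hT0)
  have := Real.cosh_pos (Real.pi * T)
  positivity

end XBL

open XBL in
theorem XB_proof : S_XB := by
  intro ε T γ d hγ hγ1 hT hκ1 hε hεc hd hd1 x
  set κ := kap T with hκd
  have hκ : 0 < κ := kap_pos hT
  set h : ℝ := d / 2 with hh
  set m : ℝ := x + h with hm
  set s : ℝ := Real.sin (Real.pi * h) with hs
  set c : ℝ := Real.cos (Real.pi * h) with hc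
  set S : ℝ := Real.sin (Real.pi * m) with hS
  set C : ℝ := Real.cos (Real.pi * m) with hC
  have hh0 : 0 ≤ h := by positivity
  have hh1 : h ≤ (1 - γ) / 2 := by rw [hh]; linarith
  have hpi := Real.pi_pos
  have hsd : d ≤ s := by
    have h1 := Real.mul_le_sin (x := Real.pi * h) (by positivity) (by nlinarith)
    have h2 : 2 / Real.pi * (Real.pi * h) = d := by
      rw [hh]; field_simp
    rw [h2] at h1
    exact h1
  have hs0 : 0 ≤ s := hd.trans hsd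
  have hsγ : s ≤ Real.cos (Real.pi * γ / 2) := by
    have h1 : Real.cos (Real.pi * γ / 2) = Real.sin (Real.pi * ((1 - γ) / 2)) := by
      rw [← Real.sin_pi_div_two_sub]
      congr 1
      ring
    rw [h1]
    apply Real.sin_le_sin_of_le_of_le_pi_div_two
    · nlinarith
    · nlinarith
    · exact mul_le_mul_of_nonneg_left hh1 hpi.le
  have hε7 : ε ≤ 1 / 7 := by
    have h1 : Real.cos (Real.pi * γ / 2) ^ 2 ≤ 1 := Real.cos_sq_le_one _
    linarith
  have hx1 : Real.pi * x = Real.pi * m - Real.pi * h := by rw [hm]; ring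
  have hx2 : Real.pi * (x + d) = Real.pi * m + Real.pi * h := by rw [hm, hh]; ring
  obtain ⟨q, hq⟩ : ∃ q, q = 1 / (x ^ 2 + T ^ 2) := ⟨_, rfl⟩
  obtain ⟨q', hq'⟩ : ∃ q', q' = 1 / ((x + d) ^ 2 + T ^ 2) := ⟨_, rfl⟩
  obtain ⟨b1, b2, b3, b4, b5⟩ := bds T κ x (x + d) d s c q q' hT hκ hκ1 hd rfl hsd 
    (Real.abs_cos_le_one _) hq hq'
  have hmain := core ε s _ _ _ hε hε7 hs0 b4 b5 b1 b2 b3
  have hrot := rot S C _ _ (2 * s) (Real.sin_sq_add_cos_sq _) (by linarith) hmain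
  have heq : Fr ε T x - Fr ε T (x + d) = S * (2 * s - ε * (s * (q + q') - κ * c * ((x + d) * q' - x * q))) - 
      C * (ε * (c * (q - q') - κ * s * (x * q + (x + d) * q'))) := by
    unfold Fr Gr
    rw [hx1, hx2, Real.cos_sub, Real.cos_add, Real.sin_sub, Real.sin_add, div_eq_mul_one_div _ (x ^ 2 + T ^ 2), 
      div_eq_mul_one_div _ ((x + d) ^ 2 + T ^ 2), ← hq, ← hq', ← hs, ← hc, ← hS, ← hC, ← hκd]
    ring
  rw [heq]
  linarith

end Pool.Agent.H356R3.LV
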