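import Pool.Agent.H356R3.LV.Defs2

/-! Task XC (helper666): no critical points with small values. -/
set_option autoImplicit false
open MeasureTheory Set Filter Topology Complex InnerProductSpace

namespace Pool.Agent.H356R3.LV

namespace XCL

theorem kap_nonneg (T : ℝ) (hT : 1 ≤ T) : 0 ≤ kap T := by
  unfold kap
  have h1 : 0 < Real.sinh (Real.pi * T) := Real.sinh_pos_iff.2 (by positivity)
  have h2 : 0 < Real.cosh (Real.pi * T) := Real.cosh_pos _
  positivity

theorem abs_lt_one (ε T c x : ℝ) (hc : 0 < c) (hT : 1 ≤ T) (hk : kap T ≤ 1) (hε : 0 < ε)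
    (hεc : ε ≤ (1 - c) / 2) : |Fr ε T x| < 1 := by
  have hk0 := kap_nonneg T hT
  have hd : 0 < x ^ 2 + T ^ 2 := by positivity
  set q : ℝ := 1 / (x ^ 2 + T ^ 2) with hq
  set C : ℝ := Real.cos (Real.pi * x) with hC
  set S : ℝ := Real.sin (Real.pi * x) with hS
  set k : ℝ := kap T with hkdef
  have hq0 : 0 < q := by positivity
  have hq1 : q ≤ 1 := by
    rw [hq, div_le_one hd]; nlinarith [sq_nonneg x]
  have hxq : x ^ 2 * q ≤ 1 := by
    rw [hq, mul_one_div, div_le_one hd]; nlinarith [sq_nonneg T]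
  have hF : Fr ε T x = (1 - ε * q) * C + (-(ε * k * x * q)) * S := by
    unfold Fr Gr
    rw [← hC, ← hS, ← hkdef, hq]
    field_simp
    ring
  have hCS : C ^ 2 + S ^ 2 = 1 := by rw [hC, hS]; exact Real.cos_sq_add_sin_sq _
  have hε1 : ε < 1 / 2 := by linarith
  have hk2 : k ^ 2 ≤ 1 := by nlinarith
  have h1 : k ^ 2 * (x ^ 2 * q) ≤ 1 := by
    have h0 : 0 ≤ x ^ 2 * q := by positivity
    calc k ^ 2 * (x ^ 2 * q) ≤ 1 * 1 := mul_le_mul hk2 hxq h0 (by norm_num)
      _ = 1 := by norm_num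
  have hPQ : (1 - ε * q) ^ 2 + (-(ε * k * x * q)) ^ 2 < 1 := by
    have h2 : (1 - ε * q) ^ 2 + (-(ε * k * x * q)) ^ 2
        = 1 - ε * q * (2 - ε * (q + k ^ 2 * (x ^ 2 * q))) := by ring
    rw [h2]
    have h3 : 0 < 2 - ε * (q + k ^ 2 * (x ^ 2 * q)) := by
      have : ε * (q + k ^ 2 * (x ^ 2 * q)) ≤ ε * 2 :=
        mul_le_mul_of_nonneg_left (by linarith) hε.le
      linarith
    have h4 : 0 < ε * q * (2 - ε * (q + k ^ 2 * (x ^ 2 * q))) := by positivity
    linarith
  have hFsq : (Fr ε T x) ^ 2 < 1 := by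
    rw [hF]
    have h5 : ((1 - ε * q) * C + (-(ε * k * x * q)) * S) ^ 2
        = ((1 - ε * q) ^ 2 + (-(ε * k * x * q)) ^ 2) * (C ^ 2 + S ^ 2)
          - ((1 - ε * q) * S - (-(ε * k * x * q)) * C) ^ 2 := by ring
    rw [h5, hCS]
    nlinarith [sq_nonneg ((1 - ε * q) * S - (-(ε * k * x * q)) * C)]
  exact (sq_lt_one_iff_abs_lt_one _).1 hFsq

end XCL

theorem XC_proof (hXG : S_XG) : S_XC := by
  intro ε T c hc hc1 hT hk hε hεc
  obtain ⟨-, -, -, -, hG1, hGd, -, -⟩ := hXG T hT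
  refine ⟨?_, fun x => XCL.abs_lt_one ε T c x hc hT hk hε hεc, ?_⟩
  · have hd : ∀ x : ℝ, x ^ 2 + T ^ 2 ≠ 0 := fun x => by positivity
    unfold Fr Gr
    have h1 : Continuous fun x : ℝ => Real.cos (Real.pi * x) := by fun_prop
    have h2 : Continuous fun x : ℝ =>
        (Real.cos (Real.pi * x) + kap T * x * Real.sin (Real.pi * x)) / (x ^ 2 + T ^ 2) :=
      Continuous.div (by fun_prop) (by fun_prop) hd
    exact h1.sub (continuous_const.mul h2)
  · intro x hx
    obtain ⟨g, hg, hgπ⟩ := hGd x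
    have hG := hG1 x
    have hcos : HasDerivAt (fun x : ℝ => Real.cos (Real.pi * x))
        (-Real.sin (Real.pi * x) * Real.pi) x := by
      have h1 : HasDerivAt (fun x : ℝ => Real.pi * x) Real.pi x := by
        simpa using (hasDerivAt_id x).const_mul Real.pi
      exact (Real.hasDerivAt_cos (Real.pi * x)).comp x h1
    have hF : HasDerivAt (Fr ε T) (-Real.sin (Real.pi * x) * Real.pi - ε * g) x :=
      hcos.sub (hg.const_mul ε)
    have h0 := hx.unique hF
    have hπ := Real.pi_pos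
    by_contra hcon
    push Not at hcon
    have hC : Real.cos (Real.pi * x) = Fr ε T x + ε * Gr T x := by unfold Fr; ring
    have hCabs : |Real.cos (Real.pi * x)| ≤ c + ε := by
      rw [hC]
      calc |Fr ε T x + ε * Gr T x| ≤ |Fr ε T x| + |ε * Gr T x| := abs_add_le _ _
        _ ≤ c + ε := by
          rw [abs_mul, abs_of_pos hε]
          have : ε * |Gr T x| ≤ ε * 1 := mul_le_mul_of_nonneg_left hG hε.le
          linarith
    have hSabs : |Real.sin (Real.pi * x)| ≤ ε := by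
      have h1 : Real.sin (Real.pi * x) * Real.pi = - (ε * g) := by linarith
      have h2 : |Real.sin (Real.pi * x)| * Real.pi ≤ ε * Real.pi := by
        rw [← abs_of_pos hπ, ← abs_mul, abs_of_pos hπ, h1, abs_neg, abs_mul, abs_of_pos hε]
        exact mul_le_mul_of_nonneg_left hgπ hε.le
      exact le_of_mul_le_mul_right h2 hπ
    have hC2 : Real.cos (Real.pi * x) ^ 2 ≤ (c + ε) ^ 2 := by
      rw [← sq_abs]; exact pow_le_pow_left₀ (abs_nonneg _) hCabs 2
    have hS2 : Real.sin (Real.pi * x) ^ 2 ≤ ε ^ 2 := by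
      rw [← sq_abs]; exact pow_le_pow_left₀ (abs_nonneg _) hSabs 2
    have h1 := Real.cos_sq_add_sin_sq (Real.pi * x)
    have h2 : (c + ε) ^ 2 ≤ (1 - ε) ^ 2 := pow_le_pow_left₀ (by linarith) (by linarith) 2
    nlinarith

end Pool.Agent.H356R3.LV
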