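import Pool.Agent.H356R3.LV.Defs2
set_option autoImplicit false
open MeasureTheory Set Filter Topology Complex InnerProductSpace
namespace Pool.Agent.H356R3.LV

namespace XGL

theorem norm_sin_le (w : ℂ) : ‖Complex.sin w‖ ≤ Real.cosh w.im := by
  have h : Complex.sin w = (Complex.exp (-w * I) - Complex.exp (w * I)) * I / 2 := rfl
  rw [h, norm_div, norm_mul, Complex.norm_I, mul_one, Complex.norm_two, Real.cosh_eq]
  have h1 : ‖Complex.exp (-w * I)‖ = Real.exp w.im := by
    rw [Complex.norm_exp]; simp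
  have h2 : ‖Complex.exp (w * I)‖ = Real.exp (-w.im) := by
    rw [Complex.norm_exp]; simp
  have := norm_sub_le (Complex.exp (-w * I)) (Complex.exp (w * I))
  rw [h1, h2] at this
  linarith

theorem norm_cos_le (w : ℂ) : ‖Complex.cos w‖ ≤ Real.cosh w.im := by
  have h : Complex.cos w = (Complex.exp (w * I) + Complex.exp (-w * I)) / 2 := rfl
  rw [h, norm_div, Complex.norm_two, Real.cosh_eq]
  have h1 : ‖Complex.exp (-w * I)‖ = Real.exp w.im := by
    rw [Complex.norm_exp]; simp
  have h2 : ‖Complex.exp (w * I)‖ = Real.exp (-w.im) := by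
    rw [Complex.norm_exp]; simp
  have := norm_add_le (Complex.exp (w * I)) (Complex.exp (-w * I))
  rw [h1, h2] at this
  linarith

theorem cosh_le_exp (a : ℝ) : Real.cosh a ≤ Real.exp |a| := by
  rw [← Real.cosh_abs, Real.cosh_eq]
  have : Real.exp (-|a|) ≤ Real.exp |a| := Real.exp_le_exp.2 (by linarith [abs_nonneg a])
  linarith

theorem cosh_mono {a b : ℝ} (h : |a| ≤ |b|) : Real.cosh a ≤ Real.cosh b := Real.cosh_le_cosh.2 h

/-- the integrand -/
noncomputable def f (T : ℝ) (z : ℂ) (t : ℝ) : ℂ := (Real.cosh (T * t) : ℂ) * Complex.cos (z * t)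

noncomputable def f' (T : ℝ) (z : ℂ) (t : ℝ) : ℂ :=
  (Real.cosh (T * t) : ℂ) * (-Complex.sin (z * t) * t)

theorem cont_f (T : ℝ) (z : ℂ) : Continuous (f T z) := by
  unfold f
  exact (Complex.continuous_ofReal.comp (Real.continuous_cosh.comp (by fun_prop))).mul
    (Complex.continuous_cos.comp (by fun_prop))

theorem cont_f' (T : ℝ) (z : ℂ) : Continuous (f' T z) := by
  unfold f'
  exact (Complex.continuous_ofReal.comp (Real.continuous_cosh.comp (by fun_prop))).mul
    ((Complex.continuous_sin.comp (by fun_prop)).neg.mul Complex.continuous_ofReal)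

theorem int_cosh (T : ℝ) (hT : 1 ≤ T) :
    ∫ t in (0 : ℝ)..Real.pi, Real.cosh (T * t) = Real.sinh (Real.pi * T) / T := by
  have h : ∀ t ∈ Set.uIcc 0 Real.pi, HasDerivAt (fun t => Real.sinh (T * t) / T)
      (Real.cosh (T * t)) t := by
    intro t _
    have h1 : HasDerivAt (fun t : ℝ => T * t) T t := by
      simpa using (hasDerivAt_id t).const_mul T
    have h2 := (h1.sinh).div_const T
    have hT0 : T ≠ 0 := by linarith
    have h3 : Real.cosh (T * t) * T / T = Real.cosh (T * t) := by field_simp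
    rw [h3] at h2
    exact h2
  rw [intervalIntegral.integral_eq_sub_of_hasDerivAt h]
  · simp [mul_comm]
  · exact (Real.continuous_cosh.comp (by fun_prop)).intervalIntegrable _ _

theorem D_pos (T : ℝ) (hT : 1 ≤ T) : 0 < T * Real.sinh (Real.pi * T) := by
  have : 0 < Real.pi * T := by positivity
  have := Real.sinh_pos_iff.2 this
  positivity

theorem hasDeriv_F (T : ℝ) (z : ℂ) :
    HasDerivAt (fun z => ∫ t in (0 : ℝ)..Real.pi, f T z t) (∫ t in (0 : ℝ)..Real.pi, f' T z t) z := by
  refine (intervalIntegral.hasDerivAt_integral_of_dominated_loc_of_deriv_le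
    (s := Metric.ball z 1) (bound := fun _ => Real.cosh (T * Real.pi) *
      (Real.cosh ((|z.im| + 1) * Real.pi) * Real.pi))
    (Metric.ball_mem_nhds z one_pos) ?_ ?_ ?_ ?_ ?_ ?_).2
  · exact Filter.Eventually.of_forall fun w => (cont_f T w).aestronglyMeasurable
  · exact (cont_f T z).intervalIntegrable _ _
  · exact (cont_f' T z).aestronglyMeasurable
  · refine Filter.Eventually.of_forall fun t ht w hw => ?_
    rw [uIoc_of_le Real.pi_pos.le] at ht
    unfold f'
    rw [norm_mul, norm_mul, norm_neg, Complex.norm_real, Complex.norm_real, Real.norm_eq_abs,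
      Real.norm_eq_abs, abs_of_pos (Real.cosh_pos _), abs_of_pos ht.1]
    have h1 : Real.cosh (T * t) ≤ Real.cosh (T * Real.pi) := by
      apply cosh_mono
      rw [abs_mul, abs_mul, abs_of_pos ht.1, abs_of_pos Real.pi_pos]
      exact mul_le_mul_of_nonneg_left ht.2 (abs_nonneg _)
    have h2 : ‖Complex.sin (w * t)‖ ≤ Real.cosh ((|z.im| + 1) * Real.pi) := by
      refine (norm_sin_le _).trans (cosh_mono ?_)
      have hwim : (w * (t : ℂ)).im = w.im * t := by simp
      rw [hwim, abs_mul, abs_mul, abs_of_pos ht.1, abs_of_pos Real.pi_pos,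
        abs_of_nonneg (by positivity : 0 ≤ |z.im| + 1)]
      have h3 : |w.im| ≤ |z.im| + 1 := by
        have h4 : |w.im - z.im| ≤ 1 := by
          have : |(w - z).im| ≤ ‖w - z‖ := Complex.abs_im_le_norm _
          rw [Complex.sub_im] at this
          have hd : ‖w - z‖ < 1 := by simpa [dist_eq_norm] using hw
          linarith
        have := abs_sub_abs_le_abs_sub w.im z.im
        linarith
      exact mul_le_mul h3 ht.2 ht.1.le (by positivity)
    exact mul_le_mul h1 (mul_le_mul h2 ht.2 ht.1.le (Real.cosh_pos _).le)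
      (mul_nonneg (norm_nonneg _) ht.1.le) (Real.cosh_pos _).le
  · exact intervalIntegrable_const
  · refine Filter.Eventually.of_forall fun t _ w _ => ?_
    unfold f f'
    have h1 : HasDerivAt (fun w : ℂ => w * (t : ℂ)) (t : ℂ) w := by
      simpa using (hasDerivAt_id w).mul_const (t : ℂ)
    exact (h1.ccos).const_mul _

theorem GG_eq (T : ℝ) (z : ℂ) : GG T z = (∫ t in (0 : ℝ)..Real.pi, f T z t) /
    ((T * Real.sinh (Real.pi * T) : ℝ) : ℂ) := rfl

theorem hasDeriv_GG (T : ℝ) (z : ℂ) :
    HasDerivAt (GG T) ((∫ t in (0 : ℝ)..Real.pi, f' T z t) /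
      ((T * Real.sinh (Real.pi * T) : ℝ) : ℂ)) z :=
  (hasDeriv_F T z).div_const _

theorem norm_int_le (T : ℝ) (hT : 1 ≤ T) (g : ℝ → ℂ) (C : ℝ)
    (hC : 0 ≤ C) (h : ∀ t ∈ Ioc 0 Real.pi, ‖g t‖ ≤ C * Real.cosh (T * t)) :
    ‖(∫ t in (0 : ℝ)..Real.pi, g t) / ((T * Real.sinh (Real.pi * T) : ℝ) : ℂ)‖ ≤ C := by
  have hD := D_pos T hT
  have h1 : ‖∫ t in (0 : ℝ)..Real.pi, g t‖ ≤ ∫ t in (0 : ℝ)..Real.pi, C * Real.cosh (T * t) := by
    apply intervalIntegral.norm_integral_le_of_norm_le Real.pi_pos.le
    · exact Filter.Eventually.of_forall h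
    · exact (continuous_const.mul (Real.continuous_cosh.comp (by fun_prop))).intervalIntegrable _ _
  rw [intervalIntegral.integral_const_mul, int_cosh T hT] at h1
  rw [norm_div, Complex.norm_real, Real.norm_eq_abs, abs_of_pos hD, div_le_iff₀ hD]
  refine h1.trans ?_
  have hs : 0 ≤ Real.sinh (Real.pi * T) := by
    have : 0 ≤ Real.pi * T := by positivity
    exact Real.sinh_nonneg_iff.2 this
  have h2 : Real.sinh (Real.pi * T) / T ≤ T * Real.sinh (Real.pi * T) := by
    rw [div_le_iff₀ (by linarith)]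
    nlinarith [mul_nonneg hs (sub_nonneg.2 hT), mul_nonneg (mul_nonneg hs (sub_nonneg.2 hT)) (by linarith : (0:ℝ) ≤ T)]
  exact mul_le_mul_of_nonneg_left h2 hC

theorem ident (T : ℝ) (hT : 1 ≤ T) (z : ℂ) : (z ^ 2 + T ^ 2) * GG T z =
    Complex.cos (Real.pi * z) + kap T * z * Complex.sin (Real.pi * z) := by
  have hD := D_pos T hT
  have hDC : ((T * Real.sinh (Real.pi * T) : ℝ) : ℂ) ≠ 0 := by
    exact_mod_cast hD.ne'
  have hder : ∀ t ∈ Set.uIcc 0 Real.pi, HasDerivAt
      (fun t : ℝ => (T : ℂ) * (Real.sinh (T * t) : ℂ) * Complex.cos (z * t) +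
        z * (Real.cosh (T * t) : ℂ) * Complex.sin (z * t)) ((z ^ 2 + T ^ 2) * f T z t) t := by
    intro t _
    have h1 : HasDerivAt (fun t : ℝ => T * t) T t := by
      simpa using (hasDerivAt_id t).const_mul T
    have hs : HasDerivAt (fun t : ℝ => ((Real.sinh (T * t) : ℝ) : ℂ))
        ((Real.cosh (T * t) * T : ℝ) : ℂ) t := h1.sinh.ofReal_comp
    have hc : HasDerivAt (fun t : ℝ => ((Real.cosh (T * t) : ℝ) : ℂ))
        ((Real.sinh (T * t) * T : ℝ) : ℂ) t := h1.cosh.ofReal_comp
    have hz : HasDerivAt (fun w : ℂ => z * w) z (t : ℂ) := by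
      simpa using (hasDerivAt_id (t : ℂ)).const_mul z
    have hcos := hz.ccos.comp_ofReal
    have hsin := hz.csin.comp_ofReal
    have h2 := ((hs.const_mul (T : ℂ)).mul hcos).add ((hc.const_mul z).mul hsin)
    refine h2.congr_deriv ?_
    unfold f
    push_cast
    ring
  have hint := intervalIntegral.integral_eq_sub_of_hasDerivAt hder
    ((continuous_const.mul (cont_f T z)).intervalIntegrable _ _)
  rw [intervalIntegral.integral_const_mul] at hint
  rw [GG_eq, ← mul_div_assoc, hint, div_eq_iff hDC]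
  unfold kap
  have hs : (Complex.sinh ((Real.pi : ℂ) * T)) ≠ 0 := by
    have h := (Real.sinh_pos_iff.2 (by positivity : 0 < Real.pi * T)).ne'
    intro h0
    apply h
    have : ((Real.sinh (Real.pi * T) : ℝ) : ℂ) = 0 := by
      push_cast; exact h0
    exact_mod_cast this
  have hT0 : (T : ℂ) ≠ 0 := by
    have : T ≠ 0 := by linarith
    exact_mod_cast this
  push_cast
  rw [mul_comm (T : ℂ) (Real.pi : ℂ), mul_comm z (Real.pi : ℂ)]
  simp only [mul_zero, Complex.sinh_zero, Complex.cosh_zero, Complex.cos_zero, Complex.sin_zero]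
  generalize Complex.sinh ((Real.pi : ℂ) * T) = S at *
  generalize Complex.cosh ((Real.pi : ℂ) * T) = C at *
  field_simp
  ring

end XGL

open XGL in
theorem XG_proof : S_XG := by
  intro T hT
  have hD := D_pos T hT
  have h7 : ∀ z, ‖GG T z‖ ≤ Real.exp (Real.pi * |z.im|) := by
    intro z
    rw [GG_eq]
    apply norm_int_le T hT _ _ (Real.exp_pos _).le
    intro t ht
    unfold f
    rw [norm_mul, Complex.norm_real, Real.norm_eq_abs, abs_of_pos (Real.cosh_pos _), mul_comm]
    apply mul_le_mul_of_nonneg_right _ (Real.cosh_pos _).le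
    refine (norm_cos_le _).trans ((cosh_le_exp _).trans (Real.exp_le_exp.2 ?_))
    have hwim : (z * (t : ℂ)).im = z.im * t := by simp
    rw [hwim, abs_mul, abs_of_pos ht.1, mul_comm]
    exact mul_le_mul_of_nonneg_right ht.2 (abs_nonneg _)
  have h3 := ident T hT
  have h4 : ∀ x : ℝ, GG T x = (Gr T x : ℂ) := by
    intro x
    have h := h3 x
    have hne : ((x : ℂ) ^ 2 + T ^ 2) ≠ 0 := by
      have : x ^ 2 + T ^ 2 ≠ 0 := by positivity
      exact_mod_cast this
    unfold Gr
    push_cast
    rw [eq_div_iff hne, mul_comm, h]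
  refine ⟨fun z => (hasDeriv_GG T z).differentiableAt, ?_, h3, h4, ?_, ?_, h7, ?_⟩
  · intro z
    rw [GG_eq, GG_eq, map_div₀, Complex.conj_ofReal, intervalIntegral.integral_of_le Real.pi_pos.le,
      intervalIntegral.integral_of_le Real.pi_pos.le, ← integral_conj]
    congr 1
    apply integral_congr_ae
    refine Filter.Eventually.of_forall fun t => ?_
    simp only [f, map_mul, Complex.conj_ofReal]
    rw [← Complex.cos_conj, map_mul, Complex.conj_ofReal]
  · intro x
    have h := h7 x
    rw [h4 x, Complex.norm_real, Real.norm_eq_abs] at h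
    simpa using h
  · intro x
    refine ⟨((∫ t in (0 : ℝ)..Real.pi, f' T x t) /
      ((T * Real.sinh (Real.pi * T) : ℝ) : ℂ)).re, ?_, ?_⟩
    · have h := (hasDeriv_GG T x).real_of_complex
      convert h using 1
      funext y
      rw [h4 y, Complex.ofReal_re]
    · refine (Complex.abs_re_le_norm _).trans ?_
      apply norm_int_le T hT _ _ Real.pi_pos.le
      intro t ht
      unfold f'
      rw [norm_mul, norm_mul, norm_neg, Complex.norm_real, Complex.norm_real, Real.norm_eq_abs,
        Real.norm_eq_abs, abs_of_pos (Real.cosh_pos _), abs_of_pos ht.1, mul_comm]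
      apply mul_le_mul_of_nonneg_right _ (Real.cosh_pos _).le
      have h1 : ‖Complex.sin ((x : ℂ) * t)‖ ≤ 1 := by
        refine (norm_sin_le _).trans ?_
        simp
      calc ‖Complex.sin ((x : ℂ) * t)‖ * t ≤ 1 * Real.pi :=
            mul_le_mul h1 ht.2 ht.1.le zero_le_one
        _ = Real.pi := one_mul _
  · intro y
    have hfy : ∀ t : ℝ, f T (y * I) t = ((Real.cosh (T * t) * Real.cosh (y * t) : ℝ) : ℂ) := by
      intro t
      unfold f
      have : (y : ℂ) * I * t = ((y * t : ℝ) : ℂ) * I := by push_cast; ring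
      rw [this, Complex.cos_mul_I]
      push_cast
      ring
    have hG : GG T (y * I) = (((∫ t in (0 : ℝ)..Real.pi, Real.cosh (T * t) * Real.cosh (y * t)) /
        (T * Real.sinh (Real.pi * T)) : ℝ) : ℂ) := by
      rw [GG_eq, Complex.ofReal_div]
      congr 1
      simp only [hfy]
      exact intervalIntegral.integral_ofReal
    refine ⟨_, ?_, ?_, hG⟩
    · apply div_nonneg _ hD.le
      apply intervalIntegral.integral_nonneg Real.pi_pos.le
      intro t _
      exact mul_nonneg (Real.cosh_pos _).le (Real.cosh_pos _).le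
    · have h := norm_int_le T hT (fun t => ((Real.cosh (T * t) * Real.cosh (y * t) : ℝ) : ℂ))
        (Real.cosh (Real.pi * y)) (Real.cosh_pos _).le (by
          intro t ht
          rw [Complex.norm_real, Real.norm_eq_abs,
            abs_of_nonneg (mul_nonneg (Real.cosh_pos _).le (Real.cosh_pos _).le), mul_comm]
          apply mul_le_mul_of_nonneg_right _ (Real.cosh_pos _).le
          apply cosh_mono
          rw [abs_mul, abs_mul, abs_of_pos ht.1, abs_of_pos Real.pi_pos, mul_comm]
          exact mul_le_mul_of_nonneg_right ht.2 (abs_nonneg _))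
      rw [intervalIntegral.integral_ofReal, ← Complex.ofReal_div, Complex.norm_real,
        Real.norm_eq_abs] at h
      exact (le_abs_self _).trans h

end Pool.Agent.H356R3.LV
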