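import Pool.Agent.H356R3.LV.Defs2

set_option autoImplicit false
open MeasureTheory Set Filter Topology Complex InnerProductSpace

namespace Pool.Agent.H356R3.LV

namespace XHL

/-- the term of the cotangent series -/
noncomputable def f (z : ℂ) (n : ℕ) : ℂ := 1 / (z - (n + 1)) + 1 / (z + (n + 1))

/-- `ρ_n` -/
noncomputable def rho (T : ℝ) (n : ℕ) : ℝ := 1 / (T ^ 2 + ((n : ℝ) + 1) ^ 2)

lemma mem_compl {z : ℂ} (hz : 0 < z.im) : z ∈ Complex.integerComplement := by
  rw [Complex.mem_integerComplement_iff]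
  rintro ⟨n, hn⟩
  have := congrArg Complex.im hn
  simp at this
  linarith

lemma hasSum_f {z : ℂ} (hz : 0 < z.im) :
    HasSum (f z) (Real.pi * Complex.cot (Real.pi * z) - 1 / z) := by
  have h1 := (summable_cotTerm (mem_compl hz)).hasSum
  have h2 := cot_series_rep' (mem_compl hz)
  rw [h2]
  exact h1

lemma sub_ne {z : ℂ} (hz : 0 < z.im) (n : ℕ) : z - (n + 1) ≠ 0 := by
  intro h
  have := congrArg Complex.im h
  simp at this
  linarith

lemma add_ne {z : ℂ} (hz : 0 < z.im) (n : ℕ) : z + (n + 1) ≠ 0 := by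
  intro h
  have := congrArg Complex.im h
  simp at this
  linarith

lemma z_ne {z : ℂ} (hz : 0 < z.im) : z ≠ 0 := by
  intro h
  rw [h] at hz
  simp at hz

lemma f_im {z : ℂ} (hz : 0 < z.im) (n : ℕ) : (f z n).im ≤ 0 := by
  have key : ∀ w : ℂ, 0 < w.im → (1 / w).im ≤ 0 := by
    intro w hw
    rw [one_div, Complex.inv_im]
    have h1 : 0 ≤ Complex.normSq w := Complex.normSq_nonneg w
    apply div_nonpos_of_nonpos_of_nonneg
    · linarith
    · exact h1
  unfold f
  rw [Complex.add_im]
  have h1 := key (z - (n + 1)) (by simpa using hz)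
  have h2 := key (z + (n + 1)) (by simpa using hz)
  linarith

lemma rho_nonneg (T : ℝ) (n : ℕ) : 0 ≤ rho T n := by
  unfold rho
  positivity

lemma rho_le {T : ℝ} (hT : 1 ≤ T) (n : ℕ) : rho T n ≤ 1 := by
  unfold rho
  have h1 : 1 ≤ T ^ 2 := by nlinarith
  have h2 : 0 ≤ ((n : ℝ) + 1) ^ 2 := by positivity
  rw [div_le_one (by linarith)]
  linarith

lemma cot_at {T : ℝ} (hT : 1 ≤ T) :
    Complex.cot (Real.pi * ((T : ℂ) * I)) =
      -I * ((Real.cosh (Real.pi * T) / Real.sinh (Real.pi * T) : ℝ) : ℂ) := by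
  have h1 : (Real.pi : ℂ) * ((T : ℂ) * I) = ((Real.pi * T : ℝ) : ℂ) * I := by
    push_cast
    ring
  have hs : Real.sinh (Real.pi * T) ≠ 0 := by
    have : 0 < Real.sinh (Real.pi * T) := Real.sinh_pos_iff.mpr (by positivity)
    exact this.ne'
  have hs' : ((Real.sinh (Real.pi * T) : ℝ) : ℂ) ≠ 0 := by exact_mod_cast hs
  rw [h1, Complex.cot, Complex.cos_mul_I, Complex.sin_mul_I, ← Complex.ofReal_cosh,
    ← Complex.ofReal_sinh, Complex.ofReal_div]
  rw [div_eq_iff (mul_ne_zero hs' I_ne_zero)]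
  field_simp
  rw [Complex.I_sq]
  ring

lemma hasSum_rho {T : ℝ} (hT : 1 ≤ T) :
    HasSum (fun n => ((rho T n : ℝ) : ℂ)) ((Real.pi * kap T - 1 / T ^ 2 : ℝ) / 2 : ℂ) := by
  have hT0 : (T : ℂ) ≠ 0 := by
    have : T ≠ 0 := by linarith
    exact_mod_cast this
  have hz : 0 < ((T : ℂ) * I).im := by simp; linarith
  have h1 := hasSum_f hz
  have h2 := h1.mul_left (I / (2 * T))
  have e1 : (fun n => I / (2 * (T : ℂ)) * f ((T : ℂ) * I) n) =
      fun n => ((rho T n : ℝ) : ℂ) := by
    funext n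
    have a1 := sub_ne hz n
    have a2 := add_ne hz n
    unfold f rho
    have a3 : ((T : ℂ) ^ 2 + ((n : ℂ) + 1) ^ 2) ≠ 0 := by
      have hr : (T ^ 2 + ((n : ℝ) + 1) ^ 2 : ℝ) ≠ 0 := by positivity
      exact_mod_cast hr
    push_cast
    have a4 : ((T : ℂ) * I - (n + 1)) * ((T : ℂ) * I + (n + 1)) =
        -((T : ℂ) ^ 2 + ((n : ℂ) + 1) ^ 2) := by
      ring_nf
      rw [Complex.I_sq]
      ring
    rw [div_add_div _ _ a1 a2, a4]
    rw [div_mul_div_comm, div_eq_div_iff (by
      apply mul_ne_zero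
      · exact mul_ne_zero two_ne_zero hT0
      · exact neg_ne_zero.mpr a3) a3]
    ring_nf
    rw [Complex.I_sq]
    ring
  rw [e1] at h2
  have e2 : I / (2 * (T : ℂ)) * (Real.pi * Complex.cot (Real.pi * ((T : ℂ) * I)) -
      1 / ((T : ℂ) * I)) = ((Real.pi * kap T - 1 / T ^ 2 : ℝ) / 2 : ℂ) := by
    rw [cot_at hT]
    have hs : Real.sinh (Real.pi * T) ≠ 0 := by
      have : 0 < Real.sinh (Real.pi * T) := Real.sinh_pos_iff.mpr (by positivity)
      exact this.ne'
    have hs' : ((Real.sinh (Real.pi * T) : ℝ) : ℂ) ≠ 0 := by exact_mod_cast hs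
    unfold kap
    push_cast
    push_cast at hs'
    field_simp
    ring_nf
    simp only [Complex.I_sq]
    ring
  rw [e2] at h2
  exact h2

lemma main {T : ℝ} (hT : 1 ≤ T) {z : ℂ} (hz : 0 < z.im) (hne : z ^ 2 + (T : ℂ) ^ 2 ≠ 0) :
    HasSum (fun n => ((rho T n : ℝ) : ℂ) * f z n)
      ((Real.pi * (Complex.cot (Real.pi * z) + kap T * z)) / (z ^ 2 + T ^ 2) -
        1 / (T ^ 2 * z)) := by
  have hT0 : (T : ℂ) ≠ 0 := by
    have : T ≠ 0 := by linarith
    exact_mod_cast this
  have h0 := z_ne hz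
  have h1 := ((hasSum_f hz).add ((hasSum_rho hT).mul_left (2 * z))).mul_left
    (1 / (z ^ 2 + (T : ℂ) ^ 2))
  have e1 : (fun n => 1 / (z ^ 2 + (T : ℂ) ^ 2) *
      (f z n + 2 * z * ((rho T n : ℝ) : ℂ))) = fun n => ((rho T n : ℝ) : ℂ) * f z n := by
    funext n
    have a1 := sub_ne hz n
    have a2 := add_ne hz n
    have a3 : ((T : ℂ) ^ 2 + ((n : ℂ) + 1) ^ 2) ≠ 0 := by
      have hr : (T ^ 2 + ((n : ℝ) + 1) ^ 2 : ℝ) ≠ 0 := by positivity
      exact_mod_cast hr
    unfold f rho
    push_cast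
    field_simp
    ring
  rw [e1] at h1
  have e2 : 1 / (z ^ 2 + (T : ℂ) ^ 2) * (Real.pi * Complex.cot (Real.pi * z) - 1 / z +
      2 * z * ((Real.pi * kap T - 1 / T ^ 2 : ℝ) / 2 : ℂ)) =
      (Real.pi * (Complex.cot (Real.pi * z) + kap T * z)) / (z ^ 2 + T ^ 2) -
        1 / (T ^ 2 * z) := by
    push_cast
    field_simp
    ring
  rw [e2] at h1
  exact h1

end XHL

open XHL in
theorem XH_proof (hXG : S_XG) : S_XH := by
  intro T hT z hz
  obtain ⟨-, -, hG, -, -, -, -, hI⟩ := hXG T hT
  have hsin : Complex.sin (Real.pi * z) ≠ 0 := sin_pi_mul_ne_zero (mem_compl hz)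
  have hT0 : (T : ℂ) ≠ 0 := by
    have : T ≠ 0 := by linarith
    exact_mod_cast this
  by_cases hne : z ^ 2 + (T : ℂ) ^ 2 = 0
  · have hzT : z = (T : ℂ) * I := by
      have h1 : (z - T * I) * (z + T * I) = 0 := by
        have : (z - T * I) * (z + T * I) = z ^ 2 - T ^ 2 * I ^ 2 := by ring
        rw [this, Complex.I_sq]
        rw [← hne]
        ring
      rcases mul_eq_zero.mp h1 with h | h
      · exact sub_eq_zero.mp h
      · exfalso
        have := congrArg Complex.im h
        simp at this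
        linarith
    obtain ⟨r, hr0, hr1, hr2⟩ := hI T
    have hsp : 0 < Real.sinh (Real.pi * T) := Real.sinh_pos_iff.mpr (by positivity)
    have hs' : ((Real.sinh (Real.pi * T) : ℝ) : ℂ) ≠ 0 := by exact_mod_cast hsp.ne'
    have h1 : GG T z / Complex.sin (Real.pi * z) =
        ((-(r / Real.sinh (Real.pi * T)) : ℝ) : ℂ) * I := by
      rw [hzT, hr2]
      have h2 : (Real.pi : ℂ) * ((T : ℂ) * I) = ((Real.pi * T : ℝ) : ℂ) * I := by
        push_cast
        ring
      rw [h2, Complex.sin_mul_I, ← Complex.ofReal_sinh]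
      rw [div_eq_iff (mul_ne_zero hs' I_ne_zero)]
      rw [Complex.ofReal_neg, Complex.ofReal_div]
      field_simp
      rw [Complex.I_sq]
      ring
    have h3 : (GG T z / Complex.sin (Real.pi * z)).im = -(r / Real.sinh (Real.pi * T)) := by
      rw [h1, Complex.im_ofReal_mul, Complex.I_im, mul_one]
    have h4 : (Complex.cot (Real.pi * z)).im =
        -(Real.cosh (Real.pi * T) / Real.sinh (Real.pi * T)) := by
      rw [hzT, cot_at hT, neg_mul, Complex.neg_im, Complex.I_mul_im, Complex.ofReal_re]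
    rw [h3, h4]
    refine ⟨?_, ?_⟩
    · have : 0 ≤ r / Real.sinh (Real.pi * T) := by positivity
      linarith
    · have : r / Real.sinh (Real.pi * T) ≤
          Real.cosh (Real.pi * T) / Real.sinh (Real.pi * T) := by
        gcongr
      linarith
  · have hQ : GG T z / Complex.sin (Real.pi * z) =
        (Complex.cot (Real.pi * z) + kap T * z) / (z ^ 2 + T ^ 2) := by
      rw [div_eq_div_iff hsin hne, mul_comm (GG T z), hG z]
      have : Complex.cot (Real.pi * z) * Complex.sin (Real.pi * z) =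
          Complex.cos (Real.pi * z) := by
        rw [Complex.cot, div_mul_cancel₀ _ hsin]
      rw [add_mul, this]
    have hm := main hT hz hne
    have e : (Real.pi * (Complex.cot (Real.pi * z) + kap T * z)) / (z ^ 2 + (T : ℂ) ^ 2) =
        Real.pi * (GG T z / Complex.sin (Real.pi * z)) := by
      rw [hQ, mul_div_assoc]
    rw [e] at hm
    have hm' := Complex.hasSum_im hm
    have hf' := Complex.hasSum_im (hasSum_f hz)
    have him : ∀ n, (((rho T n : ℝ) : ℂ) * f z n).im = rho T n * (f z n).im := by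
      intro n
      rw [Complex.im_ofReal_mul]
    have h0im : (1 / z).im ≤ 0 := by
      rw [one_div, Complex.inv_im]
      apply div_nonpos_of_nonpos_of_nonneg
      · linarith
      · exact Complex.normSq_nonneg z
    have hTz : (1 / ((T : ℂ) ^ 2 * z)).im = (1 / T ^ 2) * (1 / z).im := by
      have : 1 / ((T : ℂ) ^ 2 * z) = ((1 / T ^ 2 : ℝ) : ℂ) * (1 / z) := by
        push_cast
        field_simp
      rw [this, Complex.im_ofReal_mul]
    have hpi : (Real.pi * (GG T z / Complex.sin (Real.pi * z))).im =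
        Real.pi * (GG T z / Complex.sin (Real.pi * z)).im := Complex.im_ofReal_mul _ _
    have hpi2 : ((Real.pi : ℂ) * Complex.cot (Real.pi * z)).im =
        Real.pi * (Complex.cot (Real.pi * z)).im := Complex.im_ofReal_mul _ _
    rw [Complex.sub_im, hpi, hTz] at hm'
    rw [Complex.sub_im, hpi2] at hf'
    have hT2 : 1 / T ^ 2 ≤ 1 := by
      rw [div_le_one (by positivity)]
      nlinarith
    have hT2' : 0 ≤ 1 / T ^ 2 := by positivity
    have hpos := Real.pi_pos
    constructor
    · have h1 : Real.pi * (GG T z / Complex.sin (Real.pi * z)).im -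
          1 / T ^ 2 * (1 / z).im ≤ 0 := by
        refine hasSum_le (f := fun n => (((rho T n : ℝ) : ℂ) * f z n).im) (g := fun _ => (0 : ℝ))
          ?_ hm' hasSum_zero
        intro n
        rw [him]
        exact mul_nonpos_of_nonneg_of_nonpos (rho_nonneg T n) (f_im hz n)
      have h2 : Real.pi * (GG T z / Complex.sin (Real.pi * z)).im ≤ 0 := by
        nlinarith
      nlinarith
    · have h1 : Real.pi * (Complex.cot (Real.pi * z)).im - (1 / z).im ≤
          Real.pi * (GG T z / Complex.sin (Real.pi * z)).im - 1 / T ^ 2 * (1 / z).im := by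
        refine hasSum_le ?_ hf' hm'
        intro n
        rw [him]
        have a1 := f_im hz n
        have a2 := rho_le hT n
        have a3 := rho_nonneg T n
        nlinarith
      have h2 : Real.pi * (Complex.cot (Real.pi * z)).im ≤
          Real.pi * (GG T z / Complex.sin (Real.pi * z)).im := by
        nlinarith
      exact le_of_mul_le_mul_left h2 hpos

end Pool.Agent.H356R3.LV
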