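import Pool.Agent.H356R3.LV.Defs2
set_option autoImplicit false
open MeasureTheory Set Filter Topology Complex InnerProductSpace
namespace Pool.Agent.H356R3.LV
namespace XM0L

theorem claim1 {γ c : ℝ} {f : ℝ → ℝ} (h0 : 0 < γ) (hc : 0 < c) (hf : Continuous f)
    (H1 : ∀ x, |f x + f (x + γ)| ≤ 2 * c) {x x' : ℝ}
    (hO : ∀ t ∈ Icc x x', c < |f t|) : x' - x ≤ γ := by
  by_contra hcon
  push Not at hcon
  have hx : x ∈ Icc x x' := ⟨le_refl _, by linarith⟩
  have hg : x + γ ∈ Icc x x' := ⟨by linarith, by linarith⟩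
  have a1 := hO x hx
  have a2 := hO _ hg
  have hne : ∀ t ∈ Icc x (x + γ), f t ≠ 0 := by
    intro t ht h
    have := hO t ⟨ht.1, ht.2.trans hg.2⟩
    rw [h, abs_zero] at this
    linarith
  have h1 := H1 x
  rcases lt_or_ge 0 (f x) with p1 | p1
  · rcases lt_or_ge 0 (f (x + γ)) with p2 | p2
    · rw [abs_of_pos p1] at a1
      rw [abs_of_pos p2] at a2
      rw [abs_of_pos (by linarith)] at h1
      linarith
    · obtain ⟨t, ht, ht'⟩ := intermediate_value_Icc' (by linarith) (hf.continuousOn (s := Icc x (x + γ)))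
        ⟨p2, p1.le⟩
      exact hne t ht ht'
  · rcases lt_or_ge 0 (f (x + γ)) with p2 | p2
    · obtain ⟨t, ht, ht'⟩ := intermediate_value_Icc (by linarith) (hf.continuousOn (s := Icc x (x + γ)))
        ⟨p1, p2.le⟩
      exact hne t ht ht'
    · rw [abs_of_nonpos p1] at a1
      rw [abs_of_nonpos p2] at a2
      rw [abs_of_nonpos (by linarith)] at h1
      linarith

theorem claim2a {γ c : ℝ} {f : ℝ → ℝ} (hf : Continuous f)
    (H2 : ∀ x d, 0 ≤ d → d ≤ 1 - γ → |f x - f (x + d)| ≤ 2 * c)
    (H3 : ∀ x, (∀ᶠ t in 𝓝 x, f x ≤ f t) → c < |f x|)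
    {x x' e : ℝ} (hx : c < f x) (hx' : c < f x') (he : |f e| ≤ c) (h1 : x < e) (h2 : e < x') :
    1 - γ < x' - x := by
  by_contra hcon
  push Not at hcon
  obtain ⟨m, hm, hmin⟩ := isCompact_Icc.exists_isMinOn (nonempty_Icc.2 (h1.trans h2).le)
    (hf.continuousOn (s := Icc x x'))
  have hme : f m ≤ f e := hmin ⟨h1.le, h2.le⟩
  have hec : f e ≤ c := (le_abs_self _).trans he
  have hmx : m ≠ x := by rintro rfl; linarith
  have hmx' : m ≠ x' := by rintro rfl; linarith
  have hm1 : x < m := lt_of_le_of_ne hm.1 (Ne.symm hmx)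
  have hm2 : m < x' := lt_of_le_of_ne hm.2 hmx'
  have hloc : ∀ᶠ t in 𝓝 m, f m ≤ f t := by
    filter_upwards [Ioo_mem_nhds hm1 hm2] with t ht
    exact hmin ⟨ht.1.le, ht.2.le⟩
  have h3 := H3 m hloc
  have h4 : f m < -c := by
    rcases lt_abs.1 h3 with h | h
    · linarith
    · linarith
  have h5 := H2 x (m - x) (by linarith) (by linarith)
  rw [show x + (m - x) = m by ring] at h5
  have h6 := (le_abs_self _).trans h5
  linarith

theorem claim2 {γ c : ℝ} {f : ℝ → ℝ} (hf : Continuous f)
    (H2 : ∀ x d, 0 ≤ d → d ≤ 1 - γ → |f x - f (x + d)| ≤ 2 * c)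
    (H3 : ∀ x, (∀ᶠ t in 𝓝 x, f x ≤ f t) → c < |f x|)
    (H4 : ∀ x, (∀ᶠ t in 𝓝 x, f t ≤ f x) → c < |f x|)
    {x x' e : ℝ} (hx : c < |f x|) (hx' : c < |f x'|) (he : |f e| ≤ c) (h1 : x < e) (h2 : e < x') :
    1 - γ < x' - x := by
  rcases lt_abs.1 hx with p | p
  · rcases lt_abs.1 hx' with q | q
    · exact claim2a hf H2 H3 p q he h1 h2
    · by_contra hcon
      push Not at hcon
      have h5 := H2 x (x' - x) (by linarith) hcon
      rw [show x + (x' - x) = x' by ring] at h5
      have h6 := (le_abs_self _).trans h5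
      linarith
  · rcases lt_abs.1 hx' with q | q
    · by_contra hcon
      push Not at hcon
      have h5 := H2 x (x' - x) (by linarith) hcon
      rw [show x + (x' - x) = x' by ring] at h5
      have h6 := (neg_abs_le _).trans' (neg_le_neg h5)
      linarith
    · refine claim2a (f := fun t => - f t) (c := c) hf.neg ?_ ?_ p q ?_ h1 h2
      · intro x d hd hd'
        have := H2 x d hd hd'
        rw [show -f x - -f (x + d) = -(f x - f (x + d)) by ring, abs_neg]
        exact this
      · intro x hx
        rw [abs_neg]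
        apply H4
        filter_upwards [hx] with t ht
        linarith
      · rw [abs_neg]; exact he

end XM0L

open XM0L in
theorem XM0_proof : S_XM0 := by
  intro γ c f h0 h1 hc hf H1 H2 H3 H4
  refine ⟨isClosed_le hf.abs continuous_const, ?_⟩
  intro a
  by_cases hcase : ∃ x x' e : ℝ, x ∈ Icc a (a + 1) ∧ x' ∈ Icc a (a + 1) ∧ c < |f x| ∧ c < |f x'| ∧
      |f e| ≤ c ∧ x < e ∧ e < x'
  · obtain ⟨x, x', e, hx, hx', hfx, hfx', hfe, hxe, hex'⟩ := hcase
    set A : Set ℝ := {t | t ∈ Icc x e ∧ c < |f t|} with hA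
    set B : Set ℝ := {t | t ∈ Icc e x' ∧ c < |f t|} with hB
    have hAne : A.Nonempty := ⟨x, ⟨le_refl _, hxe.le⟩, hfx⟩
    have hBne : B.Nonempty := ⟨x', ⟨hex'.le, le_refl _⟩, hfx'⟩
    have hAb : BddAbove A := ⟨e, fun t ht => ht.1.2⟩
    have hBb : BddBelow B := ⟨e, fun t ht => ht.1.1⟩
    have hA1 : x ≤ sSup A := le_csSup hAb ⟨⟨le_refl _, hxe.le⟩, hfx⟩
    have hA2 : sSup A ≤ e := csSup_le hAne (fun t ht => ht.1.2)
    have hB1 : sInf B ≤ x' := csInf_le hBb ⟨⟨hex'.le, le_refl _⟩, hfx'⟩
    have hB2 : e ≤ sInf B := le_csInf hBne (fun t ht => ht.1.1)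
    have hlen : 1 - γ ≤ sInf B - sSup A := by
      by_contra hcon
      push Not at hcon
      obtain ⟨t1, ht1, ht1'⟩ := exists_lt_of_lt_csSup hAne
        (show sSup A - ((1 - γ) - (sInf B - sSup A)) / 2 < sSup A by linarith)
      obtain ⟨t2, ht2, ht2'⟩ := exists_lt_of_csInf_lt hBne
        (show sInf B < sInf B + ((1 - γ) - (sInf B - sSup A)) / 2 by linarith)
      have k1 : t1 < e := by
        rcases ht1.1.2.lt_or_eq with h | h
        · exact h
        · exfalso
          have := ht1.2
          rw [h] at this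
          linarith
      have k2 : e < t2 := by
        rcases ht2.1.1.lt_or_eq with h | h
        · exact h
        · exfalso
          have := ht2.2
          rw [← h] at this
          linarith
      have := claim2 hf H2 H3 H4 ht1.2 ht2.2 hfe k1 k2
      linarith
    have hsub : Ioo (sSup A) (sInf B) ⊆ {x : ℝ | |f x| ≤ c} ∩ Icc a (a + 1) := by
      intro t ht
      refine ⟨?_, ?_, ?_⟩
      · change |f t| ≤ c
        by_contra hcon
        push Not at hcon
        rcases le_total t e with h | h
        · have : t ≤ sSup A := le_csSup hAb ⟨⟨hA1.trans ht.1.le, h⟩, hcon⟩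
          exact absurd ht.1 (not_lt.2 this)
        · have : sInf B ≤ t := csInf_le hBb ⟨⟨h, ht.2.le.trans hB1⟩, hcon⟩
          exact absurd ht.2 (not_lt.2 this)
      · exact hx.1.trans (hA1.trans ht.1.le)
      · exact ht.2.le.trans (hB1.trans hx'.2)
    calc ENNReal.ofReal (1 - γ) ≤ ENNReal.ofReal (sInf B - sSup A) :=
          ENNReal.ofReal_le_ofReal hlen
      _ = volume (Ioo (sSup A) (sInf B)) := (Real.volume_Ioo).symm
      _ ≤ _ := measure_mono hsub
  · push Not at hcase
    set O : Set ℝ := {t | t ∈ Icc a (a + 1) ∧ c < |f t|} with hO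
    have hvol : volume O ≤ ENNReal.ofReal γ := by
      rcases O.eq_empty_or_nonempty with he | hne
      · rw [he, measure_empty]; exact zero_le
      · have hba : BddAbove O := ⟨a + 1, fun t ht => ht.1.2⟩
        have hbb : BddBelow O := ⟨a, fun t ht => ht.1.1⟩
        have hlen : sSup O - sInf O ≤ γ := by
          have : sSup O ≤ γ + sInf O := by
            apply csSup_le hne
            intro x' hx'
            have : x' - γ ≤ sInf O := by
              apply le_csInf hne
              intro x hx
              rcases le_total x x' with h | h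
              · have := claim1 h0 hc hf H1 (x := x) (x' := x') (by
                  intro t ht
                  by_contra hcon
                  push Not at hcon
                  have hxt : x < t := by
                    rcases ht.1.lt_or_eq with h | h
                    · exact h
                    · exfalso; have := hx.2; rw [h] at this; linarith
                  have htx' : t < x' := by
                    rcases ht.2.lt_or_eq with h | h
                    · exact h
                    · exfalso; have := hx'.2; rw [← h] at this; linarith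
                  have := hcase x x' t hx.1 hx'.1 hx.2 hx'.2 hcon hxt
                  linarith)
                linarith
              · linarith
            linarith
          linarith
        calc volume O ≤ volume (Icc (sInf O) (sSup O)) :=
              measure_mono (fun t ht => ⟨csInf_le hbb ht, le_csSup hba ht⟩)
          _ = ENNReal.ofReal (sSup O - sInf O) := Real.volume_Icc
          _ ≤ _ := ENNReal.ofReal_le_ofReal hlen
    have hW : Icc a (a + 1) ⊆ ({x : ℝ | |f x| ≤ c} ∩ Icc a (a + 1)) ∪ O := by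
      intro t ht
      rcases le_or_gt (|f t|) c with h | h
      · exact Or.inl ⟨h, ht⟩
      · exact Or.inr ⟨ht, h⟩
    have hm : volume (Icc a (a + 1)) ≤ volume ({x : ℝ | |f x| ≤ c} ∩ Icc a (a + 1)) + volume O :=
      (measure_mono hW).trans (measure_union_le _ _)
    rw [Real.volume_Icc, show a + 1 - a = (1 - γ) + γ by ring,
      ENNReal.ofReal_add (by linarith) h0.le] at hm
    exact (ENNReal.add_le_add_iff_right ENNReal.ofReal_ne_top).1
      (hm.trans (add_le_add (le_refl _) hvol))

end Pool.Agent.H356R3.LV
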