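import Pool.Agent.H356R3.LV.Defs2
set_option autoImplicit false
open MeasureTheory Set Filter Topology Complex InnerProductSpace
namespace Pool.Agent.H356R3.LV

theorem XPL.kap_le (T : ℝ) (hT : 1 ≤ T) : 0 ≤ kap T ∧ kap T ≤ 2 / T := by
  have hpi := Real.pi_gt_three
  have hx : 3 ≤ Real.pi * T := by nlinarith
  obtain ⟨x, hxe⟩ : ∃ x, x = Real.pi * T := ⟨_, rfl⟩
  have hT0 : 0 < T := by linarith
  have hs : 0 < Real.sinh x := Real.sinh_pos_iff.mpr (by linarith)
  have hc : Real.cosh x ≤ 2 * Real.sinh x := by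
    rw [Real.cosh_eq, Real.sinh_eq]
    have h1 : x + 1 ≤ Real.exp x := Real.add_one_le_exp x
    have h2 : Real.exp (-x) ≤ 1 := Real.exp_le_one_iff.mpr (by linarith)
    linarith
  have hc0 : 0 < Real.cosh x := Real.cosh_pos x
  unfold kap
  rw [← hxe]
  constructor
  · positivity
  · rw [div_le_div_iff₀ (by positivity) hT0]
    nlinarith

theorem XP_proof : S_XP := by
  intro γ h0 h1
  have hpi := Real.pi_pos
  have hcos : 0 < Real.cos (Real.pi * γ / 2) := by
    apply Real.cos_pos_of_mem_Ioo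
    constructor <;> nlinarith
  have hs1 : Real.sin (Real.pi * γ / 2) ≤ 1 := Real.sin_le_one _
  have hs0 : 0 ≤ Real.sin (Real.pi * γ / 2) := by
    apply Real.sin_nonneg_of_nonneg_of_le_pi
    · positivity
    · nlinarith
  obtain ⟨c, hc⟩ : ∃ c, c = Real.cos (Real.pi * γ / 2) := ⟨_, rfl⟩
  rw [← hc] at hcos ⊢
  have hT2 : 2 ≤ max 2 (2 / c) := le_max_left _ _
  have hTc : 2 / c ≤ max 2 (2 / c) := le_max_right _ _
  obtain ⟨T, hT⟩ : ∃ T, T = max 2 (2 / c) := ⟨_, rfl⟩
  rw [← hT] at hT2 hTc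
  obtain ⟨hk0, hk⟩ := XPL.kap_le T (by linarith)
  have hT0 : 0 < T := by linarith
  refine ⟨T, by linarith, ?_, ?_⟩
  · refine hk.trans ?_
    rw [div_le_one hT0]
    exact hT2
  · have h2 : kap T ≤ c := by
      refine hk.trans ?_
      rw [div_le_iff₀ hT0]
      rw [div_le_iff₀ hcos] at hTc
      linarith
    have h3 : kap T * γ ≤ kap T := mul_le_of_le_one_right hk0 h1.le
    have h4 : kap T * γ * Real.sin (Real.pi * γ / 2) ≤ kap T * γ :=
      mul_le_of_le_one_right (mul_nonneg hk0 h0.le) hs1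
    linarith

end Pool.Agent.H356R3.LV
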