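import Pool.Agent.H356R3.LV.Defs2

/-! Task XR: all solutions of `F z = lam`, `|lam| ≤ c`, are real. -/

set_option autoImplicit false
open MeasureTheory Set Filter Topology Complex InnerProductSpace

namespace Pool.Agent.H356R3.LV

namespace XRL

lemma parts (p q : ℝ) : (Complex.sin ((p : ℂ) + q * I)).re = Real.sin p * Real.cosh q ∧
    (Complex.sin ((p : ℂ) + q * I)).im = Real.cos p * Real.sinh q ∧
    (Complex.cos ((p : ℂ) + q * I)).re = Real.cos p * Real.cosh q ∧
    (Complex.cos ((p : ℂ) + q * I)).im = - (Real.sin p * Real.sinh q) := by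
  rw [Complex.sin_add_mul_I, Complex.cos_add_mul_I, ← Complex.ofReal_sin, ← Complex.ofReal_cos,
    ← Complex.ofReal_cosh, ← Complex.ofReal_sinh]
  refine ⟨?_, ?_, ?_, ?_⟩ <;>
  simp only [Complex.add_re, Complex.sub_re, Complex.add_im, Complex.sub_im, Complex.mul_re,
    Complex.mul_im, Complex.ofReal_re, Complex.ofReal_im, Complex.I_re, Complex.I_im] <;> ring

lemma upper (hXH : S_XH) (ε T c : ℝ) (hc0 : 0 < c) (hT : 1 ≤ T)
    (hε : 0 < ε) (hεc : ε < 1 - c) (z : ℂ) (lam : ℝ) (hlam : |lam| ≤ c)
    (hF : FF ε T z = (lam : ℂ)) (hz : 0 < z.im) : False := by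
  obtain ⟨hG1, hG2⟩ := hXH T hT z hz
  set p : ℝ := Real.pi * z.re with hp
  set q : ℝ := Real.pi * z.im with hq
  have hq0 : 0 < q := mul_pos Real.pi_pos hz
  have hw : (Real.pi : ℂ) * z = (p : ℂ) + q * I := by
    rw [hp, hq]
    conv_lhs => rw [← Complex.re_add_im z]
    push_cast
    ring
  obtain ⟨h1, h2, h3, h4⟩ := parts p q
  rw [← hw] at h1 h2 h3 h4
  have hsh : 0 < Real.sinh q := Real.sinh_pos_iff.mpr hq0
  have hch : 0 < Real.cosh q := Real.cosh_pos q
  have hN : Complex.normSq (Complex.sin (Real.pi * z)) = Real.sin p ^ 2 + Real.sinh q ^ 2 := by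
    rw [Complex.normSq_apply, h1, h2]
    have e1 := Real.cosh_sq q
    have e2 := Real.sin_sq_add_cos_sq p
    have e3 : Real.sin p * Real.cosh q * (Real.sin p * Real.cosh q) +
        Real.cos p * Real.sinh q * (Real.cos p * Real.sinh q) =
        Real.sin p ^ 2 * Real.cosh q ^ 2 + Real.cos p ^ 2 * Real.sinh q ^ 2 := by ring
    rw [e3, e1]
    linear_combination Real.sinh q ^ 2 * e2
  have hNpos : 0 < Complex.normSq (Complex.sin (Real.pi * z)) := by
    rw [hN]
    positivity
  have hs0 : Complex.sin (Real.pi * z) ≠ 0 := Complex.normSq_pos.mp hNpos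
  set N : ℝ := Complex.normSq (Complex.sin (Real.pi * z)) with hNdef
  -- the cotangent
  have hcot : (Complex.cot (Real.pi * z)).im = - (Real.sinh q * Real.cosh q) / N := by
    rw [Complex.cot, Complex.div_im, h1, h2, h3, h4, ← hNdef]
    have e2 := Real.sin_sq_add_cos_sq p
    rw [← sub_div]
    congr 1
    linear_combination - (Real.sinh q * Real.cosh q) * e2
  have hquot : ((Complex.cos (Real.pi * z) - (lam : ℂ)) / Complex.sin (Real.pi * z)).im =
      - (Real.sinh q * (Real.cosh q - lam * Real.cos p)) / N := by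
    rw [Complex.div_im, Complex.sub_im, Complex.sub_re, h1, h2, h3, h4, ← hNdef,
      Complex.ofReal_im, Complex.ofReal_re]
    have e2 := Real.sin_sq_add_cos_sq p
    rw [← sub_div]
    congr 1
    linear_combination - (Real.sinh q * Real.cosh q) * e2
  have hzero : ((Complex.cos (Real.pi * z) - (lam : ℂ)) / Complex.sin (Real.pi * z)).im =
      ε * (GG T z / Complex.sin (Real.pi * z)).im := by
    have e1 : (Complex.cos (Real.pi * z) - (lam : ℂ)) / Complex.sin (Real.pi * z) =
        (ε : ℂ) * (GG T z / Complex.sin (Real.pi * z)) := by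
      rw [FF] at hF
      rw [← mul_div_assoc]
      congr 1
      linear_combination hF
    rw [e1, Complex.im_ofReal_mul]
  rw [hquot] at hzero
  rw [hcot] at hG2
  have h5 : ε * (- (Real.sinh q * Real.cosh q) / N) ≤
      - (Real.sinh q * (Real.cosh q - lam * Real.cos p)) / N := by
    rw [hzero]
    exact mul_le_mul_of_nonneg_left hG2 hε.le
  have h6 : ε * (- (Real.sinh q * Real.cosh q)) ≤
      - (Real.sinh q * (Real.cosh q - lam * Real.cos p)) := by
    rw [← mul_div_assoc, div_le_div_iff_of_pos_right hNpos] at h5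
    exact h5
  have h7 : Real.cosh q - lam * Real.cos p ≤ ε * Real.cosh q := by
    have : Real.sinh q * (Real.cosh q - lam * Real.cos p) ≤ Real.sinh q * (ε * Real.cosh q) := by
      linarith
    exact le_of_mul_le_mul_left this hsh
  have h8 : lam * Real.cos p ≤ c * Real.cosh q := by
    calc lam * Real.cos p ≤ |lam * Real.cos p| := le_abs_self _
      _ = |lam| * |Real.cos p| := abs_mul _ _
      _ ≤ c * 1 := mul_le_mul hlam (Real.abs_cos_le_one p) (abs_nonneg _) hc0.le
      _ ≤ c * Real.cosh q := mul_le_mul_of_nonneg_left (Real.one_le_cosh q) hc0.le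
  nlinarith

end XRL

theorem XR_proof (hXG : S_XG) (hXH : S_XH) : S_XR := by
  intro ε T c hc0 hc1 hT hε hεc z lam hlam hF
  rcases lt_trichotomy z.im 0 with h | h | h
  · exfalso
    refine XRL.upper hXH ε T c hc0 hT hε hεc ((starRingEnd ℂ) z) lam hlam ?_ (by
      rw [Complex.conj_im]
      linarith)
    have h1 : FF ε T ((starRingEnd ℂ) z) = (starRingEnd ℂ) (FF ε T z) := by
      unfold FF
      rw [(hXG T hT).2.1 z, map_sub, map_mul, Complex.conj_ofReal, ← Complex.cos_conj, map_mul,
        Complex.conj_ofReal]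
    rw [h1, hF, Complex.conj_ofReal]
  · exact h
  · exact (XRL.upper hXH ε T c hc0 hT hε hεc z lam hlam hF h).elim

end Pool.Agent.H356R3.LV
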