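import Pool.Agent.H356R3.LV.Defs2

set_option autoImplicit false
open MeasureTheory Set Filter Topology Complex InnerProductSpace
namespace Pool.Agent.H356R3.LV

namespace XSL

lemma gJ_real (t : ℝ) : gJ (t : ℂ) = ach (max |t| 1) := by
  unfold gJ
  have h1 : ‖(t : ℂ) - 1‖ = |t - 1| := by
    rw [show (t : ℂ) - 1 = ((t - 1 : ℝ) : ℂ) by push_cast; ring, Complex.norm_real, Real.norm_eq_abs]
  have h2 : ‖(t : ℂ) + 1‖ = |t + 1| := by
    rw [show (t : ℂ) + 1 = ((t + 1 : ℝ) : ℂ) by push_cast; ring, Complex.norm_real, Real.norm_eq_abs]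
  rw [h1, h2]
  congr 1
  rcases le_total t (-1) with h | h
  · rw [abs_of_nonpos (by linarith : t - 1 ≤ 0), abs_of_nonpos (by linarith : t + 1 ≤ 0),
      abs_of_nonpos (by linarith : t ≤ 0), max_eq_left (by linarith)]
    ring
  · rcases le_total t 1 with h' | h'
    · rw [abs_of_nonpos (by linarith : t - 1 ≤ 0), abs_of_nonneg (by linarith : 0 ≤ t + 1),
        max_eq_right (abs_le.mpr ⟨h, h'⟩)]
      ring
    · rw [abs_of_nonneg (by linarith : 0 ≤ t - 1), abs_of_nonneg (by linarith : 0 ≤ t + 1),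
        abs_of_nonneg (by linarith : 0 ≤ t), max_eq_left h']
      ring

lemma ach_lt {s t : ℝ} (hs : 1 ≤ s) (hst : s < t) : ach s < ach t := by
  unfold ach
  apply Real.log_lt_log
  · have := Real.sqrt_nonneg (s ^ 2 - 1)
    linarith
  · have : √(s ^ 2 - 1) ≤ √(t ^ 2 - 1) := Real.sqrt_le_sqrt (by nlinarith)
    linarith

lemma FF_real (hXG : S_XG) {ε T : ℝ} (hT : 1 ≤ T) (x : ℝ) : FF ε T (x : ℂ) = (Fr ε T x : ℂ) := by
  unfold FF Fr
  rw [(hXG T hT).2.2.2.1 x]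
  push_cast
  ring

lemma Fr_even {ε T : ℝ} (n : ℕ) : Fr ε T (2 * n) = 1 - ε / ((2 * n : ℝ) ^ 2 + T ^ 2) := by
  unfold Fr Gr
  have h1 : Real.cos (Real.pi * (2 * n)) = 1 := by
    rw [show Real.pi * (2 * n) = (n : ℝ) * (2 * Real.pi) by ring]
    exact Real.cos_nat_mul_two_pi n
  have h2 : Real.sin (Real.pi * (2 * n)) = 0 := by
    rw [show Real.pi * (2 * n) = ((2 * n : ℕ) : ℝ) * Real.pi by push_cast; ring]
    exact Real.sin_nat_mul_pi _
  rw [h1, h2]
  ring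

lemma tendsto_Fr (ε T : ℝ) : Tendsto (fun n : ℕ => Fr ε T (2 * n)) atTop (𝓝 1) := by
  have h1 : Tendsto (fun n : ℕ => ((2 * n : ℝ) ^ 2 + T ^ 2)) atTop atTop := by
    apply tendsto_atTop_add_const_right
    apply tendsto_pow_atTop (two_ne_zero) |>.comp
    exact tendsto_natCast_atTop_atTop.const_mul_atTop (by norm_num)
  have h2 : Tendsto (fun n : ℕ => 1 - ε / ((2 * n : ℝ) ^ 2 + T ^ 2)) atTop (𝓝 (1 - 0)) :=
    (tendsto_const_nhds).sub (Tendsto.div_atTop tendsto_const_nhds h1)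
  rw [sub_zero] at h2
  exact h2.congr (fun n => (Fr_even n).symm)

end XSL

open XSL in
theorem XS_proof (h1 : S_GJ1) (_h3 : S_GJ3) (hXG : S_XG) (hXC : S_XC) : S_XS := by
  intro ε T c hc hc1 hT hk hε hε2
  have hpi := Real.pi_pos
  refine ⟨fun x => ?_, fun η hη => ?_⟩
  · unfold UF
    apply mul_lt_mul_of_pos_left _ (by positivity)
    rw [FF_real hXG hT x]
    rw [show ((Fr ε T x : ℝ) : ℂ) / (c : ℂ) = ((Fr ε T x / c : ℝ) : ℂ) by push_cast; ring]
    rw [gJ_real, gJ_real]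
    apply ach_lt (le_max_right _ _)
    have hlt := (hXC ε T c hc hc1 hT hk hε hε2).2.1 x
    have h1c : 1 < 1 / c := by rw [lt_div_iff₀ hc]; linarith
    rw [abs_of_pos (by linarith : (0 : ℝ) < 1 / c), max_eq_left h1c.le]
    apply max_lt
    · rw [abs_div, abs_of_pos hc]
      exact div_lt_div_of_pos_right hlt hc
    · exact h1c
  · have hcont : Continuous gJ := h1.1
    have ht : Tendsto (fun n : ℕ => 1 / Real.pi * gJ ((Fr ε T (2 * n) / c : ℝ) : ℂ)) atTop
        (𝓝 (1 / Real.pi * gJ ((1 / c : ℝ) : ℂ))) := by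
      apply Tendsto.const_mul
      apply (hcont.tendsto _).comp
      apply (Complex.continuous_ofReal.tendsto _).comp
      exact (tendsto_Fr ε T).div_const c
    have hev := ht.eventually (lt_mem_nhds (by linarith :
      1 / Real.pi * gJ ((1 / c : ℝ) : ℂ) - η < 1 / Real.pi * gJ ((1 / c : ℝ) : ℂ)))
    obtain ⟨n, hn⟩ := hev.exists
    refine ⟨2 * n, ?_⟩
    unfold UF
    have h5 : (((2 * n : ℝ)) : ℂ) = ((2 * n : ℝ) : ℂ) := rfl
    rw [FF_real hXG hT (2 * n)]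
    rw [show ((Fr ε T (2 * n) : ℝ) : ℂ) / (c : ℂ) = ((Fr ε T (2 * n) / c : ℝ) : ℂ) by
      push_cast; ring]
    exact hn

end Pool.Agent.H356R3.LV
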