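import Pool.Agent.H356R3.LV.Defs2
set_option autoImplicit false
open MeasureTheory Set Filter Topology Complex InnerProductSpace
namespace Pool.Agent.H356R3.LV

theorem XT_proof (hXU : S_XU) (hXA : S_XA) (hXB : S_XB) (hXC : S_XC) (hXM : S_XM0) (hXP : S_XP)
    (hXS : S_XS) (hXG : S_XG) : S_XT := by
  intro δ hδ0 hδ1
  obtain ⟨T, hT1, hT2, hT3⟩ := hXP (1 - δ) (by linarith) (by linarith)
  set γ := 1 - δ with hγ
  have hγ0 : 0 < γ := by rw [hγ]; linarith
  have hγ1 : γ < 1 := by rw [hγ]; linarith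
  set c := Real.cos (Real.pi * γ / 2) with hc
  have hpi := Real.pi_pos
  have hc0 : 0 < c := by
    rw [hc]
    apply Real.cos_pos_of_mem_Ioo
    constructor
    · have : 0 < Real.pi * γ / 2 := by positivity
      linarith
    · have : Real.pi * γ < Real.pi * 1 := mul_lt_mul_of_pos_left hγ1 hpi
      linarith
  have hc1 : c < 1 := by
    rw [hc, ← Real.cos_zero]
    apply Real.cos_lt_cos_of_nonneg_of_le_pi le_rfl
    · have : Real.pi * γ < Real.pi * 1 := mul_lt_mul_of_pos_left hγ1 hpi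
      linarith
    · positivity
  set ε := min (c ^ 2 / 7) ((1 - c) / 2) with hε
  have hε0 : 0 < ε := lt_min (by positivity) (by linarith)
  have hε1 : ε ≤ c ^ 2 / 7 := min_le_left _ _
  have hε2 : ε ≤ (1 - c) / 2 := min_le_right _ _
  have hε3 : ε < 1 - c := by linarith
  obtain ⟨C1, C2, C3⟩ := hXC ε T c hc0 hc1 hT1 hT2 hε0 hε2
  have hder : ∀ x : ℝ, ∃ g : ℝ, HasDerivAt (Fr ε T) g x := by
    intro x
    obtain ⟨g, hg, -⟩ := (hXG T hT1).2.2.2.2.2.1 x
    have h1 : HasDerivAt (fun x : ℝ => Real.cos (Real.pi * x)) (-Real.sin (Real.pi * x) * (Real.pi * 1)) x :=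
      (Real.hasDerivAt_cos _).comp x ((hasDerivAt_id x).const_mul Real.pi)
    exact ⟨_, h1.sub (hg.const_mul ε)⟩
  have hrel := hXM γ c (Fr ε T) hγ0 hγ1 hc0 C1
    (hXA ε T γ hγ0 hγ1 hT1 hT2 hT3 hε0 hε1)
    (fun x d hd0 hd1 => hXB ε T γ d hγ0 hγ1 hT1 hT2 hε0 hε1 hd0 hd1 x)
    (fun x hx => by
      obtain ⟨g, hg⟩ := hder x
      have h0 : g = 0 := IsLocalMin.hasDerivAt_eq_zero (show IsLocalMin (Fr ε T) x from hx) hg
      rw [h0] at hg
      exact C3 x hg)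
    (fun x hx => by
      obtain ⟨g, hg⟩ := hder x
      have h0 : g = 0 := IsLocalMax.hasDerivAt_eq_zero (show IsLocalMax (Fr ε T) x from hx) hg
      rw [h0] at hg
      exact C3 x hg)
  have hδ : 1 - γ = δ := by rw [hγ]; ring
  rw [hδ] at hrel
  obtain ⟨S1, S2⟩ := hXS ε T c hc0 hc1 hT1 hT2 hε0 hε2
  have hU : Ut γ 0 = 1 / Real.pi * gJ ((1 / c : ℝ) : ℂ) := by
    unfold Ut
    rw [mul_zero, Complex.cos_zero, ← hc]
    congr 2
    push_cast
    rfl
  refine ⟨EF ε T c, UF ε T c, hrel, hXU ε T c hc0 hc1 hT1 hε0 hε3, ?_, ?_⟩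
  · intro x
    rw [hU]
    exact S1 x
  · intro η hη
    rw [hU]
    exact S2 η hη

end Pool.Agent.H356R3.LV
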