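import Pool.Agent.H356R3.LV.Defs2
import Pool.Agent.H356R3.LV.HC

/-! # XU: `UF` is the function of `EF` -/

set_option autoImplicit false
open MeasureTheory Set Filter Topology Complex InnerProductSpace

namespace Pool.Agent.H356R3.LV.XUL

lemma cosh_lower (t : ℝ) : Real.exp t / 2 ≤ Real.cosh t := by
  rw [Real.cosh_eq]
  have := Real.exp_pos (-t)
  linarith

lemma cosh_upper {t : ℝ} (ht : 0 ≤ t) : Real.cosh t ≤ Real.exp t := by
  rw [Real.cosh_eq]
  have : Real.exp (-t) ≤ Real.exp t := Real.exp_le_exp.mpr (by linarith)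
  linarith

lemma FF_real (hXG : S_XG) (ε T : ℝ) (hT : 1 ≤ T) (x : ℝ) : FF ε T x = (Fr ε T x : ℂ) := by
  obtain ⟨-, -, -, h, -⟩ := hXG T hT
  unfold FF Fr
  rw [h x]
  push_cast
  rfl

lemma FF_diff (hXG : S_XG) (ε T : ℝ) (hT : 1 ≤ T) : Differentiable ℂ (FF ε T) := by
  obtain ⟨h, -⟩ := hXG T hT
  unfold FF
  exact (Complex.differentiable_cos.comp ((differentiable_const _).mul differentiable_id)).sub
    ((differentiable_const _).mul h)

lemma FF_conj (hXG : S_XG) (ε T : ℝ) (hT : 1 ≤ T) (z : ℂ) :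
    FF ε T ((starRingEnd ℂ) z) = (starRingEnd ℂ) (FF ε T z) := by
  obtain ⟨-, h, -⟩ := hXG T hT
  unfold FF
  rw [h z, map_sub, map_mul, Complex.conj_ofReal, ← Complex.cos_conj, map_mul,
    Complex.conj_ofReal]

lemma seg (hXG : S_XG) (hXR : S_XR) {ε T c : ℝ} (hc : 0 < c) (hc1 : c < 1) (hT : 1 ≤ T)
    (hε : 0 < ε) (hε1 : ε < 1 - c) (z : ℂ) :
    ((FF ε T z / (c : ℂ)).im = 0 ∧ |(FF ε T z / (c : ℂ)).re| ≤ 1) ↔
    z ∈ (fun x : ℝ => (x : ℂ)) '' EF ε T c := by
  rw [Complex.div_ofReal_im, Complex.div_ofReal_re]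
  constructor
  · rintro ⟨ha, hb⟩
    have ha' : (FF ε T z).im = 0 := by
      rcases div_eq_zero_iff.mp ha with h | h
      · exact h
      · exact absurd h hc.ne'
    rw [abs_div, abs_of_pos hc, div_le_one hc] at hb
    have hF : FF ε T z = (((FF ε T z).re : ℝ) : ℂ) := by
      apply Complex.ext
      · simp
      · simp [ha']
    have hz := hXR ε T c hc hc1 hT hε hε1 z _ hb hF
    have hzr : z = ((z.re : ℝ) : ℂ) := by
      apply Complex.ext
      · simp
      · simp [hz]
    refine ⟨z.re, ?_, hzr.symm⟩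
    show |Fr ε T z.re| ≤ c
    rw [hzr, FF_real hXG ε T hT, Complex.ofReal_re] at hb
    exact hb
  · rintro ⟨x, hx, rfl⟩
    have hx' : |Fr ε T x| ≤ c := hx
    simp only
    rw [FF_real hXG ε T hT, Complex.ofReal_im, Complex.ofReal_re, zero_div]
    refine ⟨rfl, ?_⟩
    rw [abs_div, abs_of_pos hc, div_le_one hc]
    exact hx'

lemma norm_tendsto (h1 : S_GJ1) (hXG : S_XG) {ε T c : ℝ} (hc : 0 < c) (hc1 : c < 1) (hT : 1 ≤ T)
    (hε : 0 < ε) (hε1 : ε < 1 - c) :
    Tendsto (fun y : ℝ => UF ε T c (y * I) / y) atTop (𝓝 1) := by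
  obtain ⟨-, -, -, -, -, -, hlow, hup⟩ := h1
  have hpi := Real.pi_pos
  have key : ∀ y : ℝ, 0 < y →
      1 + (-(Real.log 2 / Real.pi)) * y⁻¹ ≤ UF ε T c (y * I) / y ∧
      UF ε T c (y * I) / y ≤
        1 + (Real.log (4 / c) / Real.pi) * y⁻¹ := by
    intro y hy
    obtain ⟨r, hr0, hr1, hr⟩ := (hXG T hT).2.2.2.2.2.2.2 y
    unfold UF
    have hch : 0 < Real.cosh (Real.pi * y) := Real.cosh_pos _
    set q : ℝ := (Real.cosh (Real.pi * y) - ε * r) / c with hqdef
    have harg : FF ε T (y * I) / (c : ℂ) = ((q : ℝ) : ℂ) := by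
      unfold FF
      have h5 : (Real.pi : ℂ) * (y * I) = ((Real.pi * y : ℝ) : ℂ) * I := by push_cast; ring
      rw [hr, h5, Complex.cos_mul_I, ← Complex.ofReal_cosh, hqdef]
      push_cast
      ring
    rw [harg]
    have hq1 : Real.cosh (Real.pi * y) ≤ q := by
      rw [hqdef, le_div_iff₀ hc]
      have : ε * r ≤ (1 - c) * Real.cosh (Real.pi * y) := by
        calc ε * r ≤ ε * Real.cosh (Real.pi * y) := mul_le_mul_of_nonneg_left hr1 hε.le
          _ ≤ (1 - c) * Real.cosh (Real.pi * y) := mul_le_mul_of_nonneg_right hε1.le hch.le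
      nlinarith
    have hq2 : q ≤ Real.cosh (Real.pi * y) / c := by
      rw [hqdef]
      apply div_le_div_of_nonneg_right _ hc.le
      have : 0 ≤ ε * r := mul_nonneg hε.le hr0
      linarith
    have hq : 0 < q := lt_of_lt_of_le hch hq1
    have hnorm : ‖((q : ℝ) : ℂ)‖ = q := by
      rw [Complex.norm_real, Real.norm_eq_abs, abs_of_pos hq]
    have hl := hlow ((q : ℝ) : ℂ) (by exact_mod_cast hq.ne')
    have hu := hup ((q : ℝ) : ℂ)
    rw [hnorm] at hl hu
    set G := gJ ((q : ℝ) : ℂ) with hG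
    have hE := Real.exp_pos (Real.pi * y)
    have h3 : Real.pi * y - Real.log 2 ≤ G := by
      refine le_trans ?_ hl
      have : Real.pi * y - Real.log 2 = Real.log (Real.exp (Real.pi * y) / 2) := by
        rw [Real.log_div hE.ne' (by norm_num), Real.log_exp]
      rw [this]
      apply Real.log_le_log (by positivity)
      exact (cosh_lower _).trans hq1
    have h4 : G ≤ Real.pi * y + Real.log (4 / c) := by
      refine le_trans hu ?_
      have : Real.pi * y + Real.log (4 / c) = Real.log (Real.exp (Real.pi * y) * (4 / c)) := by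
        rw [Real.log_mul hE.ne' (by positivity), Real.log_exp]
      rw [this]
      apply Real.log_le_log (by positivity)
      have hcu := cosh_upper (t := Real.pi * y) (by positivity)
      have hE1 : 1 ≤ Real.exp (Real.pi * y) := Real.one_le_exp (by positivity)
      have e1 : Real.cosh (Real.pi * y) / c ≤ Real.exp (Real.pi * y) / c :=
        div_le_div_of_nonneg_right hcu hc.le
      have e2 : 1 ≤ Real.exp (Real.pi * y) / c := by
        rw [le_div_iff₀ hc]; linarith
      calc 2 * (q + 1)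
          ≤ 2 * (Real.exp (Real.pi * y) / c + Real.exp (Real.pi * y) / c) := by linarith
        _ = Real.exp (Real.pi * y) * (4 / c) := by ring
    constructor
    · rw [le_div_iff₀ hy]
      have e3 : (1 + -(Real.log 2 / Real.pi) * y⁻¹) * y = 1 / Real.pi * (Real.pi * y - Real.log 2) := by
        field_simp
        ring
      rw [e3]
      exact mul_le_mul_of_nonneg_left h3 (by positivity)
    · rw [div_le_iff₀ hy]
      have e4 : (1 + Real.log (4 / c) / Real.pi * y⁻¹) * y =
          1 / Real.pi * (Real.pi * y + Real.log (4 / c)) := by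
        field_simp
      rw [e4]
      exact mul_le_mul_of_nonneg_left h4 (by positivity)
  have t1 : ∀ a : ℝ, Tendsto (fun y : ℝ => 1 + a * y⁻¹) atTop (𝓝 1) := by
    intro a
    have := (tendsto_inv_atTop_zero (𝕜 := ℝ)).const_mul a
    have h := this.const_add 1
    simpa using h
  refine tendsto_of_tendsto_of_tendsto_of_le_of_le' (t1 (-(Real.log 2 / Real.pi)))
    (t1 (Real.log (4 / c) / Real.pi)) ?_ ?_
  · filter_upwards [eventually_gt_atTop 0] with y hy
    exact (key y hy).1
  · filter_upwards [eventually_gt_atTop 0] with y hy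
    exact (key y hy).2

end Pool.Agent.H356R3.LV.XUL

namespace Pool.Agent.H356R3.LV

open XUL in
theorem XU_proof (h1 : S_GJ1) (h2 : S_GJ2) (hXG : S_XG) (hXR : S_XR) : S_XU := by
  intro ε T c hc hc1 hT hε hε1
  have hnt := norm_tendsto h1 hXG hc hc1 hT hε hε1
  obtain ⟨hcont, hnn, hzero, hconj, hneg, hcos, hlow, hup⟩ := h1
  have hd : Differentiable ℂ (fun z => FF ε T z / (c : ℂ)) := (FF_diff hXG ε T hT).div_const _
  refine ⟨?_, ?_, ?_, ?_, ?_, hnt⟩
  · exact (continuous_const.mul (hcont.comp hd.continuous))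
  · intro x hx
    have h := (seg hXG hXR hc hc1 hT hε hε1 (x : ℂ)).mpr ⟨x, hx, rfl⟩
    unfold UF
    rw [(hzero _).mpr h, mul_zero]
  · intro z hz
    have h : ¬ _ := fun h => hz ((seg hXG hXR hc hc1 hT hε hε1 z).mp h)
    have hne : gJ (FF ε T z / (c : ℂ)) ≠ 0 := fun h' => h ((hzero _).mp h')
    have hp := lt_of_le_of_ne (hnn _) hne.symm
    unfold UF
    have hpi := Real.pi_pos
    positivity
  · intro z hz
    have h : ¬ _ := fun h => hz ((seg hXG hXR hc hc1 hT hε hε1 z).mp h)
    have hh := HarmonicAt_comp (u := gJ) (f := fun z : ℂ => FF ε T z / (c : ℂ)) (h2 _ h)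
      (hd.analyticAt z)
    have := hh.const_smul (c := 1 / Real.pi)
    exact this
  · intro z
    unfold UF
    congr 1
    rw [← hconj]
    congr 1
    rw [map_div₀, Complex.conj_ofReal, FF_conj hXG ε T hT, Complex.conj_conj]

end Pool.Agent.H356R3.LV
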