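import Pool.Agent.H356R3.LV.Defs

set_option autoImplicit false
open MeasureTheory Set Filter Topology Complex InnerProductSpace

namespace Pool.Agent.H356R3.LV

namespace YDL

/-- differentiation under the integral sign over a bounded set -/
theorem param (v w : ℝ → ℝ → ℝ) (A K : Set ℝ) (hA : MeasurableSet A) (hK : IsCompact K)
    (hAK : A ⊆ K) (a b : ℝ)
    (hv : ContinuousOn (fun p : ℝ × ℝ => v p.1 p.2) (K ×ˢ Icc a b))
    (hw : ContinuousOn (fun p : ℝ × ℝ => w p.1 p.2) (K ×ˢ Icc a b))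
    (hd : ∀ x ∈ K, ∀ t ∈ Icc a b, HasDerivAt (fun t => v x t) (w x t) t) :
    ∀ t ∈ Ioo a b, HasDerivAt (fun t => ∫ x in A, v x t) (∫ x in A, w x t) t := by
  intro t ht
  have hcomp : IsCompact (K ×ˢ Icc a b) := hK.prod isCompact_Icc
  obtain ⟨C, hC⟩ := hcomp.exists_bound_of_continuousOn hw
  have hKm : MeasurableSet K := hK.measurableSet
  have hslice : ∀ (f : ℝ → ℝ → ℝ), ContinuousOn (fun p : ℝ × ℝ => f p.1 p.2) (K ×ˢ Icc a b) →
      ∀ s ∈ Icc a b, IntegrableOn (fun x => f x s) A := by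
    intro f hf s hs
    have h1 : ContinuousOn (fun x => f x s) K :=
      hf.comp (continuous_id.prodMk continuous_const).continuousOn (fun x hx => ⟨hx, hs⟩)
    exact (h1.integrableOn_compact hK).mono_set hAK
  have hμ : IsFiniteMeasure (volume.restrict A) := by
    constructor
    rw [Measure.restrict_apply_univ]
    exact lt_of_le_of_lt (measure_mono hAK) hK.measure_lt_top
  have htI : Ioo a b ∈ 𝓝 t := Ioo_mem_nhds ht.1 ht.2
  refine (hasDerivAt_integral_of_dominated_loc_of_deriv_le (F := fun t x => v x t)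
    (F' := fun t x => w x t) (bound := fun _ => C) (μ := volume.restrict A) htI ?_ ?_ ?_ ?_ ?_ ?_).2
  · filter_upwards [htI] with s hs
    exact (hslice v hv s (Ioo_subset_Icc_self hs)).aestronglyMeasurable
  · exact hslice v hv t (Ioo_subset_Icc_self ht)
  · exact (hslice w hw t (Ioo_subset_Icc_self ht)).aestronglyMeasurable
  · rw [ae_restrict_iff' hA]
    filter_upwards with x hx s hs
    exact hC (x, s) ⟨hAK hx, Ioo_subset_Icc_self hs⟩
  · exact integrable_const C
  · rw [ae_restrict_iff' hA]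
    filter_upwards with x hx s hs
    exact hd x (hAK hx) s (Ioo_subset_Icc_self hs)

theorem line_x (y x : ℝ) : HasDerivAt (fun x : ℝ => (x : ℂ) + y * I) 1 x := by
  have h : HasDerivAt (fun x : ℝ => (x : ℂ)) 1 x := Complex.ofRealCLM.hasDerivAt
  exact h.add_const _

theorem line_y (x y : ℝ) : HasDerivAt (fun t : ℝ => (x : ℂ) + t * I) I y := by
  have h : HasDerivAt (fun x : ℝ => (x : ℂ)) 1 y := Complex.ofRealCLM.hasDerivAt
  have h2 := (h.mul_const I).const_add (x : ℂ)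
  rwa [one_mul] at h2

/-- chain rule for the first derivative -/
theorem first {u : ℂ → ℝ} {z e : ℂ} {ℓ : ℝ → ℂ} {t : ℝ} (hz : ContDiffAt ℝ 2 u z) (hℓ : HasDerivAt ℓ e t)
    (hℓz : ℓ t = z) : HasDerivAt (fun t => u (ℓ t)) (fderiv ℝ u z e) t := by
  have h1 : HasFDerivAt u (fderiv ℝ u z) (ℓ t) := by
    rw [hℓz]
    exact (hz.differentiableAt (by norm_num)).hasFDerivAt
  exact h1.comp_hasDerivAt t hℓ

/-- chain rule for the second derivative -/
theorem second {u : ℂ → ℝ} {z e : ℂ} {ℓ : ℝ → ℂ} {t : ℝ} (hz : ContDiffAt ℝ 2 u z) (hℓ : HasDerivAt ℓ e t)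
    (hℓz : ℓ t = z) (v : ℂ) :
    HasDerivAt (fun t => fderiv ℝ u (ℓ t) v) (fderiv ℝ (fderiv ℝ u) z e v) t := by
  have h0 : ContDiffAt ℝ 1 (fderiv ℝ u) z := hz.fderiv_right (by norm_num)
  have h1 : HasFDerivAt (fderiv ℝ u) (fderiv ℝ (fderiv ℝ u) z) (ℓ t) := by
    rw [hℓz]
    exact (h0.differentiableAt (by norm_num)).hasFDerivAt
  have h2 := h1.comp_hasDerivAt t hℓ
  exact (ContinuousLinearMap.apply ℝ ℝ v).hasFDerivAt.comp_hasDerivAt t h2

theorem cont1 {u : ℂ → ℝ} {z : ℂ} (hz : ContDiffAt ℝ 2 u z) (v : ℂ) :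
    ContinuousAt (fun z => fderiv ℝ u z v) z := by
  have h0 : ContDiffAt ℝ 1 (fderiv ℝ u) z := hz.fderiv_right (by norm_num)
  exact h0.continuousAt.clm_apply continuousAt_const

theorem cont2 {u : ℂ → ℝ} {z : ℂ} (hz : ContDiffAt ℝ 2 u z) (v w : ℂ) :
    ContinuousAt (fun z => fderiv ℝ (fderiv ℝ u) z v w) z := by
  have h0 : ContDiffAt ℝ 0 (fderiv ℝ (fderiv ℝ u)) z :=
    (hz.fderiv_right (m := 1) (by norm_num)).fderiv_right (m := 0) (by norm_num)
  exact (h0.continuousAt.clm_apply continuousAt_const).clm_apply continuousAt_const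

theorem lap {u : ℂ → ℝ} {z : ℂ} (hz : HarmonicAt u z) :
    fderiv ℝ (fderiv ℝ u) z I I = -(fderiv ℝ (fderiv ℝ u) z 1 1) := by
  have h1 := hz.2.eq_of_nhds
  rw [laplacian_eq_iteratedFDeriv_complexPlane] at h1
  simp only [iteratedFDeriv_two_apply] at h1
  have h2 : fderiv ℝ (fderiv ℝ u) z 1 1 + fderiv ℝ (fderiv ℝ u) z I I = 0 := by
    simpa using h1
  linarith

theorem comp2 {g : ℂ → ℝ} {x t : ℝ} (hg : ContinuousAt g ((x : ℂ) + t * I)) :
    ContinuousAt (fun p : ℝ × ℝ => g ((p.1 : ℂ) + p.2 * I)) (x, t) := by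
  have hmap : Continuous (fun p : ℝ × ℝ => (p.1 : ℂ) + p.2 * I) := by fun_prop
  exact ContinuousAt.comp (f := fun p : ℝ × ℝ => (p.1 : ℂ) + p.2 * I) (x := (x, t))
    hg hmap.continuousAt

theorem comp1 {g : ℂ → ℝ} {x t : ℝ} (hg : ContinuousAt g ((x : ℂ) + t * I)) :
    ContinuousAt (fun x : ℝ => g ((x : ℂ) + t * I)) x := by
  have hmap : Continuous (fun x : ℝ => (x : ℂ) + t * I) := by fun_prop
  exact ContinuousAt.comp (f := fun x : ℝ => (x : ℂ) + t * I) (x := x) hg hmap.continuousAt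

end YDL

open YDL in
theorem YD_proof : S_YD := by
  intro u y A K hA hK hAK hharm
  set O : Set ℂ := {z | HarmonicAt u z} with hO
  have hOo : IsOpen O := isOpen_setOfPred_harmonicAt u
  have hmap : Continuous (fun p : ℝ × ℝ => (p.1 : ℂ) + p.2 * I) := by fun_prop
  -- tube lemma
  obtain ⟨U, V, hU, hV, hKU, hyV, hUV⟩ := generalized_tube_lemma hK
    (isCompact_singleton (x := y)) (hOo.preimage hmap) (by
      rintro ⟨x, t⟩ ⟨hx, ht⟩
      rw [mem_singleton_iff] at ht
      simp only at ht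
      subst ht
      exact hharm x hx)
  obtain ⟨η, hη, hball⟩ := Metric.isOpen_iff.mp hV y (hyV rfl)
  have hηV : ∀ t ∈ Icc (y - η / 2) (y + η / 2), t ∈ V := by
    intro t ht
    apply hball
    rw [Metric.mem_ball, Real.dist_eq, abs_lt]
    constructor <;> linarith [ht.1, ht.2]
  have hKO : ∀ x ∈ K, ∀ t ∈ Icc (y - η / 2) (y + η / 2), HarmonicAt u (x + t * I) := by
    intro x hx t ht
    exact hUV (show (x, t) ∈ U ×ˢ V from ⟨hKU hx, hηV t ht⟩)
  have hy0 : y ∈ Ioo (y - η / 2) (y + η / 2) := ⟨by linarith, by linarith⟩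
  -- second derivative in x
  have hxx : ∀ x ∈ K, deriv (deriv (gl u y)) x = fderiv ℝ (fderiv ℝ u) (x + y * I) 1 1 := by
    intro x hx
    have hev : ∀ᶠ x' : ℝ in 𝓝 x, HarmonicAt u ((x' : ℂ) + y * I) := by
      have hc : Continuous (fun x' : ℝ => (x' : ℂ) + y * I) := by fun_prop
      exact hc.continuousAt.eventually (hOo.mem_nhds (hharm x hx))
    have h1 : deriv (gl u y) =ᶠ[𝓝 x] fun x' => fderiv ℝ u ((x' : ℂ) + y * I) 1 := by
      filter_upwards [hev] with x' hx'
      exact (first hx'.1 (line_x y x') rfl).deriv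
    rw [h1.deriv_eq]
    exact (second (hharm x hx).1 (line_x y x) rfl 1).deriv
  have hxxc : ContinuousOn (fun x : ℝ => fderiv ℝ (fderiv ℝ u) ((x : ℂ) + y * I) 1 1) K := by
    intro x hx
    exact (comp1 (cont2 (hharm x hx).1 1 1)).continuousWithinAt
  refine ⟨?_, fun t => ∫ x in A, fderiv ℝ u (x + t * I) I, ?_, ?_⟩
  · have h1 : IntegrableOn (fun x : ℝ => fderiv ℝ (fderiv ℝ u) ((x : ℂ) + y * I) 1 1) A :=
      (hxxc.integrableOn_compact hK).mono_set hAK
    exact h1.congr_fun (fun x hx => (hxx x (hAK hx)).symm) hA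
  · filter_upwards [Ioo_mem_nhds hy0.1 hy0.2] with t ht
    refine param (fun x t => u (x + t * I)) (fun x t => fderiv ℝ u (x + t * I) I) A K hA hK hAK
      (y - η / 2) (y + η / 2) ?_ ?_ ?_ t ht
    · rintro ⟨x, t⟩ ⟨hx, ht⟩
      exact (comp2 (hKO x hx t ht).1.continuousAt).continuousWithinAt
    · rintro ⟨x, t⟩ ⟨hx, ht⟩
      exact (comp2 (cont1 (hKO x hx t ht).1 I)).continuousWithinAt
    · intro x hx t ht
      exact first (hKO x hx t ht).1 (line_y x t) rfl
  · have h1 := param (fun x t => fderiv ℝ u (x + t * I) I)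
      (fun x t => fderiv ℝ (fderiv ℝ u) (x + t * I) I I) A K hA hK hAK
      (y - η / 2) (y + η / 2) ?_ ?_ ?_ y hy0
    · have h2 : ∫ x in A, fderiv ℝ (fderiv ℝ u) (x + y * I) I I =
          -∫ x in A, deriv (deriv (gl u y)) x := by
        rw [← integral_neg]
        apply setIntegral_congr_fun hA
        intro x hx
        simp only
        rw [hxx x (hAK hx), lap (hharm x (hAK hx))]
      rw [← h2]
      exact h1
    · rintro ⟨x, t⟩ ⟨hx, ht⟩
      exact (comp2 (cont1 (hKO x hx t ht).1 I)).continuousWithinAt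
    · rintro ⟨x, t⟩ ⟨hx, ht⟩
      exact (comp2 (cont2 (hKO x hx t ht).1 I I)).continuousWithinAt
    · intro x hx t ht
      exact second (hKO x hx t ht).1 (line_y x t) rfl I

end Pool.Agent.H356R3.LV
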